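import Pool.Agent.Helper83.OZ.Geo

/-!
Project OZ (MP_7e0861_pr), parts L3 and L5, block CUT1: the decomposition of a connected graph at a cone point.

Proof in words. An edge of `γ` has its ends in neighbouring or equal columns, so (as all vertices are in
`(m - Y) ∪ (m + Y)` and only `m` itself is in the column of `m`) both ends are in `m - Y` or both are in
`m + Y`. For the connectedness of `low m γ`: the map `φ z = z` if `Y (m - z)`, `φ z = m` otherwise, maps
adjacent vertices of `γ` to adjacent or equal vertices of `low m γ`; so a path in `γ` is mapped to a path.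
-/

namespace Pool.Helper83.OZ

open Pool.Helper49.FK Pool.Helper17.OZ

/-- Two cone points in the same column are equal. -/
theorem cp_col {V : Finset (ℤ × ℤ)} {s t : ℤ × ℤ} (hs : CP V s) (ht : CP V t) (h : s.1 = t.1) : s = t := by
  rcases ht.2 s hs.1 with h1 | h1
  · by_contra hne
    exact absurd (Y_lt h1 (Ne.symm hne)) (by omega)
  · by_contra hne
    exact absurd (Y_lt h1 hne) (by omega)

/-- A later cone point is in the forward cone. -/
theorem cp_Y {V : Finset (ℤ × ℤ)} {s t : ℤ × ℤ} (hs : CP V s) (ht : CP V t) (h : s.1 ≤ t.1) : Y (t - s) := by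
  rcases hs.2 t ht.1 with h1 | h1
  · exact h1
  · have := Y_le h1
    rw [cp_col hs ht (by omega)]
    exact Y_self t

/-- The ends of an edge are in neighbouring or equal columns. -/
theorem tip_col (e : Edge) : (tip e).1 = e.1.1 ∨ (tip e).1 = e.1.1 + 1 := by
  unfold tip
  split_ifs
  · right; rfl
  · left; rfl

private theorem edge_mem {γ : Gr} (h : IsClu γ.1 γ.2) {e : Edge} (he : e ∈ γ.2) : e.1 ∈ γ.1 ∧ tip e ∈ γ.1 := by
  have h1 := h.1 he
  unfold edges at h1
  rw [Finset.mem_filter, Finset.mem_product] at h1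
  exact ⟨h1.1.1, h1.2⟩

private theorem Y_col {x y : ℤ × ℤ} (h : Y (y - x)) (h1 : x.1 = y.1) : x = y := by
  by_contra hne
  have := Y_lt h hne
  omega

/-- At a cone point every edge is on one side. -/
theorem edge_side {γ : Gr} {m : ℤ × ℤ} (h : IsClu γ.1 γ.2) (hm : CP γ.1 m) {e : Edge} (he : e ∈ γ.2) :
    (Y (m - e.1) ∧ Y (m - tip e)) ∨ (Y (e.1 - m) ∧ Y (tip e - m)) := by
  obtain ⟨hu, hv⟩ := edge_mem h he
  have hc := tip_col e
  rcases hm.2 _ hu with h1 | h1
  · rcases hm.2 _ hv with h2 | h2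
    · exact Or.inr ⟨h1, h2⟩
    · have h3 := Y_le h1
      have h4 := Y_le h2
      have h5 : m = e.1 := Y_col h1 (by omega)
      refine Or.inl ⟨?_, h2⟩
      rw [h5]
      exact Y_self _
  · rcases hm.2 _ hv with h2 | h2
    · have h3 := Y_le h1
      have h4 := Y_le h2
      by_cases h5 : e.1.1 = m.1
      · have h6 : e.1 = m := Y_col h1 h5
        refine Or.inr ⟨?_, h2⟩
        rw [h6]
        exact Y_self _
      · have h6 : m = tip e := Y_col h2 (by omega)
        refine Or.inl ⟨h1, ?_⟩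
        rw [← h6]
        exact Y_self _
    · exact Or.inl ⟨h1, h2⟩

open Classical in
private theorem mem_low {γ : Gr} {m : ℤ × ℤ} : (∀ y, y ∈ (low m γ).1 ↔ y ∈ γ.1 ∧ Y (m - y)) ∧
    ∀ e, e ∈ (low m γ).2 ↔ e ∈ γ.2 ∧ Y (m - e.1) ∧ Y (m - tip e) := by
  unfold low
  exact ⟨fun y => Finset.mem_filter, fun e => Finset.mem_filter⟩

open Classical in
private theorem mem_upp {γ : Gr} {m : ℤ × ℤ} : (∀ y, y ∈ (upp m γ).1 ↔ y ∈ γ.1 ∧ Y (y - m)) ∧
    ∀ e, e ∈ (upp m γ).2 ↔ e ∈ γ.2 ∧ Y (e.1 - m) ∧ Y (tip e - m) := by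
  unfold upp
  exact ⟨fun y => Finset.mem_filter, fun e => Finset.mem_filter⟩

theorem join_low_upp {γ : Gr} {m : ℤ × ℤ} (h : IsClu γ.1 γ.2) (hm : CP γ.1 m) :
    join (low m γ) (upp m γ) = γ := by
  unfold join
  refine Prod.ext ?_ ?_
  · ext y
    show y ∈ (low m γ).1 ∪ (upp m γ).1 ↔ y ∈ γ.1
    rw [Finset.mem_union, mem_low.1, mem_upp.1]
    constructor
    · rintro (h1 | h1)
      · exact h1.1
      · exact h1.1
    · intro hy
      rcases hm.2 y hy with h1 | h1
      · exact Or.inr ⟨hy, h1⟩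
      · exact Or.inl ⟨hy, h1⟩
  · ext e
    show e ∈ (low m γ).2 ∪ (upp m γ).2 ↔ e ∈ γ.2
    rw [Finset.mem_union, mem_low.2, mem_upp.2]
    constructor
    · rintro (h1 | h1)
      · exact h1.1
      · exact h1.1
    · intro he
      rcases edge_side h hm he with h1 | h1
      · exact Or.inl ⟨he, h1⟩
      · exact Or.inr ⟨he, h1⟩

/-- A map which sends adjacent vertices to connected ones preserves connections. -/
private theorem conn_map {C C' : Finset Edge} (f : ℤ × ℤ → ℤ × ℤ)
    (hf : ∀ e ∈ C, Conn C' (f e.1) (f (tip e))) {x y : ℤ × ℤ} (h : Conn C x y) : Conn C' (f x) (f y) := by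
  unfold Conn at *
  obtain ⟨w⟩ := h
  induction w with
  | nil => exact SimpleGraph.Reachable.refl _
  | cons hadj _ ih =>
    refine SimpleGraph.Reachable.trans ?_ ih
    obtain ⟨e, he, h1 | h1⟩ := hadj
    · rw [← h1.1, ← h1.2]
      exact hf e he
    · rw [← h1.1, ← h1.2]
      exact (hf e he).symm

open Classical in
theorem low_spec {γ : Gr} {m : ℤ × ℤ} (h : IsClu γ.1 γ.2) (hm : CP γ.1 m) :
    IsClu (low m γ).1 (low m γ).2 ∧ m ∈ (low m γ).1 ∧ Bw (low m γ) m := by
  refine ⟨⟨?_, ?_⟩, ?_, ?_⟩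
  · intro e he
    have h1 := (mem_low.2 e).1 he
    obtain ⟨hu, hv⟩ := edge_mem h h1.1
    unfold edges
    rw [Finset.mem_filter, Finset.mem_product]
    exact ⟨⟨(mem_low.1 _).2 ⟨hu, h1.2.1⟩, Finset.mem_univ _⟩, (mem_low.1 _).2 ⟨hv, h1.2.2⟩⟩
  · intro x hx y hy
    have hx' := (mem_low.1 x).1 hx
    have hy' := (mem_low.1 y).1 hy
    have h1 := h.2 x hx'.1 y hy'.1
    have h2 := conn_map (C' := (low m γ).2) (fun z => if Y (m - z) then z else m) ?_ h1
    · simp only [if_pos hx'.2, if_pos hy'.2] at h2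
      exact h2
    · intro e he
      rcases edge_side h hm he with h3 | h3
      · simp only [if_pos h3.1, if_pos h3.2]
        exact SimpleGraph.Adj.reachable ⟨e, (mem_low.2 e).2 ⟨he, h3⟩, Or.inl ⟨rfl, rfl⟩⟩
      · have h4 : ∀ z, Y (z - m) → (if Y (m - z) then z else m) = m := by
          intro z hz
          split_ifs with h5
          · exact Y_antisymm h5 hz
          · rfl
        simp only [h4 _ h3.1, h4 _ h3.2]
        exact SimpleGraph.Reachable.refl _
  · exact (mem_low.1 m).2 ⟨hm.1, Y_self m⟩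
  · intro y hy
    exact ((mem_low.1 y).1 hy).2

open Classical in
theorem upp_spec {γ : Gr} {m : ℤ × ℤ} (h : IsClu γ.1 γ.2) (hm : CP γ.1 m) :
    IsClu (upp m γ).1 (upp m γ).2 ∧ m ∈ (upp m γ).1 ∧ Fw (upp m γ) m := by
  refine ⟨⟨?_, ?_⟩, ?_, ?_⟩
  · intro e he
    have h1 := (mem_upp.2 e).1 he
    obtain ⟨hu, hv⟩ := edge_mem h h1.1
    unfold edges
    rw [Finset.mem_filter, Finset.mem_product]
    exact ⟨⟨(mem_upp.1 _).2 ⟨hu, h1.2.1⟩, Finset.mem_univ _⟩, (mem_upp.1 _).2 ⟨hv, h1.2.2⟩⟩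
  · intro x hx y hy
    have hx' := (mem_upp.1 x).1 hx
    have hy' := (mem_upp.1 y).1 hy
    have h1 := h.2 x hx'.1 y hy'.1
    have h2 := conn_map (C' := (upp m γ).2) (fun z => if Y (z - m) then z else m) ?_ h1
    · simp only [if_pos hx'.2, if_pos hy'.2] at h2
      exact h2
    · intro e he
      rcases edge_side h hm he with h3 | h3
      · have h4 : ∀ z, Y (m - z) → (if Y (z - m) then z else m) = m := by
          intro z hz
          split_ifs with h5
          · exact Y_antisymm hz h5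
          · rfl
        simp only [h4 _ h3.1, h4 _ h3.2]
        exact SimpleGraph.Reachable.refl _
      · simp only [if_pos h3.1, if_pos h3.2]
        exact SimpleGraph.Adj.reachable ⟨e, (mem_upp.2 e).2 ⟨he, h3⟩, Or.inl ⟨rfl, rfl⟩⟩
  · exact (mem_upp.1 m).2 ⟨hm.1, Y_self m⟩
  · intro y hy
    exact ((mem_upp.1 y).1 hy).2

end Pool.Helper83.OZ
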