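import Pool.Agent.Helper83.OZ.Cut2

/-!
Project OZ (MP_7e0861_pr), parts L3 and L5, block CUT3: the cone points of a joined graph.

If `s` is a cone point of `γ` with `s.1 ≤ m.1` then `m` is in the forward cone of `s` (`m` is a vertex of `γ`;
if `Y (s - m)` then `s = m`), so all of `δ` is. Conversely a cone point `s` of the joined graph with
`s.1 < m.1` is a vertex of `γ` (the vertices of `δ` are in columns `≥ m.1`). Same on the right.
-/

namespace Pool.Helper83.OZ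

open Pool.Helper49.FK Pool.Helper17.OZ

variable {γ δ : Gr} {m s : ℤ × ℤ}

private theorem tip_ne2 (e : Edge) : tip e ≠ e.1 := by
  intro h
  unfold tip at h
  split_ifs at h
  · have := congrArg Prod.fst h
    simp at this
  · have := congrArg Prod.snd h
    simp at this

private theorem mem_edges2 {V : Finset (ℤ × ℤ)} {e : Edge} : e ∈ edges V ↔ e.1 ∈ V ∧ tip e ∈ V := by
  unfold edges
  rw [Finset.mem_filter, Finset.mem_product]
  constructor
  · exact fun h => ⟨h.1.1, h.2⟩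
  · exact fun h => ⟨⟨h.1, Finset.mem_univ _⟩, h.2⟩

private theorem col_eq2 {x y : ℤ × ℤ} (h : Y (y - x)) (h1 : y.1 ≤ x.1) : x = y := by
  by_contra hne
  exact absurd (Y_lt h hne) (by omega)

theorem Jn.cp_left (h : Jn γ δ m) (hs : s.1 ≤ m.1) : CP (join γ δ).1 s ↔ CP γ.1 s := by
  constructor
  · rintro ⟨h1, h2⟩
    refine ⟨?_, fun y hy => h2 y (Finset.mem_union_left _ hy)⟩
    rcases Finset.mem_union.1 h1 with h1 | h1
    · exact h1
    · rw [← col_eq2 (h.fw s h1) hs]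
      exact h.ml
  · rintro ⟨h1, h2⟩
    refine ⟨Finset.mem_union_left _ h1, fun y hy => ?_⟩
    rcases Finset.mem_union.1 hy with hy | hy
    · exact h2 y hy
    · exact Or.inl (Y_trans (h.bw s h1) (h.fw y hy))

theorem Jn.cp_right (h : Jn γ δ m) (hs : m.1 ≤ s.1) : CP (join γ δ).1 s ↔ CP δ.1 s := by
  constructor
  · rintro ⟨h1, h2⟩
    refine ⟨?_, fun y hy => h2 y (Finset.mem_union_right _ hy)⟩
    rcases Finset.mem_union.1 h1 with h1 | h1
    · rw [col_eq2 (h.bw s h1) hs]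
      exact h.mr
    · exact h1
  · rintro ⟨h1, h2⟩
    refine ⟨Finset.mem_union_right _ h1, fun y hy => ?_⟩
    rcases Finset.mem_union.1 hy with hy | hy
    · exact Or.inr (Y_trans (h.bw y hy) (h.fw s h1))
    · exact h2 y hy

set_option linter.unusedVariables false in
theorem Jn.low_left (h : Jn γ δ m) (hs : s.1 ≤ m.1) (hc : CP γ.1 s) :
    OZ.low s (join γ δ) = OZ.low s γ ∧ OZ.upp s (join γ δ) = join (OZ.upp s γ) δ := by
  have hsm : Y (m - s) := h.bw s hc.1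
  have hd : ∀ y ∈ δ.1, Y (y - s) := fun y hy => Y_trans hsm (h.fw y hy)
  have hd' : ∀ y ∈ δ.1, Y (s - y) → y = s := fun y hy h1 => (Y_antisymm (hd y hy) h1).symm
  constructor
  · refine Prod.ext ?_ ?_
    · ext y
      simp only [OZ.low, join, Finset.mem_filter, Finset.mem_union]
      constructor
      · rintro ⟨h1 | h1, h2⟩
        · exact ⟨h1, h2⟩
        · refine ⟨?_, h2⟩
          rw [hd' y h1 h2]
          exact hc.1
      · exact fun h1 => ⟨Or.inl h1.1, h1.2⟩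
    · ext e
      simp only [OZ.low, join, Finset.mem_filter, Finset.mem_union]
      constructor
      · rintro ⟨h1 | h1, h2, h3⟩
        · exact ⟨h1, h2, h3⟩
        · exfalso
          have h4 := mem_edges2.1 (h.cr.1 h1)
          exact tip_ne2 e ((hd' _ h4.2 h3).trans (hd' _ h4.1 h2).symm)
      · exact fun h1 => ⟨Or.inl h1.1, h1.2⟩
  · refine Prod.ext ?_ ?_
    · ext y
      simp only [OZ.upp, join, Finset.mem_filter, Finset.mem_union]
      constructor
      · rintro ⟨h1 | h1, h2⟩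
        · exact Or.inl ⟨h1, h2⟩
        · exact Or.inr h1
      · rintro (h1 | h1)
        · exact ⟨Or.inl h1.1, h1.2⟩
        · exact ⟨Or.inr h1, hd y h1⟩
    · ext e
      simp only [OZ.upp, join, Finset.mem_filter, Finset.mem_union]
      constructor
      · rintro ⟨h1 | h1, h2⟩
        · exact Or.inl ⟨h1, h2⟩
        · exact Or.inr h1
      · rintro (h1 | h1)
        · exact ⟨Or.inl h1.1, h1.2⟩
        · have h4 := mem_edges2.1 (h.cr.1 h1)
          exact ⟨Or.inr h1, hd _ h4.1, hd _ h4.2⟩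

set_option linter.unusedVariables false in
theorem Jn.low_right (h : Jn γ δ m) (hs : m.1 ≤ s.1) (hc : CP δ.1 s) :
    OZ.low s (join γ δ) = join γ (OZ.low s δ) ∧ OZ.upp s (join γ δ) = OZ.upp s δ := by
  have hsm : Y (s - m) := h.fw s hc.1
  have hd : ∀ y ∈ γ.1, Y (s - y) := fun y hy => Y_trans (h.bw y hy) hsm
  have hd' : ∀ y ∈ γ.1, Y (y - s) → y = s := fun y hy h1 => Y_antisymm (hd y hy) h1
  constructor
  · refine Prod.ext ?_ ?_
    · ext y
      simp only [OZ.low, join, Finset.mem_filter, Finset.mem_union]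
      constructor
      · rintro ⟨h1 | h1, h2⟩
        · exact Or.inl h1
        · exact Or.inr ⟨h1, h2⟩
      · rintro (h1 | h1)
        · exact ⟨Or.inl h1, hd y h1⟩
        · exact ⟨Or.inr h1.1, h1.2⟩
    · ext e
      simp only [OZ.low, join, Finset.mem_filter, Finset.mem_union]
      constructor
      · rintro ⟨h1 | h1, h2⟩
        · exact Or.inl h1
        · exact Or.inr ⟨h1, h2⟩
      · rintro (h1 | h1)
        · have h4 := mem_edges2.1 (h.cl.1 h1)
          exact ⟨Or.inl h1, hd _ h4.1, hd _ h4.2⟩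
        · exact ⟨Or.inr h1.1, h1.2⟩
  · refine Prod.ext ?_ ?_
    · ext y
      simp only [OZ.upp, join, Finset.mem_filter, Finset.mem_union]
      constructor
      · rintro ⟨h1 | h1, h2⟩
        · refine ⟨?_, h2⟩
          rw [hd' y h1 h2]
          exact hc.1
        · exact ⟨h1, h2⟩
      · exact fun h1 => ⟨Or.inr h1.1, h1.2⟩
    · ext e
      simp only [OZ.upp, join, Finset.mem_filter, Finset.mem_union]
      constructor
      · rintro ⟨h1 | h1, h2, h3⟩
        · exfalso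
          have h4 := mem_edges2.1 (h.cl.1 h1)
          exact tip_ne2 e ((hd' _ h4.2 h3).trans (hd' _ h4.1 h2).symm)
        · exact ⟨h1, h2, h3⟩
      · exact fun h1 => ⟨Or.inr h1.1, h1.2⟩

private theorem mem_low2 {y : ℤ × ℤ} : y ∈ (OZ.low m γ).1 ↔ y ∈ γ.1 ∧ Y (m - y) := by
  simp only [OZ.low, Finset.mem_filter]

private theorem mem_upp2 {y : ℤ × ℤ} : y ∈ (OZ.upp m γ).1 ↔ y ∈ γ.1 ∧ Y (y - m) := by
  simp only [OZ.upp, Finset.mem_filter]

/-- common form of the two sums -/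
private theorem split2 {A B C : Finset Gr} (hA : ∀ γ ∈ A, IsClu γ.1 γ.2)
    (h1 : ∀ γ ∈ A, CP γ.1 m → OZ.low m γ ∈ B ∧ OZ.upp m γ ∈ C)
    (h2 : ∀ γ ∈ B, ∀ δ ∈ C, Jn γ δ m ∧ join γ δ ∈ A) (F : Gr → ℝ) :
    (∑ γ ∈ A, open Classical in if CP γ.1 m then F γ else 0) =
      ∑ γ ∈ B, ∑ δ ∈ C, F (join γ δ) := by
  classical
  have e1 : (∑ γ ∈ A, open Classical in if CP γ.1 m then F γ else 0) =
      ∑ γ ∈ A.filter (fun γ => CP γ.1 m), F γ := by
    rw [Finset.sum_filter]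
  rw [e1, ← Finset.sum_product']
  refine Finset.sum_nbij' (fun γ => (OZ.low m γ, OZ.upp m γ)) (fun p => join p.1 p.2) ?_ ?_ ?_ ?_ ?_
  · intro γ hγ
    rw [Finset.mem_filter] at hγ
    rw [Finset.mem_product]
    exact h1 γ hγ.1 hγ.2
  · intro p hp
    rw [Finset.mem_product] at hp
    obtain ⟨h3, h4⟩ := h2 p.1 hp.1 p.2 hp.2
    rw [Finset.mem_filter]
    exact ⟨h4, h3.cp⟩
  · intro γ hγ
    rw [Finset.mem_filter] at hγ
    exact join_low_upp (hA γ hγ.1) hγ.2
  · intro p hp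
    rw [Finset.mem_product] at hp
    obtain ⟨h3, h4⟩ := h2 p.1 hp.1 p.2 hp.2
    exact Prod.ext h3.low h3.upp
  · intro γ hγ
    rw [Finset.mem_filter] at hγ
    exact (congrArg F (join_low_upp (hA γ hγ.1) hγ.2)).symm

/-- Sums over the graphs in `D` containing `a` and `b` with cone point `m` split. -/
theorem sum_split {D : Finset (ℤ × ℤ)} {a b : ℤ × ℤ} (ha : a.1 ≤ m.1) (hb : m.1 ≤ b.1) (F : Gr → ℝ) :
    (∑ γ ∈ Cl D a b, open Classical in if CP γ.1 m then F γ else 0) =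
      ∑ γ ∈ Lf D a m, ∑ δ ∈ Rt D m b, F (join γ δ) := by
  refine split2 (fun γ hγ => (mem_Cl.1 hγ).2.1) (fun γ hγ hm => ?_) (fun γ hγ δ hδ => ?_) F
  · obtain ⟨h1, h2, h3, h4⟩ := mem_Cl.1 hγ
    obtain ⟨l1, l2, l3⟩ := low_spec h2 hm
    obtain ⟨u1, u2, u3⟩ := upp_spec h2 hm
    constructor
    · refine mem_Lf.2 ⟨fun y hy => h1 (mem_low2.1 hy).1, l1, mem_low2.2 ⟨h3, ?_⟩, l2, l3⟩
      rcases hm.2 a h3 with h5 | h5
      · rw [col_eq2 h5 ha]
        exact Y_self a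
      · exact h5
    · refine mem_Rt.2 ⟨fun y hy => h1 (mem_upp2.1 hy).1, u1, u2, mem_upp2.2 ⟨h4, ?_⟩, u3⟩
      rcases hm.2 b h4 with h5 | h5
      · exact h5
      · rw [col_eq2 h5 hb]
        exact Y_self m
  · obtain ⟨h1, h2, h3, h4, h5⟩ := mem_Lf.1 hγ
    obtain ⟨g1, g2, g3, g4, g5⟩ := mem_Rt.1 hδ
    have hj : Jn γ δ m := ⟨h2, g2, h4, g3, h5, g5⟩
    exact ⟨hj, mem_Cl.2 ⟨Finset.union_subset h1 g1, hj.clu, Finset.mem_union_left _ h3,
      Finset.mem_union_right _ g4⟩⟩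

/-- Sums over the diamond graphs with cone point `m` split. -/
theorem sum_split_dm {a b : ℤ × ℤ} (ha : Y (m - a)) (hb : Y (b - m)) (F : Gr → ℝ) :
    (∑ γ ∈ Dm a b, open Classical in if CP γ.1 m then F γ else 0) =
      ∑ γ ∈ Dm a m, ∑ δ ∈ Dm m b, F (join γ δ) := by
  refine split2 (fun γ hγ => (mem_Dm.1 hγ).1) (fun γ hγ hm => ?_) (fun γ hγ δ hδ => ?_) F
  · obtain ⟨h1, h2, h3, h4, h5⟩ := mem_Dm.1 hγ
    obtain ⟨l1, l2, l3⟩ := low_spec h1 hm
    obtain ⟨u1, u2, u3⟩ := upp_spec h1 hm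
    exact ⟨mem_Dm.2 ⟨l1, fun y hy => h2 y (mem_low2.1 hy).1, l3, mem_low2.2 ⟨h4, ha⟩, l2⟩,
      mem_Dm.2 ⟨u1, u3, fun y hy => h3 y (mem_upp2.1 hy).1, u2, mem_upp2.2 ⟨h5, hb⟩⟩⟩
  · obtain ⟨h1, h2, h3, h4, h5⟩ := mem_Dm.1 hγ
    obtain ⟨g1, g2, g3, g4, g5⟩ := mem_Dm.1 hδ
    have hj : Jn γ δ m := ⟨h1, g1, h5, g4, h3, g2⟩
    refine ⟨hj, mem_Dm.2 ⟨hj.clu, fun y hy => ?_, fun y hy => ?_, Finset.mem_union_left _ h4,
      Finset.mem_union_right _ g5⟩⟩
    · rcases Finset.mem_union.1 hy with hy | hy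
      · exact h2 y hy
      · exact Y_trans ha (g2 y hy)
    · rcases Finset.mem_union.1 hy with hy | hy
      · exact Y_trans (h3 y hy) hb
      · exact g3 y hy

end Pool.Helper83.OZ
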