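import Pool.Agent.Helper83.OZ.Thn2

/-!
Project OZ (MP_7e0861_pr), part L5, block P32: the function `m ^ (-3/2)` and sums with exponential factors.

`p32_shift`: `max (i + l) 1 ≤ (max i 1) * (1 + l)` for `l ≥ 0`, so `p32 i ≤ (1 + l) ^ (3/2) * p32 (i + l) ≤ (1 + l) ^ 2 * p32 (i + l)`.
`conv_two`: with `i = t.1 - u.1 ≥ 1`, `j = v.1 - t'.1 ≥ 1`, `i + j + (t'.1 - t.1) = v.1 - u.1`: `|t.2| ≤ |u.2| + 8 i`,
`|t'.2| ≤ |v.2| + 8 j`, `p32 (t'.1 - t.1) ≤ (1 + i + j) ^ 2 p32 (v.1 - u.1)`, and there are at most `16 i + 1` points `t` and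
`16 j + 1` points `t'` for given `i, j`; the double series converges.
`conv_exp`: the same without `p32`, with the Gaussian factor: if `|v.2 - u.2| ≥ (v.1 - u.1) / 16` then either `i + j` is at
least `|v.2 - u.2| / 100` or `|t'.2 - t.2| ≥ |v.2 - u.2| / 2 ≥ (t'.1 - t.1) / 32`.
-/

namespace Pool.Helper83.OZ

open Pool.Helper49.FK
open Pool.Helper17.OZ (Y CP Dbl NoCP nd rect tau)

/-- `m ^ (-3/2)`, and `1` for `m ≤ 1`. -/
noncomputable def p32 (m : ℤ) : ℝ := 1 / ((max m 1 : ℤ) * Real.sqrt (max m 1 : ℤ))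

private theorem one_le_mx (m : ℤ) : (1 : ℝ) ≤ ((max m 1 : ℤ) : ℝ) := by
  exact_mod_cast le_max_right m 1

private theorem one_le_sq (m : ℤ) : (1 : ℝ) ≤ Real.sqrt ((max m 1 : ℤ) : ℝ) := by
  rw [Real.one_le_sqrt]
  exact one_le_mx m

theorem p32_pos (m : ℤ) : 0 < p32 m := by
  have h1 := one_le_mx m
  have h2 := one_le_sq m
  unfold p32
  exact one_div_pos.2 (mul_pos (by linarith) (by linarith))

theorem p32_le_one (m : ℤ) : p32 m ≤ 1 := by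
  have h1 := one_le_mx m
  have h2 := one_le_sq m
  unfold p32
  rw [div_le_one (mul_pos (by linarith) (by linarith))]
  nlinarith

theorem p32_anti {m n : ℤ} (h : m ≤ n) : p32 n ≤ p32 m := by
  have h1 := one_le_mx m
  have h2 := one_le_sq m
  have h3 : ((max m 1 : ℤ) : ℝ) ≤ ((max n 1 : ℤ) : ℝ) := by
    exact_mod_cast max_le_max_right 1 h
  have h4 := Real.sqrt_le_sqrt h3
  unfold p32
  apply one_div_le_one_div_of_le (mul_pos (by linarith) (by linarith))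
  exact mul_le_mul h3 h4 (by linarith) (by linarith)

theorem p32_shift {i l : ℤ} (hl : 0 ≤ l) : p32 i ≤ (1 + (l : ℝ)) ^ 2 * p32 (i + l) := by
  have h1 := one_le_mx i
  have h2 := one_le_sq i
  have hlr : (0 : ℝ) ≤ l := by exact_mod_cast hl
  have h3 : ((max (i + l) 1 : ℤ) : ℝ) ≤ ((max i 1 : ℤ) : ℝ) * (1 + l) := by
    have : (max (i + l) 1 : ℤ) ≤ (max i 1) * (1 + l) := by
      have a1 : i ≤ max i 1 := le_max_left _ _
      have a2 : 1 ≤ max i 1 := le_max_right _ _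
      apply max_le <;> nlinarith
    exact_mod_cast this
  have h4 := one_le_mx (i + l)
  have h5 := one_le_sq (i + l)
  have h6 : Real.sqrt ((max (i + l) 1 : ℤ) : ℝ) ≤ Real.sqrt ((max i 1 : ℤ) : ℝ) * (1 + l) := by
    have : Real.sqrt ((max (i + l) 1 : ℤ) : ℝ) ≤ Real.sqrt (((max i 1 : ℤ) : ℝ) * (1 + l) ^ 2) := by
      apply Real.sqrt_le_sqrt
      refine h3.trans ?_
      apply mul_le_mul_of_nonneg_left _ (by linarith)
      nlinarith
    rwa [Real.sqrt_mul (by linarith), Real.sqrt_sq (by linarith)] at this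
  unfold p32
  rw [mul_one_div, div_le_div_iff₀ (mul_pos (by linarith) (by linarith))
    (mul_pos (by linarith) (by linarith)), one_mul]
  calc ((max (i + l) 1 : ℤ) : ℝ) * Real.sqrt ((max (i + l) 1 : ℤ) : ℝ)
      ≤ (((max i 1 : ℤ) : ℝ) * (1 + l)) * (Real.sqrt ((max i 1 : ℤ) : ℝ) * (1 + l)) :=
        mul_le_mul h3 h6 (by linarith) (mul_nonneg (by linarith) (by linarith))
    _ = (1 + (l : ℝ)) ^ 2 * (((max i 1 : ℤ) : ℝ) * Real.sqrt ((max i 1 : ℤ) : ℝ)) := by ring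

private theorem p32_sqexp {x : ℝ} (hx : 0 ≤ x) : x ^ 2 ≤ 2 * Real.exp x := by
  have := Real.pow_div_factorial_le_exp x hx 2
  norm_num [Nat.factorial] at this
  linarith

/-- An exponential is at most a constant times `p32`. -/
theorem exp_le_p32 {c : ℝ} (hc : 0 < c) : ∃ C : ℝ, 0 < C ∧ ∀ m : ℤ, 0 ≤ m →
    Real.exp (-c * m) ≤ C * p32 m := by
  refine ⟨2 / c ^ 2 * Real.exp c, by positivity, fun m hm => ?_⟩
  have hmr : (0 : ℝ) ≤ m := by exact_mod_cast hm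
  have h1 := one_le_mx m
  have h2 := one_le_sq m
  have h3 : ((max m 1 : ℤ) : ℝ) ≤ (m : ℝ) + 1 := by
    have : (max m 1 : ℤ) ≤ m + 1 := max_le (by omega) (by omega)
    exact_mod_cast this
  have h4 : Real.sqrt ((max m 1 : ℤ) : ℝ) ≤ ((max m 1 : ℤ) : ℝ) := by
    rw [Real.sqrt_le_left (by linarith)]
    nlinarith
  have h5 := p32_sqexp (x := c * (m + 1)) (by positivity)
  unfold p32
  rw [mul_one_div, le_div_iff₀ (mul_pos (by linarith) (by linarith))]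
  have h6 : ((max m 1 : ℤ) : ℝ) * Real.sqrt ((max m 1 : ℤ) : ℝ) ≤ ((m : ℝ) + 1) ^ 2 := by
    rw [sq]
    exact mul_le_mul h3 (h4.trans h3) (by linarith) (by linarith)
  have h7 : ((m : ℝ) + 1) ^ 2 ≤ 2 / c ^ 2 * Real.exp (c * (m + 1)) := by
    rw [div_mul_eq_mul_div, le_div_iff₀ (by positivity)]
    calc ((m : ℝ) + 1) ^ 2 * c ^ 2 = (c * (m + 1)) ^ 2 := by ring
      _ ≤ _ := h5
  calc Real.exp (-c * m) * (((max m 1 : ℤ) : ℝ) * Real.sqrt ((max m 1 : ℤ) : ℝ))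
      ≤ Real.exp (-c * m) * (2 / c ^ 2 * Real.exp (c * (m + 1))) :=
        mul_le_mul_of_nonneg_left (h6.trans h7) (Real.exp_pos _).le
    _ = 2 / c ^ 2 * (Real.exp (-c * m) * Real.exp (c * (m + 1))) := by ring
    _ = 2 / c ^ 2 * Real.exp c := by
        rw [← Real.exp_add]
        congr 2
        ring

private theorem p32_summ {c : ℝ} (hc : 0 < c) (k : ℕ) :
    Summable fun j : ℕ => ((j : ℝ) + 1) ^ k * Real.exp (-c * j) := by
  have h := (summable_nat_add_iff 1).2 (Real.summable_pow_mul_exp_neg_nat_mul k hc)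
  refine (h.mul_left (Real.exp c)).congr fun j => ?_
  push_cast
  have : Real.exp (-c * (j : ℝ)) = Real.exp c * Real.exp (-c * ((j : ℝ) + 1)) := by
    rw [← Real.exp_add]
    congr 1
    ring
  rw [this]
  ring

private theorem p32_csum {h : ℕ → ℝ} (h0 : ∀ j, 0 ≤ h j)
    (hs : Summable fun j : ℕ => (2 * (16 * (j : ℝ) + 1)) * h j) (A : Finset (ℤ × ℤ)) (w : ℤ × ℤ)
    (hA : ∀ t ∈ A, |t.2 - w.2| ≤ 8 * |t.1 - w.1|) :
    ∑ t ∈ A, h (t.1 - w.1).natAbs ≤ ∑' j : ℕ, (2 * (16 * (j : ℝ) + 1)) * h j := by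
  classical
  have e1 : ∑ t ∈ A, h (t.1 - w.1).natAbs =
      ∑ j ∈ A.image (fun t => (t.1 - w.1).natAbs),
        ∑ t ∈ A.filter (fun t => (t.1 - w.1).natAbs = j), h (t.1 - w.1).natAbs :=
    (Finset.sum_fiberwise_of_maps_to (fun t ht => Finset.mem_image_of_mem _ ht) _).symm
  rw [e1]
  have e2 : ∀ j ∈ A.image (fun t => (t.1 - w.1).natAbs),
      ∑ t ∈ A.filter (fun t => (t.1 - w.1).natAbs = j), h (t.1 - w.1).natAbs ≤
        (2 * (16 * (j : ℝ) + 1)) * h j := by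
    intro j _
    have e3 : ∑ t ∈ A.filter (fun t => (t.1 - w.1).natAbs = j), h (t.1 - w.1).natAbs =
        ((A.filter (fun t => (t.1 - w.1).natAbs = j)).card : ℝ) * h j := by
      rw [← nsmul_eq_mul, ← Finset.sum_const]
      refine Finset.sum_congr rfl fun t ht => ?_
      rw [(Finset.mem_filter.1 ht).2]
    rw [e3]
    apply mul_le_mul_of_nonneg_right _ (h0 j)
    have e4 : A.filter (fun t => (t.1 - w.1).natAbs = j) ⊆
        ({w.1 + j, w.1 - j} : Finset ℤ) ×ˢ Finset.Icc (w.2 - 8 * j) (w.2 + 8 * j) := by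
      intro t ht
      obtain ⟨htA, htj⟩ := Finset.mem_filter.1 ht
      have h1 := hA t htA
      have h2 : |t.1 - w.1| = (j : ℤ) := by
        rw [Int.abs_eq_natAbs, htj]
      rw [h2, abs_le] at h1
      rw [Finset.mem_product, Finset.mem_insert, Finset.mem_singleton, Finset.mem_Icc]
      refine ⟨?_, by omega, by omega⟩
      rcases abs_eq (by positivity : (0 : ℤ) ≤ j) |>.1 h2 with h3 | h3
      · left; omega
      · right; omega
    have e5 := Finset.card_le_card e4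
    rw [Finset.card_product, Int.card_Icc] at e5
    have e6 : ({w.1 + j, w.1 - j} : Finset ℤ).card ≤ 2 := Finset.card_le_two
    have e7 : (w.2 + 8 * (j : ℤ) + 1 - (w.2 - 8 * j)).toNat = 16 * j + 1 := by omega
    rw [e7] at e5
    have e8 : (A.filter (fun t => (t.1 - w.1).natAbs = j)).card ≤ 2 * (16 * j + 1) :=
      e5.trans (Nat.mul_le_mul_right _ e6)
    exact_mod_cast e8
  refine (Finset.sum_le_sum e2).trans ?_
  exact hs.sum_le_tsum _ fun j _ => mul_nonneg (by positivity) (h0 j)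

open Classical in
private theorem p32_dsum {h : ℕ → ℝ} (h0 : ∀ j, 0 ≤ h j)
    (hs : Summable fun j : ℕ => (2 * (16 * (j : ℝ) + 1)) * h j) (u v : ℤ × ℤ)
    (F : ℤ × ℤ → ℤ × ℤ → ℝ) (K : ℝ) (hK : 0 ≤ K)
    (hF : ∀ t ∈ cyl u v, ∀ t' ∈ (insert t (cyl t v)).filter (fun t' => Y (v - t')),
      F t t' ≤ K * h (t.1 - u.1).natAbs * h (t'.1 - v.1).natAbs) :
    ∑ t ∈ cyl u v, ∑ t' ∈ (insert t (cyl t v)).filter (fun t' => Y (v - t')), F t t' ≤
      (∑' j : ℕ, (2 * (16 * (j : ℝ) + 1)) * h j) ^ 2 * K := by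
  set S := ∑' j : ℕ, (2 * (16 * (j : ℝ) + 1)) * h j with hS
  have hS0 : 0 ≤ S := tsum_nonneg fun j => mul_nonneg (by positivity) (h0 j)
  have h1 : ∀ t ∈ cyl u v, ∑ t' ∈ (insert t (cyl t v)).filter (fun t' => Y (v - t')), F t t' ≤
      K * h (t.1 - u.1).natAbs * S := by
    intro t ht
    refine (Finset.sum_le_sum (hF t ht)).trans ?_
    rw [← Finset.mul_sum]
    refine mul_le_mul_of_nonneg_left ?_ (mul_nonneg hK (h0 _))
    refine p32_csum h0 hs _ v fun t' ht' => ?_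
    have h2 := (Finset.mem_filter.1 ht').2
    unfold Y at h2
    simp only [Prod.fst_sub, Prod.snd_sub] at h2
    rw [abs_sub_comm t'.2 v.2, abs_sub_comm t'.1 v.1]
    exact h2.trans (mul_le_mul_of_nonneg_left (le_abs_self _) (by norm_num))
  refine (Finset.sum_le_sum h1).trans ?_
  have h3 : ∑ t ∈ cyl u v, K * h (t.1 - u.1).natAbs * S =
      (K * S) * ∑ t ∈ cyl u v, h (t.1 - u.1).natAbs := by
    rw [Finset.mul_sum]
    exact Finset.sum_congr rfl fun t _ => by ring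
  rw [h3]
  have h4 : ∑ t ∈ cyl u v, h (t.1 - u.1).natAbs ≤ S := by
    refine p32_csum h0 hs _ u fun t ht => ?_
    have h2 := (mem_cyl.1 ht).2.2
    unfold Y at h2
    simp only [Prod.fst_sub, Prod.snd_sub] at h2
    exact h2.trans (mul_le_mul_of_nonneg_left (le_abs_self _) (by norm_num))
  calc K * S * ∑ t ∈ cyl u v, h (t.1 - u.1).natAbs ≤ K * S * S :=
        mul_le_mul_of_nonneg_left h4 (mul_nonneg hK hS0)
    _ = S ^ 2 * K := by ring

/-- What membership gives. -/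
private theorem p32_geom {u v t t' : ℤ × ℤ} (ht : t ∈ cyl u v)
    (ht' : t' = t ∨ t' ∈ cyl t v) (hY : Y (v - t')) :
    u.1 < t.1 ∧ t.1 ≤ t'.1 ∧ t'.1 < v.1 ∧ |t.2 - u.2| ≤ 8 * (t.1 - u.1) ∧
      |v.2 - t'.2| ≤ 8 * (v.1 - t'.1) := by
  obtain ⟨h1, h2, h3⟩ := mem_cyl.1 ht
  unfold Y at h3 hY
  simp only [Prod.fst_sub, Prod.snd_sub] at h3 hY
  rcases ht' with rfl | h
  · exact ⟨h1, le_refl _, h2, h3, hY⟩
  · obtain ⟨h4, h5, _⟩ := mem_cyl.1 h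
    exact ⟨h1, h4.le, h5, h3, hY⟩

open Classical in
theorem conv_two {c : ℝ} (hc : 0 < c) : ∃ C : ℝ, 0 < C ∧ ∀ u v : ℤ × ℤ, u.1 < v.1 →
    ∑ t ∈ cyl u v, ∑ t' ∈ (insert t (cyl t v)).filter (fun t' => Y (v - t')),
      Real.exp (-c * ((t.1 : ℝ) - u.1)) * ((1 + |(t.2 : ℝ)|) * (1 + |(t'.2 : ℝ)|) * p32 (t'.1 - t.1)) *
        Real.exp (-c * ((v.1 : ℝ) - t'.1)) ≤
      C * ((1 + |(u.2 : ℝ)|) * (1 + |(v.2 : ℝ)|) * p32 (v.1 - u.1)) := by
  have h0 : ∀ j : ℕ, 0 ≤ (1 + 8 * (j : ℝ)) * (1 + (j : ℝ)) ^ 2 * Real.exp (-c * j) :=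
    fun j => by positivity
  have hs : Summable fun j : ℕ => (2 * (16 * (j : ℝ) + 1)) *
      ((1 + 8 * (j : ℝ)) * (1 + (j : ℝ)) ^ 2 * Real.exp (-c * j)) := by
    refine Summable.of_nonneg_of_le (fun j => mul_nonneg (by positivity) (h0 j)) (fun j => ?_)
      ((p32_summ hc 4).mul_left 256)
    have hj : (0 : ℝ) ≤ j := Nat.cast_nonneg j
    have e1 : (2 * (16 * (j : ℝ) + 1)) ≤ 32 * (1 + j) := by linarith
    have e2 : (1 + 8 * (j : ℝ)) ≤ 8 * (1 + j) := by linarith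
    calc (2 * (16 * (j : ℝ) + 1)) * ((1 + 8 * (j : ℝ)) * (1 + (j : ℝ)) ^ 2 * Real.exp (-c * j))
        ≤ (32 * (1 + j)) * ((8 * (1 + j)) * (1 + (j : ℝ)) ^ 2 * Real.exp (-c * j)) := by gcongr
      _ = 256 * (((j : ℝ) + 1) ^ 4 * Real.exp (-c * j)) := by ring
  refine ⟨(∑' j : ℕ, (2 * (16 * (j : ℝ) + 1)) *
      ((1 + 8 * (j : ℝ)) * (1 + (j : ℝ)) ^ 2 * Real.exp (-c * j))) ^ 2 + 1, by positivity,
    fun u v huv => ?_⟩
  have hK : 0 ≤ (1 + |(u.2 : ℝ)|) * (1 + |(v.2 : ℝ)|) * p32 (v.1 - u.1) := by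
    have := (p32_pos (v.1 - u.1)).le
    positivity
  refine (p32_dsum h0 hs u v _ _ hK ?_).trans ?_
  · intro t ht t' ht'
    obtain ⟨ha, hb⟩ := Finset.mem_filter.1 ht'
    obtain ⟨g1, g2, g3, g4, g5⟩ := p32_geom ht (Finset.mem_insert.1 ha) hb
    obtain ⟨i, hi⟩ : ∃ i : ℕ, t.1 - u.1 = i := ⟨(t.1 - u.1).toNat, by omega⟩
    obtain ⟨j, hj⟩ : ∃ j : ℕ, v.1 - t'.1 = j := ⟨(v.1 - t'.1).toNat, by omega⟩
    have n1 : (t.1 - u.1).natAbs = i := by omega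
    have n2 : (t'.1 - v.1).natAbs = j := by omega
    rw [n1, n2]
    have hir : (t.1 : ℝ) - u.1 = i := by exact_mod_cast hi
    have hjr : (v.1 : ℝ) - t'.1 = j := by exact_mod_cast hj
    rw [hir, hjr]
    rw [hi] at g4
    rw [hj] at g5
    have g4r : |(t.2 : ℝ) - u.2| ≤ 8 * (i : ℝ) := by exact_mod_cast g4
    have g5r : |(v.2 : ℝ) - t'.2| ≤ 8 * (j : ℝ) := by exact_mod_cast g5
    have a1 : |(t.2 : ℝ)| ≤ |(u.2 : ℝ)| + 8 * i := by
      have := abs_sub_abs_le_abs_sub (t.2 : ℝ) (u.2 : ℝ)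
      linarith
    have a2 : |(t'.2 : ℝ)| ≤ |(v.2 : ℝ)| + 8 * j := by
      have := abs_sub_abs_le_abs_sub (t'.2 : ℝ) (v.2 : ℝ)
      rw [abs_sub_comm] at this
      linarith
    have i0 : (0 : ℝ) ≤ i := Nat.cast_nonneg i
    have j0 : (0 : ℝ) ≤ j := Nat.cast_nonneg j
    have u0 := abs_nonneg (u.2 : ℝ)
    have v0 := abs_nonneg (v.2 : ℝ)
    have b1 : 1 + |(t.2 : ℝ)| ≤ (1 + |(u.2 : ℝ)|) * (1 + 8 * i) := by nlinarith
    have b2 : 1 + |(t'.2 : ℝ)| ≤ (1 + |(v.2 : ℝ)|) * (1 + 8 * j) := by nlinarith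
    have b3 : p32 (t'.1 - t.1) ≤ ((1 + (i : ℝ)) ^ 2 * (1 + (j : ℝ)) ^ 2) * p32 (v.1 - u.1) := by
      have e1 := p32_shift (i := t'.1 - t.1) (l := (i : ℤ) + j) (by positivity)
      have e2 : t'.1 - t.1 + ((i : ℤ) + j) = v.1 - u.1 := by omega
      rw [e2] at e1
      refine e1.trans (mul_le_mul_of_nonneg_right ?_ (p32_pos _).le)
      push_cast
      have : 1 + ((i : ℝ) + j) ≤ (1 + i) * (1 + j) := by nlinarith
      calc (1 + ((i : ℝ) + j)) ^ 2 ≤ ((1 + i) * (1 + j)) ^ 2 := by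
            apply pow_le_pow_left₀ (by positivity) this
        _ = _ := by ring
    have p0 := (p32_pos (t'.1 - t.1)).le
    have p1 := (p32_pos (v.1 - u.1)).le
    calc Real.exp (-c * (i : ℝ)) * ((1 + |(t.2 : ℝ)|) * (1 + |(t'.2 : ℝ)|) * p32 (t'.1 - t.1)) *
          Real.exp (-c * (j : ℝ))
        ≤ Real.exp (-c * (i : ℝ)) * (((1 + |(u.2 : ℝ)|) * (1 + 8 * i)) *
          ((1 + |(v.2 : ℝ)|) * (1 + 8 * j)) *
          (((1 + (i : ℝ)) ^ 2 * (1 + (j : ℝ)) ^ 2) * p32 (v.1 - u.1))) *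
          Real.exp (-c * (j : ℝ)) := by gcongr
      _ = (1 + |(u.2 : ℝ)|) * (1 + |(v.2 : ℝ)|) * p32 (v.1 - u.1) *
          ((1 + 8 * (i : ℝ)) * (1 + (i : ℝ)) ^ 2 * Real.exp (-c * i)) *
          ((1 + 8 * (j : ℝ)) * (1 + (j : ℝ)) ^ 2 * Real.exp (-c * j)) := by ring
  · exact mul_le_mul_of_nonneg_right (by linarith) hK

open Classical in
theorem conv_exp {c : ℝ} (hc : 0 < c) : ∃ C c' : ℝ, 0 < C ∧ 0 < c' ∧ ∀ u v : ℤ × ℤ, u.1 < v.1 →
    (v.1 : ℝ) - u.1 ≤ 16 * |(v.2 : ℝ) - u.2| →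
    ∑ t ∈ cyl u v, ∑ t' ∈ (insert t (cyl t v)).filter (fun t' => Y (v - t')),
      Real.exp (-c * ((t.1 : ℝ) - u.1)) *
        Real.exp (-c * ((t'.2 : ℝ) - t.2) ^ 2 / (((t'.1 : ℝ) - t.1) + |(t'.2 : ℝ) - t.2| + 1)) *
        Real.exp (-c * ((v.1 : ℝ) - t'.1)) ≤
      C * Real.exp (-c' * |(v.2 : ℝ) - u.2|) := by
  have h0 : ∀ j : ℕ, 0 ≤ Real.exp (-(c / 2) * j) := fun j => (Real.exp_pos _).le
  have hs : Summable fun j : ℕ => (2 * (16 * (j : ℝ) + 1)) * Real.exp (-(c / 2) * j) := by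
    refine Summable.of_nonneg_of_le (fun j => mul_nonneg (by positivity) (h0 j)) (fun j => ?_)
      ((p32_summ (half_pos hc) 1).mul_left 32)
    have hj : (0 : ℝ) ≤ j := Nat.cast_nonneg j
    have e1 : (2 * (16 * (j : ℝ) + 1)) ≤ 32 * (j + 1) := by linarith
    calc (2 * (16 * (j : ℝ) + 1)) * Real.exp (-(c / 2) * j)
        ≤ (32 * (j + 1)) * Real.exp (-(c / 2) * j) := by gcongr
      _ = 32 * (((j : ℝ) + 1) ^ 1 * Real.exp (-(c / 2) * j)) := by ring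
  refine ⟨(∑' j : ℕ, (2 * (16 * (j : ℝ) + 1)) * Real.exp (-(c / 2) * j)) ^ 2 + 1, c / 70,
    by positivity, by positivity, fun u v huv hco => ?_⟩
  refine (p32_dsum h0 hs u v _ (Real.exp (-(c / 70) * |(v.2 : ℝ) - u.2|)) (Real.exp_pos _).le
    ?_).trans ?_
  · intro t ht t' ht'
    obtain ⟨ha, hb⟩ := Finset.mem_filter.1 ht'
    obtain ⟨g1, g2, g3, g4, g5⟩ := p32_geom ht (Finset.mem_insert.1 ha) hb
    obtain ⟨i, hi⟩ : ∃ i : ℕ, t.1 - u.1 = i := ⟨(t.1 - u.1).toNat, by omega⟩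
    obtain ⟨j, hj⟩ : ∃ j : ℕ, v.1 - t'.1 = j := ⟨(v.1 - t'.1).toNat, by omega⟩
    have n1 : (t.1 - u.1).natAbs = i := by omega
    have n2 : (t'.1 - v.1).natAbs = j := by omega
    rw [n1, n2]
    have hir : (t.1 : ℝ) - u.1 = i := by exact_mod_cast hi
    have hjr : (v.1 : ℝ) - t'.1 = j := by exact_mod_cast hj
    rw [hir, hjr]
    rw [hi] at g4
    rw [hj] at g5
    have g4r : |(t.2 : ℝ) - u.2| ≤ 8 * (i : ℝ) := by exact_mod_cast g4
    have g5r : |(v.2 : ℝ) - t'.2| ≤ 8 * (j : ℝ) := by exact_mod_cast g5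
    have i0 : (0 : ℝ) ≤ i := Nat.cast_nonneg i
    have j0 : (0 : ℝ) ≤ j := Nat.cast_nonneg j
    have hx0 : (0 : ℝ) ≤ (t'.1 : ℝ) - t.1 := by
      have : (t.1 : ℝ) ≤ t'.1 := by exact_mod_cast g2
      linarith
    have hx1 : (t'.1 : ℝ) - t.1 ≤ (v.1 : ℝ) - u.1 := by linarith
    set x : ℝ := (t'.1 : ℝ) - t.1 with hx
    set Δ : ℝ := |(v.2 : ℝ) - u.2| with hΔ
    have y0 := abs_nonneg ((t'.2 : ℝ) - t.2)
    have htri : Δ ≤ 8 * (i : ℝ) + |(t'.2 : ℝ) - t.2| + 8 * j := by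
      have e1 : (v.2 : ℝ) - u.2 = ((t.2 : ℝ) - u.2) + ((t'.2 : ℝ) - t.2) + ((v.2 : ℝ) - t'.2) := by
        ring
      rw [hΔ, e1]
      have e2 := abs_add_three ((t.2 : ℝ) - u.2) ((t'.2 : ℝ) - t.2) ((v.2 : ℝ) - t'.2)
      linarith
    have hΔ0 : 0 < Δ := by
      have : (u.1 : ℝ) < v.1 := by exact_mod_cast huv
      linarith
    rw [← Real.exp_add, ← Real.exp_add, ← Real.exp_add, ← Real.exp_add, Real.exp_le_exp]
    set Q : ℝ := ((t'.2 : ℝ) - t.2) ^ 2 / (x + |(t'.2 : ℝ) - t.2| + 1) with hQ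
    have hQ0 : 0 ≤ Q := by positivity
    have hQe : -c * ((t'.2 : ℝ) - t.2) ^ 2 / (x + |(t'.2 : ℝ) - t.2| + 1) = -(c * Q) := by
      rw [hQ]; ring
    rw [hQe]
    have key : Δ / 70 ≤ Q + ((i : ℝ) + j) / 2 := by
      rcases le_total (Δ / 2) |(t'.2 : ℝ) - t.2| with hy | hy
      · have y1 : (1 : ℝ) ≤ |(t'.2 : ℝ) - t.2| := by
          have e1 : (0 : ℝ) < |(t'.2 : ℝ) - t.2| := by linarith
          have e2 : (0 : ℤ) < |t'.2 - t.2| := by exact_mod_cast e1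
          have e3 : (1 : ℤ) ≤ |t'.2 - t.2| := by omega
          exact_mod_cast e3
        have e4 : x + |(t'.2 : ℝ) - t.2| + 1 ≤ 34 * |(t'.2 : ℝ) - t.2| := by linarith
        have e5 : Δ / 70 ≤ Q := by
          rw [hQ, div_le_div_iff₀ (by norm_num) (by positivity), ← sq_abs ((t'.2 : ℝ) - t.2)]
          nlinarith
        have : (0 : ℝ) ≤ ((i : ℝ) + j) / 2 := by positivity
        linarith
      · linarith
    nlinarith
  · exact (mul_le_mul_of_nonneg_right (by linarith) (Real.exp_pos _).le)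

end Pool.Helper83.OZ
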