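import Pool.Agent.Helper83.OZ.Thn4
import Pool.Agent.Helper83.OZ.P32
import Pool.Agent.Helper18.WK.Up
import Pool.Agent.Helper18.WK.Gau
import Pool.Agent.Helper17.OZ.TauA

/-!
Project OZ (MP_7e0861_pr), part L5, block TWO: upper bounds for the two point function with the defect line.

`two_pt`: `G_dfc_US` (constants `s, C, c`), `US_le_G` and `e1` (Helper18/WK/Up.lean) with `δ = 1 - s`:
`US q ρ s t t' ≤ C₁ (1 + |t.2|) (1 + |t'.2|) p32 (t'.1 - t.1) e^{-tau (t'.1 - t.1)}` (for `t = t'` `US = 1`), then `conv_two`; the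
first term by `exp_le_p32`. For `u.1 = v.1` use `G ≤ 1`.
`two_far`: `Kd F δ ≤ K0 F` (`kd_le`, `g_mono`), `u_eq`, `u_gauss` (Helper18/WK) instead of `e1`, then `conv_exp` (also for
`t = t'`: the Gaussian factor is `1`); the first term of `G_dfc_US`: `v.1 - u.1` is not bounded below by `|v.2 - u.2|`, but if
`8 (v.1 - u.1) < |v.2 - u.2|` use instead `G ≤ GI ≤ e^{-tau |v.2 - u.2|}` (`GI_le_tau`, Helper17/OZ/TauA; `nd ≥ |v.2 - u.2|`,
`tau > 0` by `tau_pos`).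
-/

open scoped ENNReal

namespace Pool.Helper83.OZ

open Pool.Helper49.FK
open Pool.Helper17.OZ (Y CP Dbl NoCP nd rect tau)
open Pool.Helper95.OZ (FG fI)

variable {q ρ ρ' : ℝ}

private theorem mem34 {u v t t' : ℤ × ℤ} (ht : t ∈ cyl u v) (ht' : t' ∈ insert t (cyl t v)) :
    u.1 < t.1 ∧ t'.1 < v.1 ∧ (t = t' ∨ t.1 < t'.1) := by
  have h1 := mem_cyl.1 ht
  rcases Finset.mem_insert.1 ht' with h2 | h2
  · subst h2
    exact ⟨h1.1, h1.2.1, Or.inl rfl⟩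
  · have h3 := mem_cyl.1 h2
    exact ⟨h1.1, h3.2.1, Or.inr h3.1⟩

open Classical in
private theorem sum34 {s c c₀ C₁ : ℝ} (hc₀ : c₀ ≤ c) (hC₁ : 0 ≤ C₁) {u v : ℤ × ℤ}
    {B : ℤ × ℤ → ℤ × ℤ → ℝ} (hB : ∀ t t', 0 ≤ B t t')
    (hUS : ∀ t t' : ℤ × ℤ, (t = t' ∨ t.1 < t'.1) →
      US q ρ s t t' ≤ C₁ * B t t' * Real.exp (-tau q ρ * ((t'.1 : ℝ) - t.1))) :
    ∑ t ∈ cyl u v, ∑ t' ∈ (insert t (cyl t v)).filter (fun t' => Y (v - t')),
      Real.exp (-(tau q ρ + c) * ((t.1 : ℝ) - u.1)) * US q ρ s t t' *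
        Real.exp (-(tau q ρ + c) * ((v.1 : ℝ) - t'.1)) ≤
      C₁ * Real.exp (-tau q ρ * ((v.1 : ℝ) - u.1)) *
        ∑ t ∈ cyl u v, ∑ t' ∈ (insert t (cyl t v)).filter (fun t' => Y (v - t')),
          Real.exp (-c₀ * ((t.1 : ℝ) - u.1)) * B t t' * Real.exp (-c₀ * ((v.1 : ℝ) - t'.1)) := by
  rw [Finset.mul_sum]
  refine Finset.sum_le_sum fun t ht => ?_
  rw [Finset.mul_sum]
  refine Finset.sum_le_sum fun t' ht' => ?_
  obtain ⟨h1, h2, h3⟩ := mem34 ht (Finset.mem_filter.1 ht').1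
  have h1' : (0 : ℝ) ≤ (t.1 : ℝ) - u.1 := by
    have : (u.1 : ℝ) < t.1 := by exact_mod_cast h1
    linarith
  have h2' : (0 : ℝ) ≤ (v.1 : ℝ) - t'.1 := by
    have : (t'.1 : ℝ) < v.1 := by exact_mod_cast h2
    linarith
  have e1 : Real.exp (-(tau q ρ + c) * ((t.1 : ℝ) - u.1)) ≤
      Real.exp (-tau q ρ * ((t.1 : ℝ) - u.1)) * Real.exp (-c₀ * ((t.1 : ℝ) - u.1)) := by
    rw [← Real.exp_add]
    refine Real.exp_le_exp.2 ?_
    have : c₀ * ((t.1 : ℝ) - u.1) ≤ c * ((t.1 : ℝ) - u.1) := mul_le_mul_of_nonneg_right hc₀ h1'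
    linarith
  have e2 : Real.exp (-(tau q ρ + c) * ((v.1 : ℝ) - t'.1)) ≤
      Real.exp (-tau q ρ * ((v.1 : ℝ) - t'.1)) * Real.exp (-c₀ * ((v.1 : ℝ) - t'.1)) := by
    rw [← Real.exp_add]
    refine Real.exp_le_exp.2 ?_
    have : c₀ * ((v.1 : ℝ) - t'.1) ≤ c * ((v.1 : ℝ) - t'.1) := mul_le_mul_of_nonneg_right hc₀ h2'
    linarith
  have e3 : Real.exp (-tau q ρ * ((v.1 : ℝ) - u.1)) = Real.exp (-tau q ρ * ((t.1 : ℝ) - u.1)) *
      Real.exp (-tau q ρ * ((t'.1 : ℝ) - t.1)) * Real.exp (-tau q ρ * ((v.1 : ℝ) - t'.1)) := by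
    rw [← Real.exp_add, ← Real.exp_add]
    congr 1
    ring
  have e4 : 0 ≤ C₁ * B t t' * Real.exp (-tau q ρ * ((t'.1 : ℝ) - t.1)) :=
    mul_nonneg (mul_nonneg hC₁ (hB t t')) (Real.exp_pos _).le
  calc Real.exp (-(tau q ρ + c) * ((t.1 : ℝ) - u.1)) * US q ρ s t t' *
        Real.exp (-(tau q ρ + c) * ((v.1 : ℝ) - t'.1))
      ≤ Real.exp (-(tau q ρ + c) * ((t.1 : ℝ) - u.1)) *
          (C₁ * B t t' * Real.exp (-tau q ρ * ((t'.1 : ℝ) - t.1))) *
          Real.exp (-(tau q ρ + c) * ((v.1 : ℝ) - t'.1)) :=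
        mul_le_mul_of_nonneg_right (mul_le_mul_of_nonneg_left (hUS t t' h3) (Real.exp_pos _).le)
          (Real.exp_pos _).le
    _ ≤ (Real.exp (-tau q ρ * ((t.1 : ℝ) - u.1)) * Real.exp (-c₀ * ((t.1 : ℝ) - u.1))) *
          (C₁ * B t t' * Real.exp (-tau q ρ * ((t'.1 : ℝ) - t.1))) *
          (Real.exp (-tau q ρ * ((v.1 : ℝ) - t'.1)) * Real.exp (-c₀ * ((v.1 : ℝ) - t'.1))) :=
        mul_le_mul (mul_le_mul_of_nonneg_right e1 e4) e2 (Real.exp_pos _).le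
          (mul_nonneg (by positivity) e4)
    _ = C₁ * Real.exp (-tau q ρ * ((v.1 : ℝ) - u.1)) *
          (Real.exp (-c₀ * ((t.1 : ℝ) - u.1)) * B t t' * Real.exp (-c₀ * ((v.1 : ℝ) - t'.1))) := by
        rw [e3]
        ring

/-- `US` from a bound of the mass of the chains. -/
private theorem US34 (hq : 1 ≤ q) (hρ : 0 < ρ) {s : ℝ} (hs : 0 < s) (hs1 : s < 1)
    (hFG : ∀ (a b : ℤ × ℤ) (γ : Gr), a ≠ b → γ ∈ Dm a b → 0 ≤ FG q ρ a b γ)
    (F : Pool.Agent.Helper18.WK.Law)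
    (hF : ∀ (l : ℕ) (h : ℤ), F.f l h = fI q ρ ((l : ℤ), h) * Real.exp (tau q ρ * l))
    {t t' : ℤ × ℤ} {b : ℝ} (hb : 0 ≤ b) (n : ℕ) (hn : t'.1 - t.1 = n)
    (hG : Pool.Agent.Helper18.WK.G (Pool.Agent.Helper18.WK.Kd F (1 - s)) n t.2 t'.2 ≤
      ENNReal.ofReal b) :
    US q ρ s t t' ≤ b * Real.exp (-tau q ρ * ((t'.1 : ℝ) - t.1)) := by
  have h1 := (US_le_G hq hρ hs hs1 hFG F hF n hn).trans hG
  rw [ENNReal.ofReal_le_ofReal_iff hb] at h1
  have h2 : ((t'.1 : ℝ) - t.1) = (n : ℝ) := by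
    have : ((t'.1 - t.1 : ℤ) : ℝ) = ((n : ℤ) : ℝ) := by rw [hn]
    push_cast at this
    exact this
  rw [h2]
  have h3 : Real.exp (tau q ρ * n) * Real.exp (-tau q ρ * n) = 1 := by
    rw [← Real.exp_add]
    simp
  calc US q ρ s t t' = (US q ρ s t t' * Real.exp (tau q ρ * n)) * Real.exp (-tau q ρ * n) := by
        rw [mul_assoc, h3, mul_one]
    _ ≤ b * Real.exp (-tau q ρ * n) := mul_le_mul_of_nonneg_right h1 (Real.exp_pos _).le

private theorem zero34 (K : Pool.Agent.Helper18.WK.Ker) (x y : ℤ) :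
    Pool.Agent.Helper18.WK.G K 0 x y ≤ 1 := by
  rw [Pool.Agent.Helper18.WK.G_zero]
  split_ifs
  · exact le_rfl
  · exact bot_le

private theorem one34 (u v : ℤ × ℤ) : (1 : ℝ) ≤ (1 + |(u.2 : ℝ)|) * (1 + |(v.2 : ℝ)|) := by
  have h1 := abs_nonneg (u.2 : ℝ)
  have h2 := abs_nonneg (v.2 : ℝ)
  exact one_le_mul_of_one_le_of_one_le (by linarith) (by linarith)

private theorem p32_zero34 : p32 0 = 1 := by
  unfold p32
  simp

private theorem p32_nat34 {n : ℕ} (hn : 1 ≤ n) : p32 (n : ℤ) = 1 / ((n : ℝ) * Real.sqrt n) := by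
  unfold p32
  have h1 : max (n : ℤ) 1 = (n : ℤ) := max_eq_left (by exact_mod_cast hn)
  rw [h1]
  push_cast
  rfl

theorem two_pt (hq : 1 ≤ q) (hρ' : 0 < ρ') (h : ρ' < ρ) (hE : Pool.Helper49.FK.ExpW q ρ)
    (hFG : ∀ (a b : ℤ × ℤ) (γ : Gr), a ≠ b → γ ∈ Dm a b → 0 ≤ FG q ρ a b γ)
    (F : Pool.Agent.Helper18.WK.Law)
    (hF : ∀ (l : ℕ) (h : ℤ), F.f l h = fI q ρ ((l : ℤ), h) * Real.exp (tau q ρ * l)) :
    ∃ C : ℝ, 0 < C ∧ ∀ (D : Finset (ℤ × ℤ)) (u v : ℤ × ℤ), u ∈ D → u.1 ≤ v.1 →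
      G q (dfc ρ ρ') D u v ≤ C * ((1 + |(u.2 : ℝ)|) * (1 + |(v.2 : ℝ)|) * p32 (v.1 - u.1)) *
        Real.exp (-tau q ρ * ((v.1 : ℝ) - u.1)) := by
  have hρ : 0 < ρ := hρ'.trans h
  have hq0 : 0 < q := lt_of_lt_of_le one_pos hq
  obtain ⟨s, C, c, hs, hs1, hC, hc, hG⟩ := G_dfc_US hq hρ' h hE
  obtain ⟨C₁, hC₁, hE1⟩ := Pool.Agent.Helper18.WK.e1 F (δ := 1 - s) (by linarith) (by linarith)
  obtain ⟨C₂, hC₂, hconv⟩ := conv_two hc
  obtain ⟨C₃, hC₃, hexp⟩ := exp_le_p32 hc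
  have hUS : ∀ t t' : ℤ × ℤ, (t = t' ∨ t.1 < t'.1) →
      US q ρ s t t' ≤ (C₁ + 1) * ((1 + |(t.2 : ℝ)|) * (1 + |(t'.2 : ℝ)|) * p32 (t'.1 - t.1)) *
        Real.exp (-tau q ρ * ((t'.1 : ℝ) - t.1)) := by
    intro t t' htt
    have hp := p32_pos (t'.1 - t.1)
    have hb : 0 ≤ (C₁ + 1) * ((1 + |(t.2 : ℝ)|) * (1 + |(t'.2 : ℝ)|) * p32 (t'.1 - t.1)) := by
      positivity
    rcases htt with htt | htt
    · subst htt
      refine US34 hq hρ hs hs1 hFG F hF hb 0 (by simp) ((zero34 _ _ _).trans ?_)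
      rw [← ENNReal.ofReal_one]
      refine ENNReal.ofReal_le_ofReal ?_
      rw [sub_self, p32_zero34, mul_one]
      have h1 := one34 t t
      have h2 : 0 ≤ C₁ * ((1 + |(t.2 : ℝ)|) * (1 + |(t.2 : ℝ)|)) := by positivity
      linarith
    · obtain ⟨n, hn⟩ := Int.eq_ofNat_of_zero_le (show 0 ≤ t'.1 - t.1 by omega)
      have hn1 : 1 ≤ n := by omega
      refine US34 hq hρ hs hs1 hFG F hF hb n hn ((hE1 n t.2 t'.2 hn1).trans ?_)
      refine ENNReal.ofReal_le_ofReal ?_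
      rw [hn, p32_nat34 hn1]
      have h2 : 0 ≤ (1 + |(t.2 : ℝ)|) * (1 + |(t'.2 : ℝ)|) * (1 / ((n : ℝ) * Real.sqrt n)) := by
        positivity
      have h3 : C₁ * (1 + |(t.2 : ℝ)|) * (1 + |(t'.2 : ℝ)|) / ((n : ℝ) * Real.sqrt n) =
          C₁ * ((1 + |(t.2 : ℝ)|) * (1 + |(t'.2 : ℝ)|) * (1 / ((n : ℝ) * Real.sqrt n))) := by ring
      rw [h3]
      linarith
  refine ⟨C * C₃ + C * ((C₁ + 1) * C₂) + 1, by positivity, ?_⟩
  intro D u v hu huv
  have hp := p32_pos (v.1 - u.1)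
  have h1 := one34 u v
  rcases huv.eq_or_lt with heq | hlt
  · have h2 : G q (dfc ρ ρ') D u v ≤ 1 := by
      refine G_le_one hq0 (fun e => ?_) u v
      unfold dfc
      split_ifs
      · exact hρ'.le
      · exact hρ.le
    refine h2.trans ?_
    rw [heq, sub_self, sub_self, mul_zero, Real.exp_zero, p32_zero34, mul_one, mul_one]
    have h3 : 0 ≤ (C * C₃ + C * ((C₁ + 1) * C₂)) * ((1 + |(u.2 : ℝ)|) * (1 + |(v.2 : ℝ)|)) := by
      positivity
    linarith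
  · refine (hG D u v hu hlt).trans ?_
    have h4 := sum34 (q := q) (ρ := ρ) (s := s) (c := c) (u := u) (v := v) le_rfl
      (by positivity : (0 : ℝ) ≤ C₁ + 1)
      (B := fun t t' => (1 + |(t.2 : ℝ)|) * (1 + |(t'.2 : ℝ)|) * p32 (t'.1 - t.1))
      (fun t t' => by
        have := p32_pos (t'.1 - t.1)
        positivity) hUS
    have h5 := hconv u v hlt
    set E := Real.exp (-tau q ρ * ((v.1 : ℝ) - u.1)) with hE'
    have hE0 : 0 < E := Real.exp_pos _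
    set P := (1 + |(u.2 : ℝ)|) * (1 + |(v.2 : ℝ)|) * p32 (v.1 - u.1) with hP
    have hP0 : 0 < P := by positivity
    have h6 : Real.exp (-(tau q ρ + c) * ((v.1 : ℝ) - u.1)) ≤ C₃ * P * E := by
      have e1 : Real.exp (-(tau q ρ + c) * ((v.1 : ℝ) - u.1)) =
          Real.exp (-c * ((v.1 : ℝ) - u.1)) * E := by
        rw [hE', ← Real.exp_add]
        congr 1
        ring
      rw [e1]
      refine mul_le_mul_of_nonneg_right ?_ hE0.le
      have e2 := hexp (v.1 - u.1) (by omega)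
      push_cast at e2
      refine e2.trans (mul_le_mul_of_nonneg_left ?_ hC₃.le)
      rw [hP]
      exact le_mul_of_one_le_left hp.le h1
    have h7 := h4.trans (mul_le_mul_of_nonneg_left h5 (by positivity))
    calc _ ≤ C * (C₃ * P * E) + C * ((C₁ + 1) * E * (C₂ * P)) :=
          add_le_add (mul_le_mul_of_nonneg_left h6 hC.le) (mul_le_mul_of_nonneg_left h7 hC.le)
      _ = (C * C₃ + C * ((C₁ + 1) * C₂)) * P * E := by ring
      _ ≤ (C * C₃ + C * ((C₁ + 1) * C₂) + 1) * P * E := by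
          have : 0 ≤ P * E := by positivity
          linarith

theorem two_far (hq : 1 ≤ q) (hρ' : 0 < ρ') (h : ρ' < ρ) (hE : Pool.Helper49.FK.ExpW q ρ)
    (hFG : ∀ (a b : ℤ × ℤ) (γ : Gr), a ≠ b → γ ∈ Dm a b → 0 ≤ FG q ρ a b γ)
    (F : Pool.Agent.Helper18.WK.Law)
    (hF : ∀ (l : ℕ) (h : ℤ), F.f l h = fI q ρ ((l : ℤ), h) * Real.exp (tau q ρ * l)) :
    ∃ C c : ℝ, 0 < C ∧ 0 < c ∧ ∀ (D : Finset (ℤ × ℤ)) (u v : ℤ × ℤ), u ∈ D → u.1 ≤ v.1 →
      (v.1 : ℝ) - u.1 ≤ 16 * |(v.2 : ℝ) - u.2| →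
      G q (dfc ρ ρ') D u v ≤ C * Real.exp (-tau q ρ * ((v.1 : ℝ) - u.1) - c * |(v.2 : ℝ) - u.2|) := by
  have hρ : 0 < ρ := hρ'.trans h
  have hq0 : 0 < q := lt_of_lt_of_le one_pos hq
  have hτ : 0 < tau q ρ := Pool.Helper17.OZ.tau_pos hq hρ (Pool.Helper17.OZ.expW_link hq hρ hE)
  obtain ⟨s, C, c, hs, hs1, hC, hc, hG⟩ := G_dfc_US hq hρ' h hE
  obtain ⟨C₁, c₁, hC₁, hc₁, hE1⟩ := Pool.Agent.Helper18.WK.u_gauss F
  have hc₀ : 0 < min c c₁ := lt_min hc hc₁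
  obtain ⟨C₂, c₂, hC₂, hc₂, hconv⟩ := conv_exp hc₀
  set c₀ := min c c₁ with hc₀def
  have hr0 : ∀ e, 0 ≤ dfc ρ ρ' e := by
    intro e
    unfold dfc
    split_ifs
    · exact hρ'.le
    · exact hρ.le
  have hUS : ∀ t t' : ℤ × ℤ, (t = t' ∨ t.1 < t'.1) →
      US q ρ s t t' ≤ (C₁ + 1) * Real.exp (-c₀ * ((t'.2 : ℝ) - t.2) ^ 2 /
        (((t'.1 : ℝ) - t.1) + |(t'.2 : ℝ) - t.2| + 1)) *
        Real.exp (-tau q ρ * ((t'.1 : ℝ) - t.1)) := by
    intro t t' htt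
    have hb : 0 ≤ (C₁ + 1) * Real.exp (-c₀ * ((t'.2 : ℝ) - t.2) ^ 2 /
        (((t'.1 : ℝ) - t.1) + |(t'.2 : ℝ) - t.2| + 1)) := by positivity
    rcases htt with htt | htt
    · subst htt
      refine US34 hq hρ hs hs1 hFG F hF hb 0 (by simp) ((zero34 _ _ _).trans ?_)
      rw [← ENNReal.ofReal_one]
      refine ENNReal.ofReal_le_ofReal ?_
      simp only [sub_self, ne_eq, OfNat.ofNat_ne_zero, not_false_eq_true, zero_pow, mul_zero,
        zero_div, Real.exp_zero, mul_one]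
      linarith
    · obtain ⟨n, hn⟩ := Int.eq_ofNat_of_zero_le (show 0 ≤ t'.1 - t.1 by omega)
      have hn1 : 1 ≤ n := by omega
      have hnR : (1 : ℝ) ≤ (n : ℝ) := by exact_mod_cast hn1
      refine US34 hq hρ hs hs1 hFG F hF hb n hn ?_
      refine (Pool.Agent.Helper18.WK.g_mono
        (Pool.Agent.Helper18.WK.kd_le F (by linarith : (0 : ℝ) < 1 - s)) n t.2 t'.2).trans ?_
      rw [Pool.Agent.Helper18.WK.u_eq]
      refine ENNReal.ofReal_le_ofReal ((hE1 n (t'.2 - t.2) hn1).trans ?_)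
      have h2 : ((t'.1 : ℝ) - t.1) = (n : ℝ) := by
        have : ((t'.1 - t.1 : ℤ) : ℝ) = ((n : ℤ) : ℝ) := by rw [hn]
        push_cast at this
        exact this
      rw [h2]
      push_cast
      have hy := abs_nonneg ((t'.2 : ℝ) - t.2)
      have hy2 := sq_nonneg ((t'.2 : ℝ) - t.2)
      have e1 : C₁ / Real.sqrt n ≤ C₁ + 1 := by
        have : 1 ≤ Real.sqrt n := Real.one_le_sqrt.2 hnR
        have e2 : C₁ / Real.sqrt n ≤ C₁ := div_le_self hC₁.le this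
        linarith
      have e3 : Real.exp (-c₁ * ((t'.2 : ℝ) - t.2) ^ 2 / ((n : ℝ) + |(t'.2 : ℝ) - t.2|)) ≤
          Real.exp (-c₀ * ((t'.2 : ℝ) - t.2) ^ 2 / ((n : ℝ) + |(t'.2 : ℝ) - t.2| + 1)) := by
        refine Real.exp_le_exp.2 ?_
        rw [neg_mul, neg_mul, neg_div, neg_div]
        refine neg_le_neg ?_
        have hle : c₀ ≤ c₁ := min_le_right _ _
        exact div_le_div₀ (by positivity) (mul_le_mul_of_nonneg_right hle hy2)
          (by linarith) (by linarith)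
      exact mul_le_mul e1 e3 (Real.exp_pos _).le (by positivity)
  set c₃ := min (c / 8) (min c₂ (tau q ρ / 2)) with hc₃
  have hc₃0 : 0 < c₃ := lt_min (by positivity) (lt_min hc₂ (by positivity))
  have k1 : c₃ ≤ c / 8 := min_le_left _ _
  have k2 : c₃ ≤ c₂ := (min_le_right _ _).trans (min_le_left _ _)
  have k3 : c₃ ≤ tau q ρ / 2 := (min_le_right _ _).trans (min_le_right _ _)
  refine ⟨C + C * ((C₁ + 1) * C₂) + 1, c₃, by positivity, hc₃0, ?_⟩
  intro D u v hu huv hfar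
  set m : ℝ := (v.1 : ℝ) - u.1 with hm
  set y : ℝ := |(v.2 : ℝ) - u.2| with hy
  have hy0 : 0 ≤ y := abs_nonneg _
  have hm0 : 0 ≤ m := by
    have : (u.1 : ℝ) ≤ v.1 := by exact_mod_cast huv
    rw [hm]
    linarith
  have hEy : 0 < Real.exp (-tau q ρ * m - c₃ * y) := Real.exp_pos _
  by_cases hcase : 8 * m < y
  · have h1 : G q (dfc ρ ρ') D u v ≤ G q (hom ρ) D u v := by
      refine G_mono_r hq hr0 (fun e => ?_) u v
      unfold dfc hom
      split_ifs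
      · exact h.le
      · exact le_rfl
    have h2 : GI q ρ u v = GI q ρ (0, 0) (v - u) := by
      have h3 := GI_tr (q := q) hq hρ.le u (0, 0) (v - u)
      rw [sub_add_cancel] at h3
      rw [← h3]
      congr 1
      ext <;> simp
    have h4 := Pool.Helper17.OZ.GI_le_tau hq hρ (v - u)
    have h5 : y ≤ ((nd (0, 0) (v - u) : ℤ) : ℝ) := by
      have : |v.2 - u.2| ≤ nd (0, 0) (v - u) := by
        unfold nd
        refine le_trans (le_of_eq ?_) (le_max_right _ _)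
        rw [← abs_neg]
        congr 1
        simp
      rw [hy]
      have h6 : ((|v.2 - u.2| : ℤ) : ℝ) ≤ ((nd (0, 0) (v - u) : ℤ) : ℝ) := by exact_mod_cast this
      push_cast at h6
      exact h6
    calc G q (dfc ρ ρ') D u v ≤ GI q ρ u v := h1.trans (G_le_GI hq hρ.le D u v)
      _ ≤ Real.exp (-tau q ρ * ((nd (0, 0) (v - u) : ℤ) : ℝ)) := by rw [h2]; exact h4
      _ ≤ Real.exp (-tau q ρ * m - c₃ * y) := by
          refine Real.exp_le_exp.2 ?_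
          have e1 : tau q ρ * y ≤ tau q ρ * ((nd (0, 0) (v - u) : ℤ) : ℝ) :=
            mul_le_mul_of_nonneg_left h5 hτ.le
          have e2 : tau q ρ * m ≤ tau q ρ * (y / 8) :=
            mul_le_mul_of_nonneg_left (by linarith) hτ.le
          have e3 : c₃ * y ≤ tau q ρ / 2 * y := mul_le_mul_of_nonneg_right k3 hy0
          have e4 : 0 ≤ tau q ρ * y := by positivity
          linarith
      _ ≤ (C + C * ((C₁ + 1) * C₂) + 1) * Real.exp (-tau q ρ * m - c₃ * y) := by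
          refine le_mul_of_one_le_left hEy.le ?_
          have : 0 < C + C * ((C₁ + 1) * C₂) := by positivity
          linarith
  · push Not at hcase
    rcases huv.eq_or_lt with heq | hlt
    · have h2 : G q (dfc ρ ρ') D u v ≤ 1 := G_le_one hq0 hr0 u v
      have hmz : m = 0 := by rw [hm, heq, sub_self]
      have hyz : y = 0 := by
        rw [hmz] at hcase
        linarith
      rw [hmz, hyz, mul_zero, mul_zero, sub_zero, Real.exp_zero, mul_one]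
      have : 0 < C + C * ((C₁ + 1) * C₂) := by positivity
      linarith
    · refine (hG D u v hu hlt).trans ?_
      have h4 := sum34 (q := q) (ρ := ρ) (s := s) (c := c) (c₀ := c₀) (u := u) (v := v)
        (min_le_left _ _) (by positivity : (0 : ℝ) ≤ C₁ + 1)
        (B := fun t t' => Real.exp (-c₀ * ((t'.2 : ℝ) - t.2) ^ 2 /
          (((t'.1 : ℝ) - t.1) + |(t'.2 : ℝ) - t.2| + 1)))
        (fun t t' => (Real.exp_pos _).le) hUS
      have h5 := hconv u v hlt hfar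
      have h7 := h4.trans (mul_le_mul_of_nonneg_left h5 (by positivity))
      have h6 : Real.exp (-(tau q ρ + c) * m) ≤ Real.exp (-tau q ρ * m - c₃ * y) := by
        refine Real.exp_le_exp.2 ?_
        have e1 : c₃ * y ≤ c / 8 * y := mul_le_mul_of_nonneg_right k1 hy0
        have e2 : c / 8 * y ≤ c / 8 * (8 * m) := mul_le_mul_of_nonneg_left hcase (by positivity)
        have e3 : c / 8 * (8 * m) = c * m := by ring
        linarith
      have h8 : Real.exp (-tau q ρ * m) * Real.exp (-c₂ * y) ≤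
          Real.exp (-tau q ρ * m - c₃ * y) := by
        rw [← Real.exp_add]
        refine Real.exp_le_exp.2 ?_
        have e1 : c₃ * y ≤ c₂ * y := mul_le_mul_of_nonneg_right k2 hy0
        linarith
      calc _ ≤ C * Real.exp (-tau q ρ * m - c₃ * y) +
            C * ((C₁ + 1) * Real.exp (-tau q ρ * m) * (C₂ * Real.exp (-c₂ * y))) :=
            add_le_add (mul_le_mul_of_nonneg_left h6 hC.le) (mul_le_mul_of_nonneg_left h7 hC.le)
        _ = C * Real.exp (-tau q ρ * m - c₃ * y) +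
            C * ((C₁ + 1) * C₂) * (Real.exp (-tau q ρ * m) * Real.exp (-c₂ * y)) := by ring
        _ ≤ C * Real.exp (-tau q ρ * m - c₃ * y) +
            C * ((C₁ + 1) * C₂) * Real.exp (-tau q ρ * m - c₃ * y) :=
            add_le_add le_rfl (mul_le_mul_of_nonneg_left h8 (by positivity))
        _ ≤ (C + C * ((C₁ + 1) * C₂) + 1) * Real.exp (-tau q ρ * m - c₃ * y) := by
            linarith

end Pool.Helper83.OZ
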