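import Pool.Agent.Helper83.OZ.Tri2
import Pool.Agent.Helper83.OZ.Two

/-!
Project OZ (MP_7e0861_pr), part L5, block NC: the three point bound with the defect line.

`nc`: `tri_split` with `WD_join_le` (`ExpW.decay`), `two_pt` for `G u t` and `G t' v` (`u.2 = v.2 = 0`), `nocp_le` (`α = ρ'`, the
odds `dfc ρ ρ'` are in `[ρ', ρ]`) for `nocp`, `conv_three`; the term `nocp u v` by `exp_le_p32` (twice: `v.1 - u.1 =
(x.1 - u.1) + (v.1 - x.1)`).
`nc_far`: for the pairs with `p.2.1 - p.1.1 ≥ |x.2| / 64` use `G u t ≤ e^{-tau (t.1 - u.1)}`, `G t' v ≤ e^{-tau (v.1 - t'.1)}`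
(`G_le_tau`), `nocp_le` and half of the exponential; otherwise `|t.2 - u.2| ≥ |x.2| - 16 |x.2| / 64 - 1 ≥ |x.2| / 2` for
`|x.2| ≥ 4`, so `t.1 - u.1 ≤ v.1 - u.1 ≤ 8 |x.2| ≤ 16 |t.2 - u.2|` and `two_far` gives `G u t ≤ C e^{-tau (t.1 - u.1) - c |x.2| / 2}`.
Sum with `conv_count`. `nocp u v ≤ C e^{-(tau + c) (v.1 - u.1)}`: if `|x.2| ≤ 16 (v.1 - u.1)` fine; otherwise, as all graphs
containing `x` and `u`, use `G u x ≤ GI ≤ e^{-tau |x.2 - u.2|}` (`GI_le_tau`), `|x.2| - 1 ≥ 15 (v.1 - u.1)`: the whole sum is at most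
`G u x`. For `|x.2| < 4` all quantities are bounded.
-/

namespace Pool.Helper83.OZ

open Pool.Helper49.FK
open Pool.Helper17.OZ (Y CP Dbl NoCP nd rect tau)
open Pool.Helper95.OZ (FG fI)

variable {q ρ ρ' : ℝ}

private theorem dfc34 {ρ ρ' : ℝ} (h : ρ' < ρ) (e : Edge) : ρ' ≤ dfc ρ ρ' e ∧ dfc ρ ρ' e ≤ ρ := by
  unfold dfc
  split_ifs
  · exact ⟨le_rfl, h.le⟩
  · exact ⟨h.le, le_rfl⟩

private theorem G_far34 {r : Edge → ℝ} {D : Finset (ℤ × ℤ)} (hq : 1 ≤ q) (hρ : 0 < ρ)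
    (hτ : 0 < tau q ρ) (hr : ∀ e, 0 ≤ r e ∧ r e ≤ ρ) (u v : ℤ × ℤ) :
    G q r D u v ≤ Real.exp (-tau q ρ * |(v.2 : ℝ) - u.2|) := by
  have h1 : G q r D u v ≤ G q (hom ρ) D u v :=
    G_mono_r hq (fun e => (hr e).1) (fun e => (hr e).2) u v
  have h2 : GI q ρ u v = GI q ρ (0, 0) (v - u) := by
    have h3 := GI_tr (q := q) hq hρ.le u (0, 0) (v - u)
    rw [sub_add_cancel] at h3
    rw [← h3]
    congr 1
    ext <;> simp
  have h4 := Pool.Helper17.OZ.GI_le_tau hq hρ (v - u)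
  have h5 : |(v.2 : ℝ) - u.2| ≤ ((nd (0, 0) (v - u) : ℤ) : ℝ) := by
    have : |v.2 - u.2| ≤ nd (0, 0) (v - u) := by
      unfold nd
      refine le_trans (le_of_eq ?_) (le_max_right _ _)
      rw [← abs_neg]
      congr 1
      simp
    have h6 : ((|v.2 - u.2| : ℤ) : ℝ) ≤ ((nd (0, 0) (v - u) : ℤ) : ℝ) := by exact_mod_cast this
    push_cast at h6
    exact h6
  calc G q r D u v ≤ GI q ρ u v := h1.trans (G_le_GI hq hρ.le D u v)
    _ ≤ Real.exp (-tau q ρ * ((nd (0, 0) (v - u) : ℤ) : ℝ)) := by rw [h2]; exact h4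
    _ ≤ Real.exp (-tau q ρ * |(v.2 : ℝ) - u.2|) := by
        refine Real.exp_le_exp.2 ?_
        have e1 : tau q ρ * |(v.2 : ℝ) - u.2| ≤ tau q ρ * ((nd (0, 0) (v - u) : ℤ) : ℝ) :=
          mul_le_mul_of_nonneg_left h5 hτ.le
        linarith

open Classical in
private theorem sum_le34 {r : Edge → ℝ} {D : Finset (ℤ × ℤ)} (hq : 0 < q) (hr : ∀ e, 0 ≤ r e)
    {u v x : ℤ × ℤ} (hu : u ∈ D) :
    ∑ γ ∈ (Cl D u v).filter (fun γ => x ∈ γ.1), WD q r D γ ≤ G q r D u x := by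
  rw [G_sum hq hr hu]
  refine Finset.sum_le_sum_of_subset_of_nonneg ?_ fun γ _ _ => WD_nonneg hq hr γ
  intro γ hγ
  rw [Finset.mem_filter] at hγ
  rw [mem_Cl] at hγ ⊢
  exact ⟨hγ.1.1, hγ.1.2.1, hγ.1.2.2.1, hγ.2⟩

private theorem prs34 {u v x : ℤ × ℤ} {p : (ℤ × ℤ) × (ℤ × ℤ)}
    (hp : p ∈ prs u v x) : u.1 ≤ p.1.1 ∧ p.2.1 ≤ v.1 ∧ p.1.1 < p.2.1 ∧
      |x.2 - p.1.2| ≤ 16 * (p.2.1 - p.1.1) := by
  classical
  unfold prs at hp
  rw [Finset.mem_filter, Finset.mem_product] at hp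
  obtain ⟨⟨h1, h2⟩, h3, h4, h5, h6, h7⟩ := hp
  refine ⟨?_, ?_, h5, h6⟩
  · rcases Finset.mem_insert.1 h1 with h | h
    · rw [h]
    · exact (mem_cyl.1 h).1.le
  · rcases Finset.mem_insert.1 h2 with h | h
    · rw [h]
    · exact (mem_cyl.1 h).2.1.le

private theorem exp3_34 (τ c a b m l e : ℝ) (h : a + l + b = m) :
    Real.exp (-τ * a) * Real.exp (-(τ + c) * l) * (Real.exp (-τ * b) * Real.exp (-e)) =
      Real.exp (-c * l) * Real.exp (-τ * m - e) := by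
  rw [← Real.exp_add, ← Real.exp_add, ← Real.exp_add, ← Real.exp_add, ← h]
  congr 1
  ring

open Classical in
theorem nc (hq : 1 ≤ q) (hρ' : 0 < ρ') (h : ρ' < ρ) (hE : Pool.Helper49.FK.ExpW q ρ)
    (hFG : ∀ (a b : ℤ × ℤ) (γ : Gr), a ≠ b → γ ∈ Dm a b → 0 ≤ FG q ρ a b γ)
    (F : Pool.Agent.Helper18.WK.Law)
    (hF : ∀ (l : ℕ) (h : ℤ), F.f l h = fI q ρ ((l : ℤ), h) * Real.exp (tau q ρ * l)) :
    ∃ C : ℝ, 0 < C ∧ ∀ (a b e d : ℤ) (u v x : ℤ × ℤ), u ∈ rect a b e d → v ∈ rect a b e d → u.1 < v.1 →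
      u.2 = 0 → v.2 = 0 → u.1 ≤ x.1 → x.1 ≤ v.1 →
      ∑ γ ∈ (Cl (rect a b e d) u v).filter (fun γ => x ∈ γ.1), WD q (dfc ρ ρ') (rect a b e d) γ ≤
        C * ((1 + |(x.2 : ℝ)|) ^ 2 * p32 (x.1 - u.1) * p32 (v.1 - x.1)) *
          Real.exp (-tau q ρ * ((v.1 : ℝ) - u.1)) := by
  have hρ : 0 < ρ := hρ'.trans h
  have hq0 : 0 < q := lt_of_lt_of_le one_pos hq
  obtain ⟨κ, hκ, hκ1, hJ⟩ := WD_join_le hq hρ (hE.decay hq hρ)
  obtain ⟨C₀, c, hC₀, hc, hN⟩ := nocp_le hq hρ' h.le hE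
  obtain ⟨C₁, hC₁, hT⟩ := two_pt hq hρ' h hE hFG F hF
  obtain ⟨C₃, hC₃, hexp⟩ := exp_le_p32 hc
  obtain ⟨C₄, hC₄, hconv⟩ := conv_three hc
  refine ⟨(κ ^ 2)⁻¹ * (C₀ * C₃ ^ 2 + C₁ ^ 2 * C₀ * C₄), by positivity, ?_⟩
  intro a b e d u v x hu hv huv hu2 hv2 hux hxv
  set D := rect a b e d with hD
  set τ := tau q ρ with hτ
  have hr1 : ∀ e, ρ' ≤ dfc ρ ρ' e ∧ dfc ρ ρ' e ≤ ρ := dfc34 h
  have hr0 : ∀ e, 0 ≤ dfc ρ ρ' e := fun e => hρ'.le.trans (hr1 e).1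
  have hr2 : ∀ e, 0 ≤ dfc ρ ρ' e ∧ dfc ρ ρ' e ≤ ρ := fun e => ⟨hr0 e, (hr1 e).2⟩
  have hsplit := tri_split (D := D) (r := dfc ρ ρ') hq0 hr0 hκ hκ1 (fun γ δ m hm => hJ D _ hr2 γ δ m hm) huv hux hxv
  set P := (1 + |(x.2 : ℝ)|) ^ 2 * p32 (x.1 - u.1) * p32 (v.1 - x.1) with hP
  have hp1 := p32_pos (x.1 - u.1)
  have hp2 := p32_pos (v.1 - x.1)
  set E := Real.exp (-τ * ((v.1 : ℝ) - u.1)) with hEdef
  have hE0 : 0 < E := Real.exp_pos _

  have k1 : nocp q (dfc ρ ρ') D u v ≤ C₀ * C₃ ^ 2 * P * E := by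
    have e1 := hN (dfc ρ ρ') hr1 a b e d u v hu hv huv
    have e2 : Real.exp (-(τ + c) * ((v.1 : ℝ) - u.1)) =
        Real.exp (-c * ((x.1 : ℝ) - u.1)) * Real.exp (-c * ((v.1 : ℝ) - x.1)) * E := by
      rw [hEdef, ← Real.exp_add, ← Real.exp_add]
      congr 1
      ring
    have e3 := hexp (x.1 - u.1) (by omega)
    have e4 := hexp (v.1 - x.1) (by omega)
    push_cast at e3 e4
    have e5 : Real.exp (-c * ((x.1 : ℝ) - u.1)) * Real.exp (-c * ((v.1 : ℝ) - x.1)) ≤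
        (C₃ * p32 (x.1 - u.1)) * (C₃ * p32 (v.1 - x.1)) :=
      mul_le_mul e3 e4 (Real.exp_pos _).le (by positivity)
    have e6 : (C₃ * p32 (x.1 - u.1)) * (C₃ * p32 (v.1 - x.1)) ≤ C₃ ^ 2 * P := by
      have e7 : (1 : ℝ) ≤ (1 + |(x.2 : ℝ)|) ^ 2 := by
        have := abs_nonneg (x.2 : ℝ)
        exact one_le_pow₀ (by linarith)
      have e8 : C₃ ^ 2 * P = (1 + |(x.2 : ℝ)|) ^ 2 * (C₃ ^ 2 * (p32 (x.1 - u.1) * p32 (v.1 - x.1))) := by
        rw [hP]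
        ring
      rw [e8]
      have e9 : (C₃ * p32 (x.1 - u.1)) * (C₃ * p32 (v.1 - x.1)) =
          C₃ ^ 2 * (p32 (x.1 - u.1) * p32 (v.1 - x.1)) := by ring
      rw [e9]
      exact le_mul_of_one_le_left (by positivity) e7
    rw [e2] at e1
    calc nocp q (dfc ρ ρ') D u v
        ≤ C₀ * (Real.exp (-c * ((x.1 : ℝ) - u.1)) * Real.exp (-c * ((v.1 : ℝ) - x.1)) * E) := e1
      _ ≤ C₀ * (C₃ ^ 2 * P * E) := by
          refine mul_le_mul_of_nonneg_left ?_ hC₀.le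
          exact mul_le_mul_of_nonneg_right (e5.trans e6) hE0.le
      _ = C₀ * C₃ ^ 2 * P * E := by ring

  have k2 : ∑ p ∈ (prs u v x).filter (fun p => p.1 ∈ D ∧ p.2 ∈ D),
      G q (dfc ρ ρ') D u p.1 * nocp q (dfc ρ ρ') D p.1 p.2 * G q (dfc ρ ρ') D p.2 v ≤
      C₁ ^ 2 * C₀ * C₄ * P * E := by
    have hterm0 : ∀ p : (ℤ × ℤ) × (ℤ × ℤ), 0 ≤ (1 + |(p.1.2 : ℝ)|) * p32 (p.1.1 - u.1) *
        Real.exp (-c * ((p.2.1 : ℝ) - p.1.1)) * ((1 + |(p.2.2 : ℝ)|) * p32 (v.1 - p.2.1)) := by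
      intro p
      have e1 := p32_pos (p.1.1 - u.1)
      have e2 := p32_pos (v.1 - p.2.1)
      positivity
    have hstep : ∑ p ∈ (prs u v x).filter (fun p => p.1 ∈ D ∧ p.2 ∈ D),
        G q (dfc ρ ρ') D u p.1 * nocp q (dfc ρ ρ') D p.1 p.2 * G q (dfc ρ ρ') D p.2 v ≤
        ∑ p ∈ (prs u v x).filter (fun p => p.1 ∈ D ∧ p.2 ∈ D), (C₁ ^ 2 * C₀ * E) *
          ((1 + |(p.1.2 : ℝ)|) * p32 (p.1.1 - u.1) * Real.exp (-c * ((p.2.1 : ℝ) - p.1.1)) *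
          ((1 + |(p.2.2 : ℝ)|) * p32 (v.1 - p.2.1))) := by
      refine Finset.sum_le_sum fun p hp => ?_
      obtain ⟨hp0, hpD1, hpD2⟩ := Finset.mem_filter.1 hp
      obtain ⟨g1, g2, g3, -⟩ := prs34 hp0
      have f1 := hT D u p.1 hu g1
      have f2 := hN (dfc ρ ρ') hr1 a b e d p.1 p.2 hpD1 hpD2 g3
      have f3 := hT D p.2 v hpD2 g2
      rw [hu2] at f1
      rw [hv2] at f3
      simp only [Int.cast_zero, abs_zero, add_zero, one_mul, mul_one] at f1 f3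
      have n1 := G_nonneg (D := D) hq0 hr0 u p.1
      have n2 := nocp_nonneg (D := D) hq0 hr0 p.1 p.2
      have n3 := G_nonneg (D := D) hq0 hr0 p.2 v
      have q1 := p32_pos (p.1.1 - u.1)
      have q2 := p32_pos (v.1 - p.2.1)
      calc G q (dfc ρ ρ') D u p.1 * nocp q (dfc ρ ρ') D p.1 p.2 * G q (dfc ρ ρ') D p.2 v
          ≤ (C₁ * ((1 + |(p.1.2 : ℝ)|) * p32 (p.1.1 - u.1)) * Real.exp (-τ * ((p.1.1 : ℝ) - u.1))) *
            (C₀ * Real.exp (-(τ + c) * ((p.2.1 : ℝ) - p.1.1))) *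
            (C₁ * ((1 + |(p.2.2 : ℝ)|) * p32 (v.1 - p.2.1)) * Real.exp (-τ * ((v.1 : ℝ) - p.2.1))) :=
            mul_le_mul (mul_le_mul f1 f2 n2 (by positivity)) f3 n3 (by positivity)
        _ = C₁ ^ 2 * C₀ * ((1 + |(p.1.2 : ℝ)|) * p32 (p.1.1 - u.1) *
            ((1 + |(p.2.2 : ℝ)|) * p32 (v.1 - p.2.1))) *
            (Real.exp (-τ * ((p.1.1 : ℝ) - u.1)) * Real.exp (-(τ + c) * ((p.2.1 : ℝ) - p.1.1)) *
            (Real.exp (-τ * ((v.1 : ℝ) - p.2.1)) * Real.exp (-0))) := by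
            rw [neg_zero, Real.exp_zero]
            ring
        _ = C₁ ^ 2 * C₀ * ((1 + |(p.1.2 : ℝ)|) * p32 (p.1.1 - u.1) *
            ((1 + |(p.2.2 : ℝ)|) * p32 (v.1 - p.2.1))) *
            (Real.exp (-c * ((p.2.1 : ℝ) - p.1.1)) * E) := by
            rw [exp3_34 τ c _ _ ((v.1 : ℝ) - u.1) _ 0 (by ring), hEdef, sub_zero]
        _ = _ := by ring
    refine hstep.trans ?_
    refine (Finset.sum_le_sum_of_subset_of_nonneg (Finset.filter_subset _ _) fun p _ _ =>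
      mul_nonneg (by positivity) (hterm0 p)).trans ?_
    rw [← Finset.mul_sum]
    calc _ ≤ C₁ ^ 2 * C₀ * E * (C₄ * P) :=
          mul_le_mul_of_nonneg_left (hconv u v x huv hux hxv) (by positivity)
      _ = C₁ ^ 2 * C₀ * C₄ * P * E := by ring
  have k3 := hsplit.trans (add_le_add k1 k2)
  rw [← le_div_iff₀' (by positivity)] at k3
  refine k3.trans (le_of_eq ?_)
  rw [div_eq_inv_mul]
  ring

open Classical in
theorem nc_far (hq : 1 ≤ q) (hρ' : 0 < ρ') (h : ρ' < ρ) (hE : Pool.Helper49.FK.ExpW q ρ)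
    (hFG : ∀ (a b : ℤ × ℤ) (γ : Gr), a ≠ b → γ ∈ Dm a b → 0 ≤ FG q ρ a b γ)
    (F : Pool.Agent.Helper18.WK.Law)
    (hF : ∀ (l : ℕ) (h : ℤ), F.f l h = fI q ρ ((l : ℤ), h) * Real.exp (tau q ρ * l)) :
    ∃ C c : ℝ, 0 < C ∧ 0 < c ∧ ∀ (a b e d : ℤ) (u v x : ℤ × ℤ), u ∈ rect a b e d → v ∈ rect a b e d →
      u.1 < v.1 → |u.2| ≤ 1 → |v.2| ≤ 1 → u.1 ≤ x.1 → x.1 ≤ v.1 → (v.1 : ℝ) - u.1 ≤ 8 * |(x.2 : ℝ)| →
      ∑ γ ∈ (Cl (rect a b e d) u v).filter (fun γ => x ∈ γ.1), WD q (dfc ρ ρ') (rect a b e d) γ ≤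
        C * Real.exp (-tau q ρ * ((v.1 : ℝ) - u.1) - c * |(x.2 : ℝ)|) := by
  have hρ : 0 < ρ := hρ'.trans h
  have hq0 : 0 < q := lt_of_lt_of_le one_pos hq
  have hτ : 0 < tau q ρ := Pool.Helper17.OZ.tau_pos hq hρ (Pool.Helper17.OZ.expW_link hq hρ hE)
  obtain ⟨κ, hκ, hκ1, hJ⟩ := WD_join_le hq hρ (hE.decay hq hρ)
  obtain ⟨C₀, c, hC₀, hc, hN⟩ := nocp_le hq hρ' h.le hE
  obtain ⟨C₂, c₂, hC₂, hc₂, hF2⟩ := two_far hq hρ' h hE hFG F hF
  obtain ⟨C₅, hC₅, hconv⟩ := conv_count (half_pos hc)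
  obtain ⟨C, hCdef⟩ : ∃ C : ℝ, C = (κ ^ 2)⁻¹ * (C₀ + C₀ * (1 + C₂) * C₅) := ⟨_, rfl⟩
  have hC : 0 < C := by rw [hCdef]; positivity
  obtain ⟨c', hc'def⟩ : ∃ c' : ℝ, c' = min (c / 128) (min (c₂ / 2) (tau q ρ / 2)) := ⟨_, rfl⟩
  have hc' : 0 < c' := by
    rw [hc'def]
    exact lt_min (by positivity) (lt_min (by positivity) (by positivity))
  have m1 : c' ≤ c / 128 := by rw [hc'def]; exact min_le_left _ _
  have m2 : c' ≤ c₂ / 2 := by rw [hc'def]; exact (min_le_right _ _).trans (min_le_left _ _)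
  have m3 : c' ≤ tau q ρ / 2 := by rw [hc'def]; exact (min_le_right _ _).trans (min_le_right _ _)
  refine ⟨C + Real.exp (tau q ρ) + Real.exp (32 * tau q ρ + 4 * c'), c', by positivity, hc', ?_⟩
  intro a b e d u v x hu hv huv hu2 hv2 hux hxv hfar
  obtain ⟨τ, hτd⟩ : ∃ τ, τ = tau q ρ := ⟨_, rfl⟩
  rw [← hτd] at hτ hN hF2 m3 ⊢
  obtain ⟨D, hD⟩ : ∃ D, D = rect a b e d := ⟨_, rfl⟩
  rw [← hD] at hu hv ⊢
  obtain ⟨X, hX⟩ : ∃ X : ℝ, X = |(x.2 : ℝ)| := ⟨_, rfl⟩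
  rw [← hX] at hfar ⊢
  obtain ⟨m, hm⟩ : ∃ m : ℝ, m = (v.1 : ℝ) - u.1 := ⟨_, rfl⟩
  rw [← hm] at hfar ⊢
  have hX0 : 0 ≤ X := by rw [hX]; exact abs_nonneg _
  have hm0 : 0 < m := by
    have : (u.1 : ℝ) < v.1 := by exact_mod_cast huv
    rw [hm]
    linarith
  have hr1 : ∀ e, ρ' ≤ dfc ρ ρ' e ∧ dfc ρ ρ' e ≤ ρ := dfc34 h
  have hr0 : ∀ e, 0 ≤ dfc ρ ρ' e := fun e => hρ'.le.trans (hr1 e).1
  have hr2 : ∀ e, 0 ≤ dfc ρ ρ' e ∧ dfc ρ ρ' e ≤ ρ := fun e => ⟨hr0 e, (hr1 e).2⟩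
  have hu2R : |(u.2 : ℝ)| ≤ 1 := by exact_mod_cast hu2
  have hE1 : 0 < Real.exp τ := Real.exp_pos _
  have hE2 : 0 < Real.exp (32 * τ + 4 * c') := Real.exp_pos _
  have hE3 : 0 < Real.exp (-τ * m - c' * X) := Real.exp_pos _
  have hG := sum_le34 (q := q) (r := dfc ρ ρ') (v := v) (x := x) hq0 hr0 hu
  by_cases hA : 16 * m < X
  ·
    have e1 := G_far34 (D := D) hq hρ (by rw [← hτd]; exact hτ) hr2 u x
    rw [← hτd] at e1
    have e2 : X - 1 ≤ |(x.2 : ℝ) - u.2| := by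
      have := abs_sub_abs_le_abs_sub (x.2 : ℝ) (u.2 : ℝ)
      rw [hX]
      linarith
    have e3 : Real.exp (-τ * |(x.2 : ℝ) - u.2|) ≤ Real.exp τ * Real.exp (-τ * m - c' * X) := by
      rw [← Real.exp_add]
      refine Real.exp_le_exp.2 ?_
      have f1 : τ * (X - 1) ≤ τ * |(x.2 : ℝ) - u.2| := mul_le_mul_of_nonneg_left e2 hτ.le
      have f2 : c' * X ≤ τ / 2 * X := mul_le_mul_of_nonneg_right m3 hX0
      have f3 : τ * (16 * m) ≤ τ * X := mul_le_mul_of_nonneg_left hA.le hτ.le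
      have f4 : 0 ≤ τ * X := by positivity
      linarith
    refine (hG.trans e1).trans (e3.trans ?_)
    refine mul_le_mul_of_nonneg_right ?_ hE3.le
    linarith
  push Not at hA
  by_cases hB : X < 4
  · have e1 : G q (dfc ρ ρ') D u x ≤ 1 := G_le_one hq0 hr0 u x
    have e2 : (1 : ℝ) ≤ Real.exp (32 * τ + 4 * c') * Real.exp (-τ * m - c' * X) := by
      rw [← Real.exp_add]
      refine Real.one_le_exp ?_
      have f1 : c' * X ≤ c' * 4 := mul_le_mul_of_nonneg_left hB.le hc'.le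
      have f2 : τ * m ≤ τ * 32 := mul_le_mul_of_nonneg_left (by linarith) hτ.le
      linarith
    refine (hG.trans e1).trans (e2.trans ?_)
    refine mul_le_mul_of_nonneg_right ?_ hE3.le
    linarith
  push Not at hB
  have hsplit := tri_split (D := D) (r := dfc ρ ρ') hq0 hr0 hκ hκ1 (fun γ δ m hm => hJ D _ hr2 γ δ m hm) huv hux hxv
  have k1 : nocp q (dfc ρ ρ') D u v ≤ C₀ * Real.exp (-τ * m - c' * X) := by
    have e1 := hN (dfc ρ ρ') hr1 a b e d u v (by rw [← hD]; exact hu) (by rw [← hD]; exact hv) huv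
    rw [← hD, ← hm] at e1
    refine e1.trans (mul_le_mul_of_nonneg_left (Real.exp_le_exp.2 ?_) hC₀.le)
    have f1 : c' * X ≤ c / 128 * X := mul_le_mul_of_nonneg_right m1 hX0
    have f2 : c / 128 * X ≤ c / 128 * (16 * m) := mul_le_mul_of_nonneg_left hA (by positivity)
    have f3 : 0 ≤ c * m := by positivity
    linarith
  have k2 : ∑ p ∈ (prs u v x).filter (fun p => p.1 ∈ D ∧ p.2 ∈ D),
      G q (dfc ρ ρ') D u p.1 * nocp q (dfc ρ ρ') D p.1 p.2 * G q (dfc ρ ρ') D p.2 v ≤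
      C₀ * (1 + C₂) * C₅ * Real.exp (-τ * m - c' * X) := by
    have hstep : ∑ p ∈ (prs u v x).filter (fun p => p.1 ∈ D ∧ p.2 ∈ D),
        G q (dfc ρ ρ') D u p.1 * nocp q (dfc ρ ρ') D p.1 p.2 * G q (dfc ρ ρ') D p.2 v ≤
        ∑ p ∈ (prs u v x).filter (fun p => p.1 ∈ D ∧ p.2 ∈ D),
          (C₀ * (1 + C₂) * Real.exp (-τ * m - c' * X)) *
            Real.exp (-(c / 2) * ((p.2.1 : ℝ) - p.1.1)) := by
      refine Finset.sum_le_sum fun p hp => ?_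
      obtain ⟨hp0, hpD1, hpD2⟩ := Finset.mem_filter.1 hp
      obtain ⟨g1, g2, g3, g4⟩ := prs34 hp0
      have f2 := hN (dfc ρ ρ') hr1 a b e d p.1 p.2 (by rw [← hD]; exact hpD1)
        (by rw [← hD]; exact hpD2) g3
      rw [← hD] at f2
      have f3 := G_le_tau (D := D) hq hρ hr2 p.2 v
      rw [← hτd] at f3
      have g2' : (0 : ℝ) ≤ (v.1 : ℝ) - p.2.1 := by
        have : (p.2.1 : ℝ) ≤ v.1 := by exact_mod_cast g2
        linarith
      have g1' : (0 : ℝ) ≤ (p.1.1 : ℝ) - u.1 := by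
        have : (u.1 : ℝ) ≤ p.1.1 := by exact_mod_cast g1
        linarith
      have g3' : (0 : ℝ) ≤ (p.2.1 : ℝ) - p.1.1 := by
        have : (p.1.1 : ℝ) < p.2.1 := by exact_mod_cast g3
        linarith
      rw [abs_of_nonneg g2'] at f3
      have n1 := G_nonneg (D := D) hq0 hr0 u p.1
      have n2 := nocp_nonneg (D := D) hq0 hr0 p.1 p.2
      have n3 := G_nonneg (D := D) hq0 hr0 p.2 v
      obtain ⟨l, hl⟩ : ∃ l : ℝ, l = (p.2.1 : ℝ) - p.1.1 := ⟨_, rfl⟩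
      obtain ⟨s, hs⟩ : ∃ s : ℝ, s = (p.1.1 : ℝ) - u.1 := ⟨_, rfl⟩
      obtain ⟨w, hw⟩ : ∃ w : ℝ, w = (v.1 : ℝ) - p.2.1 := ⟨_, rfl⟩
      have hsum : s + l + w = m := by rw [hl, hs, hw, hm]; ring
      rw [← hl] at f2 g3' ⊢
      rw [← hw] at f3
      have hmain : ∀ K : ℝ, 0 ≤ K → ∀ y : ℝ, G q (dfc ρ ρ') D u p.1 ≤ K * Real.exp (-τ * s - y) →
          c' * X ≤ c / 2 * l + y → K ≤ 1 + C₂ →
          G q (dfc ρ ρ') D u p.1 * nocp q (dfc ρ ρ') D p.1 p.2 * G q (dfc ρ ρ') D p.2 v ≤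
          (C₀ * (1 + C₂) * Real.exp (-τ * m - c' * X)) * Real.exp (-(c / 2) * l) := by
        intro K hK y hy hcX hK1
        calc G q (dfc ρ ρ') D u p.1 * nocp q (dfc ρ ρ') D p.1 p.2 * G q (dfc ρ ρ') D p.2 v
            ≤ (K * Real.exp (-τ * s - y)) * (C₀ * Real.exp (-(τ + c) * l)) * Real.exp (-τ * w) :=
              mul_le_mul (mul_le_mul hy f2 n2 (by positivity)) f3 n3 (by positivity)
          _ = (C₀ * K) * Real.exp (-τ * m - y - c * l) := by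
              have e1 : Real.exp (-τ * m - y - c * l) = Real.exp (-τ * s - y) *
                  Real.exp (-(τ + c) * l) * Real.exp (-τ * w) := by
                rw [← Real.exp_add, ← Real.exp_add, ← hsum]
                congr 1
                ring
              rw [e1]
              ring
          _ ≤ (C₀ * (1 + C₂)) * Real.exp (-τ * m - c' * X - c / 2 * l) := by
              refine mul_le_mul (mul_le_mul_of_nonneg_left hK1 hC₀.le) (Real.exp_le_exp.2 ?_)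
                (Real.exp_pos _).le (by positivity)
              linarith
          _ = _ := by
              have e1 : Real.exp (-τ * m - c' * X - c / 2 * l) =
                  Real.exp (-τ * m - c' * X) * Real.exp (-(c / 2) * l) := by
                rw [← Real.exp_add]
                congr 1
                ring
              rw [e1]
              ring
      by_cases hl64 : X / 64 ≤ l
      · have f1 := G_le_tau (D := D) hq hρ hr2 u p.1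
        rw [← hτd, abs_of_nonneg g1', ← hs] at f1
        refine hmain 1 zero_le_one 0 (by rw [one_mul, sub_zero]; exact f1) ?_ (by linarith)
        have q1 : c' * X ≤ c / 128 * X := mul_le_mul_of_nonneg_right m1 hX0
        have q2 : c / 2 * (X / 64) ≤ c / 2 * l := mul_le_mul_of_nonneg_left hl64 (by positivity)
        linarith
      · push Not at hl64
        have g4' : |(x.2 : ℝ) - p.1.2| ≤ 16 * l := by
          have : ((|x.2 - p.1.2| : ℤ) : ℝ) ≤ ((16 * (p.2.1 - p.1.1) : ℤ) : ℝ) := by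
            exact_mod_cast g4
          push_cast at this
          rw [← hl] at this
          exact this
        have q1 : X - X / 4 - 1 ≤ |(p.1.2 : ℝ) - u.2| := by
          have t1 : |(x.2 : ℝ)| ≤ |(x.2 : ℝ) - p.1.2| + (|(p.1.2 : ℝ) - u.2| + |(u.2 : ℝ)|) := by
            have t2 := abs_add_le ((x.2 : ℝ) - p.1.2) (((p.1.2 : ℝ) - u.2) + u.2)
            have t3 := abs_add_le ((p.1.2 : ℝ) - u.2) (u.2 : ℝ)
            have t4 : ((x.2 : ℝ) - p.1.2) + (((p.1.2 : ℝ) - u.2) + u.2) = x.2 := by ring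
            rw [t4] at t2
            linarith
          rw [← hX] at t1
          linarith
        have q2 : X / 2 ≤ |(p.1.2 : ℝ) - u.2| := by linarith
        have q3 : (p.1.1 : ℝ) - u.1 ≤ 16 * |(p.1.2 : ℝ) - u.2| := by
          have t5 : s ≤ m := by
            have : 0 ≤ w := by rw [hw]; exact g2'
            linarith
          rw [← hs]
          linarith
        have f1 := hF2 D u p.1 hu g1 q3
        rw [← hs] at f1
        refine hmain C₂ hC₂.le (c₂ * |(p.1.2 : ℝ) - u.2|) f1 ?_ (by linarith)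
        have q4 : c' * X ≤ c₂ / 2 * X := mul_le_mul_of_nonneg_right m2 hX0
        have q5 : c₂ * (X / 2) ≤ c₂ * |(p.1.2 : ℝ) - u.2| := mul_le_mul_of_nonneg_left q2 hc₂.le
        have q6 : 0 ≤ c / 2 * l := by positivity
        linarith
    refine hstep.trans ?_
    refine (Finset.sum_le_sum_of_subset_of_nonneg (Finset.filter_subset _ _) fun p _ _ =>
      by positivity).trans ?_
    rw [← Finset.mul_sum]
    calc _ ≤ C₀ * (1 + C₂) * Real.exp (-τ * m - c' * X) * C₅ :=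
          mul_le_mul_of_nonneg_left (hconv u v x huv hux hxv) (by positivity)
      _ = _ := by ring
  have k3 := hsplit.trans (add_le_add k1 k2)
  rw [← le_div_iff₀' (by positivity)] at k3
  refine k3.trans ?_
  have k4 : (C₀ * Real.exp (-τ * m - c' * X) + C₀ * (1 + C₂) * C₅ * Real.exp (-τ * m - c' * X)) /
      κ ^ 2 = C * Real.exp (-τ * m - c' * X) := by
    rw [hCdef, div_eq_inv_mul]
    ring
  rw [k4]
  refine mul_le_mul_of_nonneg_right ?_ hE3.le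
  linarith

end Pool.Helper83.OZ
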