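import Pool.Agent.Helper83.OZ.Low1
import Pool.Agent.Helper83.OZ.Nc
import Pool.Agent.Helper49.OZ.WalkMain

/-!
Project OZ (MP_7e0861_pr), part L5, block LOW2: lower bound `c N^(-3/2) e^{-tau N}` of the partition function.

`N = 2 n + 1`. `chain_eq` (Helper49/OZ/ChSum): `e^{tau N} ∑ σ ∈ DmU (0,1) (N,1), W1 σ = (G K N 1 1).toReal ≥ c / (N √N)`
(hypothesis `hG`). The graphs of `DmU` that are not in `DmN n` (not contained in `Dn n = rect 0 N (-n) n`) contain a vertex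
`x` in the row `n + 1` (connected, row `1` to a row `> n`; the columns of `dia (0,1) (N,1)` are `0..N`). For such a graph
`W1 σ = WI σ ≤ WD q (dfc ρ ρ') (rect 0 N (-8N) (8N+1)) σ` (no vertex in the row `0`; `PsiI ≤ Psi`, `incr_le`), so their total
weight is at most `∑ x, ∑ γ ∈ Cl .. (0,1) (N,1) with x ∈ γ.1, WD γ ≤ (N + 1) C e^{-tau N - c (n + 1)}` (`nc_far`, `N ≤ 8 (n+1)`).
Hence `∑ σ ∈ DmN, W1 σ ≥ e^{-tau N} (c / (N √N) - C (N + 1) e^{-c (n+1)}) ≥ (c / 2) p32 N e^{-tau N}` for `n` large; `low_lift`.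
-/

open scoped ENNReal

namespace Pool.Helper83.OZ

open Pool.Helper49.FK
open Pool.Helper17.OZ (Y CP Dbl NoCP nd rect tau)
open Pool.Helper95.OZ (FG fI)
open Pool.Agent.Helper49.QP (Dn Rn)
open Pool.Agent.Helper49.OZ (DmN DmU Ren IsKer)

variable {q ρ ρ' : ℝ}

open Classical in
private theorem lw2_bi6 (s : Finset ℤ) (t : ℤ → Finset Gr) (f : Gr → ℝ) (hf : ∀ γ, 0 ≤ f γ) :
    ∑ σ ∈ s.biUnion t, f σ ≤ ∑ i ∈ s, ∑ σ ∈ t i, f σ := by
  induction s using Finset.induction_on with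
  | empty => simp
  | insert a s ha ih =>
    rw [Finset.biUnion_insert, Finset.sum_insert ha]
    have h1 := Finset.sum_union_inter (s₁ := t a) (s₂ := s.biUnion t) (f := f)
    have h2 : 0 ≤ ∑ σ ∈ t a ∩ s.biUnion t, f σ := Finset.sum_nonneg fun σ _ => hf σ
    linarith

/-- a connected graph which contains rows below and above contains the rows in between -/
private theorem lw2_row6 {γ : Gr} (hγ : IsClu γ.1 γ.2) {k : ℤ} {x y : ℤ × ℤ} (hx : x ∈ γ.1) (hy : y ∈ γ.1)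
    (h1 : x.2 ≤ k) (h2 : k < y.2) : ∃ z ∈ γ.1, z.2 = k + 1 := by
  by_contra hcon
  push Not at hcon
  have hedge : ∀ e ∈ γ.2, e.1 ∈ γ.1 ∧ tip e ∈ γ.1 := by
    intro e he
    have h3 := hγ.1 he
    unfold edges at h3
    rw [Finset.mem_filter, Finset.mem_product] at h3
    exact ⟨h3.1.1, h3.2⟩
  have hstep : ∀ a b : ℤ × ℤ, (gr γ.2).Adj a b → a.2 ≤ k → b.2 ≤ k := by
    rintro a b ⟨e, he, hab⟩ ha
    obtain ⟨h4, h5⟩ := hedge e he
    have h6 : (tip e).2 = e.1.2 ∨ (tip e).2 = e.1.2 + 1 := by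
      unfold tip
      split_ifs
      · exact Or.inl rfl
      · exact Or.inr rfl
    have h7 := hcon _ h4
    have h8 := hcon _ h5
    rcases hab with ⟨h9, h10⟩ | ⟨h9, h10⟩
    · rw [← h9] at ha
      rw [← h10]
      omega
    · rw [← h10] at ha
      rw [← h9]
      omega
  obtain ⟨w⟩ := hγ.2 x hx y hy
  have hw : ∀ (a b : ℤ × ℤ) (w : (gr γ.2).Walk a b), a.2 ≤ k → b.2 ≤ k := by
    intro a b w
    induction w with
    | nil => exact id
    | cons h _ ih => exact fun ha => ih (hstep _ _ h ha)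
  have := hw x y w h1
  omega

/-- the infinite volume weight of a graph in the rows above the line is at most the weight in the domain -/
private theorem lw2_w1_6 (hq : 1 ≤ q) (hρ' : 0 < ρ') (h : ρ' < ρ) {γ : Gr} (hγ : IsClu γ.1 γ.2) {a b : ℤ × ℤ}
    (ha : a ∈ γ.1) (hb : b ∈ γ.1) (hab : a ≠ b) (hrow : ∀ y ∈ γ.1, 1 ≤ y.2) (D : Finset (ℤ × ℤ)) :
    W1 q ρ γ ≤ WD q (dfc ρ ρ') D γ := by
  have hρ : 0 < ρ := hρ'.trans h
  have hq0 : 0 < q := lt_of_lt_of_le one_pos hq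
  have hne : γ.2 ≠ ∅ := by
    intro h0
    obtain ⟨w⟩ := hγ.2 a ha b hb
    cases w with
    | nil => exact hab rfl
    | cons h _ =>
      obtain ⟨e, he, _⟩ := h
      rw [h0] at he
      exact absurd he (Finset.notMem_empty e)
  have hr0 : ∀ e, 0 ≤ dfc ρ ρ' e := by
    intro e
    unfold dfc
    split_ifs
    · exact hρ'.le
    · exact hρ.le
  have hr1 : ∀ e, dfc ρ ρ' e ≤ hom ρ e := by
    intro e
    unfold dfc hom
    split_ifs
    · exact h.le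
    · exact le_rfl
  unfold W1
  rw [if_neg hne]
  unfold WI WD
  have e1 : bg q (hom ρ) γ = bg q (dfc ρ ρ') γ := by
    unfold bg
    congr 1
    refine Finset.prod_congr rfl fun e he => ?_
    have h3 := hγ.1 he
    unfold edges at h3
    rw [Finset.mem_filter, Finset.mem_product] at h3
    have h4 := hrow _ h3.1.1
    unfold hom dfc
    rw [if_neg]
    rintro ⟨_, h5⟩
    omega
  rw [e1]
  have e2 : 0 ≤ bg q (dfc ρ ρ') γ := by
    unfold bg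
    exact div_nonneg (Finset.prod_nonneg fun e _ => hr0 e) (by positivity)
  refine mul_le_mul_of_nonneg_left ?_ e2
  exact (PsiI_le hq hρ.le D γ.1).trans (Psi_anti_r hq hr0 hr1)

open Classical in
/-- the diamond graphs which leave the dual rectangle -/
private theorem lw2_far6 (hq : 1 ≤ q) (hρ' : 0 < ρ') (h : ρ' < ρ) (hE : Pool.Helper49.FK.ExpW q ρ)
    (hFG : ∀ (a b : ℤ × ℤ) (γ : Gr), a ≠ b → γ ∈ Dm a b → 0 ≤ FG q ρ a b γ)
    (F : Pool.Agent.Helper18.WK.Law)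
    (hF : ∀ (l : ℕ) (h : ℤ), F.f l h = fI q ρ ((l : ℤ), h) * Real.exp (tau q ρ * l)) :
    ∃ C c : ℝ, 0 < C ∧ 0 < c ∧ ∀ n : ℕ,
      ∑ σ ∈ DmU (0, 1) (2 * (n : ℤ) + 1, 1), W1 q ρ σ ≤ ∑ σ ∈ DmN n (0, 1) (2 * (n : ℤ) + 1, 1), W1 q ρ σ +
        (2 * (n : ℝ) + 2) * (C * Real.exp (-tau q ρ * (2 * n + 1) - c * (n + 1))) := by
  obtain ⟨C, c, hC, hc, hnc⟩ := nc_far hq hρ' h hE hFG F hF
  have hρ : 0 < ρ := hρ'.trans h
  have hq0 : 0 < q := lt_of_lt_of_le one_pos hq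
  have hr0 : ∀ e, 0 ≤ dfc ρ ρ' e := by
    intro e
    unfold dfc
    split_ifs
    · exact hρ'.le
    · exact hρ.le
  refine ⟨C, c, hC, hc, fun n => ?_⟩
  obtain ⟨N, hN⟩ : ∃ N : ℤ, N = 2 * (n : ℤ) + 1 := ⟨_, rfl⟩
  rw [← hN]
  obtain ⟨D, hD⟩ : ∃ D : Finset (ℤ × ℤ), D = rect 0 N (-(8 * N)) (8 * N + 1) := ⟨_, rfl⟩
  have hW0 : ∀ γ : Gr, 0 ≤ WD q (dfc ρ ρ') D γ := fun γ => WD_nonneg hq0 hr0 γ
  have hsplit : ∑ σ ∈ DmU (0, 1) (N, 1), W1 q ρ σ = ∑ σ ∈ DmN n (0, 1) (N, 1), W1 q ρ σ +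
      ∑ σ ∈ (DmU (0, 1) (N, 1)).filter (fun γ => ¬ γ.1 ⊆ Dn n), W1 q ρ σ := by
    unfold DmN
    exact (Finset.sum_filter_add_sum_filter_not _ _ _).symm
  rw [hsplit]
  refine add_le_add_right ?_ _
  -- every such graph contains a vertex in the row n + 1
  have hmem : ∀ σ ∈ (DmU (0, 1) (N, 1)).filter (fun γ => ¬ γ.1 ⊆ Dn n),
      W1 q ρ σ ≤ WD q (dfc ρ ρ') D σ ∧ ∃ i ∈ Finset.Icc (0 : ℤ) N,
        σ ∈ (Cl D (0, 1) (N, 1)).filter (fun γ => (i, (n : ℤ) + 1) ∈ γ.1) := by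
    intro σ hσ
    rw [Finset.mem_filter] at hσ
    obtain ⟨hσ1, hσ2⟩ := hσ
    unfold DmU at hσ1
    rw [Finset.mem_filter, mem_Dm] at hσ1
    obtain ⟨⟨hclu, hfw, hbw, ha, hb⟩, hrow⟩ := hσ1
    have hbd : ∀ y ∈ σ.1, 0 ≤ y.1 ∧ y.1 ≤ N ∧ |y.2 - 1| ≤ 8 * y.1 := by
      intro y hy
      have h1 := hfw y hy
      have h2 := Y_nonneg h1
      have h3 := Y_nonneg (hbw y hy)
      unfold Y at h1
      simp only [Prod.fst_sub, Prod.snd_sub] at h1 h2 h3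
      refine ⟨by omega, by omega, by omega⟩
    have hsub : σ.1 ⊆ D := by
      intro y hy
      obtain ⟨h1, h2, h3⟩ := hbd y hy
      rw [abs_le] at h3
      rw [hD]
      unfold rect
      rw [Finset.mem_product, Finset.mem_Icc, Finset.mem_Icc]
      refine ⟨⟨h1, h2⟩, by omega, by omega⟩
    have hne : ((0 : ℤ), (1 : ℤ)) ≠ (N, 1) := by
      intro h0
      have := congrArg Prod.fst h0
      simp only at this
      omega
    refine ⟨lw2_w1_6 hq hρ' h hclu ha hb hne hrow D, ?_⟩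
    obtain ⟨y, hy, hy2⟩ := Finset.not_subset.1 hσ2
    have hyn : (n : ℤ) < y.2 := by
      by_contra hcon
      apply hy2
      obtain ⟨h1, h2, -⟩ := hbd y hy
      have h3 := hrow y hy
      unfold Dn
      rw [Finset.mem_product, Finset.mem_Icc, Finset.mem_Icc]
      refine ⟨⟨h1, by omega⟩, by omega, by omega⟩
    by_cases hn : n = 0
    · -- row 1 is the row n + 1
      subst hn
      refine ⟨0, Finset.mem_Icc.2 ⟨le_rfl, by omega⟩, ?_⟩
      rw [Finset.mem_filter, mem_Cl]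
      refine ⟨⟨hsub, hclu, ha, hb⟩, ?_⟩
      simpa using ha
    · obtain ⟨z, hz, hz2⟩ := lw2_row6 hclu ha hy (k := (n : ℤ)) (by simp only; omega) hyn
      obtain ⟨h1, h2, -⟩ := hbd z hz
      refine ⟨z.1, Finset.mem_Icc.2 ⟨h1, h2⟩, ?_⟩
      rw [Finset.mem_filter, mem_Cl]
      refine ⟨⟨hsub, hclu, ha, hb⟩, ?_⟩
      rw [← hz2]
      exact hz
  have hN0 : 0 < N := by omega
  have hterm : ∀ i ∈ Finset.Icc (0 : ℤ) N,
      ∑ γ ∈ (Cl D (0, 1) (N, 1)).filter (fun γ => (i, (n : ℤ) + 1) ∈ γ.1), WD q (dfc ρ ρ') D γ ≤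
        C * Real.exp (-tau q ρ * (2 * n + 1) - c * (n + 1)) := by
    intro i hi
    rw [Finset.mem_Icc] at hi
    have hu : ((0 : ℤ), (1 : ℤ)) ∈ rect 0 N (-(8 * N)) (8 * N + 1) := by
      unfold rect
      rw [Finset.mem_product, Finset.mem_Icc, Finset.mem_Icc]
      refine ⟨⟨le_rfl, hN0.le⟩, by simp only; omega, by simp only; omega⟩
    have hv : (N, (1 : ℤ)) ∈ rect 0 N (-(8 * N)) (8 * N + 1) := by
      unfold rect
      rw [Finset.mem_product, Finset.mem_Icc, Finset.mem_Icc]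
      refine ⟨⟨hN0.le, le_rfl⟩, by simp only; omega, by simp only; omega⟩
    have habs : |(((n : ℤ) + 1 : ℤ) : ℝ)| = (n : ℝ) + 1 := by
      rw [abs_of_nonneg (by positivity)]
      push_cast
      ring
    have h1 := hnc 0 N (-(8 * N)) (8 * N + 1) (0, 1) (N, 1) (i, (n : ℤ) + 1) hu hv hN0 (by simp) (by simp)
      hi.1 hi.2 (by
        simp only
        rw [habs, hN]
        push_cast
        have : (0 : ℝ) ≤ n := Nat.cast_nonneg n
        linarith)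
    rw [← hD] at h1
    simp only [habs] at h1
    refine h1.trans (le_of_eq ?_)
    rw [hN]
    push_cast
    congr 3
    ring
  calc ∑ σ ∈ (DmU (0, 1) (N, 1)).filter (fun γ => ¬ γ.1 ⊆ Dn n), W1 q ρ σ
      ≤ ∑ σ ∈ (DmU (0, 1) (N, 1)).filter (fun γ => ¬ γ.1 ⊆ Dn n), WD q (dfc ρ ρ') D σ :=
        Finset.sum_le_sum fun σ hσ => (hmem σ hσ).1
    _ ≤ ∑ σ ∈ (Finset.Icc (0 : ℤ) N).biUnion (fun i =>
          (Cl D (0, 1) (N, 1)).filter (fun γ => (i, (n : ℤ) + 1) ∈ γ.1)), WD q (dfc ρ ρ') D σ := by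
        refine Finset.sum_le_sum_of_subset_of_nonneg ?_ fun σ _ _ => hW0 σ
        intro σ hσ
        rw [Finset.mem_biUnion]
        exact (hmem σ hσ).2
    _ ≤ ∑ i ∈ Finset.Icc (0 : ℤ) N, ∑ γ ∈ (Cl D (0, 1) (N, 1)).filter (fun γ => (i, (n : ℤ) + 1) ∈ γ.1),
          WD q (dfc ρ ρ') D γ := by
        exact lw2_bi6 _ _ _ hW0
    _ ≤ ∑ i ∈ Finset.Icc (0 : ℤ) N, C * Real.exp (-tau q ρ * (2 * n + 1) - c * (n + 1)) :=
        Finset.sum_le_sum hterm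
    _ = (2 * (n : ℝ) + 2) * (C * Real.exp (-tau q ρ * (2 * n + 1) - c * (n + 1))) := by
        rw [Finset.sum_const, Int.card_Icc, nsmul_eq_mul]
        congr 1
        have : (N + 1 - 0).toNat = 2 * n + 2 := by omega
        rw [this]
        push_cast
        ring

theorem low_pt (hq : 1 ≤ q) (hρ' : 0 < ρ') (h : ρ' < ρ) (hE : Pool.Helper49.FK.ExpW q ρ)
    (hFG : ∀ (a b : ℤ × ℤ) (γ : Gr), a ≠ b → γ ∈ Dm a b → 0 ≤ FG q ρ a b γ)
    (F : Pool.Agent.Helper18.WK.Law)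
    (hF : ∀ (l : ℕ) (h : ℤ), F.f l h = fI q ρ ((l : ℤ), h) * Real.exp (tau q ρ * l))
    (K : Pool.Agent.Helper18.WK.Ker) (hR : Ren (W1 q ρ) (FG q ρ)) (hK : IsKer K (FG q ρ) (tau q ρ))
    (hG : ∃ (c : ℝ) (n₀ : ℕ), 0 < c ∧ ∀ n : ℕ, n₀ ≤ n →
      ENNReal.ofReal (c / (n * Real.sqrt n)) ≤ Pool.Agent.Helper18.WK.G K n 1 1) :
    ∃ (c : ℝ) (n₀ : ℕ), 0 < c ∧ ∀ n : ℕ, n₀ ≤ n →
      c * p32 (2 * n + 1) * Real.exp (-tau q ρ * (2 * n + 1)) ≤
        ∑ γ ∈ Cl (Dn n) (0, 0) (Rn n), WD q (dfc ρ ρ') (Dn n) γ := by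
  have hρ : 0 < ρ := hρ'.trans h
  have hq0 : 0 < q := lt_of_lt_of_le one_pos hq
  obtain ⟨c₀, n₀, hc₀, hG⟩ := hG
  obtain ⟨c₁, hc₁, hlift⟩ := low_lift hq hρ' h.le
  obtain ⟨C, c, hC, hc, hfar⟩ := lw2_far6 hq hρ' h hE hFG F hF
  -- the exponential beats the polynomial
  have hlim : Filter.Tendsto (fun n : ℕ => (n : ℝ) ^ 3 * Real.exp (-c * n)) Filter.atTop (nhds 0) :=
    (Real.summable_pow_mul_exp_neg_nat_mul 3 hc).tendsto_atTop_zero
  have hpos : 0 < c₀ / (2 * (36 * C)) := by positivity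
  have hev : ∀ᶠ n : ℕ in Filter.atTop, (n : ℝ) ^ 3 * Real.exp (-c * n) < c₀ / (2 * (36 * C)) :=
    hlim.eventually_lt_const hpos
  obtain ⟨n₁, hn₁⟩ := Filter.eventually_atTop.1 hev
  refine ⟨c₁ * (c₀ / 2), max (max n₀ n₁) 1, by positivity, fun n hn => ?_⟩
  have hn0 : n₀ ≤ n := (le_max_left _ _).trans ((le_max_left _ _).trans hn)
  have hn1 : n₁ ≤ n := (le_max_right _ _).trans ((le_max_left _ _).trans hn)
  have hn2 : 1 ≤ n := (le_max_right _ _).trans hn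
  have h1 := hG (2 * n + 1) (by omega)
  have h2 := Pool.Agent.Helper49.OZ.chain_eq hR hK (c := ((0 : ℤ), (1 : ℤ))) (c' := (2 * (n : ℤ) + 1, (1 : ℤ)))
    (m := 2 * n + 1) le_rfl (by push_cast; simp)
  simp only at h2
  rw [h2] at h1
  have hW0 : 0 ≤ ∑ γ ∈ DmU (0, 1) (2 * (n : ℤ) + 1, 1), W1 q ρ γ := Finset.sum_nonneg fun γ _ => hR.W_nonneg γ
  rw [ENNReal.ofReal_le_ofReal_iff (by positivity)] at h1
  have h3 := hfar n
  have h4 := hlift n hn2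
  have hnR : (1 : ℝ) ≤ n := by exact_mod_cast hn2
  -- the value of p32
  have hmx : ((max (2 * (n : ℤ) + 1) 1 : ℤ) : ℝ) = 2 * n + 1 := by
    rw [max_eq_left (by omega)]
    push_cast
    ring
  have hp : p32 (2 * (n : ℤ) + 1) = 1 / ((2 * n + 1) * Real.sqrt (2 * n + 1)) := by
    unfold p32
    rw [hmx]
  have hs0 : 0 < Real.sqrt (2 * (n : ℝ) + 1) := Real.sqrt_pos.2 (by positivity)
  have hs1 : Real.sqrt (2 * (n : ℝ) + 1) ≤ 2 * n + 1 := by
    rw [Real.sqrt_le_left (by positivity)]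
    nlinarith
  obtain ⟨P, hP⟩ : ∃ P : ℝ, P = p32 (2 * (n : ℤ) + 1) := ⟨_, rfl⟩
  obtain ⟨E, hEd⟩ : ∃ E : ℝ, E = Real.exp (-tau q ρ * (2 * n + 1)) := ⟨_, rfl⟩
  have hE0 : 0 < E := by rw [hEd]; exact Real.exp_pos _
  have hP0 : 0 < P := by rw [hP]; exact p32_pos _
  -- lower bound of the full sum
  have h5 : c₀ * P * E ≤ ∑ γ ∈ DmU (0, 1) (2 * (n : ℤ) + 1, 1), W1 q ρ γ := by
    push_cast at h1
    have e1 : c₀ / ((2 * (n : ℝ) + 1) * Real.sqrt (2 * n + 1)) = c₀ * P := by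
      rw [hP, hp]
      ring
    rw [e1] at h1
    have e2 : Real.exp (tau q ρ * (2 * n + 1)) * E = 1 := by
      rw [hEd, ← Real.exp_add, neg_mul, add_neg_cancel, Real.exp_zero]
    calc c₀ * P * E ≤ (Real.exp (tau q ρ * (2 * n + 1)) *
          ∑ γ ∈ DmU (0, 1) (2 * (n : ℤ) + 1, 1), W1 q ρ γ) * E := mul_le_mul_of_nonneg_right h1 hE0.le
      _ = (Real.exp (tau q ρ * (2 * n + 1)) * E) * ∑ γ ∈ DmU (0, 1) (2 * (n : ℤ) + 1, 1), W1 q ρ γ := by ring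
      _ = _ := by rw [e2, one_mul]
  -- the error term
  have h6 : (2 * (n : ℝ) + 2) * (C * Real.exp (-tau q ρ * (2 * n + 1) - c * (n + 1))) ≤ c₀ / 2 * P * E := by
    have e1 : Real.exp (-tau q ρ * (2 * n + 1) - c * (n + 1)) ≤ E * Real.exp (-c * n) := by
      rw [hEd, ← Real.exp_add, Real.exp_le_exp]
      linarith
    have e2 : 1 / (2 * (n : ℝ) + 1) ^ 2 ≤ P := by
      rw [hP, hp]
      refine one_div_le_one_div_of_le (by positivity) ?_
      rw [sq]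
      exact mul_le_mul_of_nonneg_left hs1 (by positivity)
    have e3 := (hn₁ n hn1).le
    rw [le_div_iff₀ (by positivity)] at e3
    have e4 : (2 * (n : ℝ) + 2) * (2 * n + 1) ^ 2 ≤ 36 * n ^ 3 := by
      have a1 : 2 * (n : ℝ) + 2 ≤ 4 * n := by linarith
      have a2 : (2 * (n : ℝ) + 1) ^ 2 ≤ (3 * n) ^ 2 := pow_le_pow_left₀ (by positivity) (by linarith) 2
      calc (2 * (n : ℝ) + 2) * (2 * n + 1) ^ 2 ≤ (4 * n) * (3 * n) ^ 2 :=
            mul_le_mul a1 a2 (by positivity) (by positivity)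
        _ = 36 * n ^ 3 := by ring
    calc (2 * (n : ℝ) + 2) * (C * Real.exp (-tau q ρ * (2 * n + 1) - c * (n + 1)))
        ≤ (2 * (n : ℝ) + 2) * (C * (E * Real.exp (-c * n))) := by
          refine mul_le_mul_of_nonneg_left (mul_le_mul_of_nonneg_left e1 hC.le) (by positivity)
      _ = (C * Real.exp (-c * n) * E) * ((2 * (n : ℝ) + 2) * (2 * n + 1) ^ 2) * (1 / (2 * (n : ℝ) + 1) ^ 2) := by
          field_simp
      _ ≤ (C * Real.exp (-c * n) * E) * (36 * n ^ 3) * P := by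
          have a3 : 0 ≤ C * Real.exp (-c * n) * E := by positivity
          refine mul_le_mul (mul_le_mul_of_nonneg_left e4 a3) e2 (by positivity) (by positivity)
      _ = ((n : ℝ) ^ 3 * Real.exp (-c * n) * (2 * (36 * C))) / 2 * P * E := by ring
      _ ≤ c₀ / 2 * P * E := by
          refine mul_le_mul_of_nonneg_right (mul_le_mul_of_nonneg_right ?_ hP0.le) hE0.le
          linarith
  have h7 : c₀ / 2 * P * E ≤ ∑ σ ∈ DmN n (0, 1) (2 * (n : ℤ) + 1, 1), W1 q ρ σ := by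
    have : c₀ * P * E = c₀ / 2 * P * E + c₀ / 2 * P * E := by ring
    linarith
  calc c₁ * (c₀ / 2) * p32 (2 * n + 1) * Real.exp (-tau q ρ * (2 * n + 1)) = c₁ * (c₀ / 2 * P * E) := by
        rw [hP, hEd]
        ring
    _ ≤ c₁ * ∑ σ ∈ DmN n (0, 1) (2 * (n : ℤ) + 1, 1), W1 q ρ σ := mul_le_mul_of_nonneg_left h7 hc₁.le
    _ ≤ _ := h4

end Pool.Helper83.OZ
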