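import Pool.Agent.Helper83.OZ.Ls

/-!
Project OZ (MP_7e0861_pr), part L5, block LS1: contact with the row `0` in the window.

`γ` not good contains a point `(k, 0)`, `r0 ≤ k ≤ N - r0`: by `nc` the sum is at most
`C e^{-tau N} ∑ k, p32 k * p32 (N - k)`. In this sum `max (k, N - k) ≥ N / 2`, and `p32 (N / 2) ≤ 4 p32 N`, so it is at most
`8 p32 N * ∑ k ≥ r0, p32 k ≤ C p32 N / √r0` (or: the tail of the convergent series `∑ k^(-3/2)`).
-/

namespace Pool.Helper83.OZ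

open Pool.Helper49.FK
open Pool.Helper17.OZ (Y CP Dbl NoCP nd rect tau)
open Pool.Helper95.OZ (FG fI seg)
open Pool.Agent.Helper49.QP (Dn Rn)

variable {q ρ ρ' : ℝ}

private theorem one_le_mx34 (m : ℤ) : (1 : ℝ) ≤ ((max m 1 : ℤ) : ℝ) := by
  exact_mod_cast le_max_right m 1

private theorem p32_half34 {k N : ℤ} (h : N ≤ 2 * k) : p32 k ≤ 4 * p32 N := by
  have h1 := one_le_mx34 k
  have h2 := one_le_mx34 N
  have h3 : ((max N 1 : ℤ) : ℝ) ≤ 2 * ((max k 1 : ℤ) : ℝ) := by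
    have : (max N 1 : ℤ) ≤ 2 * max k 1 := by omega
    exact_mod_cast this
  unfold p32
  set m : ℝ := ((max k 1 : ℤ) : ℝ) with hm
  set M : ℝ := ((max N 1 : ℤ) : ℝ) with hM
  have hm0 : 0 < m := by linarith
  have hM0 : 0 < M := by linarith
  have hs : 0 < Real.sqrt m := Real.sqrt_pos.2 hm0
  have hs' : 0 < Real.sqrt M := Real.sqrt_pos.2 hM0
  have h4 : Real.sqrt M ≤ 2 * Real.sqrt m := by
    rw [Real.sqrt_le_left (by positivity), mul_pow, Real.sq_sqrt hm0.le]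
    linarith
  have h5 : M * Real.sqrt M ≤ 4 * (m * Real.sqrt m) := by
    calc M * Real.sqrt M ≤ (2 * m) * (2 * Real.sqrt m) :=
          mul_le_mul h3 h4 hs'.le (by positivity)
      _ = 4 * (m * Real.sqrt m) := by ring
  rw [mul_one_div, div_le_div_iff₀ (by positivity) (by positivity), one_mul]
  exact h5

private theorem summ34 : Summable fun n : ℕ => p32 (n : ℤ) := by
  have h1 : Summable fun n : ℕ => 1 / (n : ℝ) ^ (3 / 2 : ℝ) :=
    Real.summable_one_div_nat_rpow.2 (by norm_num)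
  rw [← summable_nat_add_iff 1] at h1 ⊢
  refine h1.congr fun n => ?_
  have h2 : (0 : ℝ) < (n : ℝ) + 1 := by positivity
  unfold p32
  have h3 : (max ((n + 1 : ℕ) : ℤ) 1) = ((n + 1 : ℕ) : ℤ) := max_eq_left (by push_cast; omega)
  rw [h3]
  push_cast
  have h4 : ((n : ℝ) + 1) ^ (3 / 2 : ℝ) = ((n : ℝ) + 1) * Real.sqrt ((n : ℝ) + 1) := by
    rw [Real.sqrt_eq_rpow]
    nth_rewrite 2 [← Real.rpow_one ((n : ℝ) + 1)]
    rw [← Real.rpow_add h2]
    norm_num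
  rw [h4]

private theorem tail34 {ε : ℝ} (hε : 0 < ε) : ∃ R : ℕ, ∀ r0 : ℕ, R ≤ r0 → ∀ (S : Finset ℤ) (g : ℤ → ℤ),
    Set.InjOn g (S : Set ℤ) → (∀ k ∈ S, (r0 : ℤ) ≤ g k) → ∑ k ∈ S, p32 (g k) ≤ ε := by
  classical
  obtain ⟨s, hs⟩ := summable_iff_vanishing_norm.1 summ34 ε hε
  refine ⟨s.sup id + 1, fun r0 hr0 S g hg hS => ?_⟩
  have hinj : Set.InjOn (fun k => (g k).toNat) (S : Set ℤ) := by
    intro a ha b hb hab
    have h1 := hS a ha
    have h2 := hS b hb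
    have hab' : (g a).toNat = (g b).toNat := hab
    have h3 : g a = g b := by omega
    exact hg ha hb h3
  have h1 : ∑ k ∈ S, p32 (g k) = ∑ n ∈ S.image (fun k => (g k).toNat), p32 (n : ℤ) := by
    rw [Finset.sum_image hinj]
    refine Finset.sum_congr rfl fun k hk => ?_
    have h2 := hS k hk
    rw [Int.toNat_of_nonneg (by omega)]
  rw [h1]
  refine (le_abs_self _).trans (le_of_lt ?_)
  refine hs _ ?_
  rw [Finset.disjoint_left]
  intro n hn hns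
  obtain ⟨k, hk, rfl⟩ := Finset.mem_image.1 hn
  have h2 := hS k hk
  have h3 : id (g k).toNat ≤ s.sup id := Finset.le_sup hns
  simp only [id] at h3
  omega

theorem p32_conv {ε : ℝ} (hε : 0 < ε) : ∃ R : ℕ, ∀ r0 : ℕ, R ≤ r0 → ∀ N : ℕ,
    ∑ k ∈ Finset.Icc (r0 : ℤ) (N - r0), p32 k * p32 (N - k) ≤ ε * p32 N := by
  obtain ⟨R, hR⟩ := tail34 (show 0 < ε / 8 by positivity)
  refine ⟨R, fun r0 hr0 N => ?_⟩
  have hN := p32_pos (N : ℤ)
  have h1 : ∀ k ∈ Finset.Icc (r0 : ℤ) (N - r0),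
      p32 k * p32 (N - k) ≤ 4 * p32 N * (p32 k + p32 (N - k)) := by
    intro k _
    have p1 := p32_pos k
    have p2 := p32_pos ((N : ℤ) - k)
    rcases le_total (N : ℤ) (2 * k) with h | h
    · have h2 := p32_half34 h
      calc p32 k * p32 (N - k) ≤ 4 * p32 N * p32 (N - k) := mul_le_mul_of_nonneg_right h2 p2.le
        _ ≤ 4 * p32 N * (p32 k + p32 (N - k)) :=
          mul_le_mul_of_nonneg_left (by linarith) (by positivity)
    · have h2 : p32 ((N : ℤ) - k) ≤ 4 * p32 N := p32_half34 (by omega)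
      calc p32 k * p32 (N - k) ≤ p32 k * (4 * p32 N) := mul_le_mul_of_nonneg_left h2 p1.le
        _ = 4 * p32 N * p32 k := by ring
        _ ≤ 4 * p32 N * (p32 k + p32 (N - k)) :=
          mul_le_mul_of_nonneg_left (by linarith) (by positivity)
  refine (Finset.sum_le_sum h1).trans ?_
  rw [← Finset.mul_sum, Finset.sum_add_distrib]
  have h2 := hR r0 hr0 (Finset.Icc (r0 : ℤ) (N - r0)) (fun k => k) (fun a _ b _ h => h)
    (fun k hk => (Finset.mem_Icc.1 hk).1)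
  have h3 := hR r0 hr0 (Finset.Icc (r0 : ℤ) (N - r0)) (fun k => (N : ℤ) - k)
    (fun a _ b _ h => by
      have h' : (N : ℤ) - a = (N : ℤ) - b := h
      omega)
    (fun k hk => by
      have := (Finset.mem_Icc.1 hk).2
      show (r0 : ℤ) ≤ (N : ℤ) - k
      omega)
  have h4 : 4 * p32 (N : ℤ) * (∑ k ∈ Finset.Icc (r0 : ℤ) (N - r0), p32 k +
      ∑ k ∈ Finset.Icc (r0 : ℤ) (N - r0), p32 (N - k)) ≤ 4 * p32 (N : ℤ) * (ε / 8 + ε / 8) :=
    mul_le_mul_of_nonneg_left (add_le_add h2 h3) (by positivity)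
  refine h4.trans (le_of_eq ?_)
  ring

open Classical in
theorem loss1 (hq : 1 ≤ q) (hρ' : 0 < ρ') (h : ρ' < ρ) (hE : Pool.Helper49.FK.ExpW q ρ)
    (hFG : ∀ (a b : ℤ × ℤ) (γ : Gr), a ≠ b → γ ∈ Dm a b → 0 ≤ FG q ρ a b γ)
    (F : Pool.Agent.Helper18.WK.Law)
    (hF : ∀ (l : ℕ) (h : ℤ), F.f l h = fI q ρ ((l : ℤ), h) * Real.exp (tau q ρ * l)) {ε : ℝ} (hε : 0 < ε) :
    ∃ R : ℕ, ∀ r0 : ℕ, R ≤ r0 → ∀ n : ℕ,
      ∑ γ ∈ (Cl (Dn n) (0, 0) (Rn n)).filter (fun γ => ¬Good r0 n γ), WD q (dfc ρ ρ') (Dn n) γ ≤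
        ε * Z0 q ρ n := by
  have hρ : 0 < ρ := hρ'.trans h
  have hq0 : 0 < q := lt_of_lt_of_le one_pos hq
  obtain ⟨C, hC, hnc⟩ := nc hq hρ' h hE hFG F hF
  obtain ⟨R, hR⟩ := p32_conv (show 0 < ε / C by positivity)
  refine ⟨R, fun r0 hr0 n => ?_⟩
  have hr0' : ∀ e, 0 ≤ dfc ρ ρ' e := by
    intro e
    unfold dfc
    split_ifs
    · exact hρ'.le
    · exact hρ.le
  have hW : ∀ γ, 0 ≤ WD q (dfc ρ ρ') (Dn n) γ := fun γ => WD_nonneg hq0 hr0' γ
  have hDn : Dn n = rect 0 (2 * (n : ℤ) + 1) (-(n : ℤ)) n := rfl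
  have h1 : ∑ γ ∈ (Cl (Dn n) (0, 0) (Rn n)).filter (fun γ => ¬Good r0 n γ), WD q (dfc ρ ρ') (Dn n) γ ≤
      ∑ k ∈ Finset.Icc (r0 : ℤ) ((2 * n + 1 : ℕ) - r0),
        ∑ γ ∈ (Cl (Dn n) (0, 0) (Rn n)).filter (fun γ => (k, (0 : ℤ)) ∈ γ.1),
          WD q (dfc ρ ρ') (Dn n) γ := by
    simp only [Finset.sum_filter]
    rw [Finset.sum_comm]
    refine Finset.sum_le_sum fun γ _ => ?_
    have hnn : ∀ k ∈ Finset.Icc (r0 : ℤ) ((2 * n + 1 : ℕ) - r0),
        0 ≤ (if (k, (0 : ℤ)) ∈ γ.1 then WD q (dfc ρ ρ') (Dn n) γ else 0) := by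
      intro k _
      split_ifs
      · exact hW γ
      · exact le_rfl
    by_cases hg : Good r0 n γ
    · rw [if_neg (not_not.2 hg)]
      exact Finset.sum_nonneg hnn
    · rw [if_pos hg]
      unfold Good at hg
      push Not at hg
      obtain ⟨y, hy, hy1, hy2, hy3⟩ := hg
      have hk : y.1 ∈ Finset.Icc (r0 : ℤ) ((2 * n + 1 : ℕ) - r0) := by
        rw [Finset.mem_Icc]
        push_cast
        exact ⟨hy1, hy2⟩
      have h2 := Finset.single_le_sum hnn hk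
      have h3 : (y.1, (0 : ℤ)) ∈ γ.1 := by
        rw [← hy3]
        exact hy
      rw [if_pos h3] at h2
      exact h2
  have h2 : ∀ k ∈ Finset.Icc (r0 : ℤ) ((2 * n + 1 : ℕ) - r0),
      ∑ γ ∈ (Cl (Dn n) (0, 0) (Rn n)).filter (fun γ => (k, (0 : ℤ)) ∈ γ.1),
          WD q (dfc ρ ρ') (Dn n) γ ≤
        C * Real.exp (-tau q ρ * (2 * n + 1)) * (p32 k * p32 ((2 * n + 1 : ℕ) - k)) := by
    intro k hk
    rw [Finset.mem_Icc] at hk
    push_cast at hk
    have h3 := hnc 0 (2 * (n : ℤ) + 1) (-(n : ℤ)) n (0, 0) (Rn n) (k, 0)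
      (by
        unfold rect
        rw [Finset.mem_product, Finset.mem_Icc, Finset.mem_Icc]
        refine ⟨⟨le_rfl, ?_⟩, ?_, ?_⟩
        · show (0 : ℤ) ≤ 2 * (n : ℤ) + 1
          omega
        · show -(n : ℤ) ≤ 0
          omega
        · show (0 : ℤ) ≤ (n : ℤ)
          omega)
      (by
        unfold rect Rn
        rw [Finset.mem_product, Finset.mem_Icc, Finset.mem_Icc]
        refine ⟨⟨?_, le_rfl⟩, ?_, ?_⟩
        · show (0 : ℤ) ≤ 2 * (n : ℤ) + 1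
          omega
        · show -(n : ℤ) ≤ 0
          omega
        · show (0 : ℤ) ≤ (n : ℤ)
          omega)
      (by
        show (0 : ℤ) < 2 * (n : ℤ) + 1
        omega)
      rfl rfl
      (by
        show (0 : ℤ) ≤ k
        omega)
      (by
        show k ≤ 2 * (n : ℤ) + 1
        omega)
    rw [← hDn] at h3
    refine h3.trans (le_of_eq ?_)
    unfold Rn
    push_cast
    simp only [abs_zero, add_zero, one_pow, one_mul, sub_zero]
    ring
  refine h1.trans ((Finset.sum_le_sum h2).trans ?_)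
  rw [← Finset.mul_sum]
  have h4 := hR r0 hr0 (2 * n + 1)
  calc C * Real.exp (-tau q ρ * (2 * n + 1)) *
        ∑ k ∈ Finset.Icc (r0 : ℤ) ((2 * n + 1 : ℕ) - r0), p32 k * p32 ((2 * n + 1 : ℕ) - k)
      ≤ C * Real.exp (-tau q ρ * (2 * n + 1)) * (ε / C * p32 ((2 * n + 1 : ℕ) : ℤ)) :=
        mul_le_mul_of_nonneg_left h4 (by positivity)
    _ = ε * Z0 q ρ n := by
        unfold Z0
        push_cast
        field_simp

end Pool.Helper83.OZ
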