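import Pool.Agent.Helper83.OZ.Ls1

/-!
Project OZ (MP_7e0861_pr), part L5, block LS2: the influence of the row `0` and of the boundary in the window.

Exchange the sums: the left-hand side is at most `∑ y, eta y * ∑ γ ∈ Cl with y ∈ γ.1, WD γ` over the points `y` with
`r0 ≤ y.1 ≤ N - r0`, `|y.2| ≤ 8 y.1`, `|y.2| ≤ 8 (N - y.1)` (`Y (y - u)`, `Y (v - y)`), `|y.2| ≤ n`. By `nc` the inner sum is at most
`C (1 + |y.2|)^2 p32 y.1 p32 (N - y.1) e^{-tau N}`. The five terms of `eta`: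
* `e^{-c |y.2|}`: sum over `y.2`, then `p32_conv`;
* `e^{-c y.1}`: at most `16 y.1 + 1` rows, `(1 + 8 y.1)^2`, `p32 (N - y.1) ≤ (1 + y.1)^2 p32 N` (`p32_shift`); the series over
  `y.1 ≥ r0` of `e^{-c k} poly (k)` is small for `r0` large; `e^{-c (N - y.1)}` is symmetric;
* `e^{-c (y.2 + n)}`, `e^{-c (n - y.2)}`: for `|y.2| ≤ n / 2` they are `≤ e^{-c n / 2}` and everything else is polynomial in `n`
  (`p32 N ≥ N^(-2)`); for `|y.2| > n / 2` use `nc_far` (`N ≤ 8 |y.2|`) : `C e^{-tau N - c n / 2}`, and there are at most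
  `(N + 1)^2` points.
-/

namespace Pool.Helper83.OZ

open Pool.Helper49.FK
open Pool.Helper17.OZ (Y CP Dbl NoCP nd rect tau)
open Pool.Helper95.OZ (FG fI seg)
open Pool.Agent.Helper49.QP (Dn Rn)

variable {q ρ ρ' : ℝ}

private theorem summ71 {c : ℝ} (hc : 0 < c) (k : ℕ) :
    Summable fun j : ℕ => ((j : ℝ) + 1) ^ k * Real.exp (-c * j) := by
  have h := (summable_nat_add_iff 1).2 (Real.summable_pow_mul_exp_neg_nat_mul k hc)
  refine (h.mul_left (Real.exp c)).congr fun j => ?_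
  push_cast
  have : Real.exp (-c * (j : ℝ)) = Real.exp c * Real.exp (-c * ((j : ℝ) + 1)) := by
    rw [← Real.exp_add]
    congr 1
    ring
  rw [this]
  ring

private theorem tail71 {h : ℕ → ℝ} (hs : Summable h) {ε : ℝ} (hε : 0 < ε) :
    ∃ R : ℕ, ∀ r0 : ℕ, R ≤ r0 → ∀ (S : Finset ℤ) (g : ℤ → ℤ),
    Set.InjOn g (S : Set ℤ) → (∀ k ∈ S, (r0 : ℤ) ≤ g k) → ∑ k ∈ S, h (g k).toNat ≤ ε := by
  classical
  obtain ⟨s, hs⟩ := summable_iff_vanishing_norm.1 hs ε hε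
  refine ⟨s.sup id + 1, fun r0 hr0 S g hg hS => ?_⟩
  have hinj : Set.InjOn (fun k => (g k).toNat) (S : Set ℤ) := by
    intro a ha b hb hab
    have h1 := hS a ha
    have h2 := hS b hb
    have hab' : (g a).toNat = (g b).toNat := hab
    have h3 : g a = g b := by omega
    exact hg ha hb h3
  have h1 : ∑ k ∈ S, h (g k).toNat = ∑ n ∈ S.image (fun k => (g k).toNat), h n := by
    rw [Finset.sum_image hinj]
  rw [h1]
  refine (le_abs_self _).trans (le_of_lt ?_)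
  refine hs _ ?_
  rw [Finset.disjoint_left]
  intro n hn hns
  obtain ⟨k, hk, rfl⟩ := Finset.mem_image.1 hn
  have h2 := hS k hk
  have h3 : id (g k).toNat ≤ s.sup id := Finset.le_sup hns
  simp only [id] at h3
  omega

private theorem row71 {c : ℝ} (hc : 0 < c) : ∃ K : ℝ, 0 < K ∧ ∀ n : ℕ,
    ∑ j ∈ Finset.Icc (-(n : ℤ)) n, (1 + |(j : ℝ)|) ^ 2 * Real.exp (-c * |(j : ℝ)|) ≤ K := by
  have hf0 : ∀ j : ℤ, 0 ≤ (1 + |(j : ℝ)|) ^ 2 * Real.exp (-c * |(j : ℝ)|) := fun j => by positivity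
  have hs : Summable fun j : ℤ => (1 + |(j : ℝ)|) ^ 2 * Real.exp (-c * |(j : ℝ)|) := by
    apply Summable.of_nat_of_neg
    · refine (summ71 hc 2).congr fun j => ?_
      have : |(((j : ℕ) : ℤ) : ℝ)| = (j : ℝ) := by
        push_cast
        exact abs_of_nonneg (by positivity)
      rw [this]
      ring
    · refine (summ71 hc 2).congr fun j => ?_
      have : |((-((j : ℕ) : ℤ) : ℤ) : ℝ)| = (j : ℝ) := by
        push_cast
        rw [abs_neg]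
        exact abs_of_nonneg (by positivity)
      rw [this]
      ring
  refine ⟨(∑' j : ℤ, (1 + |(j : ℝ)|) ^ 2 * Real.exp (-c * |(j : ℝ)|)) + 1, ?_, fun n => ?_⟩
  · have : 0 ≤ ∑' j : ℤ, (1 + |(j : ℝ)|) ^ 2 * Real.exp (-c * |(j : ℝ)|) := tsum_nonneg hf0
    linarith
  · have := hs.sum_le_tsum (Finset.Icc (-(n : ℤ)) n) (fun j _ => hf0 j)
    linarith

open Classical in
/-- The points of the window in the diamond. -/
private noncomputable def PP71 (r0 n : ℕ) : Finset (ℤ × ℤ) :=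
  (Dn n).filter fun y => (r0 : ℤ) ≤ y.1 ∧ y.1 ≤ 2 * (n : ℤ) + 1 - r0 ∧ |y.2| ≤ 8 * y.1 ∧
    |y.2| ≤ 8 * (2 * (n : ℤ) + 1 - y.1)

private theorem mem_PP71 {r0 n : ℕ} {y : ℤ × ℤ} : y ∈ PP71 r0 n ↔ y ∈ Dn n ∧ (r0 : ℤ) ≤ y.1 ∧
    y.1 ≤ 2 * (n : ℤ) + 1 - r0 ∧ |y.2| ≤ 8 * y.1 ∧ |y.2| ≤ 8 * (2 * (n : ℤ) + 1 - y.1) := by
  unfold PP71
  rw [Finset.mem_filter]

private theorem mem_Dn71 {n : ℕ} {y : ℤ × ℤ} : y ∈ Dn n ↔ (0 ≤ y.1 ∧ y.1 ≤ 2 * (n : ℤ) + 1) ∧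
    -(n : ℤ) ≤ y.2 ∧ y.2 ≤ n := by
  unfold Dn
  rw [Finset.mem_product, Finset.mem_Icc, Finset.mem_Icc]

private theorem t1_71 {c : ℝ} (hc : 0 < c) {ε : ℝ} (hε : 0 < ε) : ∃ R : ℕ, ∀ r0 : ℕ, R ≤ r0 → ∀ n : ℕ,
    ∑ y ∈ PP71 r0 n, Real.exp (-c * |(y.2 : ℝ)|) *
      ((1 + |(y.2 : ℝ)|) ^ 2 * p32 y.1 * p32 (2 * (n : ℤ) + 1 - y.1)) ≤ ε * p32 (2 * (n : ℤ) + 1) := by
  obtain ⟨K, hK, hrow⟩ := row71 hc
  obtain ⟨R, hR⟩ := p32_conv (show 0 < ε / K by positivity)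
  refine ⟨R, fun r0 hr0 n => ?_⟩
  have h1 := hR r0 hr0 (2 * n + 1)
  push_cast at h1
  have hsub : PP71 r0 n ⊆ Finset.Icc (r0 : ℤ) (2 * (n : ℤ) + 1 - r0) ×ˢ Finset.Icc (-(n : ℤ)) n := by
    intro y hy
    rw [mem_PP71, mem_Dn71] at hy
    rw [Finset.mem_product, Finset.mem_Icc, Finset.mem_Icc]
    exact ⟨⟨hy.2.1, hy.2.2.1⟩, hy.1.2⟩
  have hpos : ∀ y : ℤ × ℤ, 0 ≤ Real.exp (-c * |(y.2 : ℝ)|) *
      ((1 + |(y.2 : ℝ)|) ^ 2 * p32 y.1 * p32 (2 * (n : ℤ) + 1 - y.1)) := by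
    intro y
    have e1 := p32_pos y.1
    have e2 := p32_pos (2 * (n : ℤ) + 1 - y.1)
    positivity
  refine (Finset.sum_le_sum_of_subset_of_nonneg hsub fun y _ _ => hpos y).trans ?_
  rw [Finset.sum_product]
  have h2 : ∀ k ∈ Finset.Icc (r0 : ℤ) (2 * (n : ℤ) + 1 - r0),
      ∑ j ∈ Finset.Icc (-(n : ℤ)) n, Real.exp (-c * |(j : ℝ)|) *
        ((1 + |(j : ℝ)|) ^ 2 * p32 k * p32 (2 * (n : ℤ) + 1 - k)) ≤
        K * (p32 k * p32 (2 * (n : ℤ) + 1 - k)) := by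
    intro k _
    have e1 := p32_pos k
    have e2 := p32_pos (2 * (n : ℤ) + 1 - k)
    have e3 : ∑ j ∈ Finset.Icc (-(n : ℤ)) n, Real.exp (-c * |(j : ℝ)|) *
        ((1 + |(j : ℝ)|) ^ 2 * p32 k * p32 (2 * (n : ℤ) + 1 - k)) =
        (∑ j ∈ Finset.Icc (-(n : ℤ)) n, (1 + |(j : ℝ)|) ^ 2 * Real.exp (-c * |(j : ℝ)|)) *
          (p32 k * p32 (2 * (n : ℤ) + 1 - k)) := by
      rw [Finset.sum_mul]
      refine Finset.sum_congr rfl fun j _ => ?_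
      ring
    rw [e3]
    exact mul_le_mul_of_nonneg_right (hrow n) (by positivity)
  refine (Finset.sum_le_sum h2).trans ?_
  rw [← Finset.mul_sum]
  calc K * ∑ k ∈ Finset.Icc (r0 : ℤ) (2 * (n : ℤ) + 1 - r0), p32 k * p32 (2 * (n : ℤ) + 1 - k)
      ≤ K * (ε / K * p32 (2 * (n : ℤ) + 1)) := mul_le_mul_of_nonneg_left h1 hK.le
    _ = ε * p32 (2 * (n : ℤ) + 1) := by
        field_simp

private theorem grp71 {h : ℕ → ℝ} (h0 : ∀ k, 0 ≤ h k) (A : Finset (ℤ × ℤ)) (g : ℤ → ℤ) (S : Finset ℤ)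
    (F : ℤ × ℤ → ℝ) (hS : ∀ y ∈ A, y.1 ∈ S) (hg : ∀ y ∈ A, 0 ≤ g y.1 ∧ |y.2| ≤ 8 * g y.1)
    (hF : ∀ y ∈ A, F y ≤ h (g y.1).toNat) :
    ∑ y ∈ A, F y ≤ ∑ k ∈ S, (16 * ((g k).toNat : ℝ) + 1) * h (g k).toNat := by
  classical
  rw [← Finset.sum_fiberwise_of_maps_to hS]
  refine Finset.sum_le_sum fun k _ => ?_
  have e1 : ∑ y ∈ A.filter (fun y => y.1 = k), F y ≤
      ((A.filter (fun y => y.1 = k)).card : ℝ) * h (g k).toNat := by
    rw [← nsmul_eq_mul]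
    refine Finset.sum_le_card_nsmul _ _ _ fun y hy => ?_
    rw [Finset.mem_filter] at hy
    have := hF y hy.1
    rw [hy.2] at this
    exact this
  refine e1.trans (mul_le_mul_of_nonneg_right ?_ (h0 _))
  have e2 : A.filter (fun y => y.1 = k) ⊆
      ({k} : Finset ℤ) ×ˢ Finset.Icc (-(8 * ((g k).toNat : ℤ))) (8 * ((g k).toNat : ℤ)) := by
    intro y hy
    rw [Finset.mem_filter] at hy
    have h1 := hg y hy.1
    rw [hy.2] at h1
    rw [Finset.mem_product, Finset.mem_singleton, Finset.mem_Icc]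
    have h2 := abs_le.1 h1.2
    have h3 : ((g k).toNat : ℤ) = g k := Int.toNat_of_nonneg h1.1
    rw [h3]
    exact ⟨hy.2, h2.1, h2.2⟩
  have e3 := Finset.card_le_card e2
  rw [Finset.card_product, Finset.card_singleton, Int.card_Icc, one_mul] at e3
  have e4 : (A.filter (fun y => y.1 = k)).card ≤ 16 * (g k).toNat + 1 := by omega
  exact_mod_cast e4

private theorem t2_71 {c : ℝ} (hc : 0 < c) {ε : ℝ} (hε : 0 < ε) : ∃ R : ℕ, ∀ r0 : ℕ, R ≤ r0 → ∀ n : ℕ,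
    ∀ g : ℤ → ℤ, Function.Injective g → (∀ y ∈ PP71 r0 n, (r0 : ℤ) ≤ g y.1 ∧ |y.2| ≤ 8 * g y.1 ∧
      p32 y.1 * p32 (2 * (n : ℤ) + 1 - y.1) ≤ (1 + (g y.1 : ℝ)) ^ 2 * p32 (2 * (n : ℤ) + 1)) →
    ∑ y ∈ PP71 r0 n, Real.exp (-c * (g y.1 : ℝ)) *
      ((1 + |(y.2 : ℝ)|) ^ 2 * p32 y.1 * p32 (2 * (n : ℤ) + 1 - y.1)) ≤ ε * p32 (2 * (n : ℤ) + 1) := by
  classical
  have hsum : Summable fun m : ℕ => (1024 : ℝ) * (((m : ℝ) + 1) ^ 5 * Real.exp (-c * m)) :=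
    (summ71 hc 5).mul_left 1024
  obtain ⟨R, hR⟩ := tail71 hsum hε
  refine ⟨R, fun r0 hr0 n g hgi hg => ?_⟩
  have hp := p32_pos (2 * (n : ℤ) + 1)
  set P := p32 (2 * (n : ℤ) + 1) with hP
  have h0 : ∀ k : ℕ, 0 ≤ (64 : ℝ) * (((k : ℝ) + 1) ^ 4 * Real.exp (-c * k)) * P := by
    intro k
    positivity
  have h1 := grp71 h0 (PP71 r0 n) g ((PP71 r0 n).image Prod.fst) (fun y => Real.exp (-c * (g y.1 : ℝ)) *
      ((1 + |(y.2 : ℝ)|) ^ 2 * p32 y.1 * p32 (2 * (n : ℤ) + 1 - y.1)))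
      (fun y hy => Finset.mem_image_of_mem _ hy)
      (fun y hy => ⟨by have := (hg y hy).1; omega, (hg y hy).2.1⟩)
      (by
        intro y hy
        obtain ⟨g1, g2, g3⟩ := hg y hy
        have g4 : (((g y.1).toNat : ℕ) : ℝ) = (g y.1 : ℝ) := by
          have : (((g y.1).toNat : ℕ) : ℤ) = g y.1 := Int.toNat_of_nonneg (by omega)
          exact_mod_cast congrArg (Int.cast : ℤ → ℝ) this
        rw [g4]
        have g5 : (0 : ℝ) ≤ (g y.1 : ℝ) := by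
          have : (0 : ℤ) ≤ g y.1 := by omega
          exact_mod_cast this
        have g6 : |(y.2 : ℝ)| ≤ 8 * (g y.1 : ℝ) := by exact_mod_cast g2
        have g7 : (1 + |(y.2 : ℝ)|) ^ 2 ≤ 64 * ((g y.1 : ℝ) + 1) ^ 2 := by
          have a1 := abs_nonneg (y.2 : ℝ)
          nlinarith
        have p1 := p32_pos y.1
        have p2 := p32_pos (2 * (n : ℤ) + 1 - y.1)
        have g8 : (1 + |(y.2 : ℝ)|) ^ 2 * p32 y.1 * p32 (2 * (n : ℤ) + 1 - y.1) ≤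
            64 * ((g y.1 : ℝ) + 1) ^ 2 * ((1 + (g y.1 : ℝ)) ^ 2 * P) := by
          rw [mul_assoc]
          exact mul_le_mul g7 g3 (by positivity) (by positivity)
        calc Real.exp (-c * (g y.1 : ℝ)) *
              ((1 + |(y.2 : ℝ)|) ^ 2 * p32 y.1 * p32 (2 * (n : ℤ) + 1 - y.1))
            ≤ Real.exp (-c * (g y.1 : ℝ)) * (64 * ((g y.1 : ℝ) + 1) ^ 2 * ((1 + (g y.1 : ℝ)) ^ 2 * P)) :=
              mul_le_mul_of_nonneg_left g8 (Real.exp_pos _).le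
          _ = _ := by ring)
  refine h1.trans ?_
  have h2 := hR r0 hr0 ((PP71 r0 n).image Prod.fst) g (fun a _ b _ h => hgi h)
    (by
      intro k hk
      obtain ⟨y, hy, rfl⟩ := Finset.mem_image.1 hk
      exact (hg y hy).1)
  have h3 : ∀ k ∈ (PP71 r0 n).image Prod.fst,
      (16 * ((g k).toNat : ℝ) + 1) * ((64 : ℝ) * ((((g k).toNat : ℝ) + 1) ^ 4 *
        Real.exp (-c * ((g k).toNat : ℝ))) * P) ≤
        (1024 : ℝ) * ((((g k).toNat : ℝ) + 1) ^ 5 * Real.exp (-c * ((g k).toNat : ℝ))) * P := by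
    intro k _
    have a1 : (0 : ℝ) ≤ ((g k).toNat : ℝ) := by positivity
    have a2 : (16 * ((g k).toNat : ℝ) + 1) ≤ 16 * (((g k).toNat : ℝ) + 1) := by linarith
    calc _ ≤ (16 * (((g k).toNat : ℝ) + 1)) * ((64 : ℝ) * ((((g k).toNat : ℝ) + 1) ^ 4 *
        Real.exp (-c * ((g k).toNat : ℝ))) * P) := mul_le_mul_of_nonneg_right a2 (by positivity)
      _ = _ := by ring
  refine (Finset.sum_le_sum h3).trans ?_
  rw [← Finset.sum_mul]
  exact mul_le_mul_of_nonneg_right h2 hp.le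

private theorem t4_71 {C₁ C₂ c c₂ : ℝ} (hC₁ : 0 < C₁) (hC₂ : 0 < C₂) (hc : 0 < c) (hc₂ : 0 < c₂)
    {ε : ℝ} (hε : 0 < ε) : ∃ n₀ : ℕ, ∀ n : ℕ, n₀ ≤ n →
      (2 * (n : ℝ) + 2) ^ 2 * (2 * (C₁ * (1 + (n : ℝ)) ^ 2 * Real.exp (-c * n / 2) +
        C₂ * Real.exp (-c₂ * n / 2))) ≤ ε * p32 (2 * (n : ℤ) + 1) := by
  obtain ⟨c', hc'⟩ : ∃ c', c' = min (c / 2) (c₂ / 2) := ⟨_, rfl⟩
  have hc'0 : 0 < c' := by
    rw [hc']
    exact lt_min (by positivity) (by positivity)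
  have m1 : c' ≤ c / 2 := by rw [hc']; exact min_le_left _ _
  have m2 : c' ≤ c₂ / 2 := by rw [hc']; exact min_le_right _ _
  have hs := (summ71 hc'0 6).tendsto_atTop_zero
  have hK : 0 < ε / (32 * (C₁ + C₂)) := by positivity
  obtain ⟨n₀, hn₀⟩ := Filter.eventually_atTop.1 (hs.eventually (gt_mem_nhds hK))
  refine ⟨n₀, fun n hn => ?_⟩
  have h1 := hn₀ n hn
  have hn0 : (0 : ℝ) ≤ n := by positivity
  have h2 : Real.exp (-c * n / 2) ≤ Real.exp (-c' * n) := by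
    refine Real.exp_le_exp.2 ?_
    nlinarith
  have h3 : Real.exp (-c₂ * n / 2) ≤ Real.exp (-c' * n) := by
    refine Real.exp_le_exp.2 ?_
    nlinarith
  have h4 : C₁ * (1 + (n : ℝ)) ^ 2 * Real.exp (-c * n / 2) + C₂ * Real.exp (-c₂ * n / 2) ≤
      (C₁ + C₂) * (((n : ℝ) + 1) ^ 2 * Real.exp (-c' * n)) := by
    have a1 : C₁ * (1 + (n : ℝ)) ^ 2 * Real.exp (-c * n / 2) ≤
        C₁ * (1 + (n : ℝ)) ^ 2 * Real.exp (-c' * n) := mul_le_mul_of_nonneg_left h2 (by positivity)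
    have a2 : C₂ * Real.exp (-c₂ * n / 2) ≤ C₂ * (((n : ℝ) + 1) ^ 2 * Real.exp (-c' * n)) := by
      refine mul_le_mul_of_nonneg_left ?_ hC₂.le
      refine h3.trans ?_
      refine le_mul_of_one_le_left (Real.exp_pos _).le ?_
      exact one_le_pow₀ (by linarith)
    calc _ ≤ C₁ * (1 + (n : ℝ)) ^ 2 * Real.exp (-c' * n) +
          C₂ * (((n : ℝ) + 1) ^ 2 * Real.exp (-c' * n)) := add_le_add a1 a2
      _ = _ := by ring
  have h5 : 1 / (4 * ((n : ℝ) + 1) ^ 2) ≤ p32 (2 * (n : ℤ) + 1) := by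
    unfold p32
    have b1 : (max (2 * (n : ℤ) + 1) 1 : ℤ) = 2 * (n : ℤ) + 1 := max_eq_left (by omega)
    rw [b1]
    push_cast
    have b2 : Real.sqrt (2 * (n : ℝ) + 1) ≤ 2 * (n : ℝ) + 1 := by
      rw [Real.sqrt_le_left (by positivity)]
      nlinarith
    have b3 : 0 < Real.sqrt (2 * (n : ℝ) + 1) := Real.sqrt_pos.2 (by positivity)
    refine one_div_le_one_div_of_le (by positivity) ?_
    calc (2 * (n : ℝ) + 1) * Real.sqrt (2 * (n : ℝ) + 1) ≤ (2 * (n : ℝ) + 1) * (2 * (n : ℝ) + 1) :=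
          mul_le_mul_of_nonneg_left b2 (by positivity)
      _ ≤ 4 * ((n : ℝ) + 1) ^ 2 := by nlinarith
  have h6 : (((n : ℝ) + 1) ^ 6 * Real.exp (-c' * n)) * (32 * (C₁ + C₂)) ≤ ε := by
    rw [← le_div_iff₀ (by positivity)]
    exact h1.le
  calc (2 * (n : ℝ) + 2) ^ 2 * (2 * (C₁ * (1 + (n : ℝ)) ^ 2 * Real.exp (-c * n / 2) +
        C₂ * Real.exp (-c₂ * n / 2)))
      ≤ (2 * (n : ℝ) + 2) ^ 2 * (2 * ((C₁ + C₂) * (((n : ℝ) + 1) ^ 2 * Real.exp (-c' * n)))) := by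
        refine mul_le_mul_of_nonneg_left ?_ (by positivity)
        exact mul_le_mul_of_nonneg_left h4 (by norm_num)
    _ = ((((n : ℝ) + 1) ^ 6 * Real.exp (-c' * n)) * (32 * (C₁ + C₂))) * (1 / (4 * ((n : ℝ) + 1) ^ 2)) := by
        field_simp
        ring
    _ ≤ ε * p32 (2 * (n : ℤ) + 1) := mul_le_mul h6 h5 (by positivity) hε.le

theorem loss2 (hq : 1 ≤ q) (hρ' : 0 < ρ') (h : ρ' < ρ) (hE : Pool.Helper49.FK.ExpW q ρ)
    (hFG : ∀ (a b : ℤ × ℤ) (γ : Gr), a ≠ b → γ ∈ Dm a b → 0 ≤ FG q ρ a b γ)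
    (F : Pool.Agent.Helper18.WK.Law)
    (hF : ∀ (l : ℕ) (h : ℤ), F.f l h = fI q ρ ((l : ℤ), h) * Real.exp (tau q ρ * l)) {C c : ℝ} (hC : 0 < C)
    (hc : 0 < c) {ε : ℝ} (hε : 0 < ε) :
    ∃ R : ℕ, ∀ r0 : ℕ, R ≤ r0 → ∃ n₀ : ℕ, ∀ n : ℕ, n₀ ≤ n →
      ∑ γ ∈ Cl (Dn n) (0, 0) (Rn n), (∑ y ∈ mid r0 (2 * (n : ℤ) + 1 - r0) (0, 0) (Rn n) γ,
        eta C c 0 (2 * (n : ℤ) + 1) (-(n : ℤ)) n y) * WD q (dfc ρ ρ') (Dn n) γ ≤ ε * Z0 q ρ n := by
  classical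
  have hρ : 0 < ρ := hρ'.trans h
  have hq0 : 0 < q := lt_of_lt_of_le one_pos hq
  obtain ⟨C₁, hC₁, hnc⟩ := nc hq hρ' h hE hFG F hF
  obtain ⟨C₂, c₂, hC₂, hc₂, hfar⟩ := nc_far hq hρ' h hE hFG F hF
  obtain ⟨R₁, hR₁⟩ := t1_71 hc (show 0 < ε / (4 * C * C₁) by positivity)
  obtain ⟨R₂, hR₂⟩ := t2_71 hc (show 0 < ε / (4 * C * C₁) by positivity)
  obtain ⟨n₀, hn₀⟩ := t4_71 hC₁ hC₂ hc hc₂ (show 0 < ε / (4 * C) by positivity)
  refine ⟨max R₁ R₂, fun r0 hr0 => ⟨n₀, fun n hn => ?_⟩⟩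
  have hr1 : R₁ ≤ r0 := (le_max_left _ _).trans hr0
  have hr2 : R₂ ≤ r0 := (le_max_right _ _).trans hr0
  have hd0 : ∀ e, 0 ≤ dfc ρ ρ' e := by
    intro e
    unfold dfc
    split_ifs
    · exact hρ'.le
    · exact hρ.le
  have hW : ∀ γ, 0 ≤ WD q (dfc ρ ρ') (Dn n) γ := fun γ => WD_nonneg hq0 hd0 γ
  have hDn : Dn n = rect 0 (2 * (n : ℤ) + 1) (-(n : ℤ)) n := rfl
  have heta : ∀ y, 0 ≤ eta C c 0 (2 * (n : ℤ) + 1) (-(n : ℤ)) n y := by
    intro y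
    unfold eta
    positivity
  obtain ⟨S, hS⟩ : ∃ S : ℤ × ℤ → ℝ, S = fun y => ∑ γ ∈ (Cl (Dn n) (0, 0) (Rn n)).filter (fun γ => y ∈ γ.1),
    WD q (dfc ρ ρ') (Dn n) γ := ⟨_, rfl⟩
  have hS0 : ∀ y, 0 ≤ S y := by
    intro y
    rw [hS]
    exact Finset.sum_nonneg fun γ _ => hW γ
  have h1 : ∑ γ ∈ Cl (Dn n) (0, 0) (Rn n), (∑ y ∈ mid r0 (2 * (n : ℤ) + 1 - r0) (0, 0) (Rn n) γ,
        eta C c 0 (2 * (n : ℤ) + 1) (-(n : ℤ)) n y) * WD q (dfc ρ ρ') (Dn n) γ ≤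
      ∑ y ∈ PP71 r0 n, eta C c 0 (2 * (n : ℤ) + 1) (-(n : ℤ)) n y * S y := by
    have e1 : ∑ y ∈ PP71 r0 n, eta C c 0 (2 * (n : ℤ) + 1) (-(n : ℤ)) n y * S y =
        ∑ γ ∈ Cl (Dn n) (0, 0) (Rn n), (∑ y ∈ (PP71 r0 n).filter (fun y => y ∈ γ.1),
          eta C c 0 (2 * (n : ℤ) + 1) (-(n : ℤ)) n y) * WD q (dfc ρ ρ') (Dn n) γ := by
      rw [hS]
      simp only [Finset.mul_sum, Finset.sum_filter, Finset.sum_mul]
      rw [Finset.sum_comm]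
      refine Finset.sum_congr rfl fun γ _ => Finset.sum_congr rfl fun y _ => ?_
      split_ifs
      · rfl
      · simp
    rw [e1]
    refine Finset.sum_le_sum fun γ hγ => ?_
    refine mul_le_mul_of_nonneg_right ?_ (hW γ)
    refine Finset.sum_le_sum_of_subset_of_nonneg ?_ fun y _ _ => heta y
    intro y hy
    unfold mid at hy
    rw [Finset.mem_filter] at hy
    obtain ⟨k1, k2, k3, k4, k5⟩ := hy
    rw [mem_Cl] at hγ
    rw [Finset.mem_filter, mem_PP71]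
    refine ⟨⟨hγ.1 k1, k2, k3, ?_, ?_⟩, k1⟩
    · have := k4
      unfold Y at this
      simpa using this
    · have := k5
      unfold Y Rn at this
      simpa using this
  refine h1.trans ?_
  have hN0 : (0 : ℤ) < 2 * (n : ℤ) + 1 := by omega
  have hu : ((0 : ℤ), (0 : ℤ)) ∈ rect 0 (2 * (n : ℤ) + 1) (-(n : ℤ)) n := by
    rw [← hDn, mem_Dn71]
    exact ⟨⟨le_rfl, hN0.le⟩, by show -(n : ℤ) ≤ 0; omega, by show (0 : ℤ) ≤ n; omega⟩
  have hv : Rn n ∈ rect 0 (2 * (n : ℤ) + 1) (-(n : ℤ)) n := by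
    rw [← hDn, mem_Dn71]
    unfold Rn
    exact ⟨⟨hN0.le, le_rfl⟩, by show -(n : ℤ) ≤ 0; omega, by show (0 : ℤ) ≤ n; omega⟩
  obtain ⟨E, hEd⟩ : ∃ E : ℝ, E = Real.exp (-tau q ρ * (2 * n + 1)) := ⟨_, rfl⟩
  have hE0 : 0 < E := by rw [hEd]; exact Real.exp_pos _
  have hn0 : (0 : ℝ) ≤ n := by positivity
  have hb1 : ∀ y ∈ PP71 r0 n, S y ≤
      C₁ * ((1 + |(y.2 : ℝ)|) ^ 2 * p32 y.1 * p32 (2 * (n : ℤ) + 1 - y.1)) * E := by
    intro y hy
    rw [mem_PP71, mem_Dn71] at hy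
    have h3 := hnc 0 (2 * (n : ℤ) + 1) (-(n : ℤ)) n (0, 0) (Rn n) y hu hv
      (by show (0 : ℤ) < 2 * (n : ℤ) + 1; exact hN0) rfl rfl hy.1.1.1 hy.1.1.2
    rw [← hDn] at h3
    rw [hS, hEd]
    refine h3.trans (le_of_eq ?_)
    unfold Rn
    push_cast
    simp only [sub_zero]
  have hb2 : ∀ y ∈ PP71 r0 n, (n : ℤ) < 2 * |y.2| → S y ≤ C₂ * Real.exp (-c₂ * n / 2) * E := by
    intro y hy hy2
    rw [mem_PP71, mem_Dn71] at hy
    have a0 : (n : ℝ) + 1 ≤ 2 * |(y.2 : ℝ)| := by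
      have : (n : ℤ) + 1 ≤ 2 * |y.2| := by omega
      exact_mod_cast this
    have h3 := hfar 0 (2 * (n : ℤ) + 1) (-(n : ℤ)) n (0, 0) (Rn n) y hu hv
      (by show (0 : ℤ) < 2 * (n : ℤ) + 1; exact hN0) (by simp) (by simp [Rn]) hy.1.1.1 hy.1.1.2
      (by
        unfold Rn
        push_cast
        linarith)
    rw [← hDn] at h3
    rw [hS, hEd]
    refine h3.trans ?_
    rw [mul_assoc, ← Real.exp_add]
    refine mul_le_mul_of_nonneg_left (Real.exp_le_exp.2 ?_) hC₂.le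
    unfold Rn
    push_cast
    nlinarith
  have s1 : ∑ y ∈ PP71 r0 n, Real.exp (-c * |(y.2 : ℝ)|) * S y ≤
      C₁ * E * (ε / (4 * C * C₁) * p32 (2 * (n : ℤ) + 1)) := by
    calc ∑ y ∈ PP71 r0 n, Real.exp (-c * |(y.2 : ℝ)|) * S y
        ≤ ∑ y ∈ PP71 r0 n, C₁ * E * (Real.exp (-c * |(y.2 : ℝ)|) *
          ((1 + |(y.2 : ℝ)|) ^ 2 * p32 y.1 * p32 (2 * (n : ℤ) + 1 - y.1))) := by
          refine Finset.sum_le_sum fun y hy => ?_
          refine (mul_le_mul_of_nonneg_left (hb1 y hy) (Real.exp_pos _).le).trans (le_of_eq ?_)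
          ring
      _ ≤ _ := by
          rw [← Finset.mul_sum]
          exact mul_le_mul_of_nonneg_left (hR₁ r0 hr1 n) (by positivity)
  have s2 : ∑ y ∈ PP71 r0 n, Real.exp (-c * (y.1 : ℝ)) * S y ≤
      C₁ * E * (ε / (4 * C * C₁) * p32 (2 * (n : ℤ) + 1)) := by
    calc ∑ y ∈ PP71 r0 n, Real.exp (-c * (y.1 : ℝ)) * S y
        ≤ ∑ y ∈ PP71 r0 n, C₁ * E * (Real.exp (-c * (y.1 : ℝ)) *
          ((1 + |(y.2 : ℝ)|) ^ 2 * p32 y.1 * p32 (2 * (n : ℤ) + 1 - y.1))) := by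
          refine Finset.sum_le_sum fun y hy => ?_
          refine (mul_le_mul_of_nonneg_left (hb1 y hy) (Real.exp_pos _).le).trans (le_of_eq ?_)
          ring
      _ ≤ _ := by
          rw [← Finset.mul_sum]
          refine mul_le_mul_of_nonneg_left ?_ (by positivity)
          refine hR₂ r0 hr2 n (fun k => k) (fun a b h => h) fun y hy => ?_
          rw [mem_PP71, mem_Dn71] at hy
          refine ⟨hy.2.1, hy.2.2.2.1, ?_⟩
          have a1 := p32_shift (i := 2 * (n : ℤ) + 1 - y.1) (l := y.1) hy.1.1.1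
          rw [sub_add_cancel] at a1
          have a2 := p32_le_one y.1
          have a3 := p32_pos (2 * (n : ℤ) + 1 - y.1)
          exact (mul_le_of_le_one_left a3.le a2).trans a1
  have s3 : ∑ y ∈ PP71 r0 n, Real.exp (-c * (2 * (n : ℝ) + 1 - y.1)) * S y ≤
      C₁ * E * (ε / (4 * C * C₁) * p32 (2 * (n : ℤ) + 1)) := by
    calc ∑ y ∈ PP71 r0 n, Real.exp (-c * (2 * (n : ℝ) + 1 - y.1)) * S y
        ≤ ∑ y ∈ PP71 r0 n, C₁ * E * (Real.exp (-c * (((2 * (n : ℤ) + 1 - y.1 : ℤ)) : ℝ)) *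
          ((1 + |(y.2 : ℝ)|) ^ 2 * p32 y.1 * p32 (2 * (n : ℤ) + 1 - y.1))) := by
          refine Finset.sum_le_sum fun y hy => ?_
          refine (mul_le_mul_of_nonneg_left (hb1 y hy) (Real.exp_pos _).le).trans (le_of_eq ?_)
          push_cast
          ring
      _ ≤ _ := by
          rw [← Finset.mul_sum]
          refine mul_le_mul_of_nonneg_left ?_ (by positivity)
          refine hR₂ r0 hr2 n (fun k => 2 * (n : ℤ) + 1 - k) (fun a b h => by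
            have h' : 2 * (n : ℤ) + 1 - a = 2 * (n : ℤ) + 1 - b := h
            omega) fun y hy => ?_
          rw [mem_PP71, mem_Dn71] at hy
          refine ⟨by have := hy.2.2.1; show (r0 : ℤ) ≤ 2 * (n : ℤ) + 1 - y.1; omega, hy.2.2.2.2, ?_⟩
          have a1 := p32_shift (i := y.1) (l := 2 * (n : ℤ) + 1 - y.1)
            (by have := hy.1.1.2; omega)
          have a4 : y.1 + (2 * (n : ℤ) + 1 - y.1) = 2 * (n : ℤ) + 1 := by ring
          rw [a4] at a1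
          have a2 := p32_le_one (2 * (n : ℤ) + 1 - y.1)
          have a3 := p32_pos y.1
          exact (mul_le_of_le_one_right a3.le a2).trans a1
  have s4 : ∑ y ∈ PP71 r0 n, (Real.exp (-c * ((y.2 : ℝ) + n)) + Real.exp (-c * ((n : ℝ) - y.2))) * S y ≤
      E * (ε / (4 * C) * p32 (2 * (n : ℤ) + 1)) := by
    have k1 : ∀ y ∈ PP71 r0 n, (Real.exp (-c * ((y.2 : ℝ) + n)) + Real.exp (-c * ((n : ℝ) - y.2))) * S y ≤
        E * (2 * (C₁ * (1 + (n : ℝ)) ^ 2 * Real.exp (-c * n / 2) + C₂ * Real.exp (-c₂ * n / 2))) := by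
      intro y hy
      have hb1' := hb1 y hy
      have hb2' := hb2 y hy
      rw [mem_PP71, mem_Dn71] at hy
      have a1 : -(n : ℝ) ≤ (y.2 : ℝ) := by exact_mod_cast hy.1.2.1
      have a2 : (y.2 : ℝ) ≤ n := by exact_mod_cast hy.1.2.2
      rcases lt_or_ge (n : ℤ) (2 * |y.2|) with hy2 | hy2
      · have b1 := hb2' hy2
        have b2 : Real.exp (-c * ((y.2 : ℝ) + n)) ≤ 1 := by
          rw [Real.exp_le_one_iff]
          nlinarith
        have b3 : Real.exp (-c * ((n : ℝ) - y.2)) ≤ 1 := by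
          rw [Real.exp_le_one_iff]
          nlinarith
        calc (Real.exp (-c * ((y.2 : ℝ) + n)) + Real.exp (-c * ((n : ℝ) - y.2))) * S y
            ≤ 2 * (C₂ * Real.exp (-c₂ * n / 2) * E) :=
              mul_le_mul (by linarith) b1 (hS0 y) (by norm_num)
          _ = E * (2 * (0 + C₂ * Real.exp (-c₂ * n / 2))) := by ring
          _ ≤ _ := by
              refine mul_le_mul_of_nonneg_left ?_ hE0.le
              have : 0 ≤ C₁ * (1 + (n : ℝ)) ^ 2 * Real.exp (-c * n / 2) := by positivity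
              linarith
      · have a3 : 2 * |(y.2 : ℝ)| ≤ n := by exact_mod_cast hy2
        have a4 := abs_le.1 (show |(y.2 : ℝ)| ≤ n / 2 by linarith)
        have b2 : Real.exp (-c * ((y.2 : ℝ) + n)) ≤ Real.exp (-c * n / 2) := by
          refine Real.exp_le_exp.2 ?_
          nlinarith
        have b3 : Real.exp (-c * ((n : ℝ) - y.2)) ≤ Real.exp (-c * n / 2) := by
          refine Real.exp_le_exp.2 ?_
          nlinarith
        have b4 : S y ≤ C₁ * (1 + (n : ℝ)) ^ 2 * E := by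
          refine hb1'.trans ?_
          refine mul_le_mul_of_nonneg_right ?_ hE0.le
          refine mul_le_mul_of_nonneg_left ?_ hC₁.le
          have q1 := p32_pos y.1
          have q2 := p32_pos (2 * (n : ℤ) + 1 - y.1)
          have q3 := p32_le_one y.1
          have q4 := p32_le_one (2 * (n : ℤ) + 1 - y.1)
          have q5 : p32 y.1 * p32 (2 * (n : ℤ) + 1 - y.1) ≤ 1 := mul_le_one₀ q3 q2.le q4
          have q6 : (1 + |(y.2 : ℝ)|) ^ 2 ≤ (1 + (n : ℝ)) ^ 2 := by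
            have := abs_nonneg (y.2 : ℝ)
            gcongr
            linarith
          rw [mul_assoc]
          calc _ ≤ (1 + (n : ℝ)) ^ 2 * 1 := mul_le_mul q6 q5 (by positivity) (by positivity)
            _ = _ := by ring
        calc (Real.exp (-c * ((y.2 : ℝ) + n)) + Real.exp (-c * ((n : ℝ) - y.2))) * S y
            ≤ (2 * Real.exp (-c * n / 2)) * (C₁ * (1 + (n : ℝ)) ^ 2 * E) :=
              mul_le_mul (by linarith) b4 (hS0 y) (by positivity)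
          _ = E * (2 * (C₁ * (1 + (n : ℝ)) ^ 2 * Real.exp (-c * n / 2) + 0)) := by ring
          _ ≤ _ := by
              refine mul_le_mul_of_nonneg_left ?_ hE0.le
              have : 0 ≤ C₂ * Real.exp (-c₂ * n / 2) := by positivity
              linarith
    have k2 : ((PP71 r0 n).card : ℝ) ≤ (2 * (n : ℝ) + 2) ^ 2 := by
      have e1 : (PP71 r0 n).card ≤ (Dn n).card := by
        unfold PP71
        exact Finset.card_filter_le _ _
      have e2 : (Dn n).card = (2 * n + 2) * (2 * n + 1) := by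
        unfold Dn
        rw [Finset.card_product, Int.card_Icc, Int.card_Icc]
        congr 1 <;> omega
      have e3 : (PP71 r0 n).card ≤ (2 * n + 2) ^ 2 := by
        rw [e2] at e1
        nlinarith
      exact_mod_cast e3
    calc _ ≤ ∑ _y ∈ PP71 r0 n, E * (2 * (C₁ * (1 + (n : ℝ)) ^ 2 * Real.exp (-c * n / 2) +
          C₂ * Real.exp (-c₂ * n / 2))) := Finset.sum_le_sum k1
      _ = ((PP71 r0 n).card : ℝ) * (E * (2 * (C₁ * (1 + (n : ℝ)) ^ 2 * Real.exp (-c * n / 2) +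
          C₂ * Real.exp (-c₂ * n / 2)))) := by rw [Finset.sum_const, nsmul_eq_mul]
      _ ≤ (2 * (n : ℝ) + 2) ^ 2 * (E * (2 * (C₁ * (1 + (n : ℝ)) ^ 2 * Real.exp (-c * n / 2) +
          C₂ * Real.exp (-c₂ * n / 2)))) := mul_le_mul_of_nonneg_right k2 (by positivity)
      _ = E * ((2 * (n : ℝ) + 2) ^ 2 * (2 * (C₁ * (1 + (n : ℝ)) ^ 2 * Real.exp (-c * n / 2) +
          C₂ * Real.exp (-c₂ * n / 2)))) := by ring
      _ ≤ _ := mul_le_mul_of_nonneg_left (hn₀ n hn) hE0.le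
  have hsum : ∑ y ∈ PP71 r0 n, eta C c 0 (2 * (n : ℤ) + 1) (-(n : ℤ)) n y * S y =
      C * (∑ y ∈ PP71 r0 n, Real.exp (-c * |(y.2 : ℝ)|) * S y +
        ∑ y ∈ PP71 r0 n, Real.exp (-c * (y.1 : ℝ)) * S y +
        ∑ y ∈ PP71 r0 n, Real.exp (-c * (2 * (n : ℝ) + 1 - y.1)) * S y +
        ∑ y ∈ PP71 r0 n, (Real.exp (-c * ((y.2 : ℝ) + n)) + Real.exp (-c * ((n : ℝ) - y.2))) * S y) := by
    rw [← Finset.sum_add_distrib, ← Finset.sum_add_distrib, ← Finset.sum_add_distrib, Finset.mul_sum]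
    refine Finset.sum_congr rfl fun y _ => ?_
    unfold eta
    push_cast
    simp only [sub_zero, sub_neg_eq_add]
    ring
  rw [hsum]
  have hfin : C * (C₁ * E * (ε / (4 * C * C₁) * p32 (2 * (n : ℤ) + 1)) +
      C₁ * E * (ε / (4 * C * C₁) * p32 (2 * (n : ℤ) + 1)) +
      C₁ * E * (ε / (4 * C * C₁) * p32 (2 * (n : ℤ) + 1)) +
      E * (ε / (4 * C) * p32 (2 * (n : ℤ) + 1))) = ε * Z0 q ρ n := by
    unfold Z0
    rw [← hEd]
    field_simp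
    ring
  rw [← hfin]
  refine mul_le_mul_of_nonneg_left ?_ hC.le
  linarith

end Pool.Helper83.OZ
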