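import Pool.Agent.Helper83.OZ.Geo

/-!
Project OZ (MP_7e0861_pr), part L5, block CONE: sums of exponentials over cones.

For `a` in the backward cone of `m` put `i = m.1 - a.1 ≥ 0`; for given `i` there are at most `16 i + 1` such `a` (`a.2`
is in `[m.2 - 8 i, m.2 + 8 i]`), and `|a.1 - b.1| ≥ i + (m'.1 - m.1) + j` with `j = b.1 - m'.1`. So the sum is at most
`e^{-c (m'.1 - m.1)} (∑ i, (16 i + 1) e^{-c i})^2`, and for `cone_far` the sums start at `R`.
`half_sum`: the sum over the points `s` of the half plane `s.1 ≤ k` (or `≥ k`, or rows) of `e^{-c |s - x|_1}`.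
-/

namespace Pool.Helper83.OZ

open Pool.Helper49.FK
open Pool.Helper17.OZ (Y CP Dbl NoCP nd rect tau)

/-- The `l^1` distance, as a real number. -/
noncomputable def d1 (x y : ℤ × ℤ) : ℝ := |(x.1 : ℝ) - y.1| + |(x.2 : ℝ) - y.2|

private lemma summable_int56 {κ : ℝ} (hκ : 0 < κ) : Summable fun n : ℤ => Real.exp (-κ * |(n : ℝ)|) := by
  have h1 : Summable fun n : ℕ => Real.exp ((n : ℝ) * (-κ)) :=
    Real.summable_exp_nat_mul_iff.2 (by linarith)
  refine Summable.of_nat_of_neg ?_ ?_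
  · refine h1.congr fun n => ?_
    congr 1
    push_cast
    rw [abs_of_nonneg (Nat.cast_nonneg n)]
    ring
  · refine h1.congr fun n => ?_
    congr 1
    push_cast
    rw [abs_neg, abs_of_nonneg (Nat.cast_nonneg n)]
    ring

private lemma summable_prod56 {κ μ : ℝ} (hκ : 0 < κ) (hμ : 0 < μ) :
    Summable fun u : ℤ × ℤ => Real.exp (-κ * |(u.1 : ℝ)|) * Real.exp (-μ * |(u.2 : ℝ)|) :=
  (summable_int56 hκ).mul_of_nonneg (summable_int56 hμ) (fun _ => (Real.exp_pos _).le)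
    (fun _ => (Real.exp_pos _).le)

private lemma sum_inj56 {A X : Type*} [DecidableEq X] {F : X → ℝ} (hF : Summable F) (h0 : ∀ u, 0 ≤ F u)
    (S : Finset A) (φ : A → X) (hφ : Set.InjOn φ (S : Set A)) : ∑ s ∈ S, F (φ s) ≤ ∑' u, F u := by
  rw [← Finset.sum_image (f := F) hφ]
  exact hF.sum_le_tsum _ (fun i _ => h0 i)

/-- the weight of a point of the cone -/
private noncomputable def gw56 (c : ℝ) (u : ℤ × ℤ) : ℝ :=
  Real.exp (-(c / 2) * |(u.1 : ℝ)|) * Real.exp (-(c / 16) * |(u.2 : ℝ)|)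

private lemma gw_nonneg56 (c : ℝ) (u : ℤ × ℤ) : 0 ≤ gw56 c u :=
  mul_nonneg (Real.exp_pos _).le (Real.exp_pos _).le

private lemma exp_le_gw56 {c : ℝ} (hc : 0 < c) {u : ℤ × ℤ} (hu : Y u) :
    Real.exp (-c * (u.1 : ℝ)) ≤ gw56 c u := by
  have h1 : |(u.2 : ℝ)| ≤ 8 * (u.1 : ℝ) := by
    have h : |u.2| ≤ 8 * u.1 := hu
    have h' : ((|u.2| : ℤ) : ℝ) ≤ ((8 * u.1 : ℤ) : ℝ) := by exact_mod_cast h
    push_cast at h'
    exact h'
  have h2 : 0 ≤ (u.1 : ℝ) := by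
    have := abs_nonneg (u.2 : ℝ)
    linarith
  unfold gw56
  rw [← Real.exp_add, Real.exp_le_exp, abs_of_nonneg h2]
  nlinarith

private lemma cone_term56 {c : ℝ} (hc : 0 < c) {m m' a b : ℤ × ℤ} (ha : Y (m - a)) (hb : Y (b - m'))  :
    Real.exp (-c * d1 a b) ≤ Real.exp (-c * ((m'.1 : ℝ) - m.1)) * (gw56 c (m - a) * gw56 c (b - m')) := by
  have h1 := exp_le_gw56 hc ha
  have h2 := exp_le_gw56 hc hb
  have h3 : ((m'.1 : ℝ) - m.1) + ((m - a).1 : ℝ) + ((b - m').1 : ℝ) ≤ d1 a b := by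
    unfold d1
    rw [Prod.fst_sub, Prod.fst_sub]
    push_cast
    have e1 := neg_abs_le ((a.1 : ℝ) - b.1)
    have e2 := abs_nonneg ((a.2 : ℝ) - b.2)
    linarith
  calc Real.exp (-c * d1 a b) ≤ Real.exp (-c * ((m'.1 : ℝ) - m.1) +
        (-c * ((m - a).1 : ℝ) + -c * ((b - m').1 : ℝ))) := by
        rw [Real.exp_le_exp]
        nlinarith
    _ = Real.exp (-c * ((m'.1 : ℝ) - m.1)) * (Real.exp (-c * ((m - a).1 : ℝ)) *
        Real.exp (-c * ((b - m').1 : ℝ))) := by rw [Real.exp_add, Real.exp_add]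
    _ ≤ _ := mul_le_mul_of_nonneg_left
        (mul_le_mul h1 h2 (Real.exp_pos _).le (gw_nonneg56 _ _)) (Real.exp_pos _).le

private lemma gw_summable56 {c : ℝ} (hc : 0 < c) : Summable (gw56 c) :=
  summable_prod56 (by positivity) (by positivity)

private lemma subl_inj56 (m : ℤ × ℤ) (A : Finset (ℤ × ℤ)) :
    Set.InjOn (fun a => m - a) (A : Set (ℤ × ℤ)) := fun _ _ _ _ h => by simpa using h

private lemma subr_inj56 (m : ℤ × ℤ) (A : Finset (ℤ × ℤ)) :
    Set.InjOn (fun a => a - m) (A : Set (ℤ × ℤ)) := fun _ _ _ _ h => by simpa using h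

theorem cone_sum {c : ℝ} (hc : 0 < c) : ∃ C : ℝ, 0 < C ∧ ∀ (m m' : ℤ × ℤ) (A B : Finset (ℤ × ℤ)),
    m.1 ≤ m'.1 → (∀ a ∈ A, Y (m - a)) → (∀ b ∈ B, Y (b - m')) →
    ∑ a ∈ A, ∑ b ∈ B, Real.exp (-c * d1 a b) ≤ C * Real.exp (-c * ((m'.1 : ℝ) - m.1)) := by
  set K : ℝ := ∑' u, gw56 c u with hK
  have hK0 : 0 ≤ K := tsum_nonneg (gw_nonneg56 c)
  refine ⟨K * K + 1, by positivity, fun m m' A B _ hA hB => ?_⟩
  have h1 : ∑ a ∈ A, gw56 c (m - a) ≤ K :=
    sum_inj56 (gw_summable56 hc) (gw_nonneg56 c) A (fun a => m - a) (subl_inj56 m A)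
  have h2 : ∑ b ∈ B, gw56 c (b - m') ≤ K :=
    sum_inj56 (gw_summable56 hc) (gw_nonneg56 c) B (fun b => b - m') (subr_inj56 m' B)
  calc ∑ a ∈ A, ∑ b ∈ B, Real.exp (-c * d1 a b)
      ≤ ∑ a ∈ A, ∑ b ∈ B, Real.exp (-c * ((m'.1 : ℝ) - m.1)) *
          (gw56 c (m - a) * gw56 c (b - m')) :=
        Finset.sum_le_sum fun a ha => Finset.sum_le_sum fun b hb =>
          cone_term56 hc (hA a ha) (hB b hb)
    _ = Real.exp (-c * ((m'.1 : ℝ) - m.1)) *
          ((∑ a ∈ A, gw56 c (m - a)) * ∑ b ∈ B, gw56 c (b - m')) := by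
        rw [Finset.sum_mul_sum, Finset.mul_sum]
        exact Finset.sum_congr rfl fun a _ => by rw [Finset.mul_sum]
    _ ≤ Real.exp (-c * ((m'.1 : ℝ) - m.1)) * (K * K) := by
        apply mul_le_mul_of_nonneg_left _ (Real.exp_pos _).le
        exact mul_le_mul h1 h2 (Finset.sum_nonneg fun b _ => gw_nonneg56 _ _) hK0
    _ ≤ (K * K + 1) * Real.exp (-c * ((m'.1 : ℝ) - m.1)) := by
        nlinarith [Real.exp_pos (-c * ((m'.1 : ℝ) - m.1))]

theorem cone_far {c ε : ℝ} (hc : 0 < c) (hε : 0 < ε) : ∃ R : ℕ, ∀ (m : ℤ × ℤ) (A B : Finset (ℤ × ℤ)),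
    (∀ a ∈ A, Y (m - a) ∧ a.1 + R ≤ m.1) → (∀ b ∈ B, Y (b - m) ∧ m.1 + R ≤ b.1) →
    ∑ a ∈ A, ∑ b ∈ B, Real.exp (-c * d1 a b) ≤ ε := by
  have hε' : 0 < min 1 ε := lt_min one_pos hε
  obtain ⟨s, hs⟩ := summable_iff_vanishing_norm.1 (gw_summable56 hc) (min 1 ε) hε'
  obtain ⟨R, hR⟩ : ∃ R : ℕ, ∀ u ∈ s, u.1 < (R : ℤ) := by
    refine ⟨(s.sup fun u => u.1.natAbs) + 1, fun u hu => ?_⟩
    have h1 : u.1.natAbs ≤ s.sup fun u => u.1.natAbs := Finset.le_sup (f := fun u : ℤ × ℤ => u.1.natAbs) hu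
    have h2 : u.1 ≤ u.1.natAbs := Int.le_natAbs
    omega
  have key : ∀ (A : Finset (ℤ × ℤ)) (φ : ℤ × ℤ → ℤ × ℤ), Set.InjOn φ (A : Set (ℤ × ℤ)) →
      (∀ a ∈ A, (R : ℤ) ≤ (φ a).1) → ∑ a ∈ A, gw56 c (φ a) ≤ min 1 ε := by
    intro A φ hφ hA
    have hd : Disjoint (A.image φ) s := by
      rw [Finset.disjoint_left]
      intro u hu hus
      obtain ⟨a, ha, rfl⟩ := Finset.mem_image.1 hu
      have h1 := hA a ha
      have h2 := hR _ hus
      omega
    have h1 := hs (A.image φ) hd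
    rw [Finset.sum_image hφ, Real.norm_eq_abs] at h1
    exact (le_abs_self _).trans h1.le
  refine ⟨R, fun m A B hA hB => ?_⟩
  have h1 : ∑ a ∈ A, gw56 c (m - a) ≤ min 1 ε := by
    refine key A (fun a => m - a) (subl_inj56 m A) fun a ha => ?_
    have := (hA a ha).2
    rw [Prod.fst_sub]
    omega
  have h2 : ∑ b ∈ B, gw56 c (b - m) ≤ min 1 ε := by
    refine key B (fun b => b - m) (subr_inj56 m B) fun b hb => ?_
    have := (hB b hb).2
    rw [Prod.fst_sub]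
    omega
  calc ∑ a ∈ A, ∑ b ∈ B, Real.exp (-c * d1 a b)
      ≤ ∑ a ∈ A, ∑ b ∈ B, gw56 c (m - a) * gw56 c (b - m) := by
        refine Finset.sum_le_sum fun a ha => Finset.sum_le_sum fun b hb => ?_
        have h3 := cone_term56 hc (hA a ha).1 (hB b hb).1
        rwa [sub_self, mul_zero, Real.exp_zero, one_mul] at h3
    _ = (∑ a ∈ A, gw56 c (m - a)) * ∑ b ∈ B, gw56 c (b - m) := by rw [Finset.sum_mul_sum]
    _ ≤ 1 * ε := mul_le_mul (h1.trans (min_le_left _ _)) (h2.trans (min_le_right _ _))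
        (Finset.sum_nonneg fun b _ => gw_nonneg56 _ _) zero_le_one
    _ = ε := one_mul ε

theorem row_sum {c : ℝ} (hc : 0 < c) : ∃ C : ℝ, 0 < C ∧ ∀ (x : ℤ × ℤ) (S : Finset (ℤ × ℤ)),
    (∀ s ∈ S, s.2 = 0) → ∑ s ∈ S, Real.exp (-c * d1 s x) ≤ C * Real.exp (-c * |(x.2 : ℝ)|) := by
  set K : ℝ := ∑' n : ℤ, Real.exp (-c * |(n : ℝ)|) with hK
  have hK0 : 0 ≤ K := tsum_nonneg fun n => (Real.exp_pos _).le
  refine ⟨K + 1, by positivity, fun x S hS => ?_⟩
  have h1 : ∑ s ∈ S, Real.exp (-c * |((s.1 - x.1 : ℤ) : ℝ)|) ≤ K := by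
    refine sum_inj56 (F := fun n : ℤ => Real.exp (-c * |(n : ℝ)|)) (summable_int56 hc)
      (fun n => (Real.exp_pos _).le) S (fun s => s.1 - x.1) ?_
    intro s hs t ht h
    have h1 : s.1 = t.1 := by simpa using h
    exact Prod.ext h1 ((hS s hs).trans (hS t ht).symm)
  calc ∑ s ∈ S, Real.exp (-c * d1 s x)
      = ∑ s ∈ S, Real.exp (-c * |((s.1 - x.1 : ℤ) : ℝ)|) * Real.exp (-c * |(x.2 : ℝ)|) := by
        refine Finset.sum_congr rfl fun s hs => ?_
        rw [← Real.exp_add]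
        congr 1
        unfold d1
        rw [hS s hs]
        push_cast
        rw [zero_sub, abs_neg]
        ring
    _ = (∑ s ∈ S, Real.exp (-c * |((s.1 - x.1 : ℤ) : ℝ)|)) * Real.exp (-c * |(x.2 : ℝ)|) := by
        rw [Finset.sum_mul]
    _ ≤ (K + 1) * Real.exp (-c * |(x.2 : ℝ)|) :=
        mul_le_mul_of_nonneg_right (by linarith) (Real.exp_pos _).le

/-- Points outside of a rectangle. -/
theorem out_sum {c : ℝ} (hc : 0 < c) : ∃ C : ℝ, 0 < C ∧ ∀ (a b e d : ℤ) (x : ℤ × ℤ) (S : Finset (ℤ × ℤ)),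
    x ∈ rect a b e d → (∀ s ∈ S, s ∉ rect a b e d) →
    ∑ s ∈ S, Real.exp (-c * d1 s x) ≤
      C * (Real.exp (-c * ((x.1 : ℝ) - a)) + Real.exp (-c * ((b : ℝ) - x.1)) +
        Real.exp (-c * ((x.2 : ℝ) - e)) + Real.exp (-c * ((d : ℝ) - x.2))) := by
  set F : ℤ × ℤ → ℝ := fun u => Real.exp (-c * |(u.1 : ℝ)|) * Real.exp (-c * |(u.2 : ℝ)|) with hF
  have hFs : Summable F := summable_prod56 hc hc
  have hF0 : ∀ u, 0 ≤ F u := fun u => mul_nonneg (Real.exp_pos _).le (Real.exp_pos _).le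
  set K : ℝ := ∑' u, F u with hK
  have hK0 : 0 ≤ K := tsum_nonneg hF0
  refine ⟨K + 1, by positivity, fun a b e d x S hx hS => ?_⟩
  have hsum : ∀ q : ℤ × ℤ, ∑ s ∈ S, F (s - q) ≤ K := fun q =>
    sum_inj56 hFs hF0 S (fun s => s - q) (subr_inj56 q S)
  unfold rect at hx hS
  rw [Finset.mem_product, Finset.mem_Icc, Finset.mem_Icc] at hx
  obtain ⟨⟨hx1, hx2⟩, hx3, hx4⟩ := hx
  have x1 : (a : ℝ) ≤ x.1 := by exact_mod_cast hx1
  have x2 : (x.1 : ℝ) ≤ b := by exact_mod_cast hx2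
  have x3 : (e : ℝ) ≤ x.2 := by exact_mod_cast hx3
  have x4 : (x.2 : ℝ) ≤ d := by exact_mod_cast hx4
  have hterm : ∀ s ∈ S, Real.exp (-c * d1 s x) ≤
      Real.exp (-c * ((x.1 : ℝ) - a)) * F (s - (a, x.2)) +
      Real.exp (-c * ((b : ℝ) - x.1)) * F (s - (b, x.2)) +
      Real.exp (-c * ((x.2 : ℝ) - e)) * F (s - (x.1, e)) +
      Real.exp (-c * ((d : ℝ) - x.2)) * F (s - (x.1, d)) := by
    intro s hs
    have h1 := hS s hs
    rw [Finset.mem_product, Finset.mem_Icc, Finset.mem_Icc] at h1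
    have p1 : 0 ≤ Real.exp (-c * ((x.1 : ℝ) - a)) * F (s - (a, x.2)) :=
      mul_nonneg (Real.exp_pos _).le (hF0 _)
    have p2 : 0 ≤ Real.exp (-c * ((b : ℝ) - x.1)) * F (s - (b, x.2)) :=
      mul_nonneg (Real.exp_pos _).le (hF0 _)
    have p3 : 0 ≤ Real.exp (-c * ((x.2 : ℝ) - e)) * F (s - (x.1, e)) :=
      mul_nonneg (Real.exp_pos _).le (hF0 _)
    have p4 : 0 ≤ Real.exp (-c * ((d : ℝ) - x.2)) * F (s - (x.1, d)) :=
      mul_nonneg (Real.exp_pos _).le (hF0 _)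
    have hcase : s.1 < a ∨ b < s.1 ∨ s.2 < e ∨ d < s.2 := by
      by_contra hcon
      push Not at hcon
      exact h1 ⟨⟨hcon.1, hcon.2.1⟩, hcon.2.2.1, hcon.2.2.2⟩
    rcases hcase with h | h | h | h
    · have h' : (s.1 : ℝ) < a := by exact_mod_cast h
      have : Real.exp (-c * d1 s x) ≤ Real.exp (-c * ((x.1 : ℝ) - a)) * F (s - (a, x.2)) := by
        rw [hF]
        simp only [Prod.fst_sub, Prod.snd_sub]
        push_cast
        rw [← Real.exp_add, ← Real.exp_add, Real.exp_le_exp]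
        unfold d1
        rw [abs_of_neg (show (s.1 : ℝ) - a < 0 by linarith),
          abs_of_neg (show (s.1 : ℝ) - x.1 < 0 by linarith)]
        nlinarith
      linarith
    · have h' : (b : ℝ) < s.1 := by exact_mod_cast h
      have : Real.exp (-c * d1 s x) ≤ Real.exp (-c * ((b : ℝ) - x.1)) * F (s - (b, x.2)) := by
        rw [hF]
        simp only [Prod.fst_sub, Prod.snd_sub]
        push_cast
        rw [← Real.exp_add, ← Real.exp_add, Real.exp_le_exp]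
        unfold d1
        rw [abs_of_pos (show 0 < (s.1 : ℝ) - b by linarith),
          abs_of_pos (show 0 < (s.1 : ℝ) - x.1 by linarith)]
        nlinarith
      linarith
    · have h' : (s.2 : ℝ) < e := by exact_mod_cast h
      have : Real.exp (-c * d1 s x) ≤ Real.exp (-c * ((x.2 : ℝ) - e)) * F (s - (x.1, e)) := by
        rw [hF]
        simp only [Prod.fst_sub, Prod.snd_sub]
        push_cast
        rw [← Real.exp_add, ← Real.exp_add, Real.exp_le_exp]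
        unfold d1
        rw [abs_of_neg (show (s.2 : ℝ) - e < 0 by linarith),
          abs_of_neg (show (s.2 : ℝ) - x.2 < 0 by linarith)]
        nlinarith
      linarith
    · have h' : (d : ℝ) < s.2 := by exact_mod_cast h
      have : Real.exp (-c * d1 s x) ≤ Real.exp (-c * ((d : ℝ) - x.2)) * F (s - (x.1, d)) := by
        rw [hF]
        simp only [Prod.fst_sub, Prod.snd_sub]
        push_cast
        rw [← Real.exp_add, ← Real.exp_add, Real.exp_le_exp]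
        unfold d1
        rw [abs_of_pos (show 0 < (s.2 : ℝ) - d by linarith),
          abs_of_pos (show 0 < (s.2 : ℝ) - x.2 by linarith)]
        nlinarith
      linarith
  refine (Finset.sum_le_sum hterm).trans ?_
  rw [Finset.sum_add_distrib, Finset.sum_add_distrib, Finset.sum_add_distrib, ← Finset.mul_sum,
    ← Finset.mul_sum, ← Finset.mul_sum, ← Finset.mul_sum]
  have e1 := Real.exp_pos (-c * ((x.1 : ℝ) - a))
  have e2 := Real.exp_pos (-c * ((b : ℝ) - x.1))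
  have e3 := Real.exp_pos (-c * ((x.2 : ℝ) - e))
  have e4 := Real.exp_pos (-c * ((d : ℝ) - x.2))
  have f1 := mul_le_mul_of_nonneg_left (hsum (a, x.2)) e1.le
  have f2 := mul_le_mul_of_nonneg_left (hsum (b, x.2)) e2.le
  have f3 := mul_le_mul_of_nonneg_left (hsum (x.1, e)) e3.le
  have f4 := mul_le_mul_of_nonneg_left (hsum (x.1, d)) e4.le
  nlinarith

end Pool.Helper83.OZ
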