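import Pool.Agent.Helper83.OZ.Xt2
import Pool.Agent.Helper83.OZ.Cone
import Pool.Agent.Helper49.FK.Exp

/-!
Project OZ (MP_7e0861_pr), part L5, block XT3: exponential bound for `Tz`.

* `xt_small`: let `C, c` be the constants of `nocp_le`, `κ` that of `WD_join_le`, and `z > 0` so small that
  `(z / κ) * ∑ l ≥ 1, (16 l + 1) C e^{-c l / 2} ≤ 1/2`. Claim `Tz u w ≤ 2 C e^{-(tau + c/2) (w.1 - u.1)}`, by strong
  induction on `w.1 - u.1` with `Tz_rec` (for a column at distance `l` there are at most `16 l + 1` points `t` in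
  `btw`).
* `xt`: `Tz z u w ≤ z ^ K * G u w + y ^ (-K) * Tz y u w` for every `K` and `0 < y ≤ 1` (graphs with at least `K`
  cone points, and with fewer than `K`: `1 ≤ y ^ (-K) y ^ card`), `G_le_tau`, `xt_small` for some `y`, `K` = floor of a small
  multiple of `w.1 - u.1`.
-/

namespace Pool.Helper83.OZ

open Pool.Helper49.FK
open Pool.Helper17.OZ (Y CP Dbl NoCP nd rect tau)

variable {q ρ : ℝ} {r : Edge → ℝ} {D : Finset (ℤ × ℤ)}

private theorem hE_pos34 (hρ : 0 < ρ) (hq : 1 ≤ q) (hE : Pool.Helper49.FK.ExpW q ρ) : ExpDecay q ρ :=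
  Pool.Helper49.FK.ExpW.decay hq hρ hE

/-- the sum over a cone with apex `u` -/
private theorem cone1_34 {c : ℝ} (hc : 0 < c) : ∃ S : ℝ, 0 < S ∧ ∀ (u w : ℤ × ℤ) (D : Finset (ℤ × ℤ)),
    ∑ t ∈ btw D u w, Real.exp (-c * ((t.1 : ℝ) - u.1)) ≤ S := by
  obtain ⟨S, hS, h⟩ := cone_sum (c := c / 9) (by positivity)
  refine ⟨S, hS, fun u w D => ?_⟩
  have h1 := h u u {u} (btw D u w) le_rfl (fun a ha => by
    rw [Finset.mem_singleton] at ha
    rw [ha]
    exact Y_self u) (fun b hb => by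
    classical
    unfold btw at hb
    exact (Finset.mem_filter.1 hb).2.2.2)
  rw [Finset.sum_singleton, sub_self, mul_zero, Real.exp_zero, mul_one] at h1
  refine (Finset.sum_le_sum fun t ht => ?_).trans h1
  have hY : Y (t - u) := by
    classical
    unfold btw at ht
    exact (Finset.mem_filter.1 ht).2.2.2
  refine Real.exp_le_exp.2 ?_
  have h2 : |((t - u).2 : ℝ)| ≤ 8 * ((t - u).1 : ℝ) := by
    have h3 : |(t - u).2| ≤ 8 * (t - u).1 := hY
    have h' : ((|(t - u).2| : ℤ) : ℝ) ≤ ((8 * (t - u).1 : ℤ) : ℝ) := by exact_mod_cast h3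
    push_cast at h'
    exact h'
  rw [Prod.fst_sub, Prod.snd_sub] at h2
  push_cast at h2
  have h3 : 0 ≤ (t.1 : ℝ) - u.1 := by
    have := abs_nonneg ((t.2 : ℝ) - u.2)
    linarith
  have h4 : d1 u t ≤ 9 * ((t.1 : ℝ) - u.1) := by
    unfold d1
    rw [abs_sub_comm, abs_of_nonneg h3, abs_sub_comm (u.2 : ℝ)]
    linarith
  nlinarith

theorem xt_small (hq : 1 ≤ q) {α : ℝ} (hα : 0 < α) (hαρ : α ≤ ρ) (hE : Pool.Helper49.FK.ExpW q ρ) :
    ∃ z C c : ℝ, 0 < z ∧ z ≤ 1 ∧ 0 < C ∧ 0 < c ∧ ∀ r : Edge → ℝ, (∀ e, α ≤ r e ∧ r e ≤ ρ) →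
      ∀ a b e d : ℤ, ∀ u w : ℤ × ℤ, u ∈ rect a b e d → w ∈ rect a b e d → u.1 < w.1 →
      Tz q r (rect a b e d) z u w ≤ C * Real.exp (-(tau q ρ + c) * ((w.1 : ℝ) - u.1)) := by
  have hρ : 0 < ρ := by linarith
  have hq0 : 0 < q := by linarith
  obtain ⟨C, c, hC, hc, hn⟩ := nocp_le hq hα hαρ hE
  obtain ⟨κ, hκ, _, hj⟩ := WD_join_le hq hρ (hE_pos34 hρ hq hE)
  obtain ⟨S, hS, hcone⟩ := cone1_34 (c := c / 2) (by positivity)
  set z : ℝ := min 1 (κ / (2 * C * S)) with hz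
  have hz0 : 0 < z := lt_min one_pos (by positivity)
  have hz1 : z ≤ 1 := min_le_left _ _
  have hzk : z * (2 * C * S) ≤ κ := by
    have h1 : z ≤ κ / (2 * C * S) := min_le_right _ _
    rwa [le_div_iff₀ (by positivity)] at h1
  refine ⟨z, 2 * C, c / 2, hz0, hz1, by positivity, by positivity, fun r hr a b e d u w hu hw huw => ?_⟩
  have hr0 : ∀ e, 0 ≤ r e := fun e => hα.le.trans (hr e).1
  have hrb : ∀ e, 0 ≤ r e ∧ r e ≤ ρ := fun e => ⟨hr0 e, (hr e).2⟩
  set τ : ℝ := tau q ρ with hτ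
  obtain ⟨N, hN⟩ : ∃ N : ℕ, w.1 - u.1 < N := ⟨(w.1 - u.1).toNat + 1, by omega⟩
  induction N generalizing u with
  | zero => omega
  | succ N ih =>
    have hΔ : (0 : ℝ) < (w.1 : ℝ) - u.1 := by
      have : (u.1 : ℝ) < w.1 := by exact_mod_cast huw
      linarith
    have hrec := Tz_rec (D := rect a b e d) hq0 hr0 hz0.le hκ
      (fun γ δ m h => hj (rect a b e d) r hrb γ δ m h) huw
    set Δ : ℝ := (w.1 : ℝ) - u.1 with hΔd
    set X : ℝ := Real.exp (-(τ + c / 2) * Δ) with hX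
    have hX0 : 0 < X := Real.exp_pos _
    have h1 : nocp q r (rect a b e d) u w ≤ C * X := by
      refine (hn r hr a b e d u w hu hw huw).trans ?_
      refine mul_le_mul_of_nonneg_left (Real.exp_le_exp.2 ?_) hC.le
      nlinarith
    have h2 : ∑ t ∈ btw (rect a b e d) u w,
        nocp q r (rect a b e d) u t * Tz q r (rect a b e d) z t w ≤ 2 * C ^ 2 * X * S := by
      calc ∑ t ∈ btw (rect a b e d) u w,
            nocp q r (rect a b e d) u t * Tz q r (rect a b e d) z t w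
          ≤ ∑ t ∈ btw (rect a b e d) u w,
              2 * C ^ 2 * X * Real.exp (-(c / 2) * ((t.1 : ℝ) - u.1)) := by
            refine Finset.sum_le_sum fun t ht => ?_
            have ht' : t ∈ rect a b e d ∧ u.1 < t.1 ∧ t.1 < w.1 ∧ Y (t - u) := by
              classical
              unfold btw at ht
              exact Finset.mem_filter.1 ht
            obtain ⟨htD, hut, htw, _⟩ := ht'
            have h3 := hn r hr a b e d u t hu htD hut
            have h4 := ih t htD htw (by omega)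
            have h5 : 0 ≤ nocp q r (rect a b e d) u t := nocp_nonneg hq0 hr0 u t
            calc nocp q r (rect a b e d) u t * Tz q r (rect a b e d) z t w
                ≤ (C * Real.exp (-(τ + c) * ((t.1 : ℝ) - u.1))) *
                  (2 * C * Real.exp (-(τ + c / 2) * ((w.1 : ℝ) - t.1))) := by
                  calc _ ≤ nocp q r (rect a b e d) u t *
                        (2 * C * Real.exp (-(τ + c / 2) * ((w.1 : ℝ) - t.1))) :=
                        mul_le_mul_of_nonneg_left h4 h5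
                    _ ≤ _ := mul_le_mul_of_nonneg_right h3
                        (by have := Real.exp_pos (-(τ + c / 2) * ((w.1 : ℝ) - t.1)); positivity)
              _ = 2 * C ^ 2 * (Real.exp (-(τ + c) * ((t.1 : ℝ) - u.1)) *
                    Real.exp (-(τ + c / 2) * ((w.1 : ℝ) - t.1))) := by ring
              _ = 2 * C ^ 2 * (X * Real.exp (-(c / 2) * ((t.1 : ℝ) - u.1))) := by
                  rw [hX, ← Real.exp_add, ← Real.exp_add]
                  congr 2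
                  rw [hΔd]
                  ring
              _ = _ := by ring
        _ = 2 * C ^ 2 * X * ∑ t ∈ btw (rect a b e d) u w,
              Real.exp (-(c / 2) * ((t.1 : ℝ) - u.1)) := by rw [Finset.mul_sum]
        _ ≤ 2 * C ^ 2 * X * S :=
            mul_le_mul_of_nonneg_left (hcone u w _) (by positivity)
    have h6 : κ * Tz q r (rect a b e d) z u w ≤ κ * (2 * C * X) := by
      calc κ * Tz q r (rect a b e d) z u w ≤ κ * (C * X) + z * (2 * C ^ 2 * X * S) :=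
            hrec.trans (add_le_add (mul_le_mul_of_nonneg_left h1 hκ.le)
              (mul_le_mul_of_nonneg_left h2 hz0.le))
        _ = κ * (C * X) + z * (2 * C * S) * (C * X) := by ring
        _ ≤ κ * (C * X) + κ * (C * X) :=
            add_le_add le_rfl (mul_le_mul_of_nonneg_right hzk (by positivity))
        _ = κ * (2 * C * X) := by ring
    exact le_of_mul_le_mul_left h6 hκ

private theorem pow_split34 {z y : ℝ} (hz0 : 0 ≤ z) (hz1 : z ≤ 1) (hy0 : 0 < y) (hy1 : y ≤ 1)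
    (K n : ℕ) : z ^ n ≤ z ^ K + (y ^ K)⁻¹ * y ^ n := by
  rcases le_or_gt K n with h | h
  · have h1 : z ^ n ≤ z ^ K := pow_le_pow_of_le_one hz0 hz1 h
    have h2 : 0 ≤ (y ^ K)⁻¹ * y ^ n := by positivity
    linarith
  · have h1 : z ^ n ≤ 1 := pow_le_one₀ hz0 hz1
    have h2 : y ^ K ≤ y ^ n := pow_le_pow_of_le_one hy0.le hy1 h.le
    have h3 : 1 ≤ (y ^ K)⁻¹ * y ^ n := by
      rw [inv_mul_eq_div, one_le_div (pow_pos hy0 K)]
      exact h2
    have h4 : 0 ≤ z ^ K := pow_nonneg hz0 K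
    linarith

private theorem Tz_split34 (hq : 1 ≤ q) (hr : ∀ e, 0 ≤ r e) {z y : ℝ} (hz0 : 0 ≤ z) (hz1 : z ≤ 1)
    (hy0 : 0 < y) (hy1 : y ≤ 1) (K : ℕ) {u w : ℤ × ℤ} (hu : u ∈ D) :
    Tz q r D z u w ≤ z ^ K * G q r D u w + (y ^ K)⁻¹ * Tz q r D y u w := by
  have hq0 : 0 < q := by linarith
  rw [G_sum hq0 hr hu]
  unfold Tz
  rw [Finset.mul_sum, Finset.mul_sum, ← Finset.sum_add_distrib]
  refine Finset.sum_le_sum fun γ _ => ?_
  have h1 := WD_nonneg (D := D) hq0 hr γ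
  calc z ^ (cps γ u w).card * WD q r D γ
      ≤ (z ^ K + (y ^ K)⁻¹ * y ^ (cps γ u w).card) * WD q r D γ :=
        mul_le_mul_of_nonneg_right (pow_split34 hz0 hz1 hy0 hy1 K _) h1
    _ = _ := by ring

theorem xt (hq : 1 ≤ q) {α : ℝ} (hα : 0 < α) (hαρ : α ≤ ρ) (hE : Pool.Helper49.FK.ExpW q ρ)
    {z : ℝ} (hz0 : 0 ≤ z) (hz1 : z < 1) :
    ∃ C c : ℝ, 0 < C ∧ 0 < c ∧ ∀ r : Edge → ℝ, (∀ e, α ≤ r e ∧ r e ≤ ρ) →
      ∀ a b e d : ℤ, ∀ u w : ℤ × ℤ, u ∈ rect a b e d → w ∈ rect a b e d → u.1 < w.1 →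
      Tz q r (rect a b e d) z u w ≤ C * Real.exp (-(tau q ρ + c) * ((w.1 : ℝ) - u.1)) := by
  have hρ : 0 < ρ := by linarith
  obtain ⟨y, C₁, c₁, hy0, hy1, hC₁, hc₁, hsm⟩ := xt_small hq hα hαρ hE
  set L : ℝ := -Real.log y + 1 with hL
  have hlogy : Real.log y ≤ 0 := Real.log_nonpos hy0.le hy1
  have hL1 : 1 ≤ L := by rw [hL]; linarith
  set θ : ℝ := c₁ / (2 * L) with hθ
  have hθ0 : 0 < θ := by positivity
  have hθL : θ * L = c₁ / 2 := by
    rw [hθ]
    field_simp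
  set z' : ℝ := max z (1 / 2) with hz'
  have hz'0 : 0 < z' := lt_of_lt_of_le (by norm_num) (le_max_right _ _)
  have hz'1 : z' < 1 := max_lt hz1 (by norm_num)
  set l : ℝ := -Real.log z' with hl
  have hl0 : 0 < l := by
    rw [hl]
    have := Real.log_neg hz'0 hz'1
    linarith
  refine ⟨C₁ + Real.exp l, min (c₁ / 2) (l * θ), by positivity, lt_min (by positivity) (by positivity),
    fun r hr a b e d u w hu hw huw => ?_⟩
  have hr0 : ∀ e, 0 ≤ r e := fun e => hα.le.trans (hr e).1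
  have hrb : ∀ e, 0 ≤ r e ∧ r e ≤ ρ := fun e => ⟨hr0 e, (hr e).2⟩
  set τ : ℝ := tau q ρ with hτ
  have hΔ : (0 : ℝ) < (w.1 : ℝ) - u.1 := by
    have : (u.1 : ℝ) < w.1 := by exact_mod_cast huw
    linarith
  have hG := G_le_tau (D := rect a b e d) hq hρ hrb (u := u) (w := w)
  rw [← hτ, abs_of_pos hΔ] at hG
  have hT := hsm r hr a b e d u w hu hw huw
  set Δ : ℝ := (w.1 : ℝ) - u.1 with hΔd
  set K : ℕ := ⌊θ * Δ⌋₊ with hK
  have hK1 : (K : ℝ) ≤ θ * Δ := Nat.floor_le (by positivity)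
  have hK2 : θ * Δ - 1 ≤ K := by
    have := Nat.lt_floor_add_one (θ * Δ)
    rw [← hK] at this
    linarith
  have h1 := Tz_split34 (D := rect a b e d) (w := w) hq hr0 hz0 hz1.le hy0 hy1 K hu
  set m : ℝ := min (c₁ / 2) (l * θ) with hm
  have hm1 : m ≤ c₁ / 2 := min_le_left _ _
  have hm2 : m ≤ l * θ := min_le_right _ _
  have h2 : z ^ K ≤ Real.exp l * Real.exp (-(l * θ) * Δ) := by
    calc z ^ K ≤ z' ^ K := pow_le_pow_left₀ hz0 (le_max_left _ _) K
      _ = Real.exp (Real.log z' * K) := by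
          rw [mul_comm, Real.exp_nat_mul, Real.exp_log hz'0]
      _ ≤ Real.exp (l + -(l * θ) * Δ) := by
          refine Real.exp_le_exp.2 ?_
          have h3 : Real.log z' = -l := by rw [hl]; ring
          rw [h3]
          nlinarith
      _ = _ := Real.exp_add _ _
  have h3 : (y ^ K)⁻¹ ≤ Real.exp (c₁ / 2 * Δ) := by
    have h4 : y ^ K = Real.exp (Real.log y * K) := by
      rw [mul_comm, Real.exp_nat_mul, Real.exp_log hy0]
    rw [h4, ← Real.exp_neg]
    refine Real.exp_le_exp.2 ?_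
    have h5 : -Real.log y ≤ L := by rw [hL]; linarith
    have h6 : (0 : ℝ) ≤ K := Nat.cast_nonneg K
    calc -(Real.log y * K) = -Real.log y * K := by ring
      _ ≤ L * K := mul_le_mul_of_nonneg_right h5 h6
      _ ≤ L * (θ * Δ) := mul_le_mul_of_nonneg_left hK1 (by linarith)
      _ = θ * L * Δ := by ring
      _ = c₁ / 2 * Δ := by rw [hθL]
  have hG0 : 0 ≤ G q r (rect a b e d) u w := by
    rw [G_sum (by linarith) hr0 hu]
    exact Finset.sum_nonneg fun γ _ => WD_nonneg (by linarith) hr0 γ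
  have hT0 : 0 ≤ Tz q r (rect a b e d) y u w := by
    unfold Tz
    exact Finset.sum_nonneg fun γ _ => mul_nonneg (pow_nonneg hy0.le _)
      (WD_nonneg (by linarith) hr0 γ)
  have e1 : z ^ K * G q r (rect a b e d) u w ≤ Real.exp l * Real.exp (-(τ + m) * Δ) := by
    calc z ^ K * G q r (rect a b e d) u w
        ≤ (Real.exp l * Real.exp (-(l * θ) * Δ)) * Real.exp (-τ * Δ) :=
          mul_le_mul h2 hG hG0 (by positivity)
      _ = Real.exp l * Real.exp (-(l * θ) * Δ + -τ * Δ) := by rw [mul_assoc, ← Real.exp_add]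
      _ ≤ _ := by
          refine mul_le_mul_of_nonneg_left (Real.exp_le_exp.2 ?_) (Real.exp_pos _).le
          nlinarith
  have e2 : (y ^ K)⁻¹ * Tz q r (rect a b e d) y u w ≤ C₁ * Real.exp (-(τ + m) * Δ) := by
    calc (y ^ K)⁻¹ * Tz q r (rect a b e d) y u w
        ≤ Real.exp (c₁ / 2 * Δ) * (C₁ * Real.exp (-(τ + c₁) * Δ)) :=
          mul_le_mul h3 hT hT0 (Real.exp_pos _).le
      _ = C₁ * Real.exp (c₁ / 2 * Δ + -(τ + c₁) * Δ) := by rw [Real.exp_add]; ring
      _ ≤ _ := by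
          refine mul_le_mul_of_nonneg_left (Real.exp_le_exp.2 ?_) hC₁.le
          nlinarith
  calc Tz q r (rect a b e d) z u w ≤ _ := h1
    _ ≤ Real.exp l * Real.exp (-(τ + m) * Δ) + C₁ * Real.exp (-(τ + m) * Δ) := add_le_add e1 e2
    _ = (C₁ + Real.exp l) * Real.exp (-(τ + m) * Δ) := by ring

end Pool.Helper83.OZ
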