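import Pool.Agent.Helper83.OZ.Ls
import Pool.Agent.Helper83.OZ.Xt3

/-!
Project OZ (MP_7e0861_pr), part L5, block LS3: few cone points in the window, and cut points far from the ends.

There is at most one cone point in each column (`cp_col`). `loss3`: `(cps γ u v).card ≤ (win r0 n γ).card + 2 r0`, so the sum
is at most `z^(-2 r0) Tz z u v ≤ z^(-2 r0) C e^{-(tau + c) N}` (`xt`, `α = ρ'`), and `e^{-c N} ≤ ε p32 N` for `N` large.
`loss4`: for `λ ∈ Lf D u c`: `(cps λ u c).card ≤ (wcp r0 (c.1 - 1) λ).card + r0`, so the sum over `λ` is at most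
`z^(-r0) Tz z u c ≤ z^(-r0) C e^{-(tau + c₀) c.1}`; `two_pt` for `G c v` (`v.2 = 0`): `C (1 + |c.2|) p32 (N - c.1) e^{-tau (N - c.1)}`,
`p32 (N - c.1) ≤ (1 + c.1)^2 p32 N` (`p32_shift`); there are at most `16 c.1 + 1` rows, `|c.2| ≤ 8 c.1`; the series over
`k = c.1 > r0 + r1` of `e^{-c₀ k} (16 k + 1) (1 + 8 k) (1 + k)^2` is small for `r1` large. `loss5` is the mirror image (`Tz z c v`,
`G u c`; `(cps γ c v).card ≤ (wcp (c.1 + 1) (N - r0) γ).card + r0`).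
-/

namespace Pool.Helper83.OZ

open Pool.Helper49.FK
open Pool.Helper17.OZ (Y CP Dbl NoCP nd rect tau)
open Pool.Helper95.OZ (FG fI seg)
open Pool.Agent.Helper49.QP (Dn Rn)

variable {q ρ ρ' : ℝ}

private theorem dfc_h12 {ρ ρ' : ℝ} (h : ρ' < ρ) (e : Edge) : ρ' ≤ dfc ρ ρ' e ∧ dfc ρ ρ' e ≤ ρ := by
  unfold dfc
  split_ifs
  · exact ⟨le_rfl, h.le⟩
  · exact ⟨h.le, le_rfl⟩

/-- cone points in `k` columns -/
private theorem cnt_h12 {V S : Finset (ℤ × ℤ)} {a : ℤ} {k : ℕ}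
    (hS : ∀ t ∈ S, CP V t ∧ a < t.1 ∧ t.1 ≤ a + k) : S.card ≤ k := by
  have h1 : S.card ≤ (Finset.Icc (a + 1) (a + k)).card := by
    refine Finset.card_le_card_of_injOn (fun t => t.1) ?_ ?_
    · intro t ht
      have := hS t ht
      rw [Finset.mem_coe, Finset.mem_Icc]
      show a + 1 ≤ t.1 ∧ t.1 ≤ a + k
      omega
    · intro t ht t' ht' h
      exact cp_col (hS t ht).1 (hS t' ht').1 h
  rw [Int.card_Icc] at h1
  omega

private theorem pow_h12 {z : ℝ} (hz : 0 < z) (hz1 : z < 1) {a b k : ℕ} (h : b ≤ a + k) :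
    z ^ a ≤ (z ^ k)⁻¹ * z ^ b := by
  have h1 : z ^ (a + k) ≤ z ^ b := pow_le_pow_of_le_one hz.le hz1.le h
  have hk : 0 < z ^ k := pow_pos hz k
  rw [inv_mul_eq_div, le_div_iff₀ hk, ← pow_add]
  exact h1

private theorem sub_h12 (hq : 1 ≤ q) {r : Edge → ℝ} (hr : ∀ e, 0 ≤ r e) {D : Finset (ℤ × ℤ)} {z : ℝ} (hz : 0 < z)
    (hz1 : z < 1) {u c : ℤ × ℤ} {S : Finset Gr} (hS : S ⊆ Cl D u c) (w : Gr → ℕ) (k : ℕ)
    (hw : ∀ γ ∈ S, (cps γ u c).card ≤ w γ + k) :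
    ∑ γ ∈ S, z ^ w γ * WD q r D γ ≤ (z ^ k)⁻¹ * Tz q r D z u c := by
  have hq0 : 0 < q := by linarith
  have hk : 0 < (z ^ k)⁻¹ := inv_pos.2 (pow_pos hz k)
  calc ∑ γ ∈ S, z ^ w γ * WD q r D γ
      ≤ ∑ γ ∈ S, (z ^ k)⁻¹ * (z ^ (cps γ u c).card * WD q r D γ) := by
        refine Finset.sum_le_sum fun γ hγ => ?_
        rw [← mul_assoc]
        exact mul_le_mul_of_nonneg_right (pow_h12 hz hz1 (hw γ hγ)) (WD_nonneg hq0 hr γ)
    _ = (z ^ k)⁻¹ * ∑ γ ∈ S, z ^ (cps γ u c).card * WD q r D γ := by rw [Finset.mul_sum]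
    _ ≤ (z ^ k)⁻¹ * Tz q r D z u c := by
        refine mul_le_mul_of_nonneg_left ?_ hk.le
        unfold Tz
        exact Finset.sum_le_sum_of_subset_of_nonneg hS fun γ _ _ =>
          mul_nonneg (pow_nonneg hz.le _) (WD_nonneg hq0 hr γ)

private theorem dn_h12 {n : ℕ} {x : ℤ × ℤ} : x ∈ Dn n ↔ 0 ≤ x.1 ∧ x.1 ≤ 2 * (n : ℤ) + 1 ∧ -(n : ℤ) ≤ x.2 ∧ x.2 ≤ n := by
  unfold Dn
  rw [Finset.mem_product, Finset.mem_Icc, Finset.mem_Icc]
  tauto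

private theorem dnr_h12 (n : ℕ) : Dn n = rect 0 (2 * (n : ℤ) + 1) (-(n : ℤ)) n := rfl

private theorem u_h12 (n : ℕ) : ((0, 0) : ℤ × ℤ) ∈ Dn n := by
  rw [dn_h12]
  refine ⟨le_rfl, ?_, ?_, ?_⟩ <;> simp <;> omega

private theorem v_h12 (n : ℕ) : Rn n ∈ Dn n := by
  rw [dn_h12]
  unfold Rn
  refine ⟨?_, ?_, ?_, ?_⟩ <;> simp <;> omega

/-- polynomial times exponential over a cone -/
private theorem tail_h12 {c₀ : ℝ} (hc₀ : 0 < c₀) : ∃ K : ℝ, 0 < K ∧ ∀ (r1 : ℕ) (S : Finset (ℤ × ℤ))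
    (φ : ℤ × ℤ → ℤ × ℤ), Set.InjOn φ (S : Set (ℤ × ℤ)) → (∀ c ∈ S, Y (φ c) ∧ (r1 : ℤ) ≤ (φ c).1) →
    ∑ c ∈ S, (1 + |((φ c).2 : ℝ)|) * (1 + ((φ c).1 : ℝ)) ^ 2 * Real.exp (-c₀ * ((φ c).1 : ℝ)) ≤
      K * Real.exp (-(c₀ / 2) * r1) := by
  classical
  obtain ⟨Cc, hCc, hcone⟩ := cone_sum (c := c₀ / 36) (by positivity)
  set P : ℝ := 6 * (4 / c₀) ^ 3 * Real.exp (c₀ / 4) with hP
  have hP0 : 0 < P := by positivity
  refine ⟨8 * P * Cc, by positivity, fun r1 S φ hφ hS => ?_⟩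
  have hterm : ∀ c ∈ S, (1 + |((φ c).2 : ℝ)|) * (1 + ((φ c).1 : ℝ)) ^ 2 * Real.exp (-c₀ * ((φ c).1 : ℝ)) ≤
      8 * P * Real.exp (-(c₀ / 2) * r1) * Real.exp (-(c₀ / 36) * d1 (0, 0) (φ c)) := by
    intro c hc
    obtain ⟨hY, hr⟩ := hS c hc
    set x := φ c with hx
    have h1 : |(x.2 : ℝ)| ≤ 8 * (x.1 : ℝ) := by
      have h3 : |x.2| ≤ 8 * x.1 := hY
      have h' : ((|x.2| : ℤ) : ℝ) ≤ ((8 * x.1 : ℤ) : ℝ) := by exact_mod_cast h3
      push_cast at h'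
      exact h'
    have h0 : 0 ≤ (x.1 : ℝ) := by
      have := abs_nonneg (x.2 : ℝ)
      linarith
    have hr' : (r1 : ℝ) ≤ x.1 := by exact_mod_cast hr
    have h2 : d1 (0, 0) x ≤ 9 * (x.1 : ℝ) := by
      unfold d1
      simp only [Int.cast_zero, zero_sub, abs_neg]
      rw [abs_of_nonneg h0]
      linarith
    set j : ℝ := (x.1 : ℝ) with hj
    have h3 : (1 + |(x.2 : ℝ)|) * (1 + j) ^ 2 ≤ 8 * (1 + j) ^ 3 := by
      have : 1 + |(x.2 : ℝ)| ≤ 8 * (1 + j) := by linarith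
      calc (1 + |(x.2 : ℝ)|) * (1 + j) ^ 2 ≤ (8 * (1 + j)) * (1 + j) ^ 2 :=
            mul_le_mul_of_nonneg_right this (by positivity)
        _ = _ := by ring
    have h4 : (1 + j) ^ 3 * Real.exp (-(c₀ / 4) * j) ≤ P := by
      have h5 := Real.pow_div_factorial_le_exp (c₀ / 4 * (1 + j)) (by positivity) 3
      have h6 : (1 + j) ^ 3 ≤ 6 * (4 / c₀) ^ 3 * Real.exp (c₀ / 4 * (1 + j)) := by
        have h7 : (c₀ / 4 * (1 + j)) ^ 3 ≤ 6 * Real.exp (c₀ / 4 * (1 + j)) := by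
          norm_num [Nat.factorial] at h5 ⊢
          linarith
        calc (1 + j) ^ 3 = (4 / c₀) ^ 3 * (c₀ / 4 * (1 + j)) ^ 3 := by
              field_simp
          _ ≤ (4 / c₀) ^ 3 * (6 * Real.exp (c₀ / 4 * (1 + j))) :=
              mul_le_mul_of_nonneg_left h7 (by positivity)
          _ = _ := by ring
      calc (1 + j) ^ 3 * Real.exp (-(c₀ / 4) * j)
          ≤ (6 * (4 / c₀) ^ 3 * Real.exp (c₀ / 4 * (1 + j))) * Real.exp (-(c₀ / 4) * j) :=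
            mul_le_mul_of_nonneg_right h6 (Real.exp_pos _).le
        _ = 6 * (4 / c₀) ^ 3 * (Real.exp (c₀ / 4 * (1 + j)) * Real.exp (-(c₀ / 4) * j)) := by ring
        _ = P := by
            rw [← Real.exp_add, hP]
            congr 2
            ring
    have h8 : Real.exp (-c₀ * j) = Real.exp (-(c₀ / 4) * j) * (Real.exp (-(c₀ / 2) * j) *
        Real.exp (-(c₀ / 4) * j)) := by
      rw [← Real.exp_add, ← Real.exp_add]
      congr 1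
      ring
    have h9 : Real.exp (-(c₀ / 2) * j) ≤ Real.exp (-(c₀ / 2) * r1) := by
      refine Real.exp_le_exp.2 ?_
      nlinarith
    have h10 : Real.exp (-(c₀ / 4) * j) ≤ Real.exp (-(c₀ / 36) * d1 (0, 0) x) := by
      refine Real.exp_le_exp.2 ?_
      nlinarith
    calc (1 + |(x.2 : ℝ)|) * (1 + j) ^ 2 * Real.exp (-c₀ * j)
        ≤ 8 * (1 + j) ^ 3 * Real.exp (-c₀ * j) :=
          mul_le_mul_of_nonneg_right h3 (Real.exp_pos _).le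
      _ = 8 * ((1 + j) ^ 3 * Real.exp (-(c₀ / 4) * j)) * (Real.exp (-(c₀ / 2) * j) *
          Real.exp (-(c₀ / 4) * j)) := by rw [h8]; ring
      _ ≤ 8 * P * (Real.exp (-(c₀ / 2) * r1) * Real.exp (-(c₀ / 36) * d1 (0, 0) x)) := by
          refine mul_le_mul (mul_le_mul_of_nonneg_left h4 (by norm_num)) ?_ (by positivity) (by positivity)
          exact mul_le_mul h9 h10 (Real.exp_pos _).le (Real.exp_pos _).le
      _ = _ := by ring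
  refine (Finset.sum_le_sum hterm).trans ?_
  rw [← Finset.mul_sum]
  have hsum : ∑ c ∈ S, Real.exp (-(c₀ / 36) * d1 (0, 0) (φ c)) ≤ Cc := by
    rw [← Finset.sum_image (f := fun x => Real.exp (-(c₀ / 36) * d1 (0, 0) x)) hφ]
    have h1 := hcone (0, 0) (0, 0) {(0, 0)} (S.image φ) le_rfl (fun a ha => by
      rw [Finset.mem_singleton] at ha
      rw [ha]
      exact Y_self _) (fun b hb => by
      obtain ⟨c, hc, rfl⟩ := Finset.mem_image.1 hb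
      have : φ c - (0, 0) = φ c := by
        ext <;> simp
      rw [this]
      exact (hS c hc).1)
    rw [Finset.sum_singleton, sub_self, mul_zero, Real.exp_zero, mul_one] at h1
    exact h1
  calc 8 * P * Real.exp (-(c₀ / 2) * r1) * ∑ c ∈ S, Real.exp (-(c₀ / 36) * d1 (0, 0) (φ c))
      ≤ 8 * P * Real.exp (-(c₀ / 2) * r1) * Cc := mul_le_mul_of_nonneg_left hsum (by positivity)
    _ = _ := by ring

/-- exponentials are small -/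
private theorem small_h12 {A c₀ ε : ℝ} (hA : 0 < A) (hc₀ : 0 < c₀) (hε : 0 < ε) :
    ∃ R : ℕ, ∀ r : ℕ, R ≤ r → A * Real.exp (-c₀ * r) ≤ ε := by
  obtain ⟨R, hR⟩ := exists_nat_ge (A / (ε * c₀))
  refine ⟨R, fun r hr => ?_⟩
  have h1 : A / (ε * c₀) ≤ r := hR.trans (by exact_mod_cast hr)
  rw [div_le_iff₀ (by positivity)] at h1
  have h2 : c₀ * r ≤ Real.exp (c₀ * r) := by
    have := Real.add_one_le_exp (c₀ * r)
    linarith
  have h3 : Real.exp (-c₀ * r) * Real.exp (c₀ * r) = 1 := by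
    rw [← Real.exp_add]
    simp
  have h4 : A ≤ ε * Real.exp (c₀ * r) := by
    calc A ≤ r * (ε * c₀) := h1
      _ = ε * (c₀ * r) := by ring
      _ ≤ _ := mul_le_mul_of_nonneg_left h2 hε.le
  calc A * Real.exp (-c₀ * r) ≤ (ε * Real.exp (c₀ * r)) * Real.exp (-c₀ * r) :=
        mul_le_mul_of_nonneg_right h4 (Real.exp_pos _).le
    _ = ε * (Real.exp (-c₀ * r) * Real.exp (c₀ * r)) := by ring
    _ = ε := by rw [h3, mul_one]

theorem loss3 (hq : 1 ≤ q) (hρ' : 0 < ρ') (h : ρ' < ρ) (hE : Pool.Helper49.FK.ExpW q ρ) {z : ℝ} (hz : 0 < z)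
    (hz1 : z < 1) (r0 : ℕ) {ε : ℝ} (hε : 0 < ε) :
    ∃ n₀ : ℕ, ∀ n : ℕ, n₀ ≤ n →
      ∑ γ ∈ Cl (Dn n) (0, 0) (Rn n), z ^ (win r0 n γ).card * WD q (dfc ρ ρ') (Dn n) γ ≤ ε * Z0 q ρ n := by
  classical
  have hρ : 0 < ρ := hρ'.trans h
  obtain ⟨C, c, hC, hc, hxt⟩ := xt hq hρ' h.le hE hz.le hz1
  obtain ⟨C₁, hC₁, hp⟩ := exp_le_p32 (c := c / 2) (by positivity)
  obtain ⟨n₀, hn₀⟩ := small_h12 (A := (z ^ (2 * r0))⁻¹ * C * C₁) (c₀ := c / 2) (ε := ε) (by positivity)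
    (by positivity) hε
  refine ⟨n₀, fun n hn => ?_⟩
  have hr : ∀ e, ρ' ≤ dfc ρ ρ' e ∧ dfc ρ ρ' e ≤ ρ := dfc_h12 h
  have hr0 : ∀ e, 0 ≤ dfc ρ ρ' e := fun e => hρ'.le.trans (hr e).1
  have h1 : ∑ γ ∈ Cl (Dn n) (0, 0) (Rn n), z ^ (win r0 n γ).card * WD q (dfc ρ ρ') (Dn n) γ ≤
      (z ^ (2 * r0))⁻¹ * Tz q (dfc ρ ρ') (Dn n) z (0, 0) (Rn n) := by
    refine sub_h12 hq hr0 hz hz1 (Finset.Subset.refl _) (fun γ => (win r0 n γ).card) (2 * r0) ?_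
    intro γ _
    have e1 : cps γ (0, 0) (Rn n) ⊆ win r0 n γ ∪
        ((cps γ (0, 0) (Rn n)).filter (fun t => t.1 ≤ (r0 : ℤ)) ∪
          (cps γ (0, 0) (Rn n)).filter (fun t => 2 * (n : ℤ) + 1 - r0 ≤ t.1)) := by
      intro t ht
      have ht' := mem_cps.1 ht
      by_cases h2 : t.1 ≤ (r0 : ℤ)
      · exact Finset.mem_union_right _ (Finset.mem_union_left _ (Finset.mem_filter.2 ⟨ht, h2⟩))
      by_cases h3 : 2 * (n : ℤ) + 1 - r0 ≤ t.1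
      · exact Finset.mem_union_right _ (Finset.mem_union_right _ (Finset.mem_filter.2 ⟨ht, h3⟩))
      · refine Finset.mem_union_left _ ?_
        unfold win
        rw [mem_wcp]
        exact ⟨ht'.1, by omega, by omega⟩
    have e2 : ((cps γ (0, 0) (Rn n)).filter (fun t => t.1 ≤ (r0 : ℤ))).card ≤ r0 := by
      refine cnt_h12 (V := γ.1) (a := 0) fun t ht => ?_
      obtain ⟨h2, h3⟩ := Finset.mem_filter.1 ht
      have h4 := mem_cps.1 h2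
      have h5 : (0 : ℤ) < t.1 := h4.2.1
      exact ⟨h4.1, h5, by omega⟩
    have e3 : ((cps γ (0, 0) (Rn n)).filter (fun t => 2 * (n : ℤ) + 1 - r0 ≤ t.1)).card ≤ r0 := by
      refine cnt_h12 (V := γ.1) (a := 2 * (n : ℤ) - r0) fun t ht => ?_
      obtain ⟨h2, h3⟩ := Finset.mem_filter.1 ht
      have h4 := mem_cps.1 h2
      have h5 : t.1 < 2 * (n : ℤ) + 1 := h4.2.2
      exact ⟨h4.1, by omega, by omega⟩
    have e4 := Finset.card_le_card e1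
    have e5 := Finset.card_union_le (win r0 n γ)
      ((cps γ (0, 0) (Rn n)).filter (fun t => t.1 ≤ (r0 : ℤ)) ∪
        (cps γ (0, 0) (Rn n)).filter (fun t => 2 * (n : ℤ) + 1 - r0 ≤ t.1))
    have e6 := Finset.card_union_le ((cps γ (0, 0) (Rn n)).filter (fun t => t.1 ≤ (r0 : ℤ)))
      ((cps γ (0, 0) (Rn n)).filter (fun t => 2 * (n : ℤ) + 1 - r0 ≤ t.1))
    show (cps γ (0, 0) (Rn n)).card ≤ (win r0 n γ).card + 2 * r0
    omega
  have h2 := hxt (dfc ρ ρ') hr 0 (2 * (n : ℤ) + 1) (-(n : ℤ)) n (0, 0) (Rn n) (u_h12 n) (v_h12 n)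
    (by unfold Rn; simp only; omega)
  rw [← dnr_h12] at h2
  have hN : ((Rn n).1 : ℝ) - (((0, 0) : ℤ × ℤ).1 : ℝ) = 2 * (n : ℝ) + 1 := by
    unfold Rn
    push_cast
    ring
  rw [hN] at h2
  have h3 := hp (2 * (n : ℤ) + 1) (by omega)
  push_cast at h3
  have h4 : Real.exp (-(c / 2) * (2 * (n : ℝ) + 1)) ≤ Real.exp (-(c / 2) * n) := by
    refine Real.exp_le_exp.2 ?_
    have : (0 : ℝ) ≤ n := Nat.cast_nonneg n
    nlinarith
  have hz2 : 0 < (z ^ (2 * r0))⁻¹ := inv_pos.2 (pow_pos hz _)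
  have hpp := p32_pos (2 * (n : ℤ) + 1)
  calc _ ≤ (z ^ (2 * r0))⁻¹ * (C * Real.exp (-(tau q ρ + c) * (2 * (n : ℝ) + 1))) :=
        h1.trans (mul_le_mul_of_nonneg_left h2 hz2.le)
    _ = (z ^ (2 * r0))⁻¹ * C * (Real.exp (-(c / 2) * (2 * (n : ℝ) + 1)) *
          Real.exp (-(c / 2) * (2 * (n : ℝ) + 1))) * Real.exp (-tau q ρ * (2 * (n : ℝ) + 1)) := by
        have hexp : Real.exp (-(tau q ρ + c) * (2 * (n : ℝ) + 1)) =
            (Real.exp (-(c / 2) * (2 * (n : ℝ) + 1)) * Real.exp (-(c / 2) * (2 * (n : ℝ) + 1))) *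
              Real.exp (-tau q ρ * (2 * (n : ℝ) + 1)) := by
          rw [← Real.exp_add, ← Real.exp_add]
          congr 1
          ring
        rw [hexp]
        ring
    _ ≤ (z ^ (2 * r0))⁻¹ * C * ((C₁ * p32 (2 * (n : ℤ) + 1)) * Real.exp (-(c / 2) * n)) *
          Real.exp (-tau q ρ * (2 * (n : ℝ) + 1)) := by
        refine mul_le_mul_of_nonneg_right ?_ (Real.exp_pos _).le
        refine mul_le_mul_of_nonneg_left ?_ (by positivity)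
        exact mul_le_mul h3 h4 (Real.exp_pos _).le (by positivity)
    _ = ((z ^ (2 * r0))⁻¹ * C * C₁ * Real.exp (-(c / 2) * n)) * Z0 q ρ n := by
        unfold Z0
        ring
    _ ≤ ε * Z0 q ρ n := by
        refine mul_le_mul_of_nonneg_right (hn₀ n hn) ?_
        unfold Z0
        positivity

open Classical in
theorem loss4 (hq : 1 ≤ q) (hρ' : 0 < ρ') (h : ρ' < ρ) (hE : Pool.Helper49.FK.ExpW q ρ)
    (hFG : ∀ (a b : ℤ × ℤ) (γ : Gr), a ≠ b → γ ∈ Dm a b → 0 ≤ FG q ρ a b γ)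
    (F : Pool.Agent.Helper18.WK.Law)
    (hF : ∀ (l : ℕ) (h : ℤ), F.f l h = fI q ρ ((l : ℤ), h) * Real.exp (tau q ρ * l)) {z : ℝ} (hz : 0 < z)
    (hz1 : z < 1) (r0 : ℕ) {ε : ℝ} (hε : 0 < ε) :
    ∃ R : ℕ, ∀ r1 : ℕ, R ≤ r1 → ∀ n : ℕ,
      ∑ c ∈ (Dn n).filter (fun c => (r0 : ℤ) + r1 < c.1 ∧ c.1 < 2 * (n : ℤ) + 1 ∧ Y c),
        (∑ γ ∈ Lf (Dn n) (0, 0) c, z ^ (wcp r0 (c.1 - 1) γ).card * WD q (dfc ρ ρ') (Dn n) γ) *
          (∑ γ ∈ Rt (Dn n) c (Rn n), WD q (dfc ρ ρ') (Dn n) γ) ≤ ε * Z0 q ρ n := by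
  have hρ : 0 < ρ := hρ'.trans h
  have hq0 : 0 < q := by linarith
  obtain ⟨C, c₀, hC, hc₀, hxt⟩ := xt hq hρ' h.le hE hz.le hz1
  obtain ⟨C₂, hC₂, htp⟩ := two_pt hq hρ' h hE hFG F hF
  obtain ⟨K, hK, htail⟩ := tail_h12 hc₀
  obtain ⟨R, hR⟩ := small_h12 (A := (z ^ r0)⁻¹ * C * C₂ * K) (c₀ := c₀ / 2) (ε := ε) (by positivity)
    (by positivity) hε
  refine ⟨R, fun r1 hr1 n => ?_⟩
  have hr : ∀ e, ρ' ≤ dfc ρ ρ' e ∧ dfc ρ ρ' e ≤ ρ := dfc_h12 h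
  have hr0 : ∀ e, 0 ≤ dfc ρ ρ' e := fun e => hρ'.le.trans (hr e).1
  have hz2 : 0 < (z ^ r0)⁻¹ := inv_pos.2 (pow_pos hz _)
  have hterm : ∀ c ∈ (Dn n).filter (fun c => (r0 : ℤ) + r1 < c.1 ∧ c.1 < 2 * (n : ℤ) + 1 ∧ Y c),
      (∑ γ ∈ Lf (Dn n) (0, 0) c, z ^ (wcp r0 (c.1 - 1) γ).card * WD q (dfc ρ ρ') (Dn n) γ) *
          (∑ γ ∈ Rt (Dn n) c (Rn n), WD q (dfc ρ ρ') (Dn n) γ) ≤
        (z ^ r0)⁻¹ * C * C₂ * Z0 q ρ n *
          ((1 + |(c.2 : ℝ)|) * (1 + (c.1 : ℝ)) ^ 2 * Real.exp (-c₀ * (c.1 : ℝ))) := by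
    intro c hc
    obtain ⟨hcD, hc1, hc2, hcY⟩ := Finset.mem_filter.1 hc
    have hL : ∑ γ ∈ Lf (Dn n) (0, 0) c, z ^ (wcp r0 (c.1 - 1) γ).card * WD q (dfc ρ ρ') (Dn n) γ ≤
        (z ^ r0)⁻¹ * Tz q (dfc ρ ρ') (Dn n) z (0, 0) c := by
      refine sub_h12 hq hr0 hz hz1 (Finset.filter_subset _ _) (fun γ => (wcp r0 (c.1 - 1) γ).card) r0 ?_
      intro γ _
      have e1 : cps γ (0, 0) c ⊆ wcp r0 (c.1 - 1) γ ∪ (cps γ (0, 0) c).filter (fun t => t.1 ≤ (r0 : ℤ)) := by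
        intro t ht
        have ht' := mem_cps.1 ht
        by_cases h2 : t.1 ≤ (r0 : ℤ)
        · exact Finset.mem_union_right _ (Finset.mem_filter.2 ⟨ht, h2⟩)
        · refine Finset.mem_union_left _ ?_
          rw [mem_wcp]
          exact ⟨ht'.1, by omega, by omega⟩
      have e2 : ((cps γ (0, 0) c).filter (fun t => t.1 ≤ (r0 : ℤ))).card ≤ r0 := by
        refine cnt_h12 (V := γ.1) (a := 0) fun t ht => ?_
        obtain ⟨h2, h3⟩ := Finset.mem_filter.1 ht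
        have h4 := mem_cps.1 h2
        have h5 : (0 : ℤ) < t.1 := h4.2.1
        exact ⟨h4.1, h5, by omega⟩
      have e4 := Finset.card_le_card e1
      have e5 := Finset.card_union_le (wcp r0 (c.1 - 1) γ)
        ((cps γ (0, 0) c).filter (fun t => t.1 ≤ (r0 : ℤ)))
      show (cps γ (0, 0) c).card ≤ (wcp r0 (c.1 - 1) γ).card + r0
      omega
    have h2 := hxt (dfc ρ ρ') hr 0 (2 * (n : ℤ) + 1) (-(n : ℤ)) n (0, 0) c (u_h12 n) hcD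
      (by show (0 : ℤ) < c.1; omega)
    rw [← dnr_h12] at h2
    have h3 : ∑ γ ∈ Rt (Dn n) c (Rn n), WD q (dfc ρ ρ') (Dn n) γ ≤
        C₂ * ((1 + |(c.2 : ℝ)|) * ((1 + (c.1 : ℝ)) ^ 2 * p32 (2 * (n : ℤ) + 1))) *
          Real.exp (-tau q ρ * ((2 * (n : ℝ) + 1) - c.1)) := by
      refine (Rt_le hq0 hr0).trans ((htp (Dn n) c (Rn n) hcD (by unfold Rn; simp only; omega)).trans ?_)
      have e1 : ((Rn n).1 : ℝ) = 2 * (n : ℝ) + 1 := by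
        unfold Rn
        push_cast
        ring
      have e2 : ((Rn n).2 : ℝ) = 0 := by
        unfold Rn
        simp
      rw [e1, e2, abs_zero, add_zero, mul_one]
      refine mul_le_mul_of_nonneg_right ?_ (Real.exp_pos _).le
      refine mul_le_mul_of_nonneg_left ?_ hC₂.le
      refine mul_le_mul_of_nonneg_left ?_ (by positivity)
      have e3 := p32_shift (i := (Rn n).1 - c.1) (l := c.1) (by omega)
      rw [sub_add_cancel] at e3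
      exact e3
    simp only [Int.cast_zero, sub_zero] at h2
    have hRt0 : 0 ≤ ∑ γ ∈ Rt (Dn n) c (Rn n), WD q (dfc ρ ρ') (Dn n) γ :=
      Finset.sum_nonneg fun γ _ => WD_nonneg hq0 hr0 γ
    have hpp := p32_pos (2 * (n : ℤ) + 1)
    have hc0 : (0 : ℝ) ≤ c.1 := by
      have : (0 : ℤ) ≤ c.1 := by omega
      exact_mod_cast this
    calc _ ≤ ((z ^ r0)⁻¹ * (C * Real.exp (-(tau q ρ + c₀) * (c.1 : ℝ)))) *
          (C₂ * ((1 + |(c.2 : ℝ)|) * ((1 + (c.1 : ℝ)) ^ 2 * p32 (2 * (n : ℤ) + 1))) *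
          Real.exp (-tau q ρ * ((2 * (n : ℝ) + 1) - c.1))) :=
          mul_le_mul (hL.trans (mul_le_mul_of_nonneg_left h2 hz2.le)) h3 hRt0 (by positivity)
      _ = (z ^ r0)⁻¹ * C * C₂ * p32 (2 * (n : ℤ) + 1) * (1 + |(c.2 : ℝ)|) * (1 + (c.1 : ℝ)) ^ 2 *
          (Real.exp (-(tau q ρ + c₀) * (c.1 : ℝ)) * Real.exp (-tau q ρ * ((2 * (n : ℝ) + 1) - c.1))) := by
          ring
      _ = (z ^ r0)⁻¹ * C * C₂ * p32 (2 * (n : ℤ) + 1) * (1 + |(c.2 : ℝ)|) * (1 + (c.1 : ℝ)) ^ 2 *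
          (Real.exp (-tau q ρ * (2 * (n : ℝ) + 1)) * Real.exp (-c₀ * (c.1 : ℝ))) := by
          rw [← Real.exp_add, ← Real.exp_add]
          congr 2
          ring
      _ = _ := by
          unfold Z0
          ring
  refine (Finset.sum_le_sum hterm).trans ?_
  rw [← Finset.mul_sum]
  have h5 := htail r1 ((Dn n).filter (fun c => (r0 : ℤ) + r1 < c.1 ∧ c.1 < 2 * (n : ℤ) + 1 ∧ Y c)) id
    (fun _ _ _ _ h => h) (fun c hc => by
      obtain ⟨_, hc1, _, hcY⟩ := Finset.mem_filter.1 hc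
      exact ⟨hcY, by show (r1 : ℤ) ≤ c.1; omega⟩)
  simp only [id] at h5
  have hZ : 0 < Z0 q ρ n := by
    unfold Z0
    exact mul_pos (p32_pos _) (Real.exp_pos _)
  calc _ ≤ (z ^ r0)⁻¹ * C * C₂ * Z0 q ρ n * (K * Real.exp (-(c₀ / 2) * r1)) :=
        mul_le_mul_of_nonneg_left h5 (by positivity)
    _ = ((z ^ r0)⁻¹ * C * C₂ * K * Real.exp (-(c₀ / 2) * r1)) * Z0 q ρ n := by ring
    _ ≤ ε * Z0 q ρ n := mul_le_mul_of_nonneg_right (hR r1 hr1) hZ.le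

open Classical in
theorem loss5 (hq : 1 ≤ q) (hρ' : 0 < ρ') (h : ρ' < ρ) (hE : Pool.Helper49.FK.ExpW q ρ)
    (hFG : ∀ (a b : ℤ × ℤ) (γ : Gr), a ≠ b → γ ∈ Dm a b → 0 ≤ FG q ρ a b γ)
    (F : Pool.Agent.Helper18.WK.Law)
    (hF : ∀ (l : ℕ) (h : ℤ), F.f l h = fI q ρ ((l : ℤ), h) * Real.exp (tau q ρ * l)) {z : ℝ} (hz : 0 < z)
    (hz1 : z < 1) (r0 : ℕ) {ε : ℝ} (hε : 0 < ε) :
    ∃ R : ℕ, ∀ r1 : ℕ, R ≤ r1 → ∀ n : ℕ,
      ∑ c ∈ (Dn n).filter (fun c => 0 < c.1 ∧ c.1 < 2 * (n : ℤ) + 1 - r0 - r1 ∧ Y (Rn n - c)),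
        (∑ γ ∈ Lf (Dn n) (0, 0) c, WD q (dfc ρ ρ') (Dn n) γ) *
          (∑ γ ∈ Rt (Dn n) c (Rn n), z ^ (wcp (c.1 + 1) (2 * (n : ℤ) + 1 - r0) γ).card *
            WD q (dfc ρ ρ') (Dn n) γ) ≤ ε * Z0 q ρ n := by
  have hρ : 0 < ρ := hρ'.trans h
  have hq0 : 0 < q := by linarith
  obtain ⟨C, c₀, hC, hc₀, hxt⟩ := xt hq hρ' h.le hE hz.le hz1
  obtain ⟨C₂, hC₂, htp⟩ := two_pt hq hρ' h hE hFG F hF
  obtain ⟨K, hK, htail⟩ := tail_h12 hc₀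
  obtain ⟨R, hR⟩ := small_h12 (A := (z ^ r0)⁻¹ * C * C₂ * K) (c₀ := c₀ / 2) (ε := ε) (by positivity)
    (by positivity) hε
  refine ⟨R, fun r1 hr1 n => ?_⟩
  have hr : ∀ e, ρ' ≤ dfc ρ ρ' e ∧ dfc ρ ρ' e ≤ ρ := dfc_h12 h
  have hr0 : ∀ e, 0 ≤ dfc ρ ρ' e := fun e => hρ'.le.trans (hr e).1
  have hz2 : 0 < (z ^ r0)⁻¹ := inv_pos.2 (pow_pos hz _)
  have hterm : ∀ c ∈ (Dn n).filter (fun c => 0 < c.1 ∧ c.1 < 2 * (n : ℤ) + 1 - r0 - r1 ∧ Y (Rn n - c)),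
      (∑ γ ∈ Lf (Dn n) (0, 0) c, WD q (dfc ρ ρ') (Dn n) γ) *
          (∑ γ ∈ Rt (Dn n) c (Rn n), z ^ (wcp (c.1 + 1) (2 * (n : ℤ) + 1 - r0) γ).card *
            WD q (dfc ρ ρ') (Dn n) γ) ≤
        (z ^ r0)⁻¹ * C * C₂ * Z0 q ρ n *
          ((1 + |((Rn n - c).2 : ℝ)|) * (1 + ((Rn n - c).1 : ℝ)) ^ 2 *
            Real.exp (-c₀ * ((Rn n - c).1 : ℝ))) := by
    intro c hc
    obtain ⟨hcD, hc1, hc2, hcY⟩ := Finset.mem_filter.1 hc
    have hR1 : (Rn n).1 = 2 * (n : ℤ) + 1 := rfl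
    have hL : ∑ γ ∈ Rt (Dn n) c (Rn n), z ^ (wcp (c.1 + 1) (2 * (n : ℤ) + 1 - r0) γ).card *
            WD q (dfc ρ ρ') (Dn n) γ ≤
        (z ^ r0)⁻¹ * Tz q (dfc ρ ρ') (Dn n) z c (Rn n) := by
      refine sub_h12 hq hr0 hz hz1 (Finset.filter_subset _ _)
        (fun γ => (wcp (c.1 + 1) (2 * (n : ℤ) + 1 - r0) γ).card) r0 ?_
      intro γ _
      have e1 : cps γ c (Rn n) ⊆ wcp (c.1 + 1) (2 * (n : ℤ) + 1 - r0) γ ∪
          (cps γ c (Rn n)).filter (fun t => 2 * (n : ℤ) + 1 - r0 ≤ t.1) := by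
        intro t ht
        have ht' := mem_cps.1 ht
        by_cases h2 : 2 * (n : ℤ) + 1 - r0 ≤ t.1
        · exact Finset.mem_union_right _ (Finset.mem_filter.2 ⟨ht, h2⟩)
        · refine Finset.mem_union_left _ ?_
          rw [mem_wcp]
          exact ⟨ht'.1, by omega, by omega⟩
      have e2 : ((cps γ c (Rn n)).filter (fun t => 2 * (n : ℤ) + 1 - r0 ≤ t.1)).card ≤ r0 := by
        refine cnt_h12 (V := γ.1) (a := 2 * (n : ℤ) - r0) fun t ht => ?_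
        obtain ⟨h2, h3⟩ := Finset.mem_filter.1 ht
        have h4 := mem_cps.1 h2
        have h5 : t.1 < 2 * (n : ℤ) + 1 := h4.2.2
        exact ⟨h4.1, by omega, by omega⟩
      have e4 := Finset.card_le_card e1
      have e5 := Finset.card_union_le (wcp (c.1 + 1) (2 * (n : ℤ) + 1 - r0) γ)
        ((cps γ c (Rn n)).filter (fun t => 2 * (n : ℤ) + 1 - r0 ≤ t.1))
      show (cps γ c (Rn n)).card ≤ (wcp (c.1 + 1) (2 * (n : ℤ) + 1 - r0) γ).card + r0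
      omega
    have h2 := hxt (dfc ρ ρ') hr 0 (2 * (n : ℤ) + 1) (-(n : ℤ)) n c (Rn n) hcD (v_h12 n)
      (by rw [hR1]; omega)
    rw [← dnr_h12] at h2
    have hx1 : ((Rn n - c).1 : ℝ) = (2 * (n : ℝ) + 1) - c.1 := by
      rw [Prod.fst_sub, hR1]
      push_cast
      ring
    have hx2 : |((Rn n - c).2 : ℝ)| = |(c.2 : ℝ)| := by
      have : (Rn n - c).2 = -c.2 := by
        rw [Prod.snd_sub]
        unfold Rn
        simp
      rw [this]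
      push_cast
      rw [abs_neg]
    have h3 : ∑ γ ∈ Lf (Dn n) (0, 0) c, WD q (dfc ρ ρ') (Dn n) γ ≤
        C₂ * ((1 + |(c.2 : ℝ)|) * ((1 + ((2 * (n : ℝ) + 1) - c.1)) ^ 2 * p32 (2 * (n : ℤ) + 1))) *
          Real.exp (-tau q ρ * (c.1 : ℝ)) := by
      refine (Lf_le hq0 hr0).trans ((htp (Dn n) (0, 0) c (u_h12 n) (by show (0 : ℤ) ≤ c.1; omega)).trans ?_)
      simp only [Int.cast_zero, abs_zero, add_zero, one_mul, sub_zero]
      refine mul_le_mul_of_nonneg_right ?_ (Real.exp_pos _).le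
      refine mul_le_mul_of_nonneg_left ?_ hC₂.le
      refine mul_le_mul_of_nonneg_left ?_ (by positivity)
      have e3 := p32_shift (i := c.1) (l := 2 * (n : ℤ) + 1 - c.1) (by omega)
      rw [add_sub_cancel] at e3
      push_cast at e3
      exact e3
    have e1 : ((Rn n).1 : ℝ) = 2 * (n : ℝ) + 1 := by
      rw [hR1]
      push_cast
      ring
    rw [e1] at h2
    have hLf0 : 0 ≤ ∑ γ ∈ Rt (Dn n) c (Rn n), z ^ (wcp (c.1 + 1) (2 * (n : ℤ) + 1 - r0) γ).card *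
            WD q (dfc ρ ρ') (Dn n) γ :=
      Finset.sum_nonneg fun γ _ => mul_nonneg (pow_nonneg hz.le _) (WD_nonneg hq0 hr0 γ)
    have hpp := p32_pos (2 * (n : ℤ) + 1)
    have hc0 : (0 : ℝ) ≤ (2 * (n : ℝ) + 1) - c.1 := by
      have : (0 : ℤ) ≤ (2 * (n : ℤ) + 1) - c.1 := by omega
      exact_mod_cast this
    rw [hx1, hx2]
    calc _ ≤ (C₂ * ((1 + |(c.2 : ℝ)|) * ((1 + ((2 * (n : ℝ) + 1) - c.1)) ^ 2 * p32 (2 * (n : ℤ) + 1))) *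
          Real.exp (-tau q ρ * (c.1 : ℝ))) *
          ((z ^ r0)⁻¹ * (C * Real.exp (-(tau q ρ + c₀) * ((2 * (n : ℝ) + 1) - c.1)))) :=
          mul_le_mul h3 (hL.trans (mul_le_mul_of_nonneg_left h2 hz2.le)) hLf0 (by positivity)
      _ = (z ^ r0)⁻¹ * C * C₂ * p32 (2 * (n : ℤ) + 1) * (1 + |(c.2 : ℝ)|) *
          (1 + ((2 * (n : ℝ) + 1) - c.1)) ^ 2 *
          (Real.exp (-tau q ρ * (c.1 : ℝ)) * Real.exp (-(tau q ρ + c₀) * ((2 * (n : ℝ) + 1) - c.1))) := by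
          ring
      _ = (z ^ r0)⁻¹ * C * C₂ * p32 (2 * (n : ℤ) + 1) * (1 + |(c.2 : ℝ)|) *
          (1 + ((2 * (n : ℝ) + 1) - c.1)) ^ 2 *
          (Real.exp (-tau q ρ * (2 * (n : ℝ) + 1)) * Real.exp (-c₀ * ((2 * (n : ℝ) + 1) - c.1))) := by
          rw [← Real.exp_add, ← Real.exp_add]
          congr 2
          ring
      _ = _ := by
          unfold Z0
          ring
  refine (Finset.sum_le_sum hterm).trans ?_
  rw [← Finset.mul_sum]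
  have h5 := htail r1 ((Dn n).filter (fun c => 0 < c.1 ∧ c.1 < 2 * (n : ℤ) + 1 - r0 - r1 ∧ Y (Rn n - c)))
    (fun c => Rn n - c)
    (fun a _ b _ h => by simpa using h) (fun c hc => by
      obtain ⟨_, _, hc1, hcY⟩ := Finset.mem_filter.1 hc
      refine ⟨hcY, ?_⟩
      have : (Rn n - c).1 = 2 * (n : ℤ) + 1 - c.1 := rfl
      rw [this]
      omega)
  have hZ : 0 < Z0 q ρ n := by
    unfold Z0
    exact mul_pos (p32_pos _) (Real.exp_pos _)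
  calc _ ≤ (z ^ r0)⁻¹ * C * C₂ * Z0 q ρ n * (K * Real.exp (-(c₀ / 2) * r1)) :=
        mul_le_mul_of_nonneg_left h5 (by positivity)
    _ = ((z ^ r0)⁻¹ * C * C₂ * K * Real.exp (-(c₀ / 2) * r1)) * Z0 q ρ n := by ring
    _ ≤ ε * Z0 q ρ n := mul_le_mul_of_nonneg_right (hR r1 hr1) hZ.le

end Pool.Helper83.OZ
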