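import Pool.Agent.Helper83.OZ.Ms1
import Pool.Agent.Helper83.OZ.Ls1
import Pool.Agent.Helper83.OZ.Ls2
import Pool.Agent.Helper83.OZ.Ls3
import Pool.Agent.Helper83.OZ.Low2

/-!
Project OZ (MP_7e0861_pr), part L5, block MS2: the total loss is small.

`sum_cut`: exchange the sums over `γ` and the cut point `c`; for given `c` the graphs of `Cl D u v` with cone point `c` are
the joins of `Lf D u c` and `Rt D c v` (`sum_split`, `Jn.low`, `Jn.upp`); all terms are nonnegative.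
`mass_main`: let `cl` be the constant of `low_pt`: `Z0 q ρ n ≤ cl⁻¹ ∑ WD`. Choose `r0` from `loss1`, `loss2`, then `r1` from `loss4`,
`loss5`, then `n₀` from `loss2`, `loss3`, `low_pt`, all with a small `ε'`. First claim: `loss1`, and if `win r0 n γ = ∅` then
`z ^ card = 1`, `loss3`. Second claim: sum `mass_one` over `S`; the four error sums over `S` are at most the sums over
`Cl`, bounded by `loss2`, `loss3`, `sum_cut` with `loss4`, `sum_cut` with `loss5` (`c ∈ win`: `Y c` and `Y (Rn n - c)`,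
`0 < c.1 < N` since `u, v ∈ γ.1` and `1 ≤ r0 ≤ c.1 ≤ N - r0`; `wcp r0 (c.1 - 1)` of `low c γ`).
-/

namespace Pool.Helper83.OZ

open Pool.Helper49.FK
open Pool.Helper17.OZ (Y CP Dbl NoCP nd rect tau)
open Pool.Helper95.OZ (FG fI seg)
open Pool.Agent.Helper49.QP (Dn Rn)
open Pool.Agent.Helper49.OZ (Ren IsKer)

variable {q ρ ρ' : ℝ}

private theorem dfc_pos99 (hρ' : 0 < ρ') (h : ρ' ≤ ρ) (e : Edge) : 0 ≤ dfc ρ ρ' e := by
  unfold dfc
  split_ifs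
  · exact hρ'.le
  · exact hρ'.le.trans h

private theorem WD_nonneg99 (hq : 1 ≤ q) (hρ' : 0 < ρ') (h : ρ' ≤ ρ) (D : Finset (ℤ × ℤ)) (γ : Gr) :
    0 ≤ WD q (dfc ρ ρ') D γ :=
  WD_nonneg (by linarith) (dfc_pos99 hρ' h) γ

open Classical in
theorem sum_cut {D : Finset (ℤ × ℤ)} {u v : ℤ × ℤ} (f g : ℤ × ℤ → Gr → ℝ) (hf : ∀ c γ, 0 ≤ f c γ)
    (hg : ∀ c γ, 0 ≤ g c γ) (T : Gr → Finset (ℤ × ℤ)) (P : ℤ × ℤ → Prop)
    (hT : ∀ γ ∈ Cl D u v, ∀ c ∈ T γ, CP γ.1 c ∧ u.1 ≤ c.1 ∧ c.1 ≤ v.1 ∧ P c) :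
    ∑ γ ∈ Cl D u v, ∑ c ∈ T γ, f c (low c γ) * g c (upp c γ) ≤
      ∑ c ∈ D.filter P, (∑ γ ∈ Lf D u c, f c γ) * (∑ γ ∈ Rt D c v, g c γ) := by
  set E : Finset (ℤ × ℤ) := (D.filter P).filter (fun c => u.1 ≤ c.1 ∧ c.1 ≤ v.1) with hE
  have h1 : ∑ γ ∈ Cl D u v, ∑ c ∈ T γ, f c (low c γ) * g c (upp c γ) ≤
      ∑ γ ∈ Cl D u v, ∑ c ∈ E, if CP γ.1 c then f c (low c γ) * g c (upp c γ) else 0 := by
    refine Finset.sum_le_sum fun γ hγ => ?_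
    rw [← Finset.sum_filter]
    refine Finset.sum_le_sum_of_subset_of_nonneg ?_ fun c _ _ => mul_nonneg (hf _ _) (hg _ _)
    intro c hc
    obtain ⟨a1, a2, a3, a4⟩ := hT γ hγ c hc
    rw [Finset.mem_filter, hE, Finset.mem_filter, Finset.mem_filter]
    exact ⟨⟨⟨(mem_Cl.1 hγ).1 a1.1, a4⟩, a2, a3⟩, a1⟩
  refine h1.trans ?_
  rw [Finset.sum_comm]
  have h2 : ∀ c ∈ E, (∑ γ ∈ Cl D u v, if CP γ.1 c then f c (low c γ) * g c (upp c γ) else 0) =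
      (∑ γ ∈ Lf D u c, f c γ) * (∑ γ ∈ Rt D c v, g c γ) := by
    intro c hc
    rw [hE, Finset.mem_filter] at hc
    rw [sum_split hc.2.1 hc.2.2 (fun γ => f c (low c γ) * g c (upp c γ)), Finset.sum_mul_sum]
    refine Finset.sum_congr rfl fun γ hγ => Finset.sum_congr rfl fun δ hδ => ?_
    obtain ⟨_, a2, _, a4, a5⟩ := mem_Lf.1 hγ
    obtain ⟨_, b2, b3, _, b5⟩ := mem_Rt.1 hδ
    have hj : Jn γ δ c := ⟨a2, b2, a4, b3, a5, b5⟩
    rw [hj.low, hj.upp]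
  rw [Finset.sum_congr rfl h2]
  refine Finset.sum_le_sum_of_subset_of_nonneg (Finset.filter_subset _ _) fun c _ _ => ?_
  exact mul_nonneg (Finset.sum_nonneg fun γ _ => hf _ _) (Finset.sum_nonneg fun γ _ => hg _ _)

open Classical in
theorem mass_main (hq : 1 ≤ q) (hρ' : 0 < ρ') (h : ρ' < ρ) (hE : Pool.Helper49.FK.ExpW q ρ)
    (hFG : ∀ (a b : ℤ × ℤ) (γ : Gr), a ≠ b → γ ∈ Dm a b → 0 ≤ FG q ρ a b γ)
    (F : Pool.Agent.Helper18.WK.Law)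
    (hF : ∀ (l : ℕ) (h : ℤ), F.f l h = fI q ρ ((l : ℤ), h) * Real.exp (tau q ρ * l))
    (K : Pool.Agent.Helper18.WK.Ker) (hR : Ren (W1 q ρ) (FG q ρ)) (hK : IsKer K (FG q ρ) (tau q ρ))
    (hG : ∃ (c : ℝ) (n₀ : ℕ), 0 < c ∧ ∀ n : ℕ, n₀ ≤ n →
      ENNReal.ofReal (c / (n * Real.sqrt n)) ≤ Pool.Agent.Helper18.WK.G K n 1 1) {ε : ℝ} (hε : 0 < ε) :
    ∃ r0 r1 n₀ : ℕ, 1 ≤ r0 ∧ ∀ n : ℕ, n₀ ≤ n →
      ∑ γ ∈ (Cl (Dn n) (0, 0) (Rn n)).filter (fun γ => ¬Good r0 n γ ∨ win r0 n γ = ∅),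
          WD q (dfc ρ ρ') (Dn n) γ ≤ ε * ∑ γ ∈ Cl (Dn n) (0, 0) (Rn n), WD q (dfc ρ ρ') (Dn n) γ ∧
        ∀ S ⊆ (Cl (Dn n) (0, 0) (Rn n)).filter (fun γ => Good r0 n γ),
          ∑ γ ∈ S, WD q (dfc ρ ρ') (Dn n) γ ≤ ∑ γ ∈ S, SSw q ρ ρ' r0 r1 n γ +
            ε * ∑ γ ∈ Cl (Dn n) (0, 0) (Rn n), WD q (dfc ρ ρ') (Dn n) γ := by
  have hρ : 0 < ρ := hρ'.trans h
  have hD : ExpDecay q ρ := Pool.Helper49.FK.ExpW.decay hq hρ hE
  obtain ⟨C, z, Ce, ce, hC, hz, hz1, hCe, hce, hone⟩ := mass_one hq hρ' h.le hD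
  obtain ⟨cl, n1, hcl, hlow⟩ := low_pt hq hρ' h hE hFG F hF K hR hK hG
  set ε' : ℝ := ε * cl / (2 + 3 * C) with hε'
  have hε'0 : 0 < ε' := by positivity
  obtain ⟨R1, hR1⟩ := loss1 hq hρ' h hE hFG F hF hε'0
  obtain ⟨R2, hR2⟩ := loss2 hq hρ' h hE hFG F hF hCe hce hε'0
  set r0 : ℕ := max (max R1 R2) 1 with hr0
  have hr01 : 1 ≤ r0 := le_max_right _ _
  obtain ⟨n2, hn2⟩ := hR2 r0 ((le_max_right _ _).trans (le_max_left _ _))
  obtain ⟨R4, hR4⟩ := loss4 hq hρ' h hE hFG F hF hz hz1 r0 hε'0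
  obtain ⟨R5, hR5⟩ := loss5 hq hρ' h hE hFG F hF hz hz1 r0 hε'0
  obtain ⟨n3, hn3⟩ := loss3 hq hρ' h hE hz hz1 r0 hε'0
  set r1 : ℕ := max R4 R5 with hr1
  refine ⟨r0, r1, max (max n1 n2) n3, hr01, fun n hn => ?_⟩
  have e1 : n1 ≤ n := (le_max_left _ _).trans ((le_max_left _ _).trans hn)
  have e2 : n2 ≤ n := (le_max_right _ _).trans ((le_max_left _ _).trans hn)
  have e3 : n3 ≤ n := (le_max_right _ _).trans hn
  have L0 := hlow n e1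
  have L1 := hR1 r0 ((le_max_left _ _).trans (le_max_left _ _)) n
  have L2 := hn2 n e2
  have L3 := hn3 n e3
  have L4 := hR4 r1 (le_max_left _ _) n
  have L5 := hR5 r1 (le_max_right _ _) n
  have hW : ∀ γ : Gr, 0 ≤ WD q (dfc ρ ρ') (Dn n) γ := fun γ => WD_nonneg99 hq hρ' h.le _ γ
  set Sm : ℝ := ∑ γ ∈ Cl (Dn n) (0, 0) (Rn n), WD q (dfc ρ ρ') (Dn n) γ with hSm
  have hZ : cl * Z0 q ρ n ≤ Sm := by
    unfold Z0
    rw [← mul_assoc]
    exact L0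
  have hSm0 : 0 ≤ Sm := Finset.sum_nonneg fun γ _ => hW γ
  have hZε : (2 + 3 * C) * (ε' * Z0 q ρ n) ≤ ε * Sm := by
    have e4 : (2 + 3 * C) * (ε' * Z0 q ρ n) = ε * (cl * Z0 q ρ n) := by
      rw [hε']
      field_simp
    rw [e4]
    exact mul_le_mul_of_nonneg_left hZ hε.le
  have hZ0 : 0 ≤ ε' * Z0 q ρ n := by
    refine mul_nonneg hε'0.le ?_
    unfold Z0
    exact mul_nonneg (p32_pos _).le (Real.exp_pos _).le
  have hCZ : 0 ≤ C * (ε' * Z0 q ρ n) := mul_nonneg hC.le hZ0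
  refine ⟨?_, ?_⟩
  · -- first claim
    have f1 : ∑ γ ∈ (Cl (Dn n) (0, 0) (Rn n)).filter (fun γ => ¬Good r0 n γ ∨ win r0 n γ = ∅),
        WD q (dfc ρ ρ') (Dn n) γ ≤
        ∑ γ ∈ (Cl (Dn n) (0, 0) (Rn n)).filter (fun γ => ¬Good r0 n γ), WD q (dfc ρ ρ') (Dn n) γ +
        ∑ γ ∈ (Cl (Dn n) (0, 0) (Rn n)).filter (fun γ => win r0 n γ = ∅), WD q (dfc ρ ρ') (Dn n) γ := by
      rw [Finset.filter_or]
      have := Finset.sum_union_inter (s₁ := (Cl (Dn n) (0, 0) (Rn n)).filter (fun γ => ¬Good r0 n γ))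
        (s₂ := (Cl (Dn n) (0, 0) (Rn n)).filter (fun γ => win r0 n γ = ∅))
        (f := fun γ => WD q (dfc ρ ρ') (Dn n) γ)
      have h0 : 0 ≤ ∑ γ ∈ (Cl (Dn n) (0, 0) (Rn n)).filter (fun γ => ¬Good r0 n γ) ∩
          (Cl (Dn n) (0, 0) (Rn n)).filter (fun γ => win r0 n γ = ∅), WD q (dfc ρ ρ') (Dn n) γ :=
        Finset.sum_nonneg fun γ _ => hW γ
      linarith
    have f2 : ∑ γ ∈ (Cl (Dn n) (0, 0) (Rn n)).filter (fun γ => win r0 n γ = ∅), WD q (dfc ρ ρ') (Dn n) γ ≤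
        ∑ γ ∈ Cl (Dn n) (0, 0) (Rn n), z ^ (win r0 n γ).card * WD q (dfc ρ ρ') (Dn n) γ := by
      refine le_trans (le_of_eq ?_) (Finset.sum_le_sum_of_subset_of_nonneg
        (Finset.filter_subset (fun γ => win r0 n γ = ∅) _)
        fun γ _ _ => mul_nonneg (pow_nonneg hz.le _) (hW γ))
      refine Finset.sum_congr rfl fun γ hγ => ?_
      rw [(Finset.mem_filter.1 hγ).2, Finset.card_empty, pow_zero, one_mul]
    linarith
  · intro S hS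
    have hSC : S ⊆ Cl (Dn n) (0, 0) (Rn n) := hS.trans (Finset.filter_subset _ _)
    have g0 : ∑ γ ∈ S, WD q (dfc ρ ρ') (Dn n) γ ≤ ∑ γ ∈ S, (SSw q ρ ρ' r0 r1 n γ +
        (∑ y ∈ mid r0 (2 * (n : ℤ) + 1 - r0) (0, 0) (Rn n) γ,
          eta Ce ce 0 (2 * (n : ℤ) + 1) (-(n : ℤ)) n y) * WD q (dfc ρ ρ') (Dn n) γ +
        C * (z ^ (win r0 n γ).card * WD q (dfc ρ ρ') (Dn n) γ) +
        C * ∑ c ∈ (win r0 n γ).filter (fun c => (r0 : ℤ) + r1 < c.1),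
          (z ^ (wcp r0 (c.1 - 1) (low c γ)).card * WD q (dfc ρ ρ') (Dn n) (low c γ)) *
            WD q (dfc ρ ρ') (Dn n) (upp c γ) +
        C * ∑ c ∈ (win r0 n γ).filter (fun c => c.1 < 2 * (n : ℤ) + 1 - r0 - r1),
          WD q (dfc ρ ρ') (Dn n) (low c γ) *
            (z ^ (wcp (c.1 + 1) (2 * (n : ℤ) + 1 - r0) (upp c γ)).card * WD q (dfc ρ ρ') (Dn n) (upp c γ))) := by
      refine Finset.sum_le_sum fun γ hγ => ?_
      have := Finset.mem_filter.1 (hS hγ)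
      exact hone r0 r1 n γ hr01 this.1 this.2
    rw [Finset.sum_add_distrib, Finset.sum_add_distrib, Finset.sum_add_distrib, Finset.sum_add_distrib,
      ← Finset.mul_sum, ← Finset.mul_sum, ← Finset.mul_sum] at g0
    have g1 : ∑ γ ∈ S, (∑ y ∈ mid r0 (2 * (n : ℤ) + 1 - r0) (0, 0) (Rn n) γ,
          eta Ce ce 0 (2 * (n : ℤ) + 1) (-(n : ℤ)) n y) * WD q (dfc ρ ρ') (Dn n) γ ≤ ε' * Z0 q ρ n := by
      refine le_trans (Finset.sum_le_sum_of_subset_of_nonneg hSC fun γ _ _ => mul_nonneg ?_ (hW γ)) L2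
      refine Finset.sum_nonneg fun y _ => ?_
      unfold eta
      positivity
    have g2 : ∑ γ ∈ S, z ^ (win r0 n γ).card * WD q (dfc ρ ρ') (Dn n) γ ≤ ε' * Z0 q ρ n :=
      (Finset.sum_le_sum_of_subset_of_nonneg hSC fun γ _ _ => mul_nonneg (pow_nonneg hz.le _) (hW γ)).trans L3
    have g3 : ∑ γ ∈ S, ∑ c ∈ (win r0 n γ).filter (fun c => (r0 : ℤ) + r1 < c.1),
          (z ^ (wcp r0 (c.1 - 1) (low c γ)).card * WD q (dfc ρ ρ') (Dn n) (low c γ)) *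
            WD q (dfc ρ ρ') (Dn n) (upp c γ) ≤ ε' * Z0 q ρ n := by
      refine le_trans (Finset.sum_le_sum_of_subset_of_nonneg hSC fun γ _ _ => Finset.sum_nonneg fun c _ =>
        mul_nonneg (mul_nonneg (pow_nonneg hz.le _) (hW _)) (hW _)) ?_
      refine le_trans (sum_cut (D := Dn n) (u := (0, 0)) (v := Rn n)
        (fun c γ => z ^ (wcp r0 (c.1 - 1) γ).card * WD q (dfc ρ ρ') (Dn n) γ)
        (fun c γ => WD q (dfc ρ ρ') (Dn n) γ) (fun c γ => mul_nonneg (pow_nonneg hz.le _) (hW _))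
        (fun c γ => hW _) (fun γ => (win r0 n γ).filter (fun c => (r0 : ℤ) + r1 < c.1))
        (fun c => (r0 : ℤ) + r1 < c.1 ∧ c.1 < 2 * (n : ℤ) + 1 ∧ Y c) ?_)
        (le_trans (le_of_eq (Finset.sum_congr (by ext c; simp only [Finset.mem_filter]) fun _ _ => rfl)) L4)
      intro γ hγ c hc
      rw [Finset.mem_filter] at hc
      obtain ⟨hc1, hc2⟩ := hc
      unfold win at hc1
      obtain ⟨a1, a2, a3⟩ := mem_wcp.1 hc1
      have b1 : (Rn n).1 = 2 * (n : ℤ) + 1 := rfl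
      refine ⟨a1, ?_, ?_, hc2, ?_, ?_⟩
      · show (0 : ℤ) ≤ c.1
        omega
      · rw [b1]
        omega
      · omega
      · rcases a1.2 (0, 0) (mem_Cl.1 hγ).2.2.1 with h5 | h5
        · have h6 := Y_nonneg h5
          rw [Prod.fst_sub] at h6
          have h7 : ((0 : ℤ), (0 : ℤ)).1 = 0 := rfl
          rw [h7] at h6
          omega
        · have h6 : c - ((0 : ℤ), (0 : ℤ)) = c := sub_zero c
          rwa [h6] at h5
    have g4 : ∑ γ ∈ S, ∑ c ∈ (win r0 n γ).filter (fun c => c.1 < 2 * (n : ℤ) + 1 - r0 - r1),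
          WD q (dfc ρ ρ') (Dn n) (low c γ) *
            (z ^ (wcp (c.1 + 1) (2 * (n : ℤ) + 1 - r0) (upp c γ)).card * WD q (dfc ρ ρ') (Dn n) (upp c γ)) ≤
        ε' * Z0 q ρ n := by
      refine le_trans (Finset.sum_le_sum_of_subset_of_nonneg hSC fun γ _ _ => Finset.sum_nonneg fun c _ =>
        mul_nonneg (hW _) (mul_nonneg (pow_nonneg hz.le _) (hW _))) ?_
      refine le_trans (sum_cut (D := Dn n) (u := (0, 0)) (v := Rn n)
        (fun c γ => WD q (dfc ρ ρ') (Dn n) γ)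
        (fun c γ => z ^ (wcp (c.1 + 1) (2 * (n : ℤ) + 1 - r0) γ).card * WD q (dfc ρ ρ') (Dn n) γ)
        (fun c γ => hW _) (fun c γ => mul_nonneg (pow_nonneg hz.le _) (hW _))
        (fun γ => (win r0 n γ).filter (fun c => c.1 < 2 * (n : ℤ) + 1 - r0 - r1))
        (fun c => 0 < c.1 ∧ c.1 < 2 * (n : ℤ) + 1 - r0 - r1 ∧ Y (Rn n - c)) ?_)
        (le_trans (le_of_eq (Finset.sum_congr (by ext c; simp only [Finset.mem_filter]) fun _ _ => rfl)) L5)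
      intro γ hγ c hc
      rw [Finset.mem_filter] at hc
      obtain ⟨hc1, hc2⟩ := hc
      unfold win at hc1
      obtain ⟨a1, a2, a3⟩ := mem_wcp.1 hc1
      have b1 : (Rn n).1 = 2 * (n : ℤ) + 1 := rfl
      refine ⟨a1, ?_, ?_, ?_, hc2, ?_⟩
      · show (0 : ℤ) ≤ c.1
        omega
      · rw [b1]
        omega
      · omega
      · rcases a1.2 (Rn n) (mem_Cl.1 hγ).2.2.2 with h5 | h5
        · exact h5
        · have h6 := Y_nonneg h5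
          rw [Prod.fst_sub, b1] at h6
          omega
    have g2' := mul_le_mul_of_nonneg_left g2 hC.le
    have g3' := mul_le_mul_of_nonneg_left g3 hC.le
    have g4' := mul_le_mul_of_nonneg_left g4 hC.le
    linarith

end Pool.Helper83.OZ
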