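import Pool.Agent.Helper83.OZ.Sb2
import Pool.Agent.Helper83.OZ.Ms2

/-!
Project OZ (MP_7e0861_pr), part L5, block SB3: the sub-measure.

`aw_nonneg`: `key` (1) for `γ := i.1.1`, `hi := c.1` (`low c λ = λ` for `λ ∈ Lf D u c`) and (2) for `γ := i.2.1`, `lo := c'.1`.
`sub_aux`: `I = II r0 r1 n`, `a = aw`, `r0, r1, n₀` from `mass_main` with `ε / 3`, `U = 8 (r0 + r1) + r0 + r1`; `n` so large that
`r0 + r1 < N - r0 - r1`. Rows: `Y c` (`c` is a cone point of `λ ∋ (0,0)`) gives `c.2 ≤ 8 c.1`.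
`le`: `outer_sum` for `Φ` and for `Φ ∘ mir`, `SSw ≤ WD` (`SSw_nonneg_le`), and the sum over the `γ` with `Ab γ` of `WD γ Φ (mir γ)` is
the sum over the `γ` with `Ab (mir γ)` of `WD γ Φ γ` (`mir_mir`, `mir_mem`, `WD_mir`); the two sets are disjoint (`not_both`).
`mass`: `outer_sum` with `Φ = 1`, `mass_main` with `S` = the `γ` with `Ab γ`, and `half_ab` with the first claim of `mass_main`.
-/

namespace Pool.Helper83.OZ

open Pool.Helper49.FK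
open Pool.Helper17.OZ (Y CP Dbl NoCP nd rect tau)
open Pool.Helper95.OZ (FG fI seg)
open Pool.Agent.Helper49.QP (Dn Rn)
open Pool.Agent.Helper49.OZ (mir DmN Ren IsKer SubM)

variable {q ρ ρ' : ℝ}

private theorem low_self34 {γ : Gr} {c : ℤ × ℤ} (hcl : IsClu γ.1 γ.2) (hb : Bw γ c) : low c γ = γ := by
  classical
  unfold low
  refine Prod.ext ?_ ?_
  · exact Finset.filter_true_of_mem fun y hy => hb y hy
  · refine Finset.filter_true_of_mem fun e he => ?_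
    have h1 := mem_edges.1 (hcl.1 he)
    exact ⟨hb _ h1.1, hb _ h1.2⟩

private theorem upp_self34 {γ : Gr} {c : ℤ × ℤ} (hcl : IsClu γ.1 γ.2) (hb : Fw γ c) : upp c γ = γ := by
  classical
  unfold upp
  refine Prod.ext ?_ ?_
  · exact Finset.filter_true_of_mem fun y hy => hb y hy
  · refine Finset.filter_true_of_mem fun e he => ?_
    have h1 := mem_edges.1 (hcl.1 he)
    exact ⟨hb _ h1.1, hb _ h1.2⟩

private theorem mem_II34 {r0 r1 n : ℕ} {i : (Gr × (ℤ × ℤ)) × (Gr × (ℤ × ℤ))} (hi : i ∈ II r0 r1 n) :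
    i.1.1 ∈ Lf (Dn n) (0, 0) i.1.2 ∧ i.2.1 ∈ Rt (Dn n) i.2.2 (Rn n) ∧
    (r0 : ℤ) ≤ i.1.2.1 ∧ i.1.2.1 ≤ (r0 : ℤ) + r1 ∧ 2 * (n : ℤ) + 1 - r0 - r1 ≤ i.2.2.1 ∧
    i.2.2.1 ≤ 2 * (n : ℤ) + 1 - r0 ∧ 1 ≤ i.1.2.2 ∧ 1 ≤ i.2.2.2 ∧
    (∀ y ∈ i.1.1.1, (r0 : ℤ) ≤ y.1 → y.2 ≠ 0) ∧ (∀ y ∈ i.2.1.1, y.1 ≤ 2 * (n : ℤ) + 1 - r0 → y.2 ≠ 0) := by
  classical
  unfold II at hi
  exact (Finset.mem_filter.1 hi).2

theorem aw_nonneg (hq : 1 ≤ q) (hρ' : 0 < ρ') (h : ρ' ≤ ρ) (hD : ExpDecay q ρ) {r0 r1 n : ℕ}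
    {i : (Gr × (ℤ × ℤ)) × (Gr × (ℤ × ℤ))} (hi : i ∈ II r0 r1 n) : 0 ≤ aw q ρ ρ' r0 n i := by
  obtain ⟨hL, hR, h1, h2, h3, h4, -, -, -, -⟩ := mem_II34 hi
  obtain ⟨-, hLc, -, hLm, hLb⟩ := mem_Lf.1 hL
  obtain ⟨-, hRc, hRm, -, hRf⟩ := mem_Rt.1 hR
  obtain ⟨C, z, -, -, -, hkey⟩ := key (q := q) hq hρ' h hD
  unfold aw
  refine mul_nonneg ?_ ?_
  · have k1 := (hkey (Dn n) (r0 : ℤ) i.1.2.1 i.1.1 hLc).1 i.1.2
      (mem_wcp.2 ⟨⟨hLm, fun y hy => Or.inr (hLb y hy)⟩, h1, le_rfl⟩)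
    rw [low_self34 hLc hLb] at k1
    exact k1.1
  · have k1 := (hkey (Dn n) i.2.2.1 (2 * (n : ℤ) + 1 - r0) i.2.1 hRc).2.1 i.2.2
      (mem_wcp.2 ⟨⟨hRm, fun y hy => Or.inl (hRf y hy)⟩, le_rfl, h4⟩)
    rw [upp_self34 hRc hRf] at k1
    exact k1.1

open Classical in
private theorem mir_sum34 (hq : 0 < q) {r0 n : ℕ} (Φ : Gr → ℝ) :
    ∑ γ ∈ (Cl (Dn n) (0, 0) (Rn n)).filter (fun γ => Ab r0 n γ), WD q (dfc ρ ρ') (Dn n) γ * Φ (mir γ) =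
      ∑ γ ∈ (Cl (Dn n) (0, 0) (Rn n)).filter (fun γ => Ab r0 n (mir γ)),
        WD q (dfc ρ ρ') (Dn n) γ * Φ γ := by
  refine Finset.sum_nbij' mir mir ?_ ?_ ?_ ?_ ?_
  · intro γ hγ
    rw [Finset.mem_filter] at hγ ⊢
    rw [mir_mem, mir_mir]
    exact hγ
  · intro γ hγ
    rw [Finset.mem_filter] at hγ ⊢
    rw [mir_mem]
    exact hγ
  · intro γ _
    exact mir_mir γ
  · intro γ _
    exact mir_mir γ
  · intro γ _
    rw [WD_mir hq]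

theorem sub_aux (hq : 1 ≤ q) (hρ' : 0 < ρ') (h : ρ' < ρ) (hE : Pool.Helper49.FK.ExpW q ρ)
    (hFG : ∀ (a b : ℤ × ℤ) (γ : Gr), a ≠ b → γ ∈ Dm a b → 0 ≤ FG q ρ a b γ)
    (F : Pool.Agent.Helper18.WK.Law)
    (hF : ∀ (l : ℕ) (h : ℤ), F.f l h = fI q ρ ((l : ℤ), h) * Real.exp (tau q ρ * l))
    (K : Pool.Agent.Helper18.WK.Ker) (hR : Ren (W1 q ρ) (FG q ρ)) (hK : IsKer K (FG q ρ) (tau q ρ))
    (hG : ∃ (c : ℝ) (n₀ : ℕ), 0 < c ∧ ∀ n : ℕ, n₀ ≤ n →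
      ENNReal.ofReal (c / (n * Real.sqrt n)) ≤ Pool.Agent.Helper18.WK.G K n 1 1) {ε : ℝ} (hε : 0 < ε) :
    ∃ U n₀ : ℕ, ∀ n, n₀ ≤ n → ∃ I a, SubM q ρ ρ' ε U n I a := by
  classical
  have hρ : 0 < ρ := hρ'.trans h
  have hq0 : 0 < q := lt_of_lt_of_le one_pos hq
  have hD := hE.decay hq hρ
  obtain ⟨r0, r1, n₀, hr0, hmain⟩ :=
    mass_main hq hρ' h hE hFG F hF K hR hK hG (show 0 < ε / 3 by positivity)
  refine ⟨8 * (r0 + r1) + (r0 + r1), max n₀ (r0 + r1), fun n hn => ⟨II r0 r1 n, aw q ρ ρ' r0 n, ?_⟩⟩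
  obtain ⟨hA, hB⟩ := hmain n ((le_max_left _ _).trans hn)
  have hn1 : r0 + r1 ≤ n := (le_max_right _ _).trans hn
  have hn2 : (r0 : ℤ) + r1 < 2 * (n : ℤ) + 1 - r0 - r1 := by omega
  have hr0' : ∀ e, 0 ≤ dfc ρ ρ' e := by
    intro e
    unfold dfc
    split_ifs
    · exact hρ'.le
    · exact hρ.le
  have hW : ∀ γ, 0 ≤ WD q (dfc ρ ρ') (Dn n) γ := fun γ => WD_nonneg hq0 hr0' γ
  refine ⟨fun i hi => aw_nonneg hq hρ' h.le hD hi, fun i hi => (mem_II34 hi).1,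
    fun i hi => (mem_II34 hi).2.1, ?_, ?_, ?_, ?_, ?_, ?_⟩
  · intro i hi
    have h1 := (mem_II34 hi).2.2.2.1
    push_cast
    omega
  · intro i hi
    have h1 := (mem_II34 hi).2.2.2.2.1
    push_cast
    omega
  · intro i hi
    obtain ⟨hL, -, h1, h2, -, -, h3, -, -, -⟩ := mem_II34 hi
    obtain ⟨-, -, hL0, -, hLb⟩ := mem_Lf.1 hL
    have h4 := hLb _ hL0
    unfold Y at h4
    have h5 := (abs_le.1 h4).2
    simp only [Prod.fst_sub, Prod.snd_sub, sub_zero] at h5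
    refine ⟨h3, ?_⟩
    push_cast
    omega
  · intro i hi
    obtain ⟨-, hR', -, -, h1, h2, -, h3, -, -⟩ := mem_II34 hi
    obtain ⟨-, -, -, hRv, hRf⟩ := mem_Rt.1 hR'
    have h4 := hRf _ hRv
    unfold Y at h4
    have h5 := (abs_le.1 h4).1
    unfold Rn at h5
    simp only [Prod.fst_sub, Prod.snd_sub, zero_sub] at h5
    refine ⟨h3, ?_⟩
    push_cast
    omega
  · intro Φ hΦ
    have e1 : ∑ i ∈ II r0 r1 n, aw q ρ ρ' r0 n i * ∑ γ ∈ DmN n i.1.2 i.2.2, W1 q ρ γ *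
        (Φ (join i.1.1 (join γ i.2.1)) + Φ (mir (join i.1.1 (join γ i.2.1)))) =
        ∑ i ∈ II r0 r1 n, aw q ρ ρ' r0 n i * ∑ γ ∈ DmN n i.1.2 i.2.2, W1 q ρ γ *
          Φ (join i.1.1 (join γ i.2.1)) +
        ∑ i ∈ II r0 r1 n, aw q ρ ρ' r0 n i * ∑ γ ∈ DmN n i.1.2 i.2.2, W1 q ρ γ *
          (fun δ => Φ (mir δ)) (join i.1.1 (join γ i.2.1)) := by
      rw [← Finset.sum_add_distrib]
      refine Finset.sum_congr rfl fun i _ => ?_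
      rw [← mul_add, ← Finset.sum_add_distrib]
      congr 1
      refine Finset.sum_congr rfl fun γ _ => ?_
      ring
    rw [e1, outer_sum hr0 hn2 Φ, outer_sum hr0 hn2 (fun δ => Φ (mir δ))]
    have e2 : ∀ Ψ : Gr → ℝ, (∀ γ, 0 ≤ Ψ γ) →
        ∑ γ ∈ (Cl (Dn n) (0, 0) (Rn n)).filter (fun γ => Ab r0 n γ), SSw q ρ ρ' r0 r1 n γ * Ψ γ ≤
        ∑ γ ∈ (Cl (Dn n) (0, 0) (Rn n)).filter (fun γ => Ab r0 n γ),
          WD q (dfc ρ ρ') (Dn n) γ * Ψ γ := by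
      intro Ψ hΨ
      refine Finset.sum_le_sum fun γ hγ => ?_
      rw [Finset.mem_filter] at hγ
      exact mul_le_mul_of_nonneg_right (SSw_nonneg_le hq hρ' h.le hD hr0 hγ.1 hγ.2.1).2 (hΨ γ)
    refine (add_le_add (e2 Φ hΦ) (e2 (fun δ => Φ (mir δ)) fun γ => hΦ _)).trans ?_
    rw [mir_sum34 hq0 Φ]
    rw [← Finset.sum_union]
    · refine Finset.sum_le_sum_of_subset_of_nonneg ?_ fun γ _ _ => mul_nonneg (hW γ) (hΦ γ)
      exact Finset.union_subset (Finset.filter_subset _ _) (Finset.filter_subset _ _)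
    · rw [Finset.disjoint_left]
      intro γ h1 h2
      exact not_both (Finset.mem_filter.1 h1).2 (Finset.mem_filter.1 h2).2
  · have e1 := outer_sum (q := q) (ρ := ρ) (ρ' := ρ') hr0 hn2 (fun _ => 1)
    simp only [mul_one] at e1
    rw [e1]
    have e2 := hB ((Cl (Dn n) (0, 0) (Rn n)).filter (fun γ => Ab r0 n γ)) (by
      intro γ hγ
      rw [Finset.mem_filter] at hγ ⊢
      exact ⟨hγ.1, hγ.2.1⟩)
    have e3 := half_ab (q := q) (ρ := ρ) (ρ' := ρ') (r0 := r0) (n := n) hq0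
    have e4 := Finset.sum_filter_add_sum_filter_not (Cl (Dn n) (0, 0) (Rn n))
      (fun γ => Good r0 n γ ∧ (win r0 n γ).Nonempty) (fun γ => WD q (dfc ρ ρ') (Dn n) γ)
    have e5 : ∑ γ ∈ (Cl (Dn n) (0, 0) (Rn n)).filter (fun γ => ¬(Good r0 n γ ∧ (win r0 n γ).Nonempty)),
        WD q (dfc ρ ρ') (Dn n) γ =
        ∑ γ ∈ (Cl (Dn n) (0, 0) (Rn n)).filter (fun γ => ¬Good r0 n γ ∨ win r0 n γ = ∅),
          WD q (dfc ρ ρ') (Dn n) γ := by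
      refine Finset.sum_congr (Finset.filter_congr fun γ _ => ?_) fun _ _ => rfl
      rw [not_and_or, Finset.not_nonempty_iff_eq_empty]
    rw [e5] at e4
    linarith

end Pool.Helper83.OZ
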