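import Pool.Agent.Helper83.OZ.Cone
import Pool.Agent.Helper49.FK.PsiF
import Pool.Agent.Helper49.FK.Two
import Pool.Agent.Helper49.FK.Inf
import Pool.Agent.Helper49.FK.Exp

/-!
Project OZ (MP_7e0861_pr), part L5, block DEC: decoupling of the medium, in finite domains and with odds ratios
below the homogeneous ones.

* `Psi_inter`: by definition (`D ∖ V = D ∖ (V ∩ D)`).
* `Psi_super'`: `Psi_union` (twice on each side) reduces it to `Psi_super` in the domain `D ∖ K`, with `S ∖ K`...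
* `Psi_decouple`: in `D' = D ∖ K`: `Psi_ge` with `S' = S ∩ D'` gives `pr D' (no connection) * Psi (D' ∖ S') V ≤ Psi D' V`
  (`D' ∖ S' = D' ∖ S`); multiply by `Psi D K * Psi D (K ∪ S)` and use `Psi_union`; `pr D' (no connection) ≥
  1 - ∑ ∑ G D' s v` (`pr_conn_le`, `pr_add_compl`) and `G q r D' s v ≤ G q (hom ρ) D' s v ≤ GI s v ≤ C e^{-c d1}`
  (`G_mono_r`, `G_le_GI`, `ExpDecay.GI_le`).  If the factor is negative the left-hand side is nonpositive.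
* `Psi_far`: `Psi_decouple` and `cone_sum`.
* `Psi_dec`: let `Bo` be the box of radius `8 R` around `m` with `R` from `cone_far` (`ε = 1 / (2 C)`); the points of `A`
  outside of `Bo` satisfy `a.1 + R ≤ m.1` (if `m.1 - a.1 < R` then `|m.2 - a.2| ≤ 8 R`), the same for `B`. Apply
  `Psi_decouple` with `K = Bo`, `S = A ∖ Bo`, `V = B ∖ Bo`:
  `Psi (A ∪ B) ≤ ?`: we have `Psi (Bo ∪ A ∪ B) Psi (Bo) / 2 ≤ Psi (Bo ∪ A) Psi (Bo ∪ B) ≤ Psi A * Psi B`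
  (`Psi_anti_V`) and `Psi (A ∪ B) Psi (Bo) ≤ Psi (Bo ∪ A ∪ B)` (`Psi_super`); and `Psi Bo ≥ (1 + ρ)^(-4 |Bo|)`
  (`Psi_lower`). So `κ = (1 + ρ)^(-8 |Bo|) / 2` works.
-/

namespace Pool.Helper83.OZ

open Pool.Helper49.FK
open Pool.Helper17.OZ (Y CP Dbl NoCP nd rect tau)

variable {q ρ : ℝ} {r : Edge → ℝ} {D : Finset (ℤ × ℤ)}

theorem Psi_inter (V : Finset (ℤ × ℤ)) : Psi q r D (V ∩ D) = Psi q r D V := by
  unfold Psi
  have h1 : V ∩ D ∩ D = V ∩ D := by rw [Finset.inter_assoc, Finset.inter_self]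
  have h2 : D \ (V ∩ D) = D \ V := by
    ext x
    simp only [Finset.mem_sdiff, Finset.mem_inter]
    tauto
  rw [h1, h2]

/-- Log-supermodularity. -/
theorem Psi_super' (hq : 1 ≤ q) (hr : ∀ e, 0 ≤ r e) (K S V : Finset (ℤ × ℤ)) :
    Psi q r D (K ∪ S) * Psi q r D (K ∪ V) ≤ Psi q r D (K ∪ S ∪ V) * Psi q r D K := by
  have h0 : 0 < q := zero_lt_one.trans_le hq
  rw [Finset.union_assoc, Psi_union h0 hr, Psi_union h0 hr, Psi_union h0 hr]
  have h1 := Psi_super (D := D \ K) (S := S) (V := V) hq hr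
  have h2 : 0 < Psi q r D K := Psi_pos h0 hr
  have h3 := mul_le_mul_of_nonneg_left h1 (mul_pos h2 h2).le
  calc Psi q r D K * Psi q r (D \ K) S * (Psi q r D K * Psi q r (D \ K) V)
      = Psi q r D K * Psi q r D K * (Psi q r (D \ K) S * Psi q r (D \ K) V) := by ring
    _ ≤ Psi q r D K * Psi q r D K * Psi q r (D \ K) (S ∪ V) := h3
    _ = Psi q r D K * Psi q r (D \ K) (S ∪ V) * Psi q r D K := by ring

theorem Psi_decouple (hq : 1 ≤ q) (hρ : 0 < ρ) (hE : ExpDecay q ρ) : ∃ c C : ℝ, 0 < c ∧ 0 < C ∧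
    ∀ (D : Finset (ℤ × ℤ)) (r : Edge → ℝ), (∀ e, 0 ≤ r e ∧ r e ≤ ρ) → ∀ K S V : Finset (ℤ × ℤ),
    Psi q r D (K ∪ S ∪ V) * Psi q r D K * (1 - C * ∑ s ∈ S, ∑ v ∈ V, Real.exp (-c * d1 s v)) ≤
      Psi q r D (K ∪ S) * Psi q r D (K ∪ V) := by
  have h0 : 0 < q := zero_lt_one.trans_le hq
  obtain ⟨c, C, hc, hC, hcC⟩ := hE.GI_le hq hρ.le
  refine ⟨c, C, hc, hC, fun D r hrr K S V => ?_⟩
  have hr : ∀ e, 0 ≤ r e := fun e => (hrr e).1
  obtain ⟨D', hD'⟩ : ∃ D', D' = D \ K := ⟨_, rfl⟩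
  obtain ⟨S', hS'⟩ : ∃ S', S' = S ∩ D' := ⟨_, rfl⟩
  have hSD : S' ⊆ D' := by
    rw [hS']
    exact Finset.inter_subset_right
  have h1 := Psi_ge (D := D') (S := S') (V := V) hq hr hSD
  have e1 : D \ (K ∪ S) = D' \ S' := by
    rw [hS', hD']
    ext x
    simp only [Finset.mem_sdiff, Finset.mem_inter, Finset.mem_union]
    tauto
  have h2 : 1 - C * ∑ s ∈ S, ∑ v ∈ V, Real.exp (-c * d1 s v) ≤
      pr q r D' (fun ω => ∀ s ∈ S', ∀ v ∈ V, ¬ Conn ω s v) := by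
    have h3 := pr_add_compl (D := D') h0 hr (fun ω => ∀ s ∈ S', ∀ v ∈ V, ¬ Conn ω s v)
    have h4 : pr q r D' (fun ω => ¬ ∀ s ∈ S', ∀ v ∈ V, ¬ Conn ω s v) =
        pr q r D' (fun ω => ∃ s ∈ S', ∃ v ∈ V, Conn ω s v) :=
      pr_congr fun ω _ => by
        push Not
        rfl
    have h5 := pr_conn_le (D := D') h0 hr S' V
    have h6 : ∑ s ∈ S', ∑ v ∈ V, G q r D' s v ≤
        C * ∑ s ∈ S, ∑ v ∈ V, Real.exp (-c * d1 s v) := by
      rw [Finset.mul_sum]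
      calc ∑ s ∈ S', ∑ v ∈ V, G q r D' s v
          ≤ ∑ s ∈ S', C * ∑ v ∈ V, Real.exp (-c * d1 s v) := by
            refine Finset.sum_le_sum fun s _ => ?_
            rw [Finset.mul_sum]
            refine Finset.sum_le_sum fun v _ => ?_
            have g1 : G q r D' s v ≤ G q (hom ρ) D' s v :=
              G_mono_r hq hr (fun e => (hrr e).2) s v
            exact (g1.trans (G_le_GI hq hρ.le D' s v)).trans (hcC s v)
        _ ≤ ∑ s ∈ S, C * ∑ v ∈ V, Real.exp (-c * d1 s v) := by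
            refine Finset.sum_le_sum_of_subset_of_nonneg ?_ fun s _ _ => ?_
            · rw [hS']
              exact Finset.inter_subset_left
            · exact mul_nonneg hC.le (Finset.sum_nonneg fun v _ => (Real.exp_pos _).le)
    rw [h4] at h3
    linarith
  rw [Psi_union (S := K ∪ S) h0 hr, e1, Psi_union (S := K) (V := V) h0 hr, ← hD']
  have p1 : 0 < Psi q r D (K ∪ S) := Psi_pos h0 hr
  have p2 : 0 < Psi q r D K := Psi_pos h0 hr
  have p3 : 0 < Psi q r (D' \ S') V := Psi_pos h0 hr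
  calc Psi q r D (K ∪ S) * Psi q r (D' \ S') V * Psi q r D K *
        (1 - C * ∑ s ∈ S, ∑ v ∈ V, Real.exp (-c * d1 s v))
      ≤ Psi q r D (K ∪ S) * Psi q r (D' \ S') V * Psi q r D K *
        pr q r D' (fun ω => ∀ s ∈ S', ∀ v ∈ V, ¬ Conn ω s v) :=
        mul_le_mul_of_nonneg_left h2 (by positivity)
    _ = Psi q r D (K ∪ S) * Psi q r D K *
        (pr q r D' (fun ω => ∀ s ∈ S', ∀ v ∈ V, ¬ Conn ω s v) * Psi q r (D' \ S') V) := by ring
    _ ≤ Psi q r D (K ∪ S) * Psi q r D K * Psi q r D' V :=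
        mul_le_mul_of_nonneg_left h1 (by positivity)
    _ = Psi q r D (K ∪ S) * (Psi q r D K * Psi q r D' V) := by ring

/-- Separated cones are almost independent, with any set in between. -/
theorem Psi_far (hq : 1 ≤ q) (hρ : 0 < ρ) (hE : ExpDecay q ρ) : ∃ c C : ℝ, 0 < c ∧ 0 < C ∧
    ∀ (D : Finset (ℤ × ℤ)) (r : Edge → ℝ), (∀ e, 0 ≤ r e ∧ r e ≤ ρ) → ∀ K S V : Finset (ℤ × ℤ),
    ∀ m m' : ℤ × ℤ, m.1 ≤ m'.1 → (∀ y ∈ S, Y (m - y)) → (∀ y ∈ V, Y (y - m')) →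
    Psi q r D (K ∪ S ∪ V) * Psi q r D K * (1 - C * Real.exp (-c * ((m'.1 : ℝ) - m.1))) ≤
      Psi q r D (K ∪ S) * Psi q r D (K ∪ V) := by
  have h0 : 0 < q := zero_lt_one.trans_le hq
  obtain ⟨c, C, hc, hC, hcC⟩ := Psi_decouple hq hρ hE
  obtain ⟨C', hC', hC'C⟩ := cone_sum hc
  refine ⟨c, C * C', hc, mul_pos hC hC', fun D r hrr K S V m m' hm hS hV => ?_⟩
  have hr : ∀ e, 0 ≤ r e := fun e => (hrr e).1
  refine le_trans ?_ (hcC D r hrr K S V)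
  have p1 : 0 < Psi q r D (K ∪ S ∪ V) := Psi_pos h0 hr
  have p2 : 0 < Psi q r D K := Psi_pos h0 hr
  refine mul_le_mul_of_nonneg_left ?_ (mul_pos p1 p2).le
  have h1 := mul_le_mul_of_nonneg_left (hC'C m m' S V hm hS hV) hC.le
  rw [mul_assoc]
  linarith

private theorem card_touch76 (D V : Finset (ℤ × ℤ)) :
    ((edges D).filter (fun e => e.1 ∈ V ∨ tip e ∈ V)).card ≤ 4 * V.card := by
  classical
  have h1 : (edges D).filter (fun e => e.1 ∈ V ∨ tip e ∈ V) ⊆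
      (V ×ˢ (Finset.univ : Finset Bool)) ∪
        (V ×ˢ (Finset.univ : Finset Bool)).image (fun p => (p.1 - tip ((0, 0), p.2), p.2)) := by
    intro e he
    rw [Finset.mem_filter] at he
    rw [Finset.mem_union]
    rcases he.2 with h | h
    · left
      exact Finset.mem_product.2 ⟨h, Finset.mem_univ _⟩
    · right
      refine Finset.mem_image.2 ⟨(tip e, e.2), Finset.mem_product.2 ⟨h, Finset.mem_univ _⟩, ?_⟩
      obtain ⟨⟨a, b⟩, t⟩ := e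
      cases t <;> simp [tip]
  refine (Finset.card_le_card h1).trans ((Finset.card_union_le _ _).trans ?_)
  have h2 : (V ×ˢ (Finset.univ : Finset Bool)).card = 2 * V.card := by
    rw [Finset.card_product, Finset.card_univ, Fintype.card_bool]
    ring
  have h3 := Finset.card_image_le (s := V ×ˢ (Finset.univ : Finset Bool))
    (f := fun p => (p.1 - tip ((0, 0), p.2), p.2))
  omega

private theorem lower76 (hq : 1 ≤ q) (hρ : 0 < ρ) (D : Finset (ℤ × ℤ)) (r : Edge → ℝ)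
    (hrr : ∀ e, 0 ≤ r e ∧ r e ≤ ρ) (V : Finset (ℤ × ℤ)) :
    ((1 + ρ)⁻¹) ^ (4 * V.card) ≤ Psi q r D V := by
  refine le_trans ?_ (Psi_lower hq fun e => (hrr e).1)
  have h1 : 0 < (1 + ρ)⁻¹ := inv_pos.2 (by linarith)
  have h2 : (1 + ρ)⁻¹ ≤ 1 := inv_le_one_of_one_le₀ (by linarith)
  calc ((1 + ρ)⁻¹) ^ (4 * V.card)
      ≤ ((1 + ρ)⁻¹) ^ ((edges D).filter (fun e => e.1 ∈ V ∨ tip e ∈ V)).card :=
        pow_le_pow_of_le_one h1.le h2 (card_touch76 D V)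
    _ = ∏ _e ∈ (edges D).filter (fun e => e.1 ∈ V ∨ tip e ∈ V), (1 + ρ)⁻¹ := by
        rw [Finset.prod_const]
    _ ≤ ∏ e ∈ (edges D).filter (fun e => e.1 ∈ V ∨ tip e ∈ V), (1 + r e)⁻¹ := by
        refine Finset.prod_le_prod (fun _ _ => h1.le) fun e _ => ?_
        have h3 := hrr e
        exact inv_anti₀ (by linarith) (by linarith)

/-- Decoupling at a cone point up to a constant. -/
theorem Psi_dec (hq : 1 ≤ q) (hρ : 0 < ρ) (hE : ExpDecay q ρ) : ∃ κ : ℝ, 0 < κ ∧ κ ≤ 1 ∧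
    ∀ (D : Finset (ℤ × ℤ)) (r : Edge → ℝ), (∀ e, 0 ≤ r e ∧ r e ≤ ρ) → ∀ A B : Finset (ℤ × ℤ),
    ∀ m : ℤ × ℤ, (∀ y ∈ A, Y (m - y)) → (∀ y ∈ B, Y (y - m)) →
    κ * Psi q r D (A ∪ B) ≤ Psi q r D A * Psi q r D B := by
  have h0 : 0 < q := zero_lt_one.trans_le hq
  obtain ⟨c, C, hc, hC, hcC⟩ := Psi_decouple hq hρ hE
  obtain ⟨R, hR⟩ := cone_far (c := c) (ε := 1 / (2 * C)) hc (by positivity)
  obtain ⟨L, hL⟩ : ∃ L : ℝ, L = ((1 + ρ)⁻¹) ^ (4 * (16 * R + 1) ^ 2) := ⟨_, rfl⟩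
  have i1 : 0 < (1 + ρ)⁻¹ := inv_pos.2 (by linarith)
  have i2 : (1 + ρ)⁻¹ ≤ 1 := inv_le_one_of_one_le₀ (by linarith)
  have hL0 : 0 < L := hL ▸ pow_pos i1 _
  have hL1 : L ≤ 1 := hL ▸ pow_le_one₀ i1.le i2
  refine ⟨L * L / 2, by positivity, by nlinarith, fun D r hrr A B m hA hB => ?_⟩
  have hr : ∀ e, 0 ≤ r e := fun e => (hrr e).1
  obtain ⟨Bo, hBo⟩ : ∃ Bo, Bo = bx m (8 * R) := ⟨_, rfl⟩
  have hcard : Bo.card = (16 * R + 1) ^ 2 := by
    rw [hBo, bx, Finset.card_product, Int.card_Icc, Int.card_Icc]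
    have e1 : (m.1 + ((8 * R : ℕ) : ℤ) + 1 - (m.1 - ((8 * R : ℕ) : ℤ))).toNat = 16 * R + 1 := by
      omega
    have e2 : (m.2 + ((8 * R : ℕ) : ℤ) + 1 - (m.2 - ((8 * R : ℕ) : ℤ))).toNat = 16 * R + 1 := by
      omega
    rw [e1, e2, sq]
  have hmem : ∀ y, y ∈ Bo ↔ (m.1 - 8 * R ≤ y.1 ∧ y.1 ≤ m.1 + 8 * R) ∧
      (m.2 - 8 * R ≤ y.2 ∧ y.2 ≤ m.2 + 8 * R) := by
    intro y
    rw [hBo, bx, Finset.mem_product, Finset.mem_Icc, Finset.mem_Icc]
    push_cast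
    rfl
  have hPB : L ≤ Psi q r D Bo := by
    have := lower76 hq hρ D r hrr Bo
    rwa [hcard, ← hL] at this
  have hA' : ∀ a ∈ A \ Bo, Y (m - a) ∧ a.1 + R ≤ m.1 := by
    intro a ha
    rw [Finset.mem_sdiff, hmem] at ha
    have h1 := hA a ha.1
    refine ⟨h1, ?_⟩
    unfold Y at h1
    rw [abs_le] at h1
    simp only [Prod.fst_sub, Prod.snd_sub] at h1
    have h2 := ha.2
    by_contra h3
    apply h2
    omega
  have hB' : ∀ b ∈ B \ Bo, Y (b - m) ∧ m.1 + R ≤ b.1 := by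
    intro b hb
    rw [Finset.mem_sdiff, hmem] at hb
    have h1 := hB b hb.1
    refine ⟨h1, ?_⟩
    unfold Y at h1
    rw [abs_le] at h1
    simp only [Prod.fst_sub, Prod.snd_sub] at h1
    have h2 := hb.2
    by_contra h3
    apply h2
    omega
  have h1 := hR m (A \ Bo) (B \ Bo) hA' hB'
  have h2 := hcC D r hrr Bo (A \ Bo) (B \ Bo)
  have e1 : Bo ∪ A \ Bo ∪ B \ Bo = (A ∪ B) ∪ Bo := by
    ext x
    simp only [Finset.mem_union, Finset.mem_sdiff]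
    tauto
  rw [e1] at h2
  have p1 : 0 < Psi q r D (A ∪ B) := Psi_pos h0 hr
  have p2 : 0 < Psi q r D Bo := Psi_pos h0 hr
  have p3 : 0 < Psi q r D (A ∪ B ∪ Bo) := Psi_pos h0 hr
  have h3 : Psi q r D (A ∪ B) * Psi q r D Bo ≤ Psi q r D (A ∪ B ∪ Bo) := Psi_super hq hr
  have h4 : Psi q r D (Bo ∪ A \ Bo) ≤ Psi q r D A := by
    refine Psi_anti_V h0 hr fun x hx => ?_
    simp only [Finset.mem_union, Finset.mem_sdiff]
    tauto
  have h5 : Psi q r D (Bo ∪ B \ Bo) ≤ Psi q r D B := by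
    refine Psi_anti_V h0 hr fun x hx => ?_
    simp only [Finset.mem_union, Finset.mem_sdiff]
    tauto
  have h6 : (1 / 2 : ℝ) ≤ 1 - C * ∑ s ∈ A \ Bo, ∑ v ∈ B \ Bo, Real.exp (-c * d1 s v) := by
    have h7 := mul_le_mul_of_nonneg_left h1 hC.le
    have h8 : C * (1 / (2 * C)) = 1 / 2 := by field_simp
    linarith
  calc L * L / 2 * Psi q r D (A ∪ B)
      ≤ Psi q r D Bo * Psi q r D Bo / 2 * Psi q r D (A ∪ B) := by
        refine mul_le_mul_of_nonneg_right ?_ p1.le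
        have := mul_le_mul hPB hPB hL0.le p2.le
        linarith
    _ = (Psi q r D (A ∪ B) * Psi q r D Bo) * Psi q r D Bo * (1 / 2) := by ring
    _ ≤ Psi q r D (A ∪ B ∪ Bo) * Psi q r D Bo * (1 / 2) := by
        refine mul_le_mul_of_nonneg_right (mul_le_mul_of_nonneg_right h3 p2.le) (by norm_num)
    _ ≤ Psi q r D (A ∪ B ∪ Bo) * Psi q r D Bo *
        (1 - C * ∑ s ∈ A \ Bo, ∑ v ∈ B \ Bo, Real.exp (-c * d1 s v)) :=
        mul_le_mul_of_nonneg_left h6 (mul_pos p3 p2).le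
    _ ≤ Psi q r D (Bo ∪ A \ Bo) * Psi q r D (Bo ∪ B \ Bo) := h2
    _ ≤ Psi q r D A * Psi q r D B :=
        mul_le_mul h4 h5 (Psi_pos h0 hr).le (Psi_pos h0 hr).le

end Pool.Helper83.OZ
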