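import Pool.Agent.Helper83.OZ.Sum
import Pool.Agent.Helper83.OZ.Dec
import Pool.Agent.Helper17.OZ.Main
import Pool.Agent.Helper17.OZ.Link

/-!
Project OZ (MP_7e0861_pr), part L5, block XT: clusters weighted by `z ^ (number of cone points)`, `z < 1`.

* `WD_join_le`: `Psi_dec` and `Jn.bg_join`.
* `nocp_le`: `nocp_eq` and `mass_gap` (Helper17/OZ/Main); the hypotheses `ExpW` of Helper49/FK/Defs and of
  Helper17/OZ/Defs are the same up to notation (constants).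
* `G_le_tau`: `G q r D ≤ G q (hom ρ) D ≤ GI` (`G_mono_r`, `Pool.Helper49.FK.G_le_GI`), `GI_le_tau` (Helper17/OZ/TauA)
  with translation invariance; `nd ≥ |w.1 - u.1|`.
-/

namespace Pool.Helper83.OZ

open Pool.Helper49.FK
open Pool.Helper17.OZ (Y CP Dbl NoCP nd rect tau)

variable {q ρ : ℝ} {r : Edge → ℝ} {D : Finset (ℤ × ℤ)}

/-- Joined weights are at most a constant times the product. -/
theorem WD_join_le (hq : 1 ≤ q) (hρ : 0 < ρ) (hE : ExpDecay q ρ) : ∃ κ : ℝ, 0 < κ ∧ κ ≤ 1 ∧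
    ∀ (D : Finset (ℤ × ℤ)) (r : Edge → ℝ), (∀ e, 0 ≤ r e ∧ r e ≤ ρ) → ∀ (γ δ : Gr) (m : ℤ × ℤ), Jn γ δ m →
    κ * WD q r D (join γ δ) ≤ WD q r D γ * WD q r D δ := by
  have h0 : 0 < q := zero_lt_one.trans_le hq
  obtain ⟨κ, hκ, hκ1, h⟩ := Psi_dec hq hρ hE
  refine ⟨κ, hκ, hκ1, fun D r hr γ δ m hJ => ?_⟩
  have hr0 : ∀ e, 0 ≤ r e := fun e => (hr e).1
  have h1 := h D r hr γ.1 δ.1 m hJ.bw hJ.fw
  have h2 : 0 ≤ bg q r γ * bg q r δ := mul_nonneg (bg_nonneg h0 hr0 γ) (bg_nonneg h0 hr0 δ)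
  unfold WD
  rw [hJ.bg_join h0 r, mul_mul_mul_comm]
  calc κ * (bg q r γ * bg q r δ * Psi q r D (join γ δ).1)
      = bg q r γ * bg q r δ * (κ * Psi q r D (γ.1 ∪ δ.1)) := by
        unfold join
        ring
    _ ≤ bg q r γ * bg q r δ * (Psi q r D γ.1 * Psi q r D δ.1) := mul_le_mul_of_nonneg_left h1 h2

theorem nocp_le (hq : 1 ≤ q) {α : ℝ} (hα : 0 < α) (hαρ : α ≤ ρ) (hE : Pool.Helper49.FK.ExpW q ρ) :
    ∃ C c : ℝ, 0 < C ∧ 0 < c ∧ ∀ r : Edge → ℝ, (∀ e, α ≤ r e ∧ r e ≤ ρ) → ∀ a b e d : ℤ, ∀ u w : ℤ × ℤ,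
      u ∈ rect a b e d → w ∈ rect a b e d → u.1 < w.1 →
      nocp q r (rect a b e d) u w ≤ C * Real.exp (-(tau q ρ + c) * ((w.1 : ℝ) - u.1)) := by
  obtain ⟨C, c, hC, hc, h⟩ := Pool.Helper17.OZ.mass_gap' hq hα hαρ hE
  refine ⟨C, c, hC, hc, fun r hr a b e d u w hu hw huw => ?_⟩
  rw [nocp_eq (zero_lt_one.trans_le hq) (fun e => hα.le.trans (hr e).1) hu]
  exact h r hr a b e d u w hu hw huw

theorem G_le_tau (hq : 1 ≤ q) (hρ : 0 < ρ) (hr : ∀ e, 0 ≤ r e ∧ r e ≤ ρ) (u w : ℤ × ℤ) :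
    G q r D u w ≤ Real.exp (-tau q ρ * |(w.1 : ℝ) - u.1|) := by
  have hτ : 0 ≤ tau q ρ := by
    unfold tau
    refine Real.iInf_nonneg fun n => div_nonneg ?_ (by positivity)
    have hp := Pool.Helper17.OZ.GI_pos hq hρ ((n : ℤ) + 1, 0)
    exact neg_nonneg.2 (Real.log_nonpos hp.1.le hp.2)
  have h1 : G q r D u w ≤ G q (hom ρ) D u w := G_mono_r hq (fun e => (hr e).1) (fun e => (hr e).2) u w
  have h2 : G q (hom ρ) D u w ≤ GI q ρ u w := G_le_GI hq hρ.le D u w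
  have h3 : GI q ρ u w = GI q ρ (0, 0) (w - u) := by
    have h := GI_tr hq hρ.le u (0, 0) (w - u)
    rw [sub_add_cancel] at h
    rw [← h]
    congr 1
    ext <;> simp
  have h4 := Pool.Helper17.OZ.GI_le_tau hq hρ (w - u)
  refine h1.trans (h2.trans (h3.le.trans (h4.trans ?_)))
  refine Real.exp_le_exp.2 ?_
  rw [neg_mul, neg_mul]
  refine neg_le_neg (mul_le_mul_of_nonneg_left ?_ hτ)
  have h5 : |w.1 - u.1| ≤ nd (0, 0) (w - u) := by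
    unfold nd
    refine le_trans (le_of_eq ?_) (le_max_left _ _)
    rw [abs_sub_comm]
    simp
  have h6 : ((|w.1 - u.1| : ℤ) : ℝ) ≤ (nd (0, 0) (w - u) : ℝ) := by exact_mod_cast h5
  rw [Int.cast_abs, Int.cast_sub] at h6
  exact h6

end Pool.Helper83.OZ
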