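import Pool.Agent.Helper83.OZ.Cut3
import Pool.Agent.Helper49.FK.Clus
import Pool.Agent.Helper49.FK.Cond

/-!
Project OZ (MP_7e0861_pr), part L5, block SUM: probabilities as sums over connected graphs.

* `ex_clu_sum`: `ex_cluster` (FK/Clus) with `F V C = if v ∈ V then Φ (V, C) else 0`; `Conn ω u v ↔ v ∈ clu D ω u` for
  `v ∈ D` (and both sides vanish for `v ∉ D`, `Conn.mem`); `clwD_eq` identifies the weight with `WD`; the index set
  `clus D u` filtered by `v ∈ c.1` is `Cl D u v`.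
* `WD_join_ge`: `bg_join` and `Psi_super` (FK/PsiF).
* `Lf_le`, `Rt_le`, `Dm_le`: subsets of `Cl D a b`, whose total weight is the two point function (`WD_nonneg`).
-/

namespace Pool.Helper83.OZ

open Pool.Helper49.FK
open Pool.Helper17.OZ (Y CP Dbl NoCP nd rect tau)

variable {q : ℝ} {r : Edge → ℝ} {D : Finset (ℤ × ℤ)}

theorem bg_nonneg (hq : 0 < q) (hr : ∀ e, 0 ≤ r e) (γ : Gr) : 0 ≤ bg q r γ :=
  div_nonneg (Finset.prod_nonneg fun e _ => hr e) (pow_pos hq _).le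

theorem bg_pos (hq : 0 < q) (hr : ∀ e, 0 < r e) (γ : Gr) : 0 < bg q r γ :=
  div_pos (Finset.prod_pos fun e _ => hr e) (pow_pos hq _)

theorem WD_nonneg (hq : 0 < q) (hr : ∀ e, 0 ≤ r e) (γ : Gr) : 0 ≤ WD q r D γ :=
  mul_nonneg (bg_nonneg hq hr γ) (Psi_pos hq hr).le

theorem WD_pos (hq : 0 < q) (hr : ∀ e, 0 < r e) (γ : Gr) : 0 < WD q r D γ :=
  mul_pos (bg_pos hq hr γ) (Psi_pos hq fun e => (hr e).le)

private theorem mem_clu26 {ω : Finset Edge} {x y : ℤ × ℤ} :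
    y ∈ clu D ω x ↔ y ∈ D ∧ Conn ω x y := by
  classical
  unfold clu
  exact Finset.mem_filter

private theorem clwD26 (hq : 0 < q) {V : Finset (ℤ × ℤ)} {C : Finset Edge} (hV : V ⊆ D)
    (hne : V.Nonempty) : clwD q r D V C = WD q r D (V, C) := by
  rw [clwD_eq hq hV hne]
  unfold WD bg
  rw [div_mul_eq_mul_div]

open Classical in
theorem ex_clu_sum (hq : 0 < q) (hr : ∀ e, 0 ≤ r e) {u v : ℤ × ℤ} (hu : u ∈ D) (Φ : Gr → ℝ) :
    ex q r D (fun ω => if Conn ω u v then Φ (clu D ω u, cle ω u) else 0) =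
      ∑ γ ∈ Cl D u v, WD q r D γ * Φ γ := by
  have h1 := ex_cluster (r := r) hq hr hu (fun V C => if v ∈ V then Φ (V, C) else 0)
  have h2 : ex q r D (fun ω => if Conn ω u v then Φ (clu D ω u, cle ω u) else 0) =
      ex q r D (fun ω => if v ∈ clu D ω u then Φ (clu D ω u, cle ω u) else 0) := by
    refine ex_congr fun ω hω => ?_
    by_cases h : Conn ω u v
    · rw [if_pos h, if_pos (mem_clu26.2 ⟨Conn.mem hω h hu, h⟩)]
    · rw [if_neg h, if_neg (fun h' => h (mem_clu26.1 h').2)]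
  rw [h2, h1]
  have h3 : ∀ c ∈ clus D u, clwD q r D c.1 c.2 * (if v ∈ c.1 then Φ (c.1, c.2) else 0) =
      if v ∈ c.1 then WD q r D (c.1, c.2) * Φ (c.1, c.2) else 0 := by
    intro c hc
    rw [mem_clus] at hc
    by_cases h : v ∈ c.1
    · rw [if_pos h, if_pos h, clwD26 hq hc.1 ⟨u, hc.2.1⟩]
    · rw [if_neg h, if_neg h, mul_zero]
  rw [Finset.sum_congr rfl h3, ← Finset.sum_filter]
  refine Finset.sum_nbij' (fun c => ((c.1, c.2) : Gr))
    (fun γ => (⟨γ.1, γ.2⟩ : (_ : Finset (ℤ × ℤ)) × Finset Edge)) ?_ ?_ ?_ ?_ ?_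
  · intro c hc
    rw [Finset.mem_filter, mem_clus] at hc
    rw [mem_Cl]
    exact ⟨hc.1.1, hc.1.2.2, hc.1.2.1, hc.2⟩
  · intro γ hγ
    rw [mem_Cl] at hγ
    rw [Finset.mem_filter, mem_clus]
    exact ⟨⟨hγ.1, hγ.2.2.1, hγ.2.1⟩, hγ.2.2.2⟩
  · intro c _
    rfl
  · intro γ _
    rfl
  · intro c _
    rfl

open Classical in
theorem pr_clu_sum (hq : 0 < q) (hr : ∀ e, 0 ≤ r e) {u v : ℤ × ℤ} (hu : u ∈ D) (P : Gr → Prop) :
    pr q r D (fun ω => Conn ω u v ∧ P (clu D ω u, cle ω u)) =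
      ∑ γ ∈ Cl D u v, if P γ then WD q r D γ else 0 := by
  have h1 := ex_clu_sum (D := D) (r := r) hq hr (v := v) hu (fun γ => if P γ then (1 : ℝ) else 0)
  have h2 : pr q r D (fun ω => Conn ω u v ∧ P (clu D ω u, cle ω u)) = ex q r D
      (fun ω => if Conn ω u v then (if P (clu D ω u, cle ω u) then (1 : ℝ) else 0) else 0) := by
    unfold pr
    refine ex_congr fun ω _ => ?_
    by_cases h : Conn ω u v
    · by_cases h' : P (clu D ω u, cle ω u)
      · rw [if_pos ⟨h, h'⟩, if_pos h, if_pos h']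
      · rw [if_neg (fun h3 => h' h3.2), if_pos h, if_neg h']
    · rw [if_neg (fun h3 => h h3.1), if_neg h]
  rw [h2, h1]
  refine Finset.sum_congr rfl fun γ _ => ?_
  by_cases h : P γ
  · rw [if_pos h, if_pos h, mul_one]
  · rw [if_neg h, if_neg h, mul_zero]

theorem G_sum (hq : 0 < q) (hr : ∀ e, 0 ≤ r e) {u v : ℤ × ℤ} (hu : u ∈ D) :
    G q r D u v = ∑ γ ∈ Cl D u v, WD q r D γ := by
  classical
  exact (ex_clu_sum (D := D) (r := r) hq hr (v := v) hu (fun _ => (1 : ℝ))).trans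
    (Finset.sum_congr rfl fun γ _ => mul_one _)

/-- Joined weights are larger than the product (FKG). -/
theorem WD_join_ge (hq : 1 ≤ q) (hr : ∀ e, 0 ≤ r e) {γ δ : Gr} {m : ℤ × ℤ} (h : Jn γ δ m) :
    WD q r D γ * WD q r D δ ≤ WD q r D (join γ δ) := by
  have h0 : 0 < q := by linarith
  unfold WD
  rw [h.bg_join h0 r, mul_mul_mul_comm]
  exact mul_le_mul_of_nonneg_left (Psi_super hq hr)
    (mul_nonneg (bg_nonneg h0 hr γ) (bg_nonneg h0 hr δ))

private theorem Cl_le26 (hq : 0 < q) (hr : ∀ e, 0 ≤ r e) {u v : ℤ × ℤ} {S : Finset Gr}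
    (hS : S ⊆ Cl D u v) : ∑ γ ∈ S, WD q r D γ ≤ G q r D u v := by
  by_cases hu : u ∈ D
  · rw [G_sum hq hr hu]
    exact Finset.sum_le_sum_of_subset_of_nonneg hS fun γ _ _ => WD_nonneg hq hr γ
  · have h1 : ∑ γ ∈ S, WD q r D γ = 0 := by
      refine Finset.sum_eq_zero fun γ hγ => ?_
      have h2 := mem_Cl.1 (hS hγ)
      exact absurd (h2.1 h2.2.2.1) hu
    rw [h1]
    unfold G
    exact pr_nonneg hq hr _

theorem Lf_le (hq : 0 < q) (hr : ∀ e, 0 ≤ r e) {u m : ℤ × ℤ} :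
    ∑ γ ∈ Lf D u m, WD q r D γ ≤ G q r D u m := by
  classical
  refine Cl_le26 hq hr ?_
  intro γ hγ
  have h1 := mem_Lf.1 hγ
  exact mem_Cl.2 ⟨h1.1, h1.2.1, h1.2.2.1, h1.2.2.2.1⟩

theorem Rt_le (hq : 0 < q) (hr : ∀ e, 0 ≤ r e) {m v : ℤ × ℤ} :
    ∑ γ ∈ Rt D m v, WD q r D γ ≤ G q r D m v := by
  classical
  refine Cl_le26 hq hr ?_
  intro γ hγ
  have h1 := mem_Rt.1 hγ
  exact mem_Cl.2 ⟨h1.1, h1.2.1, h1.2.2.1, h1.2.2.2.1⟩

open Classical in
/-- The total weight of the clusters of `u` that contain `w` and have no cone point in between. -/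
noncomputable def nocp (q : ℝ) (r : Edge → ℝ) (D : Finset (ℤ × ℤ)) (u w : ℤ × ℤ) : ℝ :=
  ∑ γ ∈ Cl D u w, if NoCP γ.1 u w then WD q r D γ else 0

theorem nocp_nonneg (hq : 0 < q) (hr : ∀ e, 0 ≤ r e) (u w : ℤ × ℤ) : 0 ≤ nocp q r D u w := by
  classical
  unfold nocp
  refine Finset.sum_nonneg fun γ _ => ?_
  by_cases h : NoCP γ.1 u w
  · rw [if_pos h]
    exact WD_nonneg hq hr γ
  · rw [if_neg h]

theorem nocp_eq (hq : 0 < q) (hr : ∀ e, 0 ≤ r e) {u w : ℤ × ℤ} (hu : u ∈ D) :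
    nocp q r D u w = pr q r D (fun ω => Conn ω u w ∧ NoCP (clu D ω u) u w) := by
  classical
  unfold nocp
  exact (pr_clu_sum hq hr hu fun γ => NoCP γ.1 u w).symm

/-- `NoCP` is the absence of cone points in `cps`. -/
theorem nocp_iff {γ : Gr} {u w : ℤ × ℤ} : NoCP γ.1 u w ↔ cps γ u w = ∅ := by
  classical
  rw [Finset.eq_empty_iff_forall_notMem]
  constructor
  · intro h t ht
    have h1 := mem_cps.1 ht
    exact h t h1.1 h1.2.1 h1.2.2
  · intro h t h1 h2 h3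
    exact h t (mem_cps.2 ⟨h1, h2, h3⟩)

end Pool.Helper83.OZ
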