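import Pool.Agent.Helper83.OZ.Cut

/-!
Project OZ (MP_7e0861_pr), parts L3 and L5, block CUT2: joining two connected graphs at a cone point.

`γ` is in the backward cone of `m`, `δ` in the forward cone, both contain `m`; the vertex sets meet only in
`m`, so the edge sets are disjoint (an edge has two different ends).
-/

namespace Pool.Helper83.OZ

open Pool.Helper49.FK Pool.Helper17.OZ

/-- `γ` and `δ` can be joined at `m`. -/
structure Jn (γ δ : Gr) (m : ℤ × ℤ) : Prop where
  cl : IsClu γ.1 γ.2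
  cr : IsClu δ.1 δ.2
  ml : m ∈ γ.1
  mr : m ∈ δ.1
  bw : Bw γ m
  fw : Fw δ m

variable {γ δ : Gr} {m : ℤ × ℤ}

theorem jn_cut (h : IsClu γ.1 γ.2) (hm : CP γ.1 m) : Jn (low m γ) (upp m γ) m :=
  ⟨(low_spec h hm).1, (upp_spec h hm).1, (low_spec h hm).2.1, (upp_spec h hm).2.1, (low_spec h hm).2.2,
    (upp_spec h hm).2.2⟩

private theorem tip_ne30 (e : Edge) : tip e ≠ e.1 := by
  intro h
  unfold tip at h
  split_ifs at h
  · have := congrArg Prod.fst h
    simp at this
  · have := congrArg Prod.snd h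
    simp at this

private theorem mem_edges30 {V : Finset (ℤ × ℤ)} {e : Edge} : e ∈ edges V ↔ e.1 ∈ V ∧ tip e ∈ V := by
  unfold edges
  rw [Finset.mem_filter, Finset.mem_product]
  constructor
  · exact fun h => ⟨h.1.1, h.2⟩
  · exact fun h => ⟨⟨h.1, Finset.mem_univ _⟩, h.2⟩

private theorem conn_mono30 {ω ω' : Finset Edge} (h : ω ⊆ ω') {x y : ℤ × ℤ} (hc : Conn ω x y) : Conn ω' x y := by
  refine SimpleGraph.Reachable.mono ?_ hc
  intro a b hab
  obtain ⟨e, he, h2⟩ := hab
  exact ⟨e, h he, h2⟩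

private theorem both30 (h : Jn γ δ m) {y : ℤ × ℤ} (h1 : y ∈ γ.1) (h2 : y ∈ δ.1) : y = m :=
  Y_antisymm (h.bw y h1) (h.fw y h2)

theorem Jn.inter (h : Jn γ δ m) : γ.1 ∩ δ.1 = {m} := by
  ext y
  rw [Finset.mem_inter, Finset.mem_singleton]
  constructor
  · exact fun hy => both30 h hy.1 hy.2
  · rintro rfl
    exact ⟨h.ml, h.mr⟩

theorem Jn.disj (h : Jn γ δ m) : Disjoint γ.2 δ.2 := by
  rw [Finset.disjoint_left]
  intro e h1 h2
  have h3 := mem_edges30.1 (h.cl.1 h1)
  have h4 := mem_edges30.1 (h.cr.1 h2)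
  exact tip_ne30 e ((both30 h h3.2 h4.2).trans (both30 h h3.1 h4.1).symm)

theorem Jn.clu (h : Jn γ δ m) : IsClu (join γ δ).1 (join γ δ).2 := by
  have hm : ∀ x ∈ (join γ δ).1, Conn (join γ δ).2 x m := by
    intro x hx
    rcases Finset.mem_union.1 hx with hx | hx
    · exact conn_mono30 Finset.subset_union_left (h.cl.2 x hx m h.ml)
    · exact conn_mono30 Finset.subset_union_right (h.cr.2 x hx m h.mr)
  refine ⟨fun e he => ?_, fun x hx y hy => (hm x hx).trans (hm y hy).symm⟩
  rw [mem_edges30]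
  rcases Finset.mem_union.1 he with he | he
  · have h3 := mem_edges30.1 (h.cl.1 he)
    exact ⟨Finset.mem_union_left _ h3.1, Finset.mem_union_left _ h3.2⟩
  · have h3 := mem_edges30.1 (h.cr.1 he)
    exact ⟨Finset.mem_union_right _ h3.1, Finset.mem_union_right _ h3.2⟩

theorem Jn.cp (h : Jn γ δ m) : CP (join γ δ).1 m := by
  refine ⟨Finset.mem_union_left _ h.ml, fun y hy => ?_⟩
  rcases Finset.mem_union.1 hy with hy | hy
  · exact Or.inr (h.bw y hy)
  · exact Or.inl (h.fw y hy)

theorem Jn.low (h : Jn γ δ m) : low m (join γ δ) = γ := by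
  refine Prod.ext ?_ ?_
  · ext y
    simp only [OZ.low, join, Finset.mem_filter, Finset.mem_union]
    constructor
    · rintro ⟨h1 | h1, h2⟩
      · exact h1
      · rw [Y_antisymm h2 (h.fw y h1)]
        exact h.ml
    · exact fun h1 => ⟨Or.inl h1, h.bw y h1⟩
  · ext e
    simp only [OZ.low, join, Finset.mem_filter, Finset.mem_union]
    constructor
    · rintro ⟨h1 | h1, h2, h3⟩
      · exact h1
      · exfalso
        have h4 := mem_edges30.1 (h.cr.1 h1)
        exact tip_ne30 e ((Y_antisymm h3 (h.fw _ h4.2)).trans (Y_antisymm h2 (h.fw _ h4.1)).symm)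
    · intro h1
      have h4 := mem_edges30.1 (h.cl.1 h1)
      exact ⟨Or.inl h1, h.bw _ h4.1, h.bw _ h4.2⟩

theorem Jn.upp (h : Jn γ δ m) : upp m (join γ δ) = δ := by
  refine Prod.ext ?_ ?_
  · ext y
    simp only [OZ.upp, join, Finset.mem_filter, Finset.mem_union]
    constructor
    · rintro ⟨h1 | h1, h2⟩
      · rw [Y_antisymm (h.bw y h1) h2]
        exact h.mr
      · exact h1
    · exact fun h1 => ⟨Or.inr h1, h.fw y h1⟩
  · ext e
    simp only [OZ.upp, join, Finset.mem_filter, Finset.mem_union]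
    constructor
    · rintro ⟨h1 | h1, h2, h3⟩
      · exfalso
        have h4 := mem_edges30.1 (h.cl.1 h1)
        exact tip_ne30 e ((Y_antisymm (h.bw _ h4.2) h3).trans (Y_antisymm (h.bw _ h4.1) h2).symm)
      · exact h1
    · intro h1
      have h4 := mem_edges30.1 (h.cr.1 h1)
      exact ⟨Or.inr h1, h.fw _ h4.1, h.fw _ h4.2⟩

theorem Jn.card (h : Jn γ δ m) : (join γ δ).1.card + 1 = γ.1.card + δ.1.card := by
  have h1 := Finset.card_union_add_card_inter γ.1 δ.1
  rw [h.inter, Finset.card_singleton] at h1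
  exact h1

set_option linter.unusedVariables false in
/-- The weight without the medium is multiplicative. -/
theorem Jn.bg_join (h : Jn γ δ m) {q : ℝ} (hq : 0 < q) (r : Edge → ℝ) :
    bg q r (join γ δ) = bg q r γ * bg q r δ := by
  have h1 : (join γ δ).1.card - 1 = (γ.1.card - 1) + (δ.1.card - 1) := by
    have h2 := h.card
    have h3 : 0 < γ.1.card := Finset.card_pos.2 ⟨m, h.ml⟩
    have h4 : 0 < δ.1.card := Finset.card_pos.2 ⟨m, h.mr⟩
    omega
  unfold bg
  rw [h1, pow_add]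
  have h5 : ∏ e ∈ (join γ δ).2, r e = (∏ e ∈ γ.2, r e) * ∏ e ∈ δ.2, r e := Finset.prod_union h.disj
  rw [h5, mul_div_mul_comm]

end Pool.Helper83.OZ
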