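import Pool.Agent.Helper17.OZ.Defs

/-!
Project OZ (MP_7e0861_pr), parts L3 and L5. Connected graphs, the two factor decomposition at a cone point.
Definitions and the elementary facts on the cone `Y`.
-/

namespace Pool.Helper83.OZ

open Pool.Helper49.FK Pool.Helper17.OZ

/-- A finite graph in `ℤ × ℤ`: vertices and edges. -/
abbrev Gr : Type := Finset (ℤ × ℤ) × Finset Edge

open Classical in
/-- The connected graphs in `D`. -/
noncomputable def GS (D : Finset (ℤ × ℤ)) : Finset Gr :=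
  (D.powerset ×ˢ (edges D).powerset).filter fun γ => IsClu γ.1 γ.2

/-- All vertices are in the backward cone of `m`. -/
def Bw (γ : Gr) (m : ℤ × ℤ) : Prop := ∀ y ∈ γ.1, Y (m - y)

/-- All vertices are in the forward cone of `m`. -/
def Fw (γ : Gr) (m : ℤ × ℤ) : Prop := ∀ y ∈ γ.1, Y (y - m)

open Classical in
/-- The part of `γ` in the backward cone of `m`. -/
noncomputable def low (m : ℤ × ℤ) (γ : Gr) : Gr :=
  (γ.1.filter fun y => Y (m - y), γ.2.filter fun e => Y (m - e.1) ∧ Y (m - tip e))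

open Classical in
/-- The part of `γ` in the forward cone of `m`. -/
noncomputable def upp (m : ℤ × ℤ) (γ : Gr) : Gr :=
  (γ.1.filter fun y => Y (y - m), γ.2.filter fun e => Y (e.1 - m) ∧ Y (tip e - m))

/-- The union of two graphs. -/
noncomputable def join (γ δ : Gr) : Gr := (γ.1 ∪ δ.1, γ.2 ∪ δ.2)

open Classical in
/-- The diamond between `a` and `b`. -/
noncomputable def dia (a b : ℤ × ℤ) : Finset (ℤ × ℤ) :=
  (Finset.Icc a.1 b.1 ×ˢ Finset.Icc (a.2 - 8 * (b.1 - a.1)) (a.2 + 8 * (b.1 - a.1))).filter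
    fun y => Y (y - a) ∧ Y (b - y)

open Classical in
/-- The connected graphs between `a` and `b` in the diamond. -/
noncomputable def Dm (a b : ℤ × ℤ) : Finset Gr := (GS (dia a b)).filter fun γ => a ∈ γ.1 ∧ b ∈ γ.1

open Classical in
/-- The connected graphs in `D` containing `a` and `b` (possible clusters of `a` connected to `b`). -/
noncomputable def Cl (D : Finset (ℤ × ℤ)) (a b : ℤ × ℤ) : Finset Gr := (GS D).filter fun γ => a ∈ γ.1 ∧ b ∈ γ.1

open Classical in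
/-- The left graphs in `D` from `a` to the cone point `m`. -/
noncomputable def Lf (D : Finset (ℤ × ℤ)) (a m : ℤ × ℤ) : Finset Gr := (Cl D a m).filter fun γ => Bw γ m

open Classical in
/-- The right graphs in `D` from the cone point `m` to `b`. -/
noncomputable def Rt (D : Finset (ℤ × ℤ)) (m b : ℤ × ℤ) : Finset Gr := (Cl D m b).filter fun γ => Fw γ m

open Classical in
/-- The cone points of `γ` strictly between the columns of `a` and `b`. -/
noncomputable def cps (γ : Gr) (a b : ℤ × ℤ) : Finset (ℤ × ℤ) :=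
  γ.1.filter fun t => CP γ.1 t ∧ a.1 < t.1 ∧ t.1 < b.1

/-- The weight without the medium. -/
noncomputable def bg (q : ℝ) (r : Edge → ℝ) (γ : Gr) : ℝ := (∏ e ∈ γ.2, r e) / q ^ (γ.1.card - 1)

/-- The weight of the cluster `γ` in `D`: the probability that the cluster of a vertex of `γ` is `γ`. -/
noncomputable def WD (q : ℝ) (r : Edge → ℝ) (D : Finset (ℤ × ℤ)) (γ : Gr) : ℝ := bg q r γ * Psi q r D γ.1

/-- The weight of the cluster `γ` in infinite volume (homogeneous odds ratio). -/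
noncomputable def WI (q r : ℝ) (γ : Gr) : ℝ := bg q (hom r) γ * PsiI q r γ.1

open Classical in
/-- The same, but `1` for a single vertex. -/
noncomputable def W1 (q r : ℝ) (γ : Gr) : ℝ := if γ.2 = ∅ then 1 else WI q r γ

theorem Y_add {x y : ℤ × ℤ} (hx : Y x) (hy : Y y) : Y (x + y) := by
  unfold Y at *
  simp only [Prod.fst_add, Prod.snd_add]
  have := abs_add_le x.2 y.2
  omega

theorem Y_zero : Y (0 : ℤ × ℤ) := by simp [Y]

theorem Y_self (x : ℤ × ℤ) : Y (x - x) := by rw [sub_self]; exact Y_zero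

theorem Y_nonneg {x : ℤ × ℤ} (hx : Y x) : 0 ≤ x.1 := by
  unfold Y at hx
  have := abs_nonneg x.2
  omega

theorem Y_trans {x y z : ℤ × ℤ} (h : Y (y - x)) (h' : Y (z - y)) : Y (z - x) := by
  have := Y_add h' h
  rwa [sub_add_sub_cancel] at this

theorem Y_antisymm {x y : ℤ × ℤ} (h : Y (y - x)) (h' : Y (x - y)) : x = y := by
  unfold Y at *
  simp only [Prod.fst_sub, Prod.snd_sub] at *
  have h1 := abs_nonneg (y.2 - x.2)
  have h2 := abs_nonneg (x.2 - y.2)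
  have h3 : x.1 = y.1 := by omega
  have h4 : |y.2 - x.2| = 0 := by omega
  have h5 : y.2 - x.2 = 0 := abs_eq_zero.1 h4
  exact Prod.ext h3 (by omega)

theorem Y_le {x y : ℤ × ℤ} (h : Y (y - x)) : x.1 ≤ y.1 := by
  have := Y_nonneg h
  simp only [Prod.fst_sub] at this
  omega

theorem Y_lt {x y : ℤ × ℤ} (h : Y (y - x)) (hne : x ≠ y) : x.1 < y.1 := by
  rcases lt_or_eq_of_le (Y_le h) with h1 | h1
  · exact h1
  · exfalso
    apply hne
    unfold Y at h
    simp only [Prod.fst_sub, Prod.snd_sub] at h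
    have h2 := abs_nonneg (y.2 - x.2)
    have h4 : |y.2 - x.2| = 0 := by omega
    have h5 : y.2 - x.2 = 0 := abs_eq_zero.1 h4
    exact Prod.ext h1 (by omega)

open Classical in
theorem mem_dia {a b y : ℤ × ℤ} : y ∈ dia a b ↔ Y (y - a) ∧ Y (b - y) := by
  unfold dia
  rw [Finset.mem_filter]
  constructor
  · exact fun h => h.2
  · intro h
    refine ⟨?_, h⟩
    obtain ⟨h1, h2⟩ := h
    have h3 := Y_nonneg h1
    have h4 := Y_nonneg h2
    unfold Y at h1 h2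
    simp only [Prod.fst_sub, Prod.snd_sub] at *
    rw [abs_le] at h1 h2
    rw [Finset.mem_product, Finset.mem_Icc, Finset.mem_Icc]
    refine ⟨⟨?_, ?_⟩, ?_, ?_⟩ <;> omega

open Classical in
theorem mem_GS {D : Finset (ℤ × ℤ)} {γ : Gr} : γ ∈ GS D ↔ γ.1 ⊆ D ∧ IsClu γ.1 γ.2 := by
  unfold GS
  rw [Finset.mem_filter, Finset.mem_product, Finset.mem_powerset, Finset.mem_powerset]
  constructor
  · exact fun h => ⟨h.1.1, h.2⟩
  · intro h
    refine ⟨⟨h.1, fun e he => ?_⟩, h.2⟩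
    have h1 := h.2.1 he
    unfold edges at *
    rw [Finset.mem_filter, Finset.mem_product] at *
    exact ⟨⟨h.1 h1.1.1, h1.1.2⟩, h.1 h1.2⟩

open Classical in
theorem mem_Dm {a b : ℤ × ℤ} {γ : Gr} :
    γ ∈ Dm a b ↔ IsClu γ.1 γ.2 ∧ Fw γ a ∧ Bw γ b ∧ a ∈ γ.1 ∧ b ∈ γ.1 := by
  unfold Dm
  rw [Finset.mem_filter, mem_GS]
  constructor
  · rintro ⟨⟨h1, h2⟩, h3⟩
    exact ⟨h2, fun y hy => (mem_dia.1 (h1 hy)).1, fun y hy => (mem_dia.1 (h1 hy)).2, h3⟩
  · rintro ⟨h1, h2, h3, h4⟩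
    exact ⟨⟨fun y hy => mem_dia.2 ⟨h2 y hy, h3 y hy⟩, h1⟩, h4⟩

open Classical in
theorem mem_Cl {D : Finset (ℤ × ℤ)} {a b : ℤ × ℤ} {γ : Gr} :
    γ ∈ Cl D a b ↔ γ.1 ⊆ D ∧ IsClu γ.1 γ.2 ∧ a ∈ γ.1 ∧ b ∈ γ.1 := by
  unfold Cl
  rw [Finset.mem_filter, mem_GS, and_assoc]

open Classical in
theorem mem_Lf {D : Finset (ℤ × ℤ)} {a m : ℤ × ℤ} {γ : Gr} :
    γ ∈ Lf D a m ↔ γ.1 ⊆ D ∧ IsClu γ.1 γ.2 ∧ a ∈ γ.1 ∧ m ∈ γ.1 ∧ Bw γ m := by
  unfold Lf
  rw [Finset.mem_filter, mem_Cl]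
  tauto

open Classical in
theorem mem_Rt {D : Finset (ℤ × ℤ)} {m b : ℤ × ℤ} {γ : Gr} :
    γ ∈ Rt D m b ↔ γ.1 ⊆ D ∧ IsClu γ.1 γ.2 ∧ m ∈ γ.1 ∧ b ∈ γ.1 ∧ Fw γ m := by
  unfold Rt
  rw [Finset.mem_filter, mem_Cl]
  tauto

open Classical in
theorem mem_cps {γ : Gr} {a b t : ℤ × ℤ} : t ∈ cps γ a b ↔ CP γ.1 t ∧ a.1 < t.1 ∧ t.1 < b.1 := by
  unfold cps
  rw [Finset.mem_filter]
  constructor
  · exact fun h => h.2
  · exact fun h => ⟨h.1.1, h⟩

end Pool.Helper83.OZ
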