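import Pool.Agent.Helper83.OZ.KeyDef
import Pool.Agent.Helper95.OZ.Seg

/-!
Project OZ (MP_7e0861_pr), part L5, block KEY1: the recursions and elementary facts on `wcp`.

`AA_eq`, `BB_eq`: the technical condition always holds (`c ∈ γ.1` is not in `low m γ` for `m.1 < c.1`, resp. not in
`upp m γ` for `c.1 < m.1`); see `card_low_lt` and `FG_eq` in Helper95/OZ/Def.lean.
`wcp_low`: the cone points of `low c γ` in the columns `≤ c.1` are those of `γ` (`jn_cut`, `Jn.cp_left`, `join_low_upp`).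
`wcp_enum`: order the finite set by columns (all columns are different, `cp_col`).
-/

namespace Pool.Helper83.OZ

open Pool.Helper49.FK
open Pool.Helper17.OZ (Y CP Dbl NoCP nd rect tau)

variable {q ρ ρ' : ℝ} {D : Finset (ℤ × ℤ)} {lo hi : ℤ} {γ : Gr} {c m : ℤ × ℤ}

private theorem low1K {y : ℤ × ℤ} : y ∈ (low c γ).1 ↔ y ∈ γ.1 ∧ Y (c - y) := by
  unfold low
  simp only [Finset.mem_filter]

private theorem low2K {e : Edge} : e ∈ (low c γ).2 ↔ e ∈ γ.2 ∧ Y (c - e.1) ∧ Y (c - tip e) := by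
  unfold low
  simp only [Finset.mem_filter]

private theorem upp1K {y : ℤ × ℤ} : y ∈ (upp c γ).1 ↔ y ∈ γ.1 ∧ Y (y - c) := by
  unfold upp
  simp only [Finset.mem_filter]

private theorem upp2K {e : Edge} : e ∈ (upp c γ).2 ↔ e ∈ γ.2 ∧ Y (e.1 - c) ∧ Y (tip e - c) := by
  unfold upp
  simp only [Finset.mem_filter]

private theorem low_card (hc : c ∈ γ.1) (hm : m.1 < c.1) : (low m γ).1.card < γ.1.card := by
  refine Finset.card_lt_card ⟨fun y hy => (low1K.1 hy).1, fun h => ?_⟩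
  have h1 := Y_le (low1K.1 (h hc)).2
  omega

private theorem upp_card (hc : c ∈ γ.1) (hm : c.1 < m.1) : (upp m γ).1.card < γ.1.card := by
  refine Finset.card_lt_card ⟨fun y hy => (upp1K.1 hy).1, fun h => ?_⟩
  have h1 := Y_le (upp1K.1 (h hc)).2
  omega

theorem AA_eq (hc : c ∈ γ.1) : AA q ρ ρ' D lo c γ = WM q ρ ρ' D lo c γ -
    ∑ m ∈ wcp lo (c.1 - 1) γ, AA q ρ ρ' D lo m (low m γ) * WI q ρ (upp m γ) := by
  rw [AA]
  congr 1
  refine Finset.sum_congr rfl fun m hm => ?_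
  rw [dif_pos (low_card hc (by have := (mem_wcp.1 hm).2.2; omega))]

theorem BB_eq (hc : c ∈ γ.1) : BB q ρ ρ' D hi c γ = XM q ρ ρ' D hi c γ -
    ∑ m ∈ wcp (c.1 + 1) hi γ, WI q ρ (low m γ) * BB q ρ ρ' D hi m (upp m γ) := by
  rw [BB]
  congr 1
  refine Finset.sum_congr rfl fun m hm => ?_
  rw [dif_pos (upp_card hc (by have := (mem_wcp.1 hm).2.1; omega))]

private theorem cp_lowK (hc : CP γ.1 c) {t : ℤ × ℤ} (ht : t.1 ≤ c.1) :
    CP (low c γ).1 t ↔ CP γ.1 t := by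
  constructor
  · rintro ⟨h1, h2⟩
    have h3 := low1K.1 h1
    refine ⟨h3.1, fun y hy => ?_⟩
    rcases hc.2 y hy with h4 | h4
    · exact Or.inl (Y_trans h3.2 h4)
    · exact h2 y (low1K.2 ⟨hy, h4⟩)
  · intro h1
    exact ⟨low1K.2 ⟨h1.1, cp_Y h1 hc ht⟩, fun y hy => h1.2 y (low1K.1 hy).1⟩

private theorem cp_uppK (hc : CP γ.1 c) {t : ℤ × ℤ} (ht : c.1 ≤ t.1) :
    CP (upp c γ).1 t ↔ CP γ.1 t := by
  constructor
  · rintro ⟨h1, h2⟩
    have h3 := upp1K.1 h1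
    refine ⟨h3.1, fun y hy => ?_⟩
    rcases hc.2 y hy with h4 | h4
    · exact h2 y (upp1K.2 ⟨hy, h4⟩)
    · exact Or.inr (Y_trans h4 h3.2)
  · intro h1
    exact ⟨upp1K.2 ⟨h1.1, cp_Y hc h1 ht⟩, fun y hy => h1.2 y (upp1K.1 hy).1⟩

theorem wcp_low (h : IsClu γ.1 γ.2) (hc : CP γ.1 c) (hh : hi ≤ c.1) : wcp lo hi (low c γ) = wcp lo hi γ := by
  ext t
  rw [mem_wcp, mem_wcp]
  constructor
  · rintro ⟨h1, h2, h3⟩
    exact ⟨(cp_lowK hc (h3.trans hh)).1 h1, h2, h3⟩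
  · rintro ⟨h1, h2, h3⟩
    exact ⟨(cp_lowK hc (h3.trans hh)).2 h1, h2, h3⟩

theorem wcp_upp (h : IsClu γ.1 γ.2) (hc : CP γ.1 c) (hh : c.1 ≤ lo) : wcp lo hi (upp c γ) = wcp lo hi γ := by
  ext t
  rw [mem_wcp, mem_wcp]
  constructor
  · rintro ⟨h1, h2, h3⟩
    exact ⟨(cp_uppK hc (hh.trans h2)).1 h1, h2, h3⟩
  · rintro ⟨h1, h2, h3⟩
    exact ⟨(cp_uppK hc (hh.trans h2)).2 h1, h2, h3⟩

theorem low_low (h : IsClu γ.1 γ.2) (hm : CP γ.1 m) (hc : CP γ.1 c) (hmc : m.1 ≤ c.1) :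
    low m (low c γ) = low m γ := by
  have hY := cp_Y hm hc hmc
  refine Prod.ext ?_ ?_
  · ext y
    rw [low1K, low1K, low1K]
    exact ⟨fun h => ⟨h.1.1, h.2⟩, fun h => ⟨⟨h.1, Y_trans h.2 hY⟩, h.2⟩⟩
  · ext e
    rw [low2K, low2K, low2K]
    exact ⟨fun h => ⟨h.1.1, h.2⟩,
      fun h => ⟨⟨h.1, Y_trans h.2.1 hY, Y_trans h.2.2 hY⟩, h.2⟩⟩

theorem upp_upp (h : IsClu γ.1 γ.2) (hm : CP γ.1 m) (hc : CP γ.1 c) (hmc : c.1 ≤ m.1) :
    upp m (upp c γ) = upp m γ := by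
  have hY := cp_Y hc hm hmc
  refine Prod.ext ?_ ?_
  · ext y
    rw [upp1K, upp1K, upp1K]
    exact ⟨fun h => ⟨h.1.1, h.2⟩, fun h => ⟨⟨h.1, Y_trans hY h.2⟩, h.2⟩⟩
  · ext e
    rw [upp2K, upp2K, upp2K]
    exact ⟨fun h => ⟨h.1.1, h.2⟩,
      fun h => ⟨⟨h.1, Y_trans hY h.2.1, Y_trans hY h.2.2⟩, h.2⟩⟩

theorem upp_low (h : IsClu γ.1 γ.2) (hm : CP γ.1 m) (hc : CP γ.1 c) (hmc : m.1 ≤ c.1) :
    upp m (low c γ) = low c (upp m γ) := by
  refine Prod.ext ?_ ?_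
  · ext y
    rw [low1K, upp1K, low1K, upp1K]
    tauto
  · ext e
    rw [low2K, upp2K, low2K, upp2K]
    tauto

private theorem enumK (S : Finset (ℤ × ℤ)) (hinj : ∀ x ∈ S, ∀ y ∈ S, x.1 = y.1 → x = y) :
    ∃ t : ℕ → ℤ × ℤ, (∀ i j, 1 ≤ i → i < j → j ≤ S.card → (t i).1 < (t j).1) ∧
      (∀ x, x ∈ S ↔ ∃ i, (1 ≤ i ∧ i ≤ S.card) ∧ t i = x) := by
  have hC : (S.image Prod.fst).card = S.card :=
    Finset.card_image_of_injOn (fun x hx y hy hxy => hinj x hx y hy hxy)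
  have hex : ∀ i : ℕ, ∃ p : ℤ × ℤ, ∀ hi : 1 ≤ i ∧ i ≤ S.card,
      p ∈ S ∧ p.1 = (S.image Prod.fst).orderEmbOfFin hC ⟨i - 1, by omega⟩ := by
    intro i
    by_cases hi : 1 ≤ i ∧ i ≤ S.card
    · have h1 := Finset.orderEmbOfFin_mem (S.image Prod.fst) hC ⟨i - 1, by omega⟩
      obtain ⟨p, hp, hp2⟩ := Finset.mem_image.1 h1
      exact ⟨p, fun _ => ⟨hp, hp2⟩⟩
    · exact ⟨0, fun h => absurd h hi⟩
  choose t ht using hex
  refine ⟨t, ?_, ?_⟩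
  · intro i j h1 hij hj
    rw [(ht i ⟨h1, by omega⟩).2, (ht j ⟨by omega, hj⟩).2]
    refine ((S.image Prod.fst).orderEmbOfFin hC).strictMono ?_
    rw [Fin.mk_lt_mk]
    omega
  · intro x
    constructor
    · intro hx
      have h1 : x.1 ∈ S.image Prod.fst := Finset.mem_image_of_mem _ hx
      have h2 : x.1 ∈ Set.range ((S.image Prod.fst).orderEmbOfFin hC) := by
        rw [Finset.range_orderEmbOfFin]; exact_mod_cast h1
      obtain ⟨i, hi⟩ := h2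
      have hi2 := i.2
      refine ⟨i.1 + 1, ⟨by omega, by omega⟩, ?_⟩
      have h3 := ht (i.1 + 1) ⟨by omega, by omega⟩
      refine hinj _ h3.1 _ hx ?_
      rw [h3.2, ← hi]
      congr 1
    · rintro ⟨i, hi, rfl⟩
      exact (ht i hi).1

open Classical in
theorem wcp_enum (lo hi : ℤ) (γ : Gr) : ∃ t : ℕ → ℤ × ℤ,
    (∀ i j, 1 ≤ i → i < j → j ≤ (wcp lo hi γ).card → (t i).1 < (t j).1) ∧
      wcp lo hi γ = (Finset.Icc 1 (wcp lo hi γ).card).image t := by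
  obtain ⟨t, h1, h2⟩ := enumK (wcp lo hi γ) (fun x hx y hy hxy =>
    cp_col (mem_wcp.1 hx).1 (mem_wcp.1 hy).1 hxy)
  refine ⟨t, h1, ?_⟩
  ext x
  rw [Finset.mem_image, h2]
  simp only [Finset.mem_Icc]

/-- The first and the last cone point. -/
theorem fcp_enum {t : ℕ → ℤ × ℤ} (h1 : 1 ≤ (wcp lo hi γ).card)
    (ht : ∀ i j, 1 ≤ i → i < j → j ≤ (wcp lo hi γ).card → (t i).1 < (t j).1)
    (hi' : wcp lo hi γ = (Finset.Icc 1 (wcp lo hi γ).card).image t) :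
    fcp lo hi γ = {t 1} ∧ lcp lo hi γ = {t (wcp lo hi γ).card} := by
  set n := (wcp lo hi γ).card with hn
  have hmem : ∀ x, x ∈ wcp lo hi γ ↔ ∃ i, (1 ≤ i ∧ i ≤ n) ∧ t i = x := by
    intro x
    rw [hi', Finset.mem_image]
    simp only [Finset.mem_Icc]
  have hle : ∀ i j, 1 ≤ i → i ≤ j → j ≤ n → (t i).1 ≤ (t j).1 := by
    intro i j hi hij hj
    rcases Nat.lt_or_ge i j with h | h
    · exact (ht i j hi h hj).le
    · have : i = j := by omega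
      rw [this]
  constructor
  · ext x
    unfold fcp
    rw [Finset.mem_filter, Finset.mem_singleton]
    constructor
    · rintro ⟨hx, hx2⟩
      obtain ⟨i, hi2, rfl⟩ := (hmem x).1 hx
      have h3 := hx2 (t 1) ((hmem _).2 ⟨1, ⟨le_rfl, h1⟩, rfl⟩)
      rcases Nat.lt_or_ge 1 i with h4 | h4
      · have := ht 1 i le_rfl h4 hi2.2
        omega
      · have : i = 1 := by omega
        rw [this]
    · rintro rfl
      refine ⟨(hmem _).2 ⟨1, ⟨le_rfl, h1⟩, rfl⟩, fun s hs => ?_⟩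
      obtain ⟨i, hi2, rfl⟩ := (hmem s).1 hs
      exact hle 1 i le_rfl hi2.1 hi2.2
  · ext x
    unfold lcp
    rw [Finset.mem_filter, Finset.mem_singleton]
    constructor
    · rintro ⟨hx, hx2⟩
      obtain ⟨i, hi2, rfl⟩ := (hmem x).1 hx
      have h3 := hx2 (t n) ((hmem _).2 ⟨n, ⟨h1, le_rfl⟩, rfl⟩)
      rcases Nat.lt_or_ge i n with h4 | h4
      · have := ht i n hi2.1 h4 le_rfl
        omega
      · have : i = n := by omega
        rw [this]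
    · rintro rfl
      refine ⟨(hmem _).2 ⟨n, ⟨h1, le_rfl⟩, rfl⟩, fun s hs => ?_⟩
      obtain ⟨i, hi2, rfl⟩ := (hmem s).1 hs
      exact hle i n hi2.1 hi2.2 le_rfl

end Pool.Helper83.OZ
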