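import Pool.Agent.Helper83.OZ.KeyDef
import Pool.Agent.Helper83.OZ.Dec
import Pool.Agent.Helper95.OZ.Mem

/-!
Project OZ (MP_7e0861_pr), part L5, block KEY2: the mixed array.

`γ` is a connected graph with cone points `t 1, ..., t J` (increasing columns), `J ≥ 1`. Indices `0` (start), `1..J`,
`J + 1` (end). Write `V i j` for the vertex set of `seg (t i) (t j) γ`, `V 0 j` for that of `low (t j) γ`, `V i (J+1)` for that of
`upp (t i) γ`, `V 0 (J+1) = γ.1`; `V i j = V i m ∪ V m j` for `i ≤ m ≤ j` (`join_low_upp`, `seg_jn`), and `bg` is multiplicative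
(`Jn.bg_join`), both for `hom ρ` and for `dfc ρ ρ'`. The ratio `R i j = Wx i (j+1) / Wx i j` (`i ≤ j ≤ J`) is, with `P` the
factor `bg` of `V j (j+1)`:
* `1 ≤ j < J`: `R i j = P * PsiI (V i j ∪ V j (j+1)) / PsiI (V i j)` for `i < j` (also for `i = 0`), `R j j = P * PsiI (V j (j+1))`;
* `j = J`: the same with `Psi q (dfc ρ ρ') D` instead of `PsiI`;
* `j = 0`: only `i = 0`.
Monotonicity in `i`: `PsiI_super'`, `PsiI_super`, resp. `Psi_super'` (Dec.lean), `Psi_super`. Memory, as in `Wa_mem`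
(Helper95/OZ/Mem.lean): factor `κ` by `kappaI`, resp. `kappa_mul` (Helper95/OZ/Kap.lean); factor `1 - C e^{-c (j - m)}` by
`PsiI_decouple` and `cone_sum`, resp. `Psi_far` (Dec.lean); the set `V i m` is in the backward cone of `t m`, `V j (j+1)` in
the forward cone of `t j`, and `(t j).1 - (t m).1 ≥ j - m`.
-/

namespace Pool.Helper83.OZ

open Pool.Helper49.FK
open Pool.Helper17.OZ (Y CP Dbl NoCP nd rect tau)
open Pool.Helper95.OZ (seg)

/-- The mixed array. -/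
noncomputable def Wx (q ρ ρ' : ℝ) (D : Finset (ℤ × ℤ)) (γ : Gr) (t : ℕ → ℤ × ℤ) (J i j : ℕ) : ℝ :=
  if j ≤ i then 1
  else if i = 0 then
    if j ≤ J then WD q (dfc ρ ρ') D (low (t 1) γ) * WI q ρ (low (t j) γ) / WI q ρ (low (t 1) γ)
    else WD q (dfc ρ ρ') D (low (t 1) γ) * WI q ρ (low (t J) γ) / WI q ρ (low (t 1) γ) *
      WD q (dfc ρ ρ') D γ / WD q (dfc ρ ρ') D (low (t J) γ)
  else
    if j ≤ J then WI q ρ (seg (t i) (t j) γ)
    else W1 q ρ (seg (t i) (t J) γ) * WD q (dfc ρ ρ') D (upp (t i) γ) / WDs q (dfc ρ ρ') D (seg (t i) (t J) γ)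

variable {q ρ ρ' : ℝ}

private theorem vlow_kx {t : ℤ × ℤ} {γ : Gr} {y : ℤ × ℤ} : y ∈ (low t γ).1 ↔ y ∈ γ.1 ∧ Y (t - y) := by
  unfold low
  simp only [Finset.mem_filter]

private theorem elow_kx {t : ℤ × ℤ} {γ : Gr} {e : Edge} :
    e ∈ (low t γ).2 ↔ e ∈ γ.2 ∧ Y (t - e.1) ∧ Y (t - tip e) := by
  unfold low
  simp only [Finset.mem_filter]

private theorem vupp_kx {t : ℤ × ℤ} {γ : Gr} {y : ℤ × ℤ} : y ∈ (upp t γ).1 ↔ y ∈ γ.1 ∧ Y (y - t) := by
  unfold upp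
  simp only [Finset.mem_filter]

private theorem eupp_kx {t : ℤ × ℤ} {γ : Gr} {e : Edge} :
    e ∈ (upp t γ).2 ↔ e ∈ γ.2 ∧ Y (e.1 - t) ∧ Y (tip e - t) := by
  unfold upp
  simp only [Finset.mem_filter]

/-- the lower part of the lower part -/
private theorem low_low_kx {s t : ℤ × ℤ} {γ : Gr} (h : Y (t - s)) : low s (low t γ) = low s γ := by
  refine Prod.ext ?_ ?_
  · ext y
    rw [vlow_kx, vlow_kx, vlow_kx]
    constructor
    · rintro ⟨⟨h1, _⟩, h2⟩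
      exact ⟨h1, h2⟩
    · rintro ⟨h1, h2⟩
      exact ⟨⟨h1, Y_trans h2 h⟩, h2⟩
  · ext e
    rw [elow_kx, elow_kx, elow_kx]
    constructor
    · rintro ⟨⟨h1, _⟩, h2⟩
      exact ⟨h1, h2⟩
    · rintro ⟨h1, h2, h3⟩
      exact ⟨⟨h1, Y_trans h2 h, Y_trans h3 h⟩, h2, h3⟩

private theorem upp_low_kx {s t : ℤ × ℤ} {γ : Gr} : upp s (low t γ) = seg s t γ := by
  unfold seg
  refine Prod.ext ?_ ?_
  · ext y
    rw [vupp_kx, vlow_kx, vlow_kx, vupp_kx]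
    tauto
  · ext e
    rw [eupp_kx, elow_kx, elow_kx, eupp_kx]
    tauto

private theorem upp_upp_kx {s t : ℤ × ℤ} {γ : Gr} (h : Y (t - s)) : upp t (upp s γ) = upp t γ := by
  refine Prod.ext ?_ ?_
  · ext y
    rw [vupp_kx, vupp_kx, vupp_kx]
    constructor
    · rintro ⟨⟨h1, _⟩, h2⟩
      exact ⟨h1, h2⟩
    · rintro ⟨h1, h2⟩
      exact ⟨⟨h1, Y_trans h h2⟩, h2⟩
  · ext e
    rw [eupp_kx, eupp_kx, eupp_kx]
    constructor
    · rintro ⟨⟨h1, _⟩, h2⟩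
      exact ⟨h1, h2⟩
    · rintro ⟨h1, h2, h3⟩
      exact ⟨⟨h1, Y_trans h h2, Y_trans h h3⟩, h2, h3⟩

private theorem cp_low_kx {s t : ℤ × ℤ} {γ : Gr} (hs : CP γ.1 s) (h : Y (t - s)) : CP (low t γ).1 s :=
  ⟨vlow_kx.2 ⟨hs.1, h⟩, fun y hy => hs.2 y (vlow_kx.1 hy).1⟩

private theorem cp_upp_kx {s t : ℤ × ℤ} {γ : Gr} (ht : CP γ.1 t) (h : Y (t - s)) : CP (upp s γ).1 t :=
  ⟨vupp_kx.2 ⟨ht.1, h⟩, fun y hy => ht.2 y (vupp_kx.1 hy).1⟩

/-- cutting the lower part of `t` at `s` -/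
private theorem cut_low_kx {s t : ℤ × ℤ} {γ : Gr} (h : IsClu γ.1 γ.2) (hs : CP γ.1 s) (ht : CP γ.1 t)
    (hst : s.1 ≤ t.1) : Jn (low s γ) (seg s t γ) s ∧ join (low s γ) (seg s t γ) = low t γ := by
  have hY := cp_Y hs ht hst
  have h1 := (low_spec h ht).1
  have h2 := jn_cut h1 (cp_low_kx hs hY)
  have h3 := join_low_upp h1 (cp_low_kx hs hY)
  rw [low_low_kx hY, upp_low_kx] at h2 h3
  exact ⟨h2, h3⟩

/-- cutting the upper part of `s` at `t` -/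
private theorem cut_upp_kx {s t : ℤ × ℤ} {γ : Gr} (h : IsClu γ.1 γ.2) (hs : CP γ.1 s) (ht : CP γ.1 t)
    (hst : s.1 ≤ t.1) : Jn (seg s t γ) (upp t γ) t ∧ join (seg s t γ) (upp t γ) = upp s γ := by
  have hY := cp_Y hs ht hst
  have h1 := (upp_spec h hs).1
  have h2 := jn_cut h1 (cp_upp_kx ht hY)
  have h3 := join_low_upp h1 (cp_upp_kx ht hY)
  rw [upp_upp_kx hY] at h2 h3
  exact ⟨h2, h3⟩

private theorem dfc_pos_kx (hρ' : 0 < ρ') (h : ρ' ≤ ρ) (e : Edge) : 0 < dfc ρ ρ' e := by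
  unfold dfc
  split_ifs
  · exact hρ'
  · linarith

private theorem dfc_le_kx (h : ρ' ≤ ρ) (e : Edge) : dfc ρ ρ' e ≤ ρ := by
  unfold dfc
  split_ifs
  · exact h
  · exact le_rfl

private theorem quot_kx {Φ : Finset (ℤ × ℤ) → ℝ} {A B Γ : Gr} {m : ℤ × ℤ} (h : Jn A B m) (hj : join A B = Γ)
    (hq : 0 < q) {r : Edge → ℝ} (hr : ∀ e, 0 < r e) (hΦ : 0 < Φ A.1) :
    bg q r Γ * Φ Γ.1 / (bg q r A * Φ A.1) = bg q r B * (Φ (A.1 ∪ B.1) / Φ A.1) := by
  have h1 : 0 < bg q r A := bg_pos hq hr A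
  rw [← hj, h.bg_join hq r]
  have h2 : (join A B).1 = A.1 ∪ B.1 := rfl
  rw [h2]
  field_simp

/-- `K i j`: the vertices of the part from `t i` to `t j` (from the start if `i = 0`) -/
private noncomputable def Kx (γ : Gr) (t : ℕ → ℤ × ℤ) (i j : ℕ) : Finset (ℤ × ℤ) :=
  if i = j then ∅ else if i = 0 then (low (t j) γ).1 else (seg (t i) (t j) γ).1

/-- the next part -/
private noncomputable def Vx (γ : Gr) (t : ℕ → ℤ × ℤ) (J j : ℕ) : Finset (ℤ × ℤ) :=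
  if j < J then (seg (t j) (t (j + 1)) γ).1 else (upp (t J) γ).1

private noncomputable def Px (q ρ ρ' : ℝ) (γ : Gr) (t : ℕ → ℤ × ℤ) (J j : ℕ) : ℝ :=
  if j < J then bg q (hom ρ) (seg (t j) (t (j + 1)) γ) else bg q (dfc ρ ρ') (upp (t J) γ)

private noncomputable def Fx (q ρ ρ' : ℝ) (D : Finset (ℤ × ℤ)) (J j : ℕ) (V : Finset (ℤ × ℤ)) : ℝ :=
  if j < J then PsiI q ρ V else Psi q (dfc ρ ρ') D V

private theorem Fx_pos (hq : 1 ≤ q) (hρ' : 0 < ρ') (h : ρ' ≤ ρ) (D : Finset (ℤ × ℤ)) (J j : ℕ)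
    (V : Finset (ℤ × ℤ)) : 0 < Fx q ρ ρ' D J j V := by
  unfold Fx
  split_ifs
  · exact PsiI_pos hq (by linarith) _
  · exact Psi_pos (by linarith) fun e => (dfc_pos_kx hρ' h e).le

private theorem Fx_empty (hq : 1 ≤ q) (hρ' : 0 < ρ') (h : ρ' ≤ ρ) (D : Finset (ℤ × ℤ)) (J j : ℕ) :
    Fx q ρ ρ' D J j ∅ = 1 := by
  unfold Fx
  split_ifs
  · exact PsiI_empty hq (by linarith)
  · unfold Psi
    rw [Finset.empty_inter, Finset.card_empty, pow_zero, one_mul, Finset.sdiff_empty]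
    exact div_self (Z_pos (by linarith) fun e => (dfc_pos_kx hρ' h e).le).ne'

private theorem Fx_super (hq : 1 ≤ q) (hρ' : 0 < ρ') (h : ρ' ≤ ρ) (D : Finset (ℤ × ℤ)) (J j : ℕ)
    (K S V : Finset (ℤ × ℤ)) : Fx q ρ ρ' D J j (K ∪ S) * Fx q ρ ρ' D J j (K ∪ V) ≤
      Fx q ρ ρ' D J j (K ∪ S ∪ V) * Fx q ρ ρ' D J j K := by
  unfold Fx
  split_ifs
  · exact PsiI_super' hq (by linarith) K S V
  · exact Psi_super' hq (fun e => (dfc_pos_kx hρ' h e).le) K S V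

private theorem Px_pos (hq : 1 ≤ q) (hρ' : 0 < ρ') (h : ρ' ≤ ρ) (γ : Gr) (t : ℕ → ℤ × ℤ) (J j : ℕ) :
    0 < Px q ρ ρ' γ t J j := by
  unfold Px
  split_ifs
  · exact bg_pos (by linarith) (fun _ => by unfold hom; linarith) _
  · exact bg_pos (by linarith) (dfc_pos_kx hρ' h) _

private theorem W1_seg_kx {γ : Gr} (h : IsClu γ.1 γ.2) {s t : ℤ × ℤ} (hs : CP γ.1 s) (ht : CP γ.1 t)
    (hst : s.1 < t.1) : (seg s t γ).2 ≠ ∅ :=
  Helper95.OZ.Dm_edges_ne (Helper95.OZ.seg_mem h hs ht hst.le) (fun h4 => by rw [h4] at hst; exact lt_irrefl _ hst)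

private theorem ratio_kx (hq : 1 ≤ q) (hρ' : 0 < ρ') (h : ρ' ≤ ρ) {D : Finset (ℤ × ℤ)} {γ : Gr}
    (hγ : IsClu γ.1 γ.2) {t : ℕ → ℤ × ℤ} {J : ℕ} (hcp : ∀ i, 1 ≤ i → i ≤ J → CP γ.1 (t i))
    (ht : ∀ i j, 1 ≤ i → i < j → j ≤ J → (t i).1 < (t j).1) {i j : ℕ} (hj1 : 1 ≤ j) (hij : i ≤ j) (hj : j ≤ J) :
    Wx q ρ ρ' D γ t J i (j + 1) / Wx q ρ ρ' D γ t J i j =
      Px q ρ ρ' γ t J j * (Fx q ρ ρ' D J j (Kx γ t i j ∪ Vx γ t J j) / Fx q ρ ρ' D J j (Kx γ t i j)) := by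
  have hq0 : 0 < q := by linarith
  have hρ : 0 < ρ := by linarith
  have hdp := dfc_pos_kx hρ' h
  have hhp : ∀ e, 0 < hom ρ e := fun _ => by unfold hom; exact hρ
  have hWD : ∀ δ : Gr, 0 < WD q (dfc ρ ρ') D δ := fun δ => WD_pos hq0 hdp δ
  have hWI : ∀ δ : Gr, 0 < WI q ρ δ := fun δ => Helper95.OZ.WI_pos hq hρ δ
  rcases Nat.lt_or_ge j J with hjJ | hjJ
  · have hF : ∀ V, Fx q ρ ρ' D J j V = PsiI q ρ V := fun V => if_pos hjJ
    have hV : Vx γ t J j = (seg (t j) (t (j + 1)) γ).1 := if_pos hjJ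
    have hP : Px q ρ ρ' γ t J j = bg q (hom ρ) (seg (t j) (t (j + 1)) γ) := if_pos hjJ
    rw [hF, hF, hV, hP]
    have hcj := hcp j hj1 hj
    have hcj1 := hcp (j + 1) (by omega) (by omega)
    have htj := ht j (j + 1) hj1 (by omega) (by omega)
    rcases Nat.eq_or_lt_of_le hij with hij' | hij'
    · subst hij'
      have h1 : Wx q ρ ρ' D γ t J i (i + 1) = WI q ρ (seg (t i) (t (i + 1)) γ) := by
        unfold Wx
        rw [if_neg (by omega), if_neg (by omega), if_pos (by omega)]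
      have h2 : Wx q ρ ρ' D γ t J i i = 1 := if_pos le_rfl
      have h3 : Kx γ t i i = ∅ := if_pos rfl
      rw [h1, h2, h3, Finset.empty_union, PsiI_empty hq hρ.le, div_one, div_one]
      rfl
    rcases Nat.eq_zero_or_pos i with hi | hi
    · subst hi
      have h1 : Wx q ρ ρ' D γ t J 0 (j + 1) =
          WD q (dfc ρ ρ') D (low (t 1) γ) * WI q ρ (low (t (j + 1)) γ) / WI q ρ (low (t 1) γ) := by
        unfold Wx
        rw [if_neg (by omega), if_pos rfl, if_pos (by omega)]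
      have h2 : Wx q ρ ρ' D γ t J 0 j =
          WD q (dfc ρ ρ') D (low (t 1) γ) * WI q ρ (low (t j) γ) / WI q ρ (low (t 1) γ) := by
        unfold Wx
        rw [if_neg (by omega), if_pos rfl, if_pos (by omega)]
      have h3 : Kx γ t 0 j = (low (t j) γ).1 := by
        unfold Kx
        rw [if_neg (by omega), if_pos rfl]
      obtain ⟨h4, h5⟩ := cut_low_kx hγ hcj hcj1 htj.le
      have h6 := quot_kx (Φ := PsiI q ρ) h4 h5 hq0 hhp (PsiI_pos hq hρ.le _)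
      rw [h1, h2, h3, ← h6]
      have a1 := hWD (low (t 1) γ)
      have a2 := hWI (low (t 1) γ)
      have a3 := hWI (low (t j) γ)
      have h7 : bg q (hom ρ) (low (t (j + 1)) γ) * PsiI q ρ (low (t (j + 1)) γ).1 = WI q ρ (low (t (j + 1)) γ) := rfl
      have h8 : bg q (hom ρ) (low (t j) γ) * PsiI q ρ (low (t j) γ).1 = WI q ρ (low (t j) γ) := rfl
      rw [h7, h8]
      field_simp
    · have hci := hcp i hi (by omega)
      have hti := ht i j hi hij' hj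
      have h1 : Wx q ρ ρ' D γ t J i (j + 1) = WI q ρ (seg (t i) (t (j + 1)) γ) := by
        unfold Wx
        rw [if_neg (by omega), if_neg (by omega), if_pos (by omega)]
      have h2 : Wx q ρ ρ' D γ t J i j = WI q ρ (seg (t i) (t j) γ) := by
        unfold Wx
        rw [if_neg (by omega), if_neg (by omega), if_pos (by omega)]
      have h3 : Kx γ t i j = (seg (t i) (t j) γ).1 := by
        unfold Kx
        rw [if_neg (by omega), if_neg (by omega)]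
      obtain ⟨h4, h5⟩ := Helper95.OZ.seg_jn hγ hci hcj hcj1 hti.le htj.le
      have h6 := quot_kx (Φ := PsiI q ρ) h4 h5 hq0 hhp (PsiI_pos hq hρ.le _)
      rw [h1, h2, h3, ← h6]
      rfl
  · have hjJ' : j = J := le_antisymm hj hjJ
    subst hjJ'
    have hF : ∀ V, Fx q ρ ρ' D j j V = Psi q (dfc ρ ρ') D V := fun V => if_neg (lt_irrefl _)
    have hV : Vx γ t j j = (upp (t j) γ).1 := if_neg (lt_irrefl _)
    have hP : Px q ρ ρ' γ t j j = bg q (dfc ρ ρ') (upp (t j) γ) := if_neg (lt_irrefl _)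
    have hΦ : ∀ V, 0 < Psi q (dfc ρ ρ') D V := fun V => Psi_pos hq0 fun e => (hdp e).le
    have hΦ0 : Psi q (dfc ρ ρ') D ∅ = 1 := by
      have := Fx_empty hq hρ' h D j j
      rwa [hF] at this
    rw [hF, hF, hV, hP]
    have hcj := hcp j hj1 le_rfl
    rcases Nat.eq_or_lt_of_le hij with hij' | hij'
    · subst hij'
      have h0 := Helper95.OZ.seg_self hγ hcj
      have h1 : Wx q ρ ρ' D γ t i i (i + 1) = WD q (dfc ρ ρ') D (upp (t i) γ) := by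
        unfold Wx
        rw [if_neg (by omega), if_neg (by omega), if_neg (by omega)]
        unfold W1 WDs
        rw [h0, if_pos rfl, if_pos rfl, one_mul, div_one]
      have h2 : Wx q ρ ρ' D γ t i i i = 1 := if_pos le_rfl
      have h3 : Kx γ t i i = ∅ := if_pos rfl
      rw [h1, h2, h3, Finset.empty_union, hΦ0, div_one, div_one]
      rfl
    rcases Nat.eq_zero_or_pos i with hi | hi
    · subst hi
      have h1 : Wx q ρ ρ' D γ t j 0 (j + 1) =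
          WD q (dfc ρ ρ') D (low (t 1) γ) * WI q ρ (low (t j) γ) / WI q ρ (low (t 1) γ) *
            WD q (dfc ρ ρ') D γ / WD q (dfc ρ ρ') D (low (t j) γ) := by
        unfold Wx
        rw [if_neg (by omega), if_pos rfl, if_neg (by omega)]
      have h2 : Wx q ρ ρ' D γ t j 0 j =
          WD q (dfc ρ ρ') D (low (t 1) γ) * WI q ρ (low (t j) γ) / WI q ρ (low (t 1) γ) := by
        unfold Wx
        rw [if_neg (by omega), if_pos rfl, if_pos (by omega)]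
      have h3 : Kx γ t 0 j = (low (t j) γ).1 := by
        unfold Kx
        rw [if_neg (by omega), if_pos rfl]
      have h4 := jn_cut hγ hcj
      have h5 := join_low_upp hγ hcj
      have h6 := quot_kx (Φ := Psi q (dfc ρ ρ') D) h4 h5 hq0 hdp (hΦ _)
      rw [h1, h2, h3, ← h6]
      have a1 := hWD (low (t 1) γ)
      have a2 := hWI (low (t 1) γ)
      have a3 := hWI (low (t j) γ)
      have a4 := hWD (low (t j) γ)
      have h7 : bg q (dfc ρ ρ') γ * Psi q (dfc ρ ρ') D γ.1 = WD q (dfc ρ ρ') D γ := rfl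
      have h8 : bg q (dfc ρ ρ') (low (t j) γ) * Psi q (dfc ρ ρ') D (low (t j) γ).1 =
        WD q (dfc ρ ρ') D (low (t j) γ) := rfl
      rw [h7, h8]
      field_simp
    · have hci := hcp i hi (by omega)
      have hti := ht i j hi hij' hj
      have hne := W1_seg_kx hγ hci hcj hti
      have h1 : Wx q ρ ρ' D γ t j i (j + 1) = WI q ρ (seg (t i) (t j) γ) *
          WD q (dfc ρ ρ') D (upp (t i) γ) / WD q (dfc ρ ρ') D (seg (t i) (t j) γ) := by
        unfold Wx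
        rw [if_neg (by omega), if_neg (by omega), if_neg (by omega)]
        unfold W1 WDs
        rw [if_neg hne, if_neg hne]
      have h2 : Wx q ρ ρ' D γ t j i j = WI q ρ (seg (t i) (t j) γ) := by
        unfold Wx
        rw [if_neg (by omega), if_neg (by omega), if_pos (by omega)]
      have h3 : Kx γ t i j = (seg (t i) (t j) γ).1 := by
        unfold Kx
        rw [if_neg (by omega), if_neg (by omega)]
      obtain ⟨h4, h5⟩ := cut_upp_kx hγ hci hcj hti.le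
      have h6 := quot_kx (Φ := Psi q (dfc ρ ρ') D) h4 h5 hq0 hdp (hΦ _)
      rw [h1, h2, h3, ← h6]
      have a3 := hWI (seg (t i) (t j) γ)
      have a4 := hWD (seg (t i) (t j) γ)
      have h7 : bg q (dfc ρ ρ') (upp (t i) γ) * Psi q (dfc ρ ρ') D (upp (t i) γ).1 =
        WD q (dfc ρ ρ') D (upp (t i) γ) := rfl
      have h8 : bg q (dfc ρ ρ') (seg (t i) (t j) γ) * Psi q (dfc ρ ρ') D (seg (t i) (t j) γ).1 =
        WD q (dfc ρ ρ') D (seg (t i) (t j) γ) := rfl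
      rw [h7, h8]
      field_simp

private theorem Kx_split {γ : Gr} (hγ : IsClu γ.1 γ.2) {t : ℕ → ℤ × ℤ} {J : ℕ}
    (hcp : ∀ i, 1 ≤ i → i ≤ J → CP γ.1 (t i)) (ht : ∀ i j, 1 ≤ i → i < j → j ≤ J → (t i).1 < (t j).1)
    {i m j : ℕ} (him : i < m) (hmj : m ≤ j) (hj : j ≤ J) : Kx γ t i j = Kx γ t m j ∪ Kx γ t i m := by
  rcases Nat.eq_or_lt_of_le hmj with hmj' | hmj'
  · subst hmj'
    have h1 : Kx γ t m m = ∅ := if_pos rfl
    rw [h1, Finset.empty_union]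
  · have hcm := hcp m (by omega) (by omega)
    have hcj := hcp j (by omega) hj
    have htm := ht m j (by omega) hmj' hj
    have h1 : Kx γ t m j = (seg (t m) (t j) γ).1 := by
      unfold Kx
      rw [if_neg (by omega), if_neg (by omega)]
    rcases Nat.eq_zero_or_pos i with hi | hi
    · subst hi
      have h2 : Kx γ t 0 j = (low (t j) γ).1 := by
        unfold Kx
        rw [if_neg (by omega), if_pos rfl]
      have h3 : Kx γ t 0 m = (low (t m) γ).1 := by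
        unfold Kx
        rw [if_neg (by omega), if_pos rfl]
      obtain ⟨_, h5⟩ := cut_low_kx hγ hcm hcj htm.le
      rw [h1, h2, h3, ← h5, Finset.union_comm]
      rfl
    · have hci := hcp i hi (by omega)
      have hti := ht i m hi him (by omega)
      have h2 : Kx γ t i j = (seg (t i) (t j) γ).1 := by
        unfold Kx
        rw [if_neg (by omega), if_neg (by omega)]
      have h3 : Kx γ t i m = (seg (t i) (t m) γ).1 := by
        unfold Kx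
        rw [if_neg (by omega), if_neg (by omega)]
      obtain ⟨_, h5⟩ := Helper95.OZ.seg_jn hγ hci hcm hcj hti.le htm.le
      rw [h1, h2, h3, ← h5, Finset.union_comm]
      rfl

private theorem Kx_back {γ : Gr} {t : ℕ → ℤ × ℤ} {i m : ℕ} (him : i < m) {s : ℤ × ℤ} (hs : s ∈ Kx γ t i m) :
    Y (t m - s) := by
  unfold Kx at hs
  rw [if_neg (by omega)] at hs
  split_ifs at hs
  · exact (vlow_kx.1 hs).2
  · exact (Helper95.OZ.seg_vert.1 hs).2.2

private theorem Vx_forw {γ : Gr} {t : ℕ → ℤ × ℤ} {J j : ℕ} (hj : j ≤ J) {v : ℤ × ℤ} (hv : v ∈ Vx γ t J j) :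
    Y (v - t j) := by
  unfold Vx at hv
  split_ifs at hv with h
  · exact (Helper95.OZ.seg_vert.1 hv).2.1
  · have h1 : j = J := by omega
    subst h1
    exact (vupp_kx.1 hv).2

private theorem col_kx {J : ℕ} {t : ℕ → ℤ × ℤ} (ht : ∀ i j, 1 ≤ i → i < j → j ≤ J → (t i).1 < (t j).1) {m : ℕ}
    (hm : 1 ≤ m) : ∀ d : ℕ, m + d ≤ J → (t m).1 + d ≤ (t (m + d)).1 := by
  intro d
  induction d with
  | zero => intro _; simp
  | succ d ih =>
    intro hd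
    have h1 := ih (by omega)
    have h2 := ht (m + d) (m + (d + 1)) (by omega) (by omega) hd
    push_cast
    omega

/-- decoupling, in the same form for both media -/
private theorem Fx_far (hq : 1 ≤ q) (hρ' : 0 < ρ') (h : ρ' ≤ ρ) (hE : ExpDecay q ρ) :
    ∃ κ C c : ℝ, 0 < κ ∧ κ ≤ 1 ∧ 0 ≤ C ∧ 0 < c ∧ ∀ (D : Finset (ℤ × ℤ)) (J j : ℕ) (K S V : Finset (ℤ × ℤ))
      (m m' : ℤ × ℤ) (d : ℕ), Y (m' - m) → m.1 + d ≤ m'.1 → (∀ s ∈ S, Y (m - s)) → (∀ v ∈ V, Y (v - m')) →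
      Fx q ρ ρ' D J j (K ∪ S ∪ V) * Fx q ρ ρ' D J j K * (1 - min (1 - κ) (C * Real.exp (-c * d))) ≤
        Fx q ρ ρ' D J j (K ∪ S) * Fx q ρ ρ' D J j (K ∪ V) := by
  have hρ : 0 < ρ := by linarith
  obtain ⟨κ₁, hκ₁, hκ₁1, hk1⟩ := Helper95.OZ.kappaI hq hρ hE
  obtain ⟨κ₂, hκ₂, hκ₂1, hk2⟩ := Helper95.OZ.kappa_mul hq hρ hE
  obtain ⟨C₁, c₁, hC₁, hc₁, hs1⟩ := Helper95.OZ.cone_sum hq hρ hE
  obtain ⟨c₂, C₂, hc₂, hC₂, hs2⟩ := Psi_far hq hρ hE
  refine ⟨min κ₁ κ₂, max C₁ C₂, min c₁ c₂, lt_min hκ₁ hκ₂, (min_le_left _ _).trans hκ₁1,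
    le_max_of_le_right hC₂.le, lt_min hc₁ hc₂, ?_⟩
  intro D J j K S V m m' d hY hd hS hV
  have hd0 : (0 : ℝ) ≤ d := Nat.cast_nonneg d
  have hS' : ∀ s ∈ S, Y (m' - s) := fun s hs => Y_trans (hS s hs) hY
  have p1 := Fx_pos hq hρ' h D J j (K ∪ S ∪ V)
  have p2 := Fx_pos hq hρ' h D J j K
  have key : min κ₁ κ₂ * (Fx q ρ ρ' D J j (K ∪ S ∪ V) * Fx q ρ ρ' D J j K) ≤
      Fx q ρ ρ' D J j (K ∪ S) * Fx q ρ ρ' D J j (K ∪ V) := by
    have hm : 0 ≤ Fx q ρ ρ' D J j (K ∪ S ∪ V) * Fx q ρ ρ' D J j K := (mul_pos p1 p2).le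
    unfold Fx at hm ⊢
    split_ifs at hm ⊢
    · exact (mul_le_mul_of_nonneg_right (min_le_left _ _) hm).trans (hk1 K S V m' hS' hV)
    · exact (mul_le_mul_of_nonneg_right (min_le_right _ _) hm).trans
        (hk2 (dfc ρ ρ') (fun e => (dfc_pos_kx hρ' h e).le) (dfc_le_kx h) D K S V m' hS' hV)
  have key2 : Fx q ρ ρ' D J j (K ∪ S ∪ V) * Fx q ρ ρ' D J j K *
      (1 - max C₁ C₂ * Real.exp (-(min c₁ c₂) * d)) ≤ Fx q ρ ρ' D J j (K ∪ S) * Fx q ρ ρ' D J j (K ∪ V) := by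
    have hm : 0 ≤ Fx q ρ ρ' D J j (K ∪ S ∪ V) * Fx q ρ ρ' D J j K := (mul_pos p1 p2).le
    have e1 : C₁ * Real.exp (-c₁ * d) ≤ max C₁ C₂ * Real.exp (-(min c₁ c₂) * d) := by
      refine mul_le_mul (le_max_left _ _) (Real.exp_le_exp.2 ?_) (Real.exp_pos _).le
        (le_max_of_le_right hC₂.le)
      have := mul_le_mul_of_nonneg_right (min_le_left c₁ c₂) hd0
      linarith
    have e2 : C₂ * Real.exp (-c₂ * ((m'.1 : ℝ) - m.1)) ≤ max C₁ C₂ * Real.exp (-(min c₁ c₂) * d) := by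
      refine mul_le_mul (le_max_right _ _) (Real.exp_le_exp.2 ?_) (Real.exp_pos _).le
        (le_max_of_le_right hC₂.le)
      have h1 : (d : ℝ) ≤ (m'.1 : ℝ) - m.1 := by
        have : ((m.1 + d : ℤ) : ℝ) ≤ ((m'.1 : ℤ) : ℝ) := by exact_mod_cast hd
        push_cast at this
        linarith
      have h2 := mul_le_mul (min_le_right c₁ c₂) h1 hd0 hc₂.le
      linarith
    unfold Fx at hm ⊢
    split_ifs at hm ⊢
    · refine le_trans (mul_le_mul_of_nonneg_left ?_ hm) (PsiI_decouple hq hρ.le K S V)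
      have h3 := hs1 S V m' d (fun s hs => ⟨hS' s hs, by have := Y_le (hS s hs); omega⟩) hV
      linarith
    · refine le_trans (mul_le_mul_of_nonneg_left ?_ hm)
        (hs2 D (dfc ρ ρ') (fun e => ⟨(dfc_pos_kx hρ' h e).le, dfc_le_kx h e⟩) K S V m m' (by omega) hS hV)
      linarith
  rcases min_choice (1 - min κ₁ κ₂) (max C₁ C₂ * Real.exp (-(min c₁ c₂) * (d : ℝ))) with h5 | h5
  · rw [h5]
    calc Fx q ρ ρ' D J j (K ∪ S ∪ V) * Fx q ρ ρ' D J j K * (1 - (1 - min κ₁ κ₂))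
        = min κ₁ κ₂ * (Fx q ρ ρ' D J j (K ∪ S ∪ V) * Fx q ρ ρ' D J j K) := by ring
      _ ≤ _ := key
  · rw [h5]
    exact key2

theorem Wx_pos (hq : 1 ≤ q) (hρ' : 0 < ρ') (h : ρ' ≤ ρ) (D : Finset (ℤ × ℤ)) (γ : Gr) (t : ℕ → ℤ × ℤ)
    (J i j : ℕ) : 0 < Wx q ρ ρ' D γ t J i j := by
  have hq0 : 0 < q := by linarith
  have hρ : 0 < ρ := by linarith
  have hWD : ∀ δ : Gr, 0 < WD q (dfc ρ ρ') D δ := fun δ => WD_pos hq0 (dfc_pos_kx hρ' h) δ
  have hWI : ∀ δ : Gr, 0 < WI q ρ δ := fun δ => Helper95.OZ.WI_pos hq hρ δ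
  have hW1 : ∀ δ : Gr, 0 < W1 q ρ δ := fun δ => by
    unfold W1
    split_ifs
    · exact one_pos
    · exact hWI δ
  have hWDs : ∀ δ : Gr, 0 < WDs q (dfc ρ ρ') D δ := fun δ => by
    unfold WDs
    split_ifs
    · exact one_pos
    · exact hWD δ
  unfold Wx
  split_ifs
  · exact one_pos
  · exact div_pos (mul_pos (hWD _) (hWI _)) (hWI _)
  · exact div_pos (mul_pos (div_pos (mul_pos (hWD _) (hWI _)) (hWI _)) (hWD _)) (hWD _)
  · exact hWI _
  · exact div_pos (mul_pos (hW1 _) (hWD _)) (hWDs _)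

theorem Wx_mono (hq : 1 ≤ q) (hρ' : 0 < ρ') (h : ρ' ≤ ρ) {D : Finset (ℤ × ℤ)} {γ : Gr} (hγ : IsClu γ.1 γ.2)
    {t : ℕ → ℤ × ℤ} {J : ℕ} (hJ : 1 ≤ J) (hcp : ∀ i, 1 ≤ i → i ≤ J → CP γ.1 (t i))
    (ht : ∀ i j, 1 ≤ i → i < j → j ≤ J → (t i).1 < (t j).1) {i m j : ℕ} (him : i ≤ m) (hmj : m ≤ j) (hj : j < J + 1) :
    Wx q ρ ρ' D γ t J m (j + 1) / Wx q ρ ρ' D γ t J m j ≤
      Wx q ρ ρ' D γ t J i (j + 1) / Wx q ρ ρ' D γ t J i j := by
  rcases Nat.eq_or_lt_of_le him with him' | him'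
  · rw [him']
  have hj' : j ≤ J := by omega
  rw [ratio_kx hq hρ' h hγ hcp ht (by omega) hmj hj', ratio_kx hq hρ' h hγ hcp ht (by omega) (by omega) hj',
    Kx_split hγ hcp ht him' hmj hj']
  refine mul_le_mul_of_nonneg_left ?_ (Px_pos hq hρ' h γ t J j).le
  rw [div_le_div_iff₀ (Fx_pos hq hρ' h D J j _) (Fx_pos hq hρ' h D J j _)]
  have h1 := Fx_super hq hρ' h D J j (Kx γ t m j) (Kx γ t i m) (Vx γ t J j)
  linarith

theorem Wx_mem (hq : 1 ≤ q) (hρ' : 0 < ρ') (h : ρ' ≤ ρ) (hD : ExpDecay q ρ) :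
    ∃ κ C c : ℝ, 0 < κ ∧ κ ≤ 1 ∧ 0 ≤ C ∧ 0 < c ∧ ∃ θ : ℕ → ℝ, (∀ j, 0 ≤ θ j) ∧ (∀ j, θ j ≤ 1 - κ) ∧
      (∀ j, θ (j + 1) ≤ C * Real.exp (-c * j)) ∧ ∀ (D : Finset (ℤ × ℤ)) (γ : Gr), IsClu γ.1 γ.2 →
      ∀ (t : ℕ → ℤ × ℤ) (J : ℕ), 1 ≤ J → (∀ i, 1 ≤ i → i ≤ J → CP γ.1 (t i)) →
      (∀ i j, 1 ≤ i → i < j → j ≤ J → (t i).1 < (t j).1) → ∀ i m j : ℕ, i < m → m ≤ j → j < J + 1 →
      Wx q ρ ρ' D γ t J i (j + 1) / Wx q ρ ρ' D γ t J i j - Wx q ρ ρ' D γ t J m (j + 1) / Wx q ρ ρ' D γ t J m j ≤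
        θ (j - m + 1) * (Wx q ρ ρ' D γ t J i (j + 1) / Wx q ρ ρ' D γ t J i j) := by
  obtain ⟨κ, C, c, hκ, hκ1, hC, hc0, hfar⟩ := Fx_far hq hρ' h hD
  set θ : ℕ → ℝ := fun j => if j = 0 then 0 else min (1 - κ) (C * Real.exp (-c * ((j - 1 : ℕ) : ℝ))) with hθ
  have hθs : ∀ j : ℕ, θ (j + 1) = min (1 - κ) (C * Real.exp (-c * j)) := by
    intro j
    simp only [hθ]
    rw [if_neg (Nat.succ_ne_zero j), Nat.add_sub_cancel]
  refine ⟨κ, C, c, hκ, hκ1, hC, hc0, θ, ?_, ?_, ?_, ?_⟩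
  · intro j
    cases j with
    | zero => exact le_of_eq (if_pos rfl).symm
    | succ j =>
      rw [hθs]
      exact le_min (by linarith) (mul_nonneg hC (Real.exp_pos _).le)
  · intro j
    cases j with
    | zero => exact (if_pos rfl).le.trans (by linarith)
    | succ j =>
      rw [hθs]
      exact min_le_left _ _
  · intro j
    rw [hθs]
    exact min_le_right _ _
  · intro D γ hγ t J hJ hcp ht i m j him hmj hj
    have hj' : j ≤ J := by omega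
    rw [hθs]
    rw [ratio_kx hq hρ' h hγ hcp ht (by omega) hmj hj', ratio_kx hq hρ' h hγ hcp ht (by omega) (by omega) hj',
      Kx_split hγ hcp ht him hmj hj']
    set K := Kx γ t m j with hK
    set S := Kx γ t i m with hS
    set V := Vx γ t J j with hV
    set B := Px q ρ ρ' γ t J j with hB
    have hB0 : 0 < B := Px_pos hq hρ' h γ t J j
    have hcm := hcp m (by omega) (by omega)
    have hcj := hcp j (by omega) hj'
    have hcol : (t m).1 + ((j - m : ℕ) : ℤ) ≤ (t j).1 := by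
      have h1 := col_kx ht (m := m) (by omega) (j - m) (by omega)
      have h2 : m + (j - m) = j := by omega
      rwa [h2] at h1
    have hY : Y (t j - t m) := cp_Y hcm hcj (by omega)
    have h4 := hfar D J j K S V (t m) (t j) (j - m) hY hcol (fun s hs => Kx_back him hs)
      (fun v hv => Vx_forw hj' hv)
    have p1 : 0 < Fx q ρ ρ' D J j (K ∪ S ∪ V) := Fx_pos hq hρ' h D J j _
    have p2 : 0 < Fx q ρ ρ' D J j K := Fx_pos hq hρ' h D J j _
    have p3 : 0 < Fx q ρ ρ' D J j (K ∪ S) := Fx_pos hq hρ' h D J j _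
    have p4 : 0 < Fx q ρ ρ' D J j (K ∪ V) := Fx_pos hq hρ' h D J j _
    set x := min (1 - κ) (C * Real.exp (-c * ((j - m : ℕ) : ℝ))) with hx
    have h5 : (1 - x) * (Fx q ρ ρ' D J j (K ∪ S ∪ V) / Fx q ρ ρ' D J j (K ∪ S)) ≤
        Fx q ρ ρ' D J j (K ∪ V) / Fx q ρ ρ' D J j K := by
      rw [mul_div_assoc', div_le_div_iff₀ p3 p2]
      linarith
    have h6 := mul_le_mul_of_nonneg_left h5 hB0.le
    have h7 : B * ((1 - x) * (Fx q ρ ρ' D J j (K ∪ S ∪ V) / Fx q ρ ρ' D J j (K ∪ S))) =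
        B * (Fx q ρ ρ' D J j (K ∪ S ∪ V) / Fx q ρ ρ' D J j (K ∪ S)) -
          x * (B * (Fx q ρ ρ' D J j (K ∪ S ∪ V) / Fx q ρ ρ' D J j (K ∪ S))) := by ring
    linarith

end Pool.Helper83.OZ
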