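import Pool.Agent.Helper83.OZ.Key1
import Pool.Agent.Helper83.OZ.Key2
import Pool.Agent.Helper95.OZ.FGm

/-!
Project OZ (MP_7e0861_pr), part L5, block KEY3: the two sided decomposition of the mixed weight.

Pattern: `FG_main` (Helper95/OZ/FGm.lean). Let `J = (wcp lo hi γ).card ≥ 1`, `t` from `wcp_enum`, `W = Wx .. γ t J`, `k = J + 1`,
`F` the array with `F i j = W i j - ∑ m ∈ Ioo i j, F i m * W m j` (well-founded recursion on `j`); `exists_lya` gives `V`,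
`z`; `arr` applies: `0 ≤ F i j ≤ V 1 z^(j - i) W i j`, `W i j = ∑ m ∈ Ioc i j, F i m * W m j = ∑ m ∈ Ico i j, W i m * F m j`.
Identification: `W 0 j = WM lo (t j) (low (t j) γ)` (`fcp_enum`, `wcp_low`, `low_low`), `W i (J+1) = XM hi (t i) (upp (t i) γ)`,
`W 0 (J+1) = WT lo hi γ`, `W i j = W1 (seg (t i) (t j) γ)` for `1 ≤ i ≤ j ≤ J`; by strong induction on `j`,
`F 0 j = AA lo (t j) (low (t j) γ)` for `1 ≤ j ≤ J` (`AA_eq`; the cone points of `low (t j) γ` in the columns `lo .. (t j).1 - 1`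
are `t 1, ..., t (j-1)`, and `upp (t m) (low (t j) γ) = seg (t m) (t j) γ` up to `upp_low`), and by downward induction on
`j`, `F j (J+1) = BB hi (t j) (upp (t j) γ)` (`BB_eq`, and `W j (J+1) = F j (J+1) + ∑ m ∈ Ioo j (J+1), W j m * F m (J+1)`).
(5): `W 0 (J+1) = F 0 (J+1) + ∑ c ∈ Icc 1 J, F 0 c * W c (J+1)` and `W c (J+1) = ∑ c' ∈ Ico c (J+1), W c c' * F c' (J+1)`.
The constants: `V`, `z` depend only on `κ, C, c, θ` of `Wx_mem`, so they are uniform.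
-/

namespace Pool.Helper83.OZ

open Pool.Helper49.FK
open Pool.Helper17.OZ (Y CP Dbl NoCP nd rect tau)
open Pool.Helper95.OZ (seg)

variable {q ρ ρ' : ℝ}

/-- The two sided sum. -/
noncomputable def SS (q ρ ρ' : ℝ) (D : Finset (ℤ × ℤ)) (lo hi : ℤ) (γ : Gr) : ℝ :=
  ∑ c ∈ wcp lo hi γ, ∑ c' ∈ wcp c.1 hi γ, AA q ρ ρ' D lo c (low c γ) * W1 q ρ (seg c c' γ) *
    BB q ρ ρ' D hi c' (upp c' γ)

private noncomputable def FF38 (W : ℕ → ℕ → ℝ) (i j : ℕ) : ℝ :=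
  W i j - ∑ m ∈ (Finset.Ioo i j).attach, FF38 W i m.1 * W m.1 j
termination_by j
decreasing_by exact (Finset.mem_Ioo.1 m.2).2

private theorem FF38_eq (W : ℕ → ℕ → ℝ) (i j : ℕ) :
    FF38 W i j = W i j - ∑ m ∈ Finset.Ioo i j, FF38 W i m * W m j := by
  rw [FF38, Finset.sum_attach (Finset.Ioo i j) (fun m => FF38 W i m * W m j)]

open Classical in
private theorem fcp38 {t : ℕ → ℤ × ℤ} {J : ℕ} (ht : ∀ i j, 1 ≤ i → i < j → j ≤ J → (t i).1 < (t j).1)
    {S : Finset ℕ} (hS : ∀ m ∈ S, 1 ≤ m ∧ m ≤ J) {lo hi : ℤ} {γ : Gr} (hw : wcp lo hi γ = S.image t) {m₀ : ℕ}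
    (hm : m₀ ∈ S) (hmin : ∀ m ∈ S, m₀ ≤ m) : fcp lo hi γ = {t m₀} := by
  have hle : ∀ m ∈ S, (t m₀).1 ≤ (t m).1 := by
    intro m hm'
    rcases Nat.lt_or_ge m₀ m with h | h
    · exact (ht m₀ m (hS _ hm).1 h (hS _ hm').2).le
    · rw [le_antisymm (hmin m hm') h]
  ext x
  unfold fcp
  rw [hw, Finset.mem_filter, Finset.mem_singleton, Finset.mem_image]
  constructor
  · rintro ⟨⟨m, hm', rfl⟩, h2⟩
    have h3 := h2 _ (Finset.mem_image_of_mem t hm)
    rcases Nat.lt_or_ge m₀ m with h | h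
    · have := ht m₀ m (hS _ hm).1 h (hS _ hm').2
      omega
    · rw [le_antisymm (hmin m hm') h]
  · rintro rfl
    refine ⟨⟨m₀, hm, rfl⟩, fun s hs => ?_⟩
    obtain ⟨m, hm', rfl⟩ := Finset.mem_image.1 hs
    exact hle m hm'

open Classical in
private theorem lcp38 {t : ℕ → ℤ × ℤ} {J : ℕ} (ht : ∀ i j, 1 ≤ i → i < j → j ≤ J → (t i).1 < (t j).1)
    {S : Finset ℕ} (hS : ∀ m ∈ S, 1 ≤ m ∧ m ≤ J) {lo hi : ℤ} {γ : Gr} (hw : wcp lo hi γ = S.image t) {m₀ : ℕ}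
    (hm : m₀ ∈ S) (hmax : ∀ m ∈ S, m ≤ m₀) : lcp lo hi γ = {t m₀} := by
  have hle : ∀ m ∈ S, (t m).1 ≤ (t m₀).1 := by
    intro m hm'
    rcases Nat.lt_or_ge m m₀ with h | h
    · exact (ht m m₀ (hS _ hm').1 h (hS _ hm).2).le
    · rw [le_antisymm (hmax m hm') h]
  ext x
  unfold lcp
  rw [hw, Finset.mem_filter, Finset.mem_singleton, Finset.mem_image]
  constructor
  · rintro ⟨⟨m, hm', rfl⟩, h2⟩
    have h3 := h2 _ (Finset.mem_image_of_mem t hm)
    rcases Nat.lt_or_ge m m₀ with h | h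
    · have := ht m m₀ (hS _ hm').1 h (hS _ hm).2
      omega
    · rw [le_antisymm (hmax m hm') h]
  · rintro rfl
    refine ⟨⟨m₀, hm, rfl⟩, fun s hs => ?_⟩
    obtain ⟨m, hm', rfl⟩ := Finset.mem_image.1 hs
    exact hle m hm'

open Classical in
private theorem mem_low38 {c : ℤ × ℤ} {γ : Gr} (hc : c ∈ γ.1) : c ∈ (low c γ).1 := by
  unfold low
  rw [Finset.mem_filter]
  exact ⟨hc, Y_self c⟩

open Classical in
private theorem mem_upp38 {c : ℤ × ℤ} {γ : Gr} (hc : c ∈ γ.1) : c ∈ (upp c γ).1 := by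
  unfold upp
  rw [Finset.mem_filter]
  exact ⟨hc, Y_self c⟩

theorem key (hq : 1 ≤ q) (hρ' : 0 < ρ') (h : ρ' ≤ ρ) (hD : ExpDecay q ρ) :
    ∃ C z : ℝ, 0 < C ∧ 0 < z ∧ z < 1 ∧ ∀ (D : Finset (ℤ × ℤ)) (lo hi : ℤ) (γ : Gr), IsClu γ.1 γ.2 →
      (∀ c ∈ wcp lo hi γ, 0 ≤ AA q ρ ρ' D lo c (low c γ) ∧
        AA q ρ ρ' D lo c (low c γ) ≤ C * z ^ (wcp lo (c.1 - 1) γ).card * WM q ρ ρ' D lo c (low c γ)) ∧
      (∀ c ∈ wcp lo hi γ, 0 ≤ BB q ρ ρ' D hi c (upp c γ) ∧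
        BB q ρ ρ' D hi c (upp c γ) ≤ C * z ^ (wcp (c.1 + 1) hi γ).card * XM q ρ ρ' D hi c (upp c γ)) ∧
      (∀ c' ∈ wcp lo hi γ, WM q ρ ρ' D lo c' (low c' γ) =
        ∑ c ∈ wcp lo c'.1 γ, AA q ρ ρ' D lo c (low c γ) * W1 q ρ (seg c c' γ)) ∧
      (∀ c ∈ wcp lo hi γ, XM q ρ ρ' D hi c (upp c γ) =
        ∑ c' ∈ wcp c.1 hi γ, W1 q ρ (seg c c' γ) * BB q ρ ρ' D hi c' (upp c' γ)) ∧
      (SS q ρ ρ' D lo hi γ ≤ WT q ρ ρ' D lo hi γ ∧
        (1 - C * z ^ (wcp lo hi γ).card) * WT q ρ ρ' D lo hi γ ≤ SS q ρ ρ' D lo hi γ) := by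
  classical
  obtain ⟨κ, C, c, hκ, hκ1, hC, hc, θ, hθ0, hθ1, hθ2, hmem⟩ := Wx_mem (q := q) hq hρ' h hD
  obtain ⟨V, z, hz0, hz1, hVm, hV0, hV⟩ :=
    Pool.Helper95.OZ.exists_lya κ C c hκ hκ1 hC hc θ hθ0 hθ1 hθ2
  have hV1 : 1 ≤ V 1 := by
    have := hVm 0
    rw [zero_add] at this
    linarith
  have hV1' : 0 < V 1 := by linarith
  refine ⟨V 1, z, hV1', hz0, hz1, ?_⟩
  intro D lo hi γ hγ
  obtain ⟨t, ht, himg⟩ := wcp_enum lo hi γ
  obtain ⟨J, hJ⟩ : ∃ J, J = (wcp lo hi γ).card := ⟨_, rfl⟩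
  rw [← hJ] at ht himg
  rcases Nat.eq_zero_or_pos J with hJ0 | hJ1
  · have hemp : wcp lo hi γ = ∅ := Finset.card_eq_zero.1 (hJ.symm.trans hJ0)
    have hf : fcp lo hi γ = ∅ := by
      unfold fcp
      rw [hemp, Finset.filter_empty]
    refine ⟨?_, ?_, ?_, ?_, ?_, ?_⟩
    · intro c hc
      rw [hemp] at hc
      exact absurd hc (Finset.notMem_empty c)
    · intro c hc
      rw [hemp] at hc
      exact absurd hc (Finset.notMem_empty c)
    · intro c hc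
      rw [hemp] at hc
      exact absurd hc (Finset.notMem_empty c)
    · intro c hc
      rw [hemp] at hc
      exact absurd hc (Finset.notMem_empty c)
    · unfold SS WT
      rw [hemp, hf, Finset.sum_empty, Finset.sum_empty]
    · unfold SS WT
      rw [hemp, hf, Finset.sum_empty, Finset.sum_empty, mul_zero]
  -- the enumeration
  have hcp' : ∀ i, 1 ≤ i → i ≤ J → CP γ.1 (t i) ∧ lo ≤ (t i).1 ∧ (t i).1 ≤ hi := by
    intro i h1 h2
    rw [← mem_wcp, himg]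
    exact Finset.mem_image_of_mem t (Finset.mem_Icc.2 ⟨h1, h2⟩)
  have hcp : ∀ i, 1 ≤ i → i ≤ J → CP γ.1 (t i) := fun i h1 h2 => (hcp' i h1 h2).1
  have hle : ∀ i j, 1 ≤ i → i ≤ j → j ≤ J → (t i).1 ≤ (t j).1 := by
    intro i j h1 h2 h3
    rcases Nat.lt_or_ge i j with h | h
    · exact (ht i j h1 h h3).le
    · rw [le_antisymm h2 h]
  have hinj : ∀ S : Finset ℕ, (∀ m ∈ S, 1 ≤ m ∧ m ≤ J) → Set.InjOn t (S : Set ℕ) := by
    intro S hS x hx y hy hxy
    have hx' := hS x hx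
    have hy' := hS y hy
    by_contra hne
    rcases Nat.lt_or_gt_of_ne hne with h | h
    · have := ht x y hx'.1 h hy'.2
      rw [hxy] at this
      exact lt_irrefl _ this
    · have := ht y x hy'.1 h hx'.2
      rw [hxy] at this
      exact lt_irrefl _ this
  have gen : ∀ (lo' hi' : ℤ) (S : Finset ℕ), lo ≤ lo' → hi' ≤ hi → (∀ m ∈ S, 1 ≤ m ∧ m ≤ J) →
      (∀ m, 1 ≤ m → m ≤ J → (m ∈ S ↔ lo' ≤ (t m).1 ∧ (t m).1 ≤ hi')) → wcp lo' hi' γ = S.image t := by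
    intro lo' hi' S h1 h2 h3 h4
    ext x
    rw [mem_wcp, Finset.mem_image]
    constructor
    · rintro ⟨g1, g2, g3⟩
      have hx : x ∈ wcp lo hi γ := mem_wcp.2 ⟨g1, h1.trans g2, g3.trans h2⟩
      rw [himg, Finset.mem_image] at hx
      obtain ⟨m, hm, rfl⟩ := hx
      rw [Finset.mem_Icc] at hm
      exact ⟨m, (h4 m hm.1 hm.2).2 ⟨g2, g3⟩, rfl⟩
    · rintro ⟨m, hm, rfl⟩
      obtain ⟨g1, g2⟩ := h3 m hm
      obtain ⟨g3, g4⟩ := (h4 m g1 g2).1 hm
      exact ⟨hcp m g1 g2, g3, g4⟩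
  have S1 : ∀ j, 1 ≤ j → j ≤ J → ∀ m ∈ Finset.Ioc 0 j, 1 ≤ m ∧ m ≤ J := by
    intro j _ hj m hm
    rw [Finset.mem_Ioc] at hm
    omega
  have S2 : ∀ j, 1 ≤ j → j ≤ J → ∀ m ∈ Finset.Ioo 0 j, 1 ≤ m ∧ m ≤ J := by
    intro j _ hj m hm
    rw [Finset.mem_Ioo] at hm
    omega
  have S3 : ∀ i, 1 ≤ i → i ≤ J → ∀ m ∈ Finset.Ico i (J + 1), 1 ≤ m ∧ m ≤ J := by
    intro i _ hi' m hm
    rw [Finset.mem_Ico] at hm
    omega
  have S4 : ∀ i, 1 ≤ i → i ≤ J → ∀ m ∈ Finset.Ioo i (J + 1), 1 ≤ m ∧ m ≤ J := by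
    intro i _ hi' m hm
    rw [Finset.mem_Ioo] at hm
    omega
  have e1 : ∀ j, 1 ≤ j → j ≤ J → wcp lo (t j).1 γ = (Finset.Ioc 0 j).image t := by
    intro j h1 h2
    refine gen _ _ _ le_rfl (hcp' j h1 h2).2.2 (S1 j h1 h2) fun m g1 g2 => ?_
    rw [Finset.mem_Ioc]
    constructor
    · exact fun g => ⟨(hcp' m g1 g2).2.1, hle m j g1 g.2 h2⟩
    · rintro ⟨_, g⟩
      refine ⟨g1, ?_⟩
      by_contra hcon
      have := ht j m h1 (by omega) g2
      omega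
  have e2 : ∀ j, 1 ≤ j → j ≤ J → wcp lo ((t j).1 - 1) γ = (Finset.Ioo 0 j).image t := by
    intro j h1 h2
    refine gen _ _ _ le_rfl (by have := (hcp' j h1 h2).2.2; omega) (S2 j h1 h2) fun m g1 g2 => ?_
    rw [Finset.mem_Ioo]
    constructor
    · exact fun g => ⟨(hcp' m g1 g2).2.1, by have := ht m j g1 g.2 h2; omega⟩
    · rintro ⟨_, g⟩
      refine ⟨g1, ?_⟩
      by_contra hcon
      have := hle j m h1 (by omega) g2
      omega
  have e3 : ∀ i, 1 ≤ i → i ≤ J → wcp (t i).1 hi γ = (Finset.Ico i (J + 1)).image t := by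
    intro i h1 h2
    refine gen _ _ _ (hcp' i h1 h2).2.1 le_rfl (S3 i h1 h2) fun m g1 g2 => ?_
    rw [Finset.mem_Ico]
    constructor
    · exact fun g => ⟨hle i m h1 g.1 g2, (hcp' m g1 g2).2.2⟩
    · rintro ⟨g, _⟩
      refine ⟨?_, by omega⟩
      by_contra hcon
      have := ht m i g1 (by omega) h2
      omega
  have e4 : ∀ i, 1 ≤ i → i ≤ J → wcp ((t i).1 + 1) hi γ = (Finset.Ioo i (J + 1)).image t := by
    intro i h1 h2
    refine gen _ _ _ (by have := (hcp' i h1 h2).2.1; omega) le_rfl (S4 i h1 h2) fun m g1 g2 => ?_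
    rw [Finset.mem_Ioo]
    constructor
    · exact fun g => ⟨by have := ht i m h1 g.1 g2; omega, (hcp' m g1 g2).2.2⟩
    · rintro ⟨g, _⟩
      refine ⟨?_, by omega⟩
      by_contra hcon
      have := hle m i g1 (by omega) h2
      omega
  -- the array
  obtain ⟨W, hW⟩ : ∃ W : ℕ → ℕ → ℝ, W = fun i j => Wx q ρ ρ' D γ t J i j := ⟨_, rfl⟩
  obtain ⟨F, hF⟩ : ∃ F : ℕ → ℕ → ℝ, F = fun i j => FF38 W i j := ⟨_, rfl⟩
  have hWd : ∀ i, W i i = 1 := by
    intro i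
    rw [hW]
    simp only
    unfold Wx
    rw [if_pos le_rfl]
  have hWs : ∀ i j, 1 ≤ i → i < j → j ≤ J → W i j = WI q ρ (seg (t i) (t j) γ) := by
    intro i j h1 h2 h3
    rw [hW]
    simp only
    unfold Wx
    rw [if_neg (by omega), if_neg (by omega), if_pos h3]
  have hWs1 : ∀ i j, 1 ≤ i → i ≤ j → j ≤ J → W i j = W1 q ρ (seg (t i) (t j) γ) := by
    intro i j h1 h2 h3
    rcases Nat.lt_or_ge i j with hlt | hge
    · rw [hWs i j h1 hlt h3]
      unfold W1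
      rw [if_neg]
      refine Pool.Helper95.OZ.Dm_edges_ne (Pool.Helper95.OZ.seg_mem hγ (hcp i h1 (by omega))
        (hcp j (by omega) h3) (hle i j h1 h2 h3)) ?_
      intro heq
      have := ht i j h1 hlt h3
      rw [heq] at this
      exact lt_irrefl _ this
    · have hij : i = j := le_antisymm h2 hge
      subst hij
      rw [hWd, Pool.Helper95.OZ.seg_self hγ (hcp i h1 h3)]
      unfold W1
      rw [if_pos rfl]
  have hWM : ∀ j, 1 ≤ j → j ≤ J → WM q ρ ρ' D lo (t j) (low (t j) γ) = W 0 j := by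
    intro j h1 h2
    have hw : wcp lo (t j).1 (low (t j) γ) = (Finset.Ioc 0 j).image t := by
      rw [wcp_low hγ (hcp j h1 h2) le_rfl, e1 j h1 h2]
    have hf := fcp38 ht (S1 j h1 h2) hw (m₀ := 1) (Finset.mem_Ioc.2 ⟨by omega, h1⟩)
      (fun m hm => (S1 j h1 h2 m hm).1)
    unfold WM
    rw [hf, Finset.sum_singleton, low_low hγ (hcp 1 le_rfl hJ1) (hcp j h1 h2) (hle 1 j le_rfl h1 h2), hW]
    simp only
    unfold Wx
    rw [if_neg (by omega), if_pos rfl, if_pos h2]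
  have hXM : ∀ i, 1 ≤ i → i ≤ J → XM q ρ ρ' D hi (t i) (upp (t i) γ) = W i (J + 1) := by
    intro i h1 h2
    have hw : wcp (t i).1 hi (upp (t i) γ) = (Finset.Ico i (J + 1)).image t := by
      rw [wcp_upp hγ (hcp i h1 h2) le_rfl, e3 i h1 h2]
    have hf := lcp38 ht (S3 i h1 h2) hw (m₀ := J) (Finset.mem_Ico.2 ⟨h2, by omega⟩)
      (fun m hm => (S3 i h1 h2 m hm).2)
    unfold XM
    rw [hf, Finset.sum_singleton, hW]
    simp only
    unfold Wx
    rw [if_neg (by omega), if_neg (by omega), if_neg (by omega)]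
    rfl
  have hWT : WT q ρ ρ' D lo hi γ = W 0 (J + 1) := by
    have hS : ∀ m ∈ Finset.Icc 1 J, 1 ≤ m ∧ m ≤ J := fun m hm => Finset.mem_Icc.1 hm
    have hf := fcp38 ht hS himg (m₀ := 1) (Finset.mem_Icc.2 ⟨le_rfl, hJ1⟩) (fun m hm => (hS m hm).1)
    have hl := lcp38 ht hS himg (m₀ := J) (Finset.mem_Icc.2 ⟨hJ1, le_rfl⟩) (fun m hm => (hS m hm).2)
    unfold WT
    rw [hf, hl, Finset.sum_singleton, Finset.sum_singleton, hW]
    simp only
    unfold Wx
    rw [if_neg (by omega), if_pos rfl, if_neg (by omega)]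
  have hFrec : ∀ i j, F i j = W i j - ∑ m ∈ Finset.Ioo i j, F i m * W m j := by
    intro i j
    rw [hF]
    exact FF38_eq W i j
  have hmain := Pool.Helper95.OZ.arr (J + 1) W F θ V z (fun i _ => hWd i)
    (fun i j _ _ => by rw [hW]; exact Wx_pos hq hρ' h D γ t J i j)
    (fun i m j h1 h2 h3 => by rw [hW]; exact Wx_mono hq hρ' h hγ hJ1 hcp ht h1 h2 h3) hθ0
    (fun i m j h1 h2 h3 => by rw [hW]; exact hmem D γ hγ t J hJ1 hcp ht i m j h1 h2 h3) hz0.le hVm hV0 hV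
    (fun i j _ _ => hFrec i j)
  -- identification of the renewal parts
  have hAA : ∀ n j, j ≤ n → 1 ≤ j → j ≤ J → AA q ρ ρ' D lo (t j) (low (t j) γ) = F 0 j := by
    intro n
    induction n with
    | zero =>
      intro j h0 h1
      omega
    | succ n ih =>
      intro j hn h1 h2
      have hcj := hcp j h1 h2
      rw [AA_eq (mem_low38 hcj.1), hWM j h1 h2, wcp_low hγ hcj (by omega), e2 j h1 h2,
        Finset.sum_image (hinj _ (S2 j h1 h2)), hFrec 0 j]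
      congr 1
      refine Finset.sum_congr rfl fun m hm => ?_
      rw [Finset.mem_Ioo] at hm
      have hcm := hcp m (by omega) (by omega)
      have hmj := hle m j (by omega) (by omega) h2
      rw [low_low hγ hcm hcj hmj, upp_low hγ hcm hcj hmj, ih m (by omega) (by omega) (by omega),
        hWs m j (by omega) hm.2 h2]
      rfl
  have hAA' : ∀ j, 1 ≤ j → j ≤ J → AA q ρ ρ' D lo (t j) (low (t j) γ) = F 0 j := fun j => hAA j j le_rfl
  have hBB : ∀ n j, J ≤ j + n → 1 ≤ j → j ≤ J → BB q ρ ρ' D hi (t j) (upp (t j) γ) = F j (J + 1) := by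
    intro n
    induction n with
    | zero =>
      intro j h0 h1 h2
      have hjJ : j = J := by omega
      subst hjJ
      have hcj := hcp j h1 h2
      have hS : Finset.Ioo j (j + 1) = ∅ := by
        ext m
        simp only [Finset.mem_Ioo, Finset.notMem_empty, iff_false]
        omega
      rw [BB_eq (mem_upp38 hcj.1), hXM j h1 h2, wcp_upp hγ hcj (by omega), e4 j h1 h2, hFrec j (j + 1), hS]
      simp
    | succ n ih =>
      intro j h0 h1 h2
      have hcj := hcp j h1 h2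
      have h4 := (hmain j (J + 1) (by omega) le_rfl).2.2.2
      have hsplit : Finset.Ico j (J + 1) = insert j (Finset.Ioo j (J + 1)) := by
        ext m
        simp only [Finset.mem_Ico, Finset.mem_insert, Finset.mem_Ioo]
        omega
      rw [hsplit, Finset.sum_insert (by simp), hWd, one_mul] at h4
      rw [BB_eq (mem_upp38 hcj.1), hXM j h1 h2, wcp_upp hγ hcj (by omega), e4 j h1 h2,
        Finset.sum_image (hinj _ (S4 j h1 h2)), h4, sub_eq_iff_eq_add]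
      congr 1
      refine Finset.sum_congr rfl fun m hm => ?_
      rw [Finset.mem_Ioo] at hm
      have hcm := hcp m (by omega) (by omega)
      have hmj := hle j m (by omega) (by omega) (by omega)
      rw [upp_upp hγ hcm hcj hmj, ih m (by omega) (by omega) (by omega), hWs j m h1 hm.1 (by omega)]
      rfl
  have hBB' : ∀ j, 1 ≤ j → j ≤ J → BB q ρ ρ' D hi (t j) (upp (t j) γ) = F j (J + 1) :=
    fun j => hBB J j (by omega)
  have hWpos : ∀ i j, 0 < W i j := by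
    intro i j
    rw [hW]
    exact Wx_pos hq hρ' h D γ t J i j
  have hpow : ∀ (n : ℕ) (w : ℝ), 0 < w → V 1 * z ^ (n + 1) * w ≤ V 1 * z ^ n * w := by
    intro n w hw
    have h5 : 0 ≤ z ^ n := pow_nonneg hz0.le n
    refine mul_le_mul_of_nonneg_right (mul_le_mul_of_nonneg_left ?_ hV1'.le) hw.le
    rw [pow_succ]
    nlinarith
  have hidx : ∀ c ∈ wcp lo hi γ, ∃ j, 1 ≤ j ∧ j ≤ J ∧ c = t j := by
    intro c hc
    rw [himg, Finset.mem_image] at hc
    obtain ⟨j, hj, rfl⟩ := hc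
    rw [Finset.mem_Icc] at hj
    exact ⟨j, hj.1, hj.2, rfl⟩
  refine ⟨?_, ?_, ?_, ?_, ?_⟩
  · intro c hc
    obtain ⟨j, h1, h2, rfl⟩ := hidx c hc
    rw [hAA' j h1 h2, hWM j h1 h2, e2 j h1 h2, Finset.card_image_of_injOn (hinj _ (S2 j h1 h2)),
      Nat.card_Ioo]
    obtain ⟨g1, g2, -, -⟩ := hmain 0 j (by omega) (by omega)
    refine ⟨g1, g2.trans ?_⟩
    have e : j - 0 = (j - 0 - 1) + 1 := by omega
    rw [e]
    exact hpow _ _ (hWpos 0 j)
  · intro c hc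
    obtain ⟨j, h1, h2, rfl⟩ := hidx c hc
    rw [hBB' j h1 h2, hXM j h1 h2, e4 j h1 h2, Finset.card_image_of_injOn (hinj _ (S4 j h1 h2)),
      Nat.card_Ioo]
    obtain ⟨g1, g2, -, -⟩ := hmain j (J + 1) (by omega) le_rfl
    refine ⟨g1, g2.trans ?_⟩
    have e : J + 1 - j = (J + 1 - j - 1) + 1 := by omega
    rw [e]
    exact hpow _ _ (hWpos j (J + 1))
  · intro c hc
    obtain ⟨j, h1, h2, rfl⟩ := hidx c hc
    rw [hWM j h1 h2, e1 j h1 h2, Finset.sum_image (hinj _ (S1 j h1 h2)),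
      (hmain 0 j (by omega) (by omega)).2.2.1]
    refine Finset.sum_congr rfl fun m hm => ?_
    rw [Finset.mem_Ioc] at hm
    rw [hAA' m (by omega) (by omega), hWs1 m j (by omega) hm.2 h2]
  · intro c hc
    obtain ⟨i, h1, h2, rfl⟩ := hidx c hc
    rw [hXM i h1 h2, e3 i h1 h2, Finset.sum_image (hinj _ (S3 i h1 h2)),
      (hmain i (J + 1) (by omega) le_rfl).2.2.2]
    refine Finset.sum_congr rfl fun m hm => ?_
    rw [Finset.mem_Ico] at hm
    rw [hBB' m (by omega) (by omega), hWs1 i m h1 hm.1 (by omega)]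
  · have hSS : SS q ρ ρ' D lo hi γ = W 0 (J + 1) - F 0 (J + 1) := by
      obtain ⟨-, -, g3, -⟩ := hmain 0 (J + 1) (by omega) le_rfl
      have hsplit : Finset.Ioc 0 (J + 1) = insert (J + 1) (Finset.Icc 1 J) := by
        ext m
        simp only [Finset.mem_Ioc, Finset.mem_insert, Finset.mem_Icc]
        omega
      rw [hsplit, Finset.sum_insert (by simp), hWd, mul_one] at g3
      have hinj1 : Set.InjOn t ((Finset.Icc 1 J : Finset ℕ) : Set ℕ) :=
        hinj _ fun m hm => Finset.mem_Icc.1 hm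
      have hsum : SS q ρ ρ' D lo hi γ = ∑ m ∈ Finset.Icc 1 J, F 0 m * W m (J + 1) := by
        unfold SS
        rw [himg, Finset.sum_image hinj1]
        refine Finset.sum_congr rfl fun i hi' => ?_
        rw [Finset.mem_Icc] at hi'
        rw [e3 i hi'.1 hi'.2, Finset.sum_image (hinj _ (S3 i hi'.1 hi'.2)),
          (hmain i (J + 1) (by omega) le_rfl).2.2.2, Finset.mul_sum]
        refine Finset.sum_congr rfl fun m hm => ?_
        rw [Finset.mem_Ico] at hm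
        rw [hAA' i hi'.1 hi'.2, hBB' m (by omega) (by omega), hWs1 i m hi'.1 hm.1 (by omega), mul_assoc]
      rw [hsum]
      linarith
    obtain ⟨g1, g2, -, -⟩ := hmain 0 (J + 1) (by omega) le_rfl
    rw [hSS, hWT, ← hJ]
    refine ⟨by linarith, ?_⟩
    have h5 := hpow J (W 0 (J + 1)) (hWpos 0 (J + 1))
    rw [Nat.sub_zero] at g2
    nlinarith

end Pool.Helper83.OZ
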