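import Pool.Agent.Helper83.OZ.Cone
import Pool.Agent.Helper83.OZ.Dec
import Pool.Agent.Helper49.FK.Clus

/-!
Project OZ (MP_7e0861_pr), part L5, block REM: the line and the boundary are not seen far away (T5).

Let `D = rect a b e d`, `Λ = box K ⊇ D`, `Λ' = Λ ∖ L`, `S = Λ' ∖ (points of D off the row 0)`. In `Λ'` with odds `hom ρ`, `Psi_ge`:
`pr (S not joined to M) * Psi (Λ' ∖ S) M ≤ Psi Λ' M`. `Λ' ∖ S` is the set of the points of `D ∖ L` off the row `0`; there the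
odds `dfc ρ ρ'` and `hom ρ` agree on all edges, so `Psi q (hom ρ) (Λ' ∖ S) M = Psi q (dfc ρ ρ') (Λ' ∖ S) M ≥
Psi q (dfc ρ ρ') (D ∖ L) M` (`Psi_anti_D`). `pr (S joined to M) ≤ ∑ s ∈ S, ∑ x ∈ M, GI s x` (`pr_conn_le`, `G_le_GI`; if `S` meets `M`
the bound `1 - ..` is `≤ 0`) `≤ ∑ x ∈ M, eta x`: `ExpDecay.GI_le`, `row_sum` (points of `S` in the row `0`) and `out_sum` (points
outside `D`). Multiply by `Psi (dfc) D L * Psi (hom) Λ L` (`Psi_union`) and let `K → ∞` (`tendsto_Psi`).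
If `1 - ∑ eta < 0` the left-hand side is negative.
`incr_le`: `Psi q (hom ρ) (Λ ∖ L) M ≤ Psi q (dfc ρ ρ') (D ∖ L) M` (`Psi_anti_D`, `Psi_anti_r`), multiply by
`Psi (dfc) D L * Psi (hom) Λ L` (`Psi_union`), `K → ∞`.
-/

namespace Pool.Helper83.OZ

open Pool.Helper49.FK
open Pool.Helper17.OZ (Y CP Dbl NoCP nd rect tau)

/-- The influence of the row `0` and of the boundary of `rect a b e d` at `x`. -/
noncomputable def eta (C c : ℝ) (a b e d : ℤ) (x : ℤ × ℤ) : ℝ :=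
  C * (Real.exp (-c * |(x.2 : ℝ)|) + Real.exp (-c * ((x.1 : ℝ) - a)) + Real.exp (-c * ((b : ℝ) - x.1)) +
    Real.exp (-c * ((x.2 : ℝ) - e)) + Real.exp (-c * ((d : ℝ) - x.2)))

private theorem sub_box34 (D : Finset (ℤ × ℤ)) : ∃ N0 : ℕ, ∀ N : ℕ, N0 ≤ N → D ⊆ box N := by
  induction D using Finset.induction_on with
  | empty => exact ⟨0, fun N _ => Finset.empty_subset _⟩
  | insert a D ha ih =>
    obtain ⟨N, hN⟩ := ih
    refine ⟨max N (a.1.natAbs + a.2.natAbs), fun M hM => ?_⟩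
    rw [Finset.insert_subset_iff]
    refine ⟨?_, hN M (le_trans (le_max_left _ _) hM)⟩
    have h1 : a.1.natAbs + a.2.natAbs ≤ M := le_trans (le_max_right _ _) hM
    unfold box
    rw [Finset.mem_product, Finset.mem_Icc, Finset.mem_Icc]
    omega

private theorem Z_congr34 {q : ℝ} {r r' : Edge → ℝ} {D : Finset (ℤ × ℤ)}
    (h : ∀ e ∈ edges D, r e = r' e) : Z q r D = Z q r' D := by
  unfold Z wt
  refine Finset.sum_congr rfl fun ω hω => ?_
  rw [Finset.prod_congr rfl fun e he => h e (Finset.mem_powerset.1 hω he)]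

private theorem Psi_congr34 {q : ℝ} {r r' : Edge → ℝ} {D V : Finset (ℤ × ℤ)}
    (h : ∀ e ∈ edges D, r e = r' e) : Psi q r D V = Psi q r' D V := by
  unfold Psi
  rw [Z_congr34 h, Z_congr34 fun e he => h e (edges_mono Finset.sdiff_subset he)]

private theorem dfc_nonneg34 {ρ ρ' : ℝ} (hρ' : 0 < ρ') (h : ρ' ≤ ρ) (e : Edge) :
    0 ≤ dfc ρ ρ' e := by
  unfold dfc
  split_ifs
  · exact hρ'.le
  · exact hρ'.le.trans h

private theorem dfc_le34 {ρ ρ' : ℝ} (h : ρ' ≤ ρ) (e : Edge) : dfc ρ ρ' e ≤ hom ρ e := by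
  unfold dfc hom
  split_ifs
  · exact h
  · exact le_rfl

theorem rem_bound {q ρ ρ' : ℝ} (hq : 1 ≤ q) (hρ' : 0 < ρ') (h : ρ' ≤ ρ) (hD : ExpDecay q ρ) :
    ∃ C c : ℝ, 0 < C ∧ 0 < c ∧ ∀ (a b e d : ℤ) (L M : Finset (ℤ × ℤ)), L ⊆ rect a b e d → M ⊆ rect a b e d →
      Psi q (dfc ρ ρ') (rect a b e d) (L ∪ M) * PsiI q ρ L * (1 - ∑ x ∈ M, eta C c a b e d x) ≤
        Psi q (dfc ρ ρ') (rect a b e d) L * PsiI q ρ (L ∪ M) := by
  classical
  have hρ : 0 < ρ := lt_of_lt_of_le hρ' h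
  have hq0 : 0 < q := lt_of_lt_of_le one_pos hq
  obtain ⟨c, C₀, hc, hC₀, hGI⟩ := hD.GI_le hq hρ.le
  obtain ⟨C₁, hC₁, hrow⟩ := row_sum hc
  obtain ⟨C₂, hC₂, hout⟩ := out_sum hc
  refine ⟨C₀ * (C₁ + C₂), c, by positivity, hc, ?_⟩
  intro a b e d L M hL hM
  have hr0 : ∀ e, 0 ≤ dfc ρ ρ' e := dfc_nonneg34 hρ' h
  have hr1 : ∀ e, 0 ≤ hom ρ e := fun e => hρ.le
  obtain ⟨D, hDdef⟩ : ∃ D, D = rect a b e d := ⟨_, rfl⟩
  rw [← hDdef] at hL hM ⊢
  obtain ⟨N0, hN0⟩ := sub_box34 D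
  have key : ∀ N : ℕ, N0 ≤ N → Psi q (dfc ρ ρ') D (L ∪ M) * Psi q (hom ρ) (box N) L *
      (1 - ∑ x ∈ M, eta (C₀ * (C₁ + C₂)) c a b e d x) ≤
      Psi q (dfc ρ ρ') D L * Psi q (hom ρ) (box N) (L ∪ M) := by
    intro N hN
    have hDN := hN0 N hN
    rw [Psi_union hq0 hr0, Psi_union hq0 hr1]
    obtain ⟨D₀, hD₀⟩ : ∃ D₀ : Finset (ℤ × ℤ), D₀ = (D \ L).filter fun x => x.2 ≠ 0 := ⟨_, rfl⟩
    obtain ⟨S, hS⟩ : ∃ S : Finset (ℤ × ℤ), S = (box N \ L) \ D₀ := ⟨_, rfl⟩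
    have hSs : S ⊆ box N \ L := by rw [hS]; exact Finset.sdiff_subset
    have hDD : (box N \ L) \ S = D₀ := by
      rw [hS]
      refine Finset.sdiff_sdiff_eq_self ?_
      intro x hx
      rw [hD₀, Finset.mem_filter, Finset.mem_sdiff] at hx
      exact Finset.mem_sdiff.2 ⟨hDN hx.1.1, hx.1.2⟩
    have h1 := Psi_ge (q := q) (r := hom ρ) (V := M) hq hr1 hSs
    rw [hDD] at h1
    have h2 : Psi q (hom ρ) D₀ M = Psi q (dfc ρ ρ') D₀ M := by
      refine Psi_congr34 fun g hg => ?_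
      have hg1 := (mem_edges.1 hg).1
      rw [hD₀, Finset.mem_filter] at hg1
      unfold dfc hom
      rw [if_neg]
      intro h'
      exact hg1.2 h'.2
    have h3 : Psi q (dfc ρ ρ') (D \ L) M ≤ Psi q (dfc ρ ρ') D₀ M := by
      refine Psi_anti_D hq hr0 ?_
      rw [hD₀]
      exact Finset.filter_subset _ _
    have hpr0 : 0 ≤ pr q (hom ρ) (box N \ L) (fun ω => ∀ s ∈ S, ∀ v ∈ M, ¬ Conn ω s v) :=
      pr_nonneg hq0 hr1 _
    have h4 : 1 - ∑ x ∈ M, eta (C₀ * (C₁ + C₂)) c a b e d x ≤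
        pr q (hom ρ) (box N \ L) (fun ω => ∀ s ∈ S, ∀ v ∈ M, ¬ Conn ω s v) := by
      have g3 := pr_add_compl (q := q) (r := hom ρ) (D := box N \ L) hq0 hr1
        (fun ω => ∀ s ∈ S, ∀ v ∈ M, ¬ Conn ω s v)
      have g4 : pr q (hom ρ) (box N \ L) (fun ω => ¬ ∀ s ∈ S, ∀ v ∈ M, ¬ Conn ω s v) =
          pr q (hom ρ) (box N \ L) (fun ω => ∃ s ∈ S, ∃ v ∈ M, Conn ω s v) :=
        pr_congr fun ω _ => by
          push Not
          rfl
      have g5 := pr_conn_le (q := q) (r := hom ρ) (D := box N \ L) hq0 hr1 S M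
      have g6 : ∑ s ∈ S, ∑ v ∈ M, G q (hom ρ) (box N \ L) s v ≤
          ∑ x ∈ M, eta (C₀ * (C₁ + C₂)) c a b e d x := by
        rw [Finset.sum_comm]
        refine Finset.sum_le_sum fun x hx => ?_
        have hxD : x ∈ rect a b e d := by rw [← hDdef]; exact hM hx
        have f1 : ∑ s ∈ S, G q (hom ρ) (box N \ L) s x ≤
            ∑ s ∈ S, C₀ * Real.exp (-c * d1 s x) :=
          Finset.sum_le_sum fun s _ => (G_le_GI hq hρ.le _ s x).trans (hGI s x)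
        have f2 : ∑ s ∈ S, C₀ * Real.exp (-c * d1 s x) =
            C₀ * (∑ s ∈ S.filter (fun s => s.2 = 0), Real.exp (-c * d1 s x) +
              ∑ s ∈ S.filter (fun s => ¬ s.2 = 0), Real.exp (-c * d1 s x)) := by
          rw [Finset.sum_filter_add_sum_filter_not, Finset.mul_sum]
        have f3 := hrow x (S.filter fun s => s.2 = 0) fun s hs => (Finset.mem_filter.1 hs).2
        have f4 := hout a b e d x (S.filter fun s => ¬ s.2 = 0) hxD fun s hs hs' => by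
          obtain ⟨hs1, hs2⟩ := Finset.mem_filter.1 hs
          rw [hS, Finset.mem_sdiff, Finset.mem_sdiff] at hs1
          refine hs1.2 ?_
          rw [hD₀, Finset.mem_filter, Finset.mem_sdiff, hDdef]
          exact ⟨⟨hs', hs1.1.2⟩, hs2⟩
        rw [f2] at f1
        refine f1.trans ?_
        unfold eta
        have e1 := Real.exp_pos (-c * |(x.2 : ℝ)|)
        have e2 := Real.exp_pos (-c * ((x.1 : ℝ) - a))
        have e3 := Real.exp_pos (-c * ((b : ℝ) - x.1))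
        have e4 := Real.exp_pos (-c * ((x.2 : ℝ) - e))
        have e5 := Real.exp_pos (-c * ((d : ℝ) - x.2))
        generalize Real.exp (-c * |(x.2 : ℝ)|) = E1 at *
        generalize Real.exp (-c * ((x.1 : ℝ) - a)) = E2 at *
        generalize Real.exp (-c * ((b : ℝ) - x.1)) = E3 at *
        generalize Real.exp (-c * ((x.2 : ℝ) - e)) = E4 at *
        generalize Real.exp (-c * ((d : ℝ) - x.2)) = E5 at *
        have f5 : C₀ * (∑ s ∈ S.filter (fun s => s.2 = 0), Real.exp (-c * d1 s x) +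
              ∑ s ∈ S.filter (fun s => ¬ s.2 = 0), Real.exp (-c * d1 s x)) ≤
            C₀ * (C₁ * E1 + C₂ * (E2 + E3 + E4 + E5)) :=
          mul_le_mul_of_nonneg_left (add_le_add f3 f4) hC₀.le
        refine f5.trans ?_
        have f6 : C₀ * (C₁ + C₂) * (E1 + E2 + E3 + E4 + E5) =
            C₀ * (C₁ * E1 + C₂ * (E2 + E3 + E4 + E5)) +
              (C₀ * C₁ * (E2 + E3 + E4 + E5) + C₀ * C₂ * E1) := by ring
        rw [f6]
        have f7 : 0 ≤ C₀ * C₁ * (E2 + E3 + E4 + E5) + C₀ * C₂ * E1 := by positivity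
        linarith
      rw [g4] at g3
      linarith
    have p1 : 0 < Psi q (dfc ρ ρ') D L := Psi_pos hq0 hr0
    have p2 : 0 < Psi q (hom ρ) (box N) L := Psi_pos hq0 hr1
    have p3 : 0 < Psi q (dfc ρ ρ') (D \ L) M := Psi_pos hq0 hr0
    have h5 : Psi q (dfc ρ ρ') (D \ L) M * (1 - ∑ x ∈ M, eta (C₀ * (C₁ + C₂)) c a b e d x) ≤
        Psi q (hom ρ) (box N \ L) M := by
      calc Psi q (dfc ρ ρ') (D \ L) M * (1 - ∑ x ∈ M, eta (C₀ * (C₁ + C₂)) c a b e d x)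
          ≤ Psi q (dfc ρ ρ') (D \ L) M *
            pr q (hom ρ) (box N \ L) (fun ω => ∀ s ∈ S, ∀ v ∈ M, ¬ Conn ω s v) :=
            mul_le_mul_of_nonneg_left h4 p3.le
        _ ≤ Psi q (dfc ρ ρ') D₀ M *
            pr q (hom ρ) (box N \ L) (fun ω => ∀ s ∈ S, ∀ v ∈ M, ¬ Conn ω s v) :=
            mul_le_mul_of_nonneg_right h3 hpr0
        _ ≤ Psi q (hom ρ) (box N \ L) M := by
            rw [← h2, mul_comm]
            exact h1
    calc Psi q (dfc ρ ρ') D L * Psi q (dfc ρ ρ') (D \ L) M * Psi q (hom ρ) (box N) L *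
          (1 - ∑ x ∈ M, eta (C₀ * (C₁ + C₂)) c a b e d x)
        = Psi q (dfc ρ ρ') D L * Psi q (hom ρ) (box N) L * (Psi q (dfc ρ ρ') (D \ L) M *
          (1 - ∑ x ∈ M, eta (C₀ * (C₁ + C₂)) c a b e d x)) := by ring
      _ ≤ Psi q (dfc ρ ρ') D L * Psi q (hom ρ) (box N) L * Psi q (hom ρ) (box N \ L) M :=
          mul_le_mul_of_nonneg_left h5 (by positivity)
      _ = _ := by ring
  exact le_of_tendsto_of_tendsto (((tendsto_Psi hq hρ.le L).const_mul _).mul_const _)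
    ((tendsto_Psi hq hρ.le (L ∪ M)).const_mul _) (Filter.eventually_atTop.2 ⟨N0, key⟩)

/-- Increments in infinite volume are at most those in the domain. -/
theorem incr_le {q ρ ρ' : ℝ} (hq : 1 ≤ q) (hρ' : 0 < ρ') (h : ρ' ≤ ρ) (D L M : Finset (ℤ × ℤ)) :
    Psi q (dfc ρ ρ') D L * PsiI q ρ (L ∪ M) ≤ Psi q (dfc ρ ρ') D (L ∪ M) * PsiI q ρ L := by
  have hρ : 0 < ρ := lt_of_lt_of_le hρ' h
  have hq0 : 0 < q := lt_of_lt_of_le one_pos hq
  have hr0 : ∀ e, 0 ≤ dfc ρ ρ' e := dfc_nonneg34 hρ' h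
  have hr1 : ∀ e, 0 ≤ hom ρ e := fun e => hρ.le
  obtain ⟨N0, hN0⟩ := sub_box34 D
  have key : ∀ N : ℕ, N0 ≤ N → Psi q (dfc ρ ρ') D L * Psi q (hom ρ) (box N) (L ∪ M) ≤
      Psi q (dfc ρ ρ') D (L ∪ M) * Psi q (hom ρ) (box N) L := by
    intro N hN
    have hDN := hN0 N hN
    rw [Psi_union hq0 hr0, Psi_union hq0 hr1]
    have h1 : Psi q (hom ρ) (box N \ L) M ≤ Psi q (dfc ρ ρ') (D \ L) M :=
      (Psi_anti_D hq hr1 (Finset.sdiff_subset_sdiff hDN (Finset.Subset.refl _))).trans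
        (Psi_anti_r hq hr0 (dfc_le34 h))
    have p1 : 0 < Psi q (dfc ρ ρ') D L := Psi_pos hq0 hr0
    have p2 : 0 < Psi q (hom ρ) (box N) L := Psi_pos hq0 hr1
    calc Psi q (dfc ρ ρ') D L * (Psi q (hom ρ) (box N) L * Psi q (hom ρ) (box N \ L) M)
        = Psi q (dfc ρ ρ') D L * Psi q (hom ρ) (box N) L * Psi q (hom ρ) (box N \ L) M := by ring
      _ ≤ Psi q (dfc ρ ρ') D L * Psi q (hom ρ) (box N) L * Psi q (dfc ρ ρ') (D \ L) M :=
          mul_le_mul_of_nonneg_left h1 (by positivity)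
      _ = _ := by ring
  exact le_of_tendsto_of_tendsto ((tendsto_Psi hq hρ.le (L ∪ M)).const_mul _)
    ((tendsto_Psi hq hρ.le L).const_mul _) (Filter.eventually_atTop.2 ⟨N0, key⟩)

end Pool.Helper83.OZ
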