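import Pool.Agent.Helper83.OZ.Key3
import Pool.Agent.Helper83.OZ.Rem

/-!
Project OZ (MP_7e0861_pr), part L5, block KEY4: the mixed weights and the domain weights, for graphs which do not touch
the row `0` in the window.

If a graph `δ` has no vertex in the row `0` then `bg q (hom ρ) δ = bg q (dfc ρ ρ') δ` (no edge of the line).
`WM_le`: let `b` be the first cone point in the columns `≥ lo` (`fcp` has at most one element, `cp_col`). `γ = join (low b γ)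
(upp b γ)`; `WI γ / WI (low b γ) = bg (upp b γ) * PsiI γ.1 / PsiI (low b γ).1` and the same for `WD` with `Psi q (dfc ρ ρ') D`
(`Jn.bg_join`); `incr_le` with `L = (low b γ).1`, `M = (upp b γ).1`; the vertices of `upp b γ` are in the columns
`b.1 .. c.1`.
`XM_le`: for the last cone point `b`: `W1 (low b γ) ≤ WDs (low b γ)`: if there is an edge, `WI ≤ WD` because `PsiI ≤ Psi`
(`incr_le` with `L = ∅`, or `PsiI_le` and `Psi_anti_r`).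
`WT_le`: with `b`, `b'` the first and the last cone point in the window (`b.1 ≤ b'.1`), `WI (low b' γ) / WI (low b γ) ≤
WD (low b' γ) / WD (low b γ)` as in `WM_le` (`low b γ = low b (low b' γ)`); the part between `b` and `b'` is in the columns `lo .. hi`.
`WT_ge`: the same with `rem_bound` for `L = (low b γ).1`, `M = (seg b b' γ).1`; the vertices `y` of `seg b b' γ` satisfy
`lo ≤ y.1 ≤ hi`, `Y (y - b)`, `Y (b - u)` (`u ∈ γ.1`, `u.1 < lo`), `Y (b' - y)`, `Y (v - b')`: they are in `mid lo hi u v γ`.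
-/

namespace Pool.Helper83.OZ

open Pool.Helper49.FK
open Pool.Helper17.OZ (Y CP Dbl NoCP nd rect tau)

variable {q ρ ρ' : ℝ} {D : Finset (ℤ × ℤ)} {lo hi : ℤ} {γ : Gr}

open Classical in
/-- The vertices in the window, in the diamond of `u` and `v`. -/
noncomputable def mid (lo hi : ℤ) (u v : ℤ × ℤ) (γ : Gr) : Finset (ℤ × ℤ) :=
  γ.1.filter fun y => lo ≤ y.1 ∧ y.1 ≤ hi ∧ Y (y - u) ∧ Y (v - y)

private theorem mem_fcp77 {b : ℤ × ℤ} :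
    b ∈ fcp lo hi γ ↔ b ∈ wcp lo hi γ ∧ ∀ s ∈ wcp lo hi γ, b.1 ≤ s.1 := by
  unfold fcp
  rw [Finset.mem_filter]

private theorem mem_lcp77 {b : ℤ × ℤ} :
    b ∈ lcp lo hi γ ↔ b ∈ wcp lo hi γ ∧ ∀ s ∈ wcp lo hi γ, s.1 ≤ b.1 := by
  unfold lcp
  rw [Finset.mem_filter]

private theorem fcp_one77 : ∀ x ∈ fcp lo hi γ, ∀ y ∈ fcp lo hi γ, x = y := by
  intro x hx y hy
  rw [mem_fcp77] at hx hy
  exact cp_col (mem_wcp.1 hx.1).1 (mem_wcp.1 hy.1).1 (le_antisymm (hx.2 y hy.1) (hy.2 x hx.1))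

private theorem lcp_one77 : ∀ x ∈ lcp lo hi γ, ∀ y ∈ lcp lo hi γ, x = y := by
  intro x hx y hy
  rw [mem_lcp77] at hx hy
  exact cp_col (mem_wcp.1 hx.1).1 (mem_wcp.1 hy.1).1 (le_antisymm (hy.2 x hx.1) (hx.2 y hy.1))

private theorem sum_one77 {S : Finset (ℤ × ℤ)} (hS : ∀ x ∈ S, ∀ y ∈ S, x = y) {F : ℤ × ℤ → ℝ} {B : ℝ}
    (hB : 0 ≤ B) (h : ∀ x ∈ S, F x ≤ B) : ∑ x ∈ S, F x ≤ B := by
  rcases S.eq_empty_or_nonempty with h1 | ⟨x, hx⟩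
  · rw [h1, Finset.sum_empty]
    exact hB
  · have h2 : S = {x} := Finset.eq_singleton_iff_unique_mem.2 ⟨hx, fun y hy => hS y hy x hx⟩
    rw [h2, Finset.sum_singleton]
    exact h x hx

private theorem mem_low77 {m y : ℤ × ℤ} : y ∈ (low m γ).1 ↔ y ∈ γ.1 ∧ Y (m - y) := by
  classical
  unfold low
  exact Finset.mem_filter

private theorem mem_upp77 {m y : ℤ × ℤ} : y ∈ (upp m γ).1 ↔ y ∈ γ.1 ∧ Y (y - m) := by
  classical
  unfold upp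
  exact Finset.mem_filter

private theorem dfc_pos77 (hρ' : 0 < ρ') (h : ρ' ≤ ρ) (e : Edge) : 0 < dfc ρ ρ' e := by
  unfold dfc
  split_ifs
  · exact hρ'
  · exact hρ'.trans_le h

private theorem dfc_le77 (h : ρ' ≤ ρ) (e : Edge) : dfc ρ ρ' e ≤ hom ρ e := by
  unfold dfc hom
  split_ifs
  · exact h
  · exact le_rfl

private theorem bg_pos77 (hq : 0 < q) {r : Edge → ℝ} (hr : ∀ e, 0 < r e) (γ : Gr) : 0 < bg q r γ := by
  unfold bg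
  exact div_pos (Finset.prod_pos fun e _ => hr e) (pow_pos hq _)

private theorem WD_pos77 (hq : 1 ≤ q) (hρ' : 0 < ρ') (h : ρ' ≤ ρ) (D : Finset (ℤ × ℤ)) (γ : Gr) :
    0 < WD q (dfc ρ ρ') D γ :=
  mul_pos (bg_pos77 (by linarith) (dfc_pos77 hρ' h) γ)
    (Psi_pos (by linarith) fun e => (dfc_pos77 hρ' h e).le)

private theorem WI_pos77 (hq : 1 ≤ q) (hρ : 0 < ρ) (γ : Gr) : 0 < WI q ρ γ :=
  mul_pos (bg_pos77 (by linarith) (fun _ => hρ) γ) (PsiI_pos hq hρ.le γ.1)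

/-- no edge of the line -/
private theorem bg_off77 {δ : Gr} (hδ : IsClu δ.1 δ.2) (h0 : ∀ y ∈ δ.1, y.2 ≠ 0) :
    bg q (hom ρ) δ = bg q (dfc ρ ρ') δ := by
  unfold bg
  congr 1
  refine Finset.prod_congr rfl fun e he => ?_
  have h1 := hδ.1 he
  unfold edges at h1
  rw [Finset.mem_filter, Finset.mem_product] at h1
  have h2 := h0 e.1 h1.1.1
  unfold hom dfc
  rw [if_neg fun h3 => h2 h3.2]

private theorem cut77 (hq : 1 ≤ q) {γ : Gr} (hγ : IsClu γ.1 γ.2) {b : ℤ × ℤ}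
    (hb : CP γ.1 b) (r : Edge → ℝ) : bg q r γ = bg q r (low b γ) * bg q r (upp b γ) := by
  have h1 := (jn_cut hγ hb).bg_join (show 0 < q by linarith) r
  rw [join_low_upp hγ hb] at h1
  exact h1

private theorem vert77 {γ : Gr} (hγ : IsClu γ.1 γ.2) {b : ℤ × ℤ} (hb : CP γ.1 b) :
    (low b γ).1 ∪ (upp b γ).1 = γ.1 := congrArg Prod.fst (join_low_upp hγ hb)

/-- the increment at a cone point, upper bound -/
private theorem core77 (hq : 1 ≤ q) (hρ' : 0 < ρ') (h : ρ' ≤ ρ) {γ : Gr} (hγ : IsClu γ.1 γ.2) {b : ℤ × ℤ}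
    (hb : CP γ.1 b) (h0 : ∀ y ∈ (upp b γ).1, y.2 ≠ 0) :
    WD q (dfc ρ ρ') D (low b γ) * WI q ρ γ ≤ WD q (dfc ρ ρ') D γ * WI q ρ (low b γ) := by
  have e3 : bg q (hom ρ) (upp b γ) = bg q (dfc ρ ρ') (upp b γ) := bg_off77 (upp_spec hγ hb).1 h0
  have e5 := incr_le hq hρ' h D (low b γ).1 (upp b γ).1
  rw [vert77 hγ hb] at e5
  have p1 := bg_pos77 (q := q) (by linarith) (dfc_pos77 hρ' h) (low b γ)
  have p2 := bg_pos77 (q := q) (by linarith) (dfc_pos77 hρ' h) (upp b γ)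
  have p3 := bg_pos77 (q := q) (r := hom ρ) (by linarith) (fun _ => hρ'.trans_le h) (low b γ)
  unfold WD WI
  rw [cut77 hq hγ hb (hom ρ), cut77 hq hγ hb (dfc ρ ρ'), e3]
  calc bg q (dfc ρ ρ') (low b γ) * Psi q (dfc ρ ρ') D (low b γ).1 *
        (bg q (hom ρ) (low b γ) * bg q (dfc ρ ρ') (upp b γ) * PsiI q ρ γ.1)
      = (bg q (dfc ρ ρ') (low b γ) * bg q (dfc ρ ρ') (upp b γ) * bg q (hom ρ) (low b γ)) *
        (Psi q (dfc ρ ρ') D (low b γ).1 * PsiI q ρ γ.1) := by ring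
    _ ≤ (bg q (dfc ρ ρ') (low b γ) * bg q (dfc ρ ρ') (upp b γ) * bg q (hom ρ) (low b γ)) *
        (Psi q (dfc ρ ρ') D γ.1 * PsiI q ρ (low b γ).1) :=
        mul_le_mul_of_nonneg_left e5 (by positivity)
    _ = _ := by ring

/-- the increment at a cone point, lower bound -/
private theorem core_ge77 (hq : 1 ≤ q) (hρ' : 0 < ρ') (h : ρ' ≤ ρ) {η : ℤ × ℤ → ℝ}
    (hrem : ∀ L M : Finset (ℤ × ℤ), L ⊆ D → M ⊆ D →
      Psi q (dfc ρ ρ') D (L ∪ M) * PsiI q ρ L * (1 - ∑ x ∈ M, η x) ≤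
        Psi q (dfc ρ ρ') D L * PsiI q ρ (L ∪ M))
    {γ : Gr} (hγ : IsClu γ.1 γ.2) (hγD : γ.1 ⊆ D) {b : ℤ × ℤ}
    (hb : CP γ.1 b) (h0 : ∀ y ∈ (upp b γ).1, y.2 ≠ 0) :
    (1 - ∑ x ∈ (upp b γ).1, η x) * (WD q (dfc ρ ρ') D γ * WI q ρ (low b γ)) ≤
      WD q (dfc ρ ρ') D (low b γ) * WI q ρ γ := by
  have e3 : bg q (hom ρ) (upp b γ) = bg q (dfc ρ ρ') (upp b γ) := bg_off77 (upp_spec hγ hb).1 h0
  have e5 := hrem (low b γ).1 (upp b γ).1 (fun y hy => hγD (mem_low77.1 hy).1)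
    (fun y hy => hγD (mem_upp77.1 hy).1)
  rw [vert77 hγ hb] at e5
  have p1 := bg_pos77 (q := q) (by linarith) (dfc_pos77 hρ' h) (low b γ)
  have p2 := bg_pos77 (q := q) (by linarith) (dfc_pos77 hρ' h) (upp b γ)
  have p3 := bg_pos77 (q := q) (r := hom ρ) (by linarith) (fun _ => hρ'.trans_le h) (low b γ)
  unfold WD WI
  rw [cut77 hq hγ hb (hom ρ), cut77 hq hγ hb (dfc ρ ρ'), e3]
  calc (1 - ∑ x ∈ (upp b γ).1, η x) * (bg q (dfc ρ ρ') (low b γ) * bg q (dfc ρ ρ') (upp b γ) *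
        Psi q (dfc ρ ρ') D γ.1 * (bg q (hom ρ) (low b γ) * PsiI q ρ (low b γ).1))
      = (bg q (dfc ρ ρ') (low b γ) * bg q (dfc ρ ρ') (upp b γ) * bg q (hom ρ) (low b γ)) *
        (Psi q (dfc ρ ρ') D γ.1 * PsiI q ρ (low b γ).1 * (1 - ∑ x ∈ (upp b γ).1, η x)) := by ring
    _ ≤ (bg q (dfc ρ ρ') (low b γ) * bg q (dfc ρ ρ') (upp b γ) * bg q (hom ρ) (low b γ)) *
        (Psi q (dfc ρ ρ') D (low b γ).1 * PsiI q ρ γ.1) :=
        mul_le_mul_of_nonneg_left e5 (by positivity)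
    _ = _ := by ring

theorem WM_le (hq : 1 ≤ q) (hρ' : 0 < ρ') (h : ρ' ≤ ρ) (hγ : IsClu γ.1 γ.2) {c : ℤ × ℤ} (hB : Bw γ c)
    (h0 : ∀ y ∈ γ.1, lo ≤ y.1 → y.2 ≠ 0) : WM q ρ ρ' D lo c γ ≤ WD q (dfc ρ ρ') D γ := by
  have _ := hB
  unfold WM
  refine sum_one77 fcp_one77 (WD_pos77 hq hρ' h D γ).le fun b hb => ?_
  obtain ⟨h1, h2, _⟩ := mem_wcp.1 (mem_fcp77.1 hb).1
  rw [div_le_iff₀ (WI_pos77 hq (hρ'.trans_le h) _)]
  refine core77 hq hρ' h hγ h1 fun y hy => ?_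
  obtain ⟨h3, h4⟩ := mem_upp77.1 hy
  exact h0 y h3 (h2.trans (Y_le h4))

theorem XM_le (hq : 1 ≤ q) (hρ' : 0 < ρ') (h : ρ' ≤ ρ) (hγ : IsClu γ.1 γ.2) {c : ℤ × ℤ} (hF : Fw γ c)
    (h0 : ∀ y ∈ γ.1, y.1 ≤ hi → y.2 ≠ 0) : XM q ρ ρ' D hi c γ ≤ WD q (dfc ρ ρ') D γ := by
  have _ := hF
  unfold XM
  refine sum_one77 lcp_one77 (WD_pos77 hq hρ' h D γ).le fun b hb => ?_
  obtain ⟨h1, _, h2⟩ := mem_wcp.1 (mem_lcp77.1 hb).1
  have p1 := WD_pos77 hq hρ' h D γ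
  have p2 : 0 < WDs q (dfc ρ ρ') D (low b γ) := by
    unfold WDs
    split_ifs
    · exact one_pos
    · exact WD_pos77 hq hρ' h D _
  rw [div_le_iff₀ p2, mul_comm]
  refine mul_le_mul_of_nonneg_left ?_ p1.le
  unfold W1 WDs
  split_ifs with h3
  · exact le_rfl
  · have h4 : bg q (hom ρ) (low b γ) = bg q (dfc ρ ρ') (low b γ) := by
      refine bg_off77 (low_spec hγ h1).1 fun y hy => ?_
      obtain ⟨h5, h6⟩ := mem_low77.1 hy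
      exact h0 y h5 ((Y_le h6).trans h2)
    unfold WI WD
    rw [h4]
    refine mul_le_mul_of_nonneg_left ?_ (bg_pos77 (by linarith) (dfc_pos77 hρ' h) _).le
    exact (PsiI_le hq (hρ'.le.trans h) D _).trans
      (Psi_anti_r hq (fun e => (dfc_pos77 hρ' h e).le) (dfc_le77 h))

private theorem two77 (hγ : IsClu γ.1 γ.2) {b b' : ℤ × ℤ} (hb : b ∈ fcp lo hi γ) (hb' : b' ∈ lcp lo hi γ) :
    IsClu (low b' γ).1 (low b' γ).2 ∧ CP (low b' γ).1 b ∧ low b (low b' γ) = low b γ ∧ lo ≤ b.1 ∧ b'.1 ≤ hi := by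
  obtain ⟨h1, h2, _⟩ := mem_wcp.1 (mem_fcp77.1 hb).1
  obtain ⟨h3, _, h4⟩ := mem_wcp.1 (mem_lcp77.1 hb').1
  have h5 : b.1 ≤ b'.1 := (mem_fcp77.1 hb).2 b' (mem_lcp77.1 hb').1
  refine ⟨(low_spec hγ h3).1, ⟨mem_low77.2 ⟨h1.1, cp_Y h1 h3 h5⟩, fun y hy => h1.2 y (mem_low77.1 hy).1⟩,
    low_low hγ h1 h3 h5, h2, h4⟩

theorem WT_le (hq : 1 ≤ q) (hρ' : 0 < ρ') (h : ρ' ≤ ρ) (hγ : IsClu γ.1 γ.2)
    (h0 : ∀ y ∈ γ.1, lo ≤ y.1 → y.1 ≤ hi → y.2 ≠ 0) : WT q ρ ρ' D lo hi γ ≤ WD q (dfc ρ ρ') D γ := by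
  unfold WT
  have p1 := WD_pos77 hq hρ' h D γ
  refine sum_one77 fcp_one77 p1.le fun b hb => ?_
  refine sum_one77 lcp_one77 p1.le fun b' hb' => ?_
  obtain ⟨h1, h2, h3, h4, h5⟩ := two77 hγ hb hb'
  have p2 := WD_pos77 hq hρ' h D (low b' γ)
  have p3 := WI_pos77 hq (hρ'.trans_le h) (low b γ)
  have h6 := core77 (D := D) hq hρ' h h1 h2 (fun y hy => by
    obtain ⟨g1, g2⟩ := mem_upp77.1 hy
    obtain ⟨g3, g4⟩ := mem_low77.1 g1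
    exact h0 y g3 (h4.trans (Y_le g2)) ((Y_le g4).trans h5))
  rw [h3] at h6
  rw [div_le_iff₀ p2, mul_comm (WD q (dfc ρ ρ') D γ)]
  refine mul_le_mul_of_nonneg_right ?_ p1.le
  rw [div_le_iff₀ p3]
  exact h6

theorem WT_ge (hq : 1 ≤ q) (hρ' : 0 < ρ') (h : ρ' ≤ ρ) (hD : ExpDecay q ρ) :
    ∃ C c : ℝ, 0 < C ∧ 0 < c ∧ ∀ (a b e d lo hi : ℤ) (u v : ℤ × ℤ) (γ : Gr), γ ∈ Cl (rect a b e d) u v →
      u.1 < lo → hi < v.1 → (wcp lo hi γ).Nonempty → (∀ y ∈ γ.1, lo ≤ y.1 → y.1 ≤ hi → y.2 ≠ 0) →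
      (1 - ∑ y ∈ mid lo hi u v γ, eta C c a b e d y) * WD q (dfc ρ ρ') (rect a b e d) γ ≤
        WT q ρ ρ' (rect a b e d) lo hi γ := by
  obtain ⟨C, c, hC, hc, hrem⟩ := rem_bound hq hρ' h hD
  refine ⟨C, c, hC, hc, fun a₀ b₀ e₀ d₀ lo hi u v γ hγ hu hv hne h0 => ?_⟩
  obtain ⟨hγD, hγc, huγ, hvγ⟩ := mem_Cl.1 hγ
  obtain ⟨b, hb1, hb2⟩ := Finset.exists_min_image (wcp lo hi γ) Prod.fst hne
  obtain ⟨b', hb1', hb2'⟩ := Finset.exists_max_image (wcp lo hi γ) Prod.fst hne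
  have hb : b ∈ fcp lo hi γ := mem_fcp77.2 ⟨hb1, hb2⟩
  have hb' : b' ∈ lcp lo hi γ := mem_lcp77.2 ⟨hb1', hb2'⟩
  have e1 : fcp lo hi γ = {b} :=
    Finset.eq_singleton_iff_unique_mem.2 ⟨hb, fun y hy => fcp_one77 y hy b hb⟩
  have e2 : lcp lo hi γ = {b'} :=
    Finset.eq_singleton_iff_unique_mem.2 ⟨hb', fun y hy => lcp_one77 y hy b' hb'⟩
  obtain ⟨h1, h2, h3, h4, h5⟩ := two77 hγc hb hb'
  have p1 := WD_pos77 hq hρ' h (rect a₀ b₀ e₀ d₀) γ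
  have p2 := WD_pos77 hq hρ' h (rect a₀ b₀ e₀ d₀) (low b' γ)
  have p3 := WI_pos77 hq (hρ'.trans_le h) (low b γ)
  have h6 := core_ge77 (D := rect a₀ b₀ e₀ d₀) (η := eta C c a₀ b₀ e₀ d₀) hq hρ' h (hrem a₀ b₀ e₀ d₀) h1
    (fun y hy => hγD (mem_low77.1 hy).1) h2 (fun y hy => by
      obtain ⟨g1, g2⟩ := mem_upp77.1 hy
      obtain ⟨g3, g4⟩ := mem_low77.1 g1
      exact h0 y g3 (h4.trans (Y_le g2)) ((Y_le g4).trans h5))
  rw [h3] at h6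
  have hYu : Y (b - u) := by
    rcases (mem_wcp.1 hb1).1.2 u huγ with g | g
    · exact absurd (Y_le g) (by omega)
    · exact g
  have hYv : Y (v - b') := by
    rcases (mem_wcp.1 hb1').1.2 v hvγ with g | g
    · exact g
    · exact absurd (Y_le g) (by omega)
  have h7 : ∑ x ∈ (upp b (low b' γ)).1, eta C c a₀ b₀ e₀ d₀ x ≤
      ∑ y ∈ mid lo hi u v γ, eta C c a₀ b₀ e₀ d₀ y := by
    refine Finset.sum_le_sum_of_subset_of_nonneg (fun y hy => ?_) fun y _ _ => ?_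
    · obtain ⟨g1, g2⟩ := mem_upp77.1 hy
      obtain ⟨g3, g4⟩ := mem_low77.1 g1
      classical
      unfold mid
      exact Finset.mem_filter.2 ⟨g3, h4.trans (Y_le g2), (Y_le g4).trans h5, Y_trans hYu g2, Y_trans g4 hYv⟩
    · unfold eta
      positivity
  unfold WT
  rw [e1, e2, Finset.sum_singleton, Finset.sum_singleton, le_div_iff₀ p2, mul_assoc,
    mul_comm (WD q (dfc ρ ρ') (rect a₀ b₀ e₀ d₀) γ), ← mul_assoc]
  refine mul_le_mul_of_nonneg_right ?_ p1.le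
  rw [le_div_iff₀ p3, mul_assoc]
  refine le_trans (mul_le_mul_of_nonneg_right ?_ (mul_pos p2 p3).le) h6
  linarith

end Pool.Helper83.OZ
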