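import Pool.Agent.Helper83.OZ.Thn2
import Pool.Agent.Helper95.OZ.Def

/-!
Project OZ (MP_7e0861_pr), part L5, block KEY1: definitions for the sub-measure.

`wcp lo hi γ`: the cone points of `γ` in the columns `lo .. hi`; `fcp`, `lcp`: the first and the last one (a singleton,
or empty). `WM`: weight of a left graph `γ` ending at the cone point `c`: domain weight up to the first cone point
in the columns `≥ lo`, homogeneous infinite-volume increments afterwards. `XM`: weight of a right graph starting at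
`c`: homogeneous weight up to the last cone point in the columns `≤ hi`, domain increment for the rest. `AA`, `BB`: their
renewal parts. `WT`: the mixed weight of a cluster.
-/

namespace Pool.Helper83.OZ

open Pool.Helper49.FK
open Pool.Helper17.OZ (Y CP Dbl NoCP nd rect tau)

open Classical in
noncomputable def wcp (lo hi : ℤ) (γ : Gr) : Finset (ℤ × ℤ) :=
  γ.1.filter fun t => CP γ.1 t ∧ lo ≤ t.1 ∧ t.1 ≤ hi

open Classical in
noncomputable def fcp (lo hi : ℤ) (γ : Gr) : Finset (ℤ × ℤ) :=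
  (wcp lo hi γ).filter fun t => ∀ s ∈ wcp lo hi γ, t.1 ≤ s.1

open Classical in
noncomputable def lcp (lo hi : ℤ) (γ : Gr) : Finset (ℤ × ℤ) :=
  (wcp lo hi γ).filter fun t => ∀ s ∈ wcp lo hi γ, s.1 ≤ t.1

noncomputable def WM (q ρ ρ' : ℝ) (D : Finset (ℤ × ℤ)) (lo : ℤ) (c : ℤ × ℤ) (γ : Gr) : ℝ :=
  ∑ b ∈ fcp lo c.1 γ, WD q (dfc ρ ρ') D (low b γ) * WI q ρ γ / WI q ρ (low b γ)

noncomputable def XM (q ρ ρ' : ℝ) (D : Finset (ℤ × ℤ)) (hi : ℤ) (c : ℤ × ℤ) (γ : Gr) : ℝ :=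
  ∑ b ∈ lcp c.1 hi γ, W1 q ρ (low b γ) * WD q (dfc ρ ρ') D γ / WDs q (dfc ρ ρ') D (low b γ)

noncomputable def WT (q ρ ρ' : ℝ) (D : Finset (ℤ × ℤ)) (lo hi : ℤ) (γ : Gr) : ℝ :=
  ∑ b ∈ fcp lo hi γ, ∑ b' ∈ lcp lo hi γ, WD q (dfc ρ ρ') D (low b γ) * WI q ρ (low b' γ) / WI q ρ (low b γ) *
    WD q (dfc ρ ρ') D γ / WD q (dfc ρ ρ') D (low b' γ)

open Classical in
noncomputable def AA (q ρ ρ' : ℝ) (D : Finset (ℤ × ℤ)) (lo : ℤ) (c : ℤ × ℤ) (γ : Gr) : ℝ :=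
  WM q ρ ρ' D lo c γ - ∑ m ∈ wcp lo (c.1 - 1) γ,
    if h : (low m γ).1.card < γ.1.card then AA q ρ ρ' D lo m (low m γ) * WI q ρ (upp m γ) else 0
termination_by γ.1.card
decreasing_by exact h

open Classical in
noncomputable def BB (q ρ ρ' : ℝ) (D : Finset (ℤ × ℤ)) (hi : ℤ) (c : ℤ × ℤ) (γ : Gr) : ℝ :=
  XM q ρ ρ' D hi c γ - ∑ m ∈ wcp (c.1 + 1) hi γ,
    if h : (upp m γ).1.card < γ.1.card then WI q ρ (low m γ) * BB q ρ ρ' D hi m (upp m γ) else 0
termination_by γ.1.card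
decreasing_by exact h

open Classical in
theorem mem_wcp {lo hi : ℤ} {γ : Gr} {t : ℤ × ℤ} : t ∈ wcp lo hi γ ↔ CP γ.1 t ∧ lo ≤ t.1 ∧ t.1 ≤ hi := by
  unfold wcp
  rw [Finset.mem_filter]
  constructor
  · exact fun h => h.2
  · exact fun h => ⟨h.1.1, h⟩

end Pool.Helper83.OZ
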