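import Pool.Agent.Helper83.OZ.Rem
import Pool.Agent.Helper49.OZ.SubDef

/-!
Project OZ (MP_7e0861_pr), part L5, block LOW1: lower bound of the two point function by the diamond graphs in the
rows `≥ 1` (T4).

`σ ↦ γ = ({(0,0), (N,0)} ∪ σ.1, {((0,0), false), ((N,0), false)} ∪ σ.2)`, `N = 2 n + 1`, `Rn n = (N, 0)`, is injective from
`DmN n (0,1) (N,1)` to `Cl (Dn n) (0,0) (Rn n)` (for `n ≥ 1`; the new vertices are in the row `0`, `σ` is in the rows `≥ 1`).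
No edge of `γ` is an edge of the line, so `bg q (dfc ρ ρ') γ = (ρ / q) ^ 2 * bg q (hom ρ) σ`. `Psi q (dfc ρ ρ') D γ.1 ≥ PsiI γ.1`
(`incr_le` with `L = ∅`, `PsiI_empty`; `Psi .. ∅ = 1`) `≥ PsiI σ.1 * PsiI {(0,0)} * PsiI {(N,0)}` (`PsiI_super`), and the last two
are equal (`PsiI_tr`) and positive. `W1 σ = WI σ` since `σ` has an edge (it contains two vertices).
-/

namespace Pool.Helper83.OZ

open Pool.Helper49.FK
open Pool.Helper17.OZ (Y CP Dbl NoCP nd rect tau)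
open Pool.Agent.Helper49.QP (Dn Rn)
open Pool.Agent.Helper49.OZ (DmN DmU)

variable {q ρ ρ' : ℝ}

/-- the two new vertices -/
private def nv21 (n : ℕ) : Finset (ℤ × ℤ) := {(0, 0), (2 * (n : ℤ) + 1, 0)}

/-- the two new edges -/
private def ne21 (n : ℕ) : Finset Edge := {((0, 0), false), ((2 * (n : ℤ) + 1, 0), false)}

/-- the lifted graph -/
private noncomputable def lift21 (n : ℕ) (σ : Gr) : Gr := (nv21 n ∪ σ.1, ne21 n ∪ σ.2)

private theorem mem_nv21 {n : ℕ} {y : ℤ × ℤ} : y ∈ nv21 n ↔ y = (0, 0) ∨ y = (2 * (n : ℤ) + 1, 0) := by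
  simp [nv21]

private theorem mem_ne21 {n : ℕ} {e : Edge} :
    e ∈ ne21 n ↔ e = ((0, 0), false) ∨ e = ((2 * (n : ℤ) + 1, 0), false) := by
  simp [ne21]

private theorem nv_row21 {n : ℕ} {y : ℤ × ℤ} (h : y ∈ nv21 n) : y.2 = 0 := by
  rcases mem_nv21.1 h with rfl | rfl <;> rfl

private theorem ne_row21 {n : ℕ} {e : Edge} (h : e ∈ ne21 n) : e.1.2 = 0 ∧ e.2 = false := by
  rcases mem_ne21.1 h with rfl | rfl <;> exact ⟨rfl, rfl⟩

private theorem nv_card21 (n : ℕ) : (nv21 n).card = 2 := by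
  unfold nv21
  rw [Finset.card_pair]
  intro h
  have := congrArg Prod.fst h
  simp only at this
  omega

private theorem ne_card21 (n : ℕ) : (ne21 n).card = 2 := by
  unfold ne21
  rw [Finset.card_pair]
  intro h
  have := congrArg (fun e : Edge => e.1.1) h
  simp only at this
  omega

private theorem mem_edges21 {V : Finset (ℤ × ℤ)} {e : Edge} : e ∈ edges V ↔ e.1 ∈ V ∧ tip e ∈ V := by
  unfold edges
  rw [Finset.mem_filter, Finset.mem_product]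
  constructor
  · exact fun h => ⟨h.1.1, h.2⟩
  · exact fun h => ⟨⟨h.1, Finset.mem_univ _⟩, h.2⟩

private theorem conn_mono21 {ω ω' : Finset Edge} (h : ω ⊆ ω') {x y : ℤ × ℤ} (hc : Conn ω x y) :
    Conn ω' x y := by
  refine SimpleGraph.Reachable.mono ?_ hc
  intro a b hab
  obtain ⟨e, he, h2⟩ := hab
  exact ⟨e, h he, h2⟩

private theorem conn_edge21 {ω : Finset Edge} {e : Edge} (he : e ∈ ω) : Conn ω e.1 (tip e) :=
  SimpleGraph.Adj.reachable ⟨e, he, Or.inl ⟨rfl, rfl⟩⟩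

/-- what we know about `σ` -/
private structure Ok21 (n : ℕ) (σ : Gr) : Prop where
  clu : IsClu σ.1 σ.2
  left : ((0 : ℤ), (1 : ℤ)) ∈ σ.1
  right : (2 * (n : ℤ) + 1, (1 : ℤ)) ∈ σ.1
  row : ∀ y ∈ σ.1, 1 ≤ y.2
  sub : σ.1 ⊆ Dn n

open Classical in
private theorem ok21 {n : ℕ} {σ : Gr} (h : σ ∈ DmN n (0, 1) (2 * (n : ℤ) + 1, 1)) : Ok21 n σ := by
  unfold DmN DmU at h
  rw [Finset.mem_filter, Finset.mem_filter, mem_Dm] at h
  exact ⟨h.1.1.1, h.1.1.2.2.2.1, h.1.1.2.2.2.2, h.1.2, h.2⟩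

private theorem Ok21.disjV {n : ℕ} {σ : Gr} (h : Ok21 n σ) : Disjoint (nv21 n) σ.1 := by
  rw [Finset.disjoint_left]
  intro y h1 h2
  have h3 := nv_row21 h1
  have h4 := h.row y h2
  omega

private theorem Ok21.disjE {n : ℕ} {σ : Gr} (h : Ok21 n σ) : Disjoint (ne21 n) σ.2 := by
  rw [Finset.disjoint_left]
  intro e h1 h2
  have h3 := (ne_row21 h1).1
  have h4 := h.row _ (mem_edges21.1 (h.clu.1 h2)).1
  omega

private theorem Ok21.lift_clu {n : ℕ} {σ : Gr} (h : Ok21 n σ) : IsClu (lift21 n σ).1 (lift21 n σ).2 := by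
  have hm : ∀ x ∈ (lift21 n σ).1, Conn (lift21 n σ).2 x (0, 1) := by
    intro x hx
    rcases Finset.mem_union.1 hx with hx | hx
    · rcases mem_nv21.1 hx with rfl | rfl
      · have h1 : (((0, 0), false) : Edge) ∈ (lift21 n σ).2 :=
          Finset.mem_union_left _ (mem_ne21.2 (Or.inl rfl))
        exact conn_edge21 h1
      · have h1 : (((2 * (n : ℤ) + 1, 0), false) : Edge) ∈ (lift21 n σ).2 :=
          Finset.mem_union_left _ (mem_ne21.2 (Or.inr rfl))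
        have h2 : Conn (lift21 n σ).2 (2 * (n : ℤ) + 1, 0) (2 * (n : ℤ) + 1, 1) := conn_edge21 h1
        exact h2.trans (conn_mono21 Finset.subset_union_right (h.clu.2 _ h.right _ h.left))
    · exact conn_mono21 Finset.subset_union_right (h.clu.2 _ hx _ h.left)
  refine ⟨fun e he => ?_, fun x hx y hy => (hm x hx).trans (hm y hy).symm⟩
  rw [mem_edges21]
  rcases Finset.mem_union.1 he with he | he
  · rcases mem_ne21.1 he with rfl | rfl
    · exact ⟨Finset.mem_union_left _ (mem_nv21.2 (Or.inl rfl)), Finset.mem_union_right _ h.left⟩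
    · exact ⟨Finset.mem_union_left _ (mem_nv21.2 (Or.inr rfl)), Finset.mem_union_right _ h.right⟩
  · have h3 := mem_edges21.1 (h.clu.1 he)
    exact ⟨Finset.mem_union_right _ h3.1, Finset.mem_union_right _ h3.2⟩

private theorem Ok21.lift_mem {n : ℕ} {σ : Gr} (h : Ok21 n σ) : lift21 n σ ∈ Cl (Dn n) (0, 0) (Rn n) := by
  rw [mem_Cl]
  refine ⟨?_, h.lift_clu, Finset.mem_union_left _ (mem_nv21.2 (Or.inl rfl)),
    Finset.mem_union_left _ (mem_nv21.2 (Or.inr rfl))⟩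
  intro y hy
  rcases Finset.mem_union.1 hy with hy | hy
  · unfold Dn
    rw [Finset.mem_product, Finset.mem_Icc, Finset.mem_Icc]
    rcases mem_nv21.1 hy with rfl | rfl
    · refine ⟨⟨le_rfl, ?_⟩, ?_, ?_⟩ <;> simp only <;> omega
    · refine ⟨⟨?_, le_rfl⟩, ?_, ?_⟩ <;> simp only <;> omega
  · exact h.sub hy

private theorem Ok21.bg_lift {n : ℕ} {σ : Gr} (h : Ok21 n σ) (hq : 0 < q) :
    bg q (dfc ρ ρ') (lift21 n σ) = (ρ / q) ^ 2 * bg q (hom ρ) σ := by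
  have hc : (lift21 n σ).1.card - 1 = 2 + (σ.1.card - 1) := by
    have h1 : (lift21 n σ).1.card = (nv21 n).card + σ.1.card := Finset.card_union_of_disjoint h.disjV
    have h2 : 0 < σ.1.card := Finset.card_pos.2 ⟨_, h.left⟩
    rw [nv_card21] at h1
    omega
  have hp : ∏ e ∈ (lift21 n σ).2, dfc ρ ρ' e = ρ ^ 2 * ∏ e ∈ σ.2, hom ρ e := by
    have h1 : ∏ e ∈ (lift21 n σ).2, dfc ρ ρ' e =
        (∏ e ∈ ne21 n, dfc ρ ρ' e) * ∏ e ∈ σ.2, dfc ρ ρ' e := Finset.prod_union h.disjE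
    rw [h1]
    congr 1
    · have h2 : ∀ e ∈ ne21 n, dfc ρ ρ' e = ρ := by
        intro e he
        have h3 := (ne_row21 he).2
        unfold dfc
        rw [if_neg]
        rw [h3]
        simp
      rw [Finset.prod_congr rfl h2, Finset.prod_const, ne_card21]
    · refine Finset.prod_congr rfl fun e he => ?_
      have h4 := h.row _ (mem_edges21.1 (h.clu.1 he)).1
      unfold dfc hom
      rw [if_neg]
      rintro ⟨_, h5⟩
      omega
  unfold bg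
  rw [hc, hp, pow_add, div_pow, mul_div_mul_comm]

private theorem Ok21.W1_eq {n : ℕ} {σ : Gr} (h : Ok21 n σ) : W1 q ρ σ = WI q ρ σ := by
  unfold W1
  rw [if_neg]
  intro h0
  have h1 := h.clu.2 _ h.left _ h.right
  rw [h0] at h1
  have h2 : (gr ∅) = (⊥ : SimpleGraph (ℤ × ℤ)) := by
    ext a b
    simp [gr]
  unfold Conn at h1
  rw [h2, SimpleGraph.reachable_bot] at h1
  have := congrArg Prod.fst h1
  simp only at this
  omega

private theorem psi_low21 (hq : 1 ≤ q) (hρ' : 0 < ρ') (h : ρ' ≤ ρ) (D M : Finset (ℤ × ℤ)) :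
    PsiI q ρ M ≤ Psi q (dfc ρ ρ') D M := by
  have hq0 : 0 < q := by linarith
  have hρ : 0 < ρ := lt_of_lt_of_le hρ' h
  have hr : ∀ e, 0 ≤ dfc ρ ρ' e := by
    intro e
    unfold dfc
    split_ifs
    · exact hρ'.le
    · exact hρ.le
  have h1 := incr_le (q := q) hq hρ' h D ∅ M
  have h2 : Psi q (dfc ρ ρ') D ∅ = 1 := by
    unfold Psi
    rw [Finset.empty_inter, Finset.card_empty, pow_zero, one_mul, Finset.sdiff_empty]
    exact div_self (Z_pos hq0 hr).ne'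
  rw [h2, PsiI_empty hq hρ.le, Finset.empty_union, one_mul, mul_one] at h1
  exact h1

private theorem psi_right21 (hq : 1 ≤ q) (hρ : 0 ≤ ρ) (n : ℕ) :
    PsiI q ρ {(2 * (n : ℤ) + 1, 0)} = PsiI q ρ {(0, 0)} := by
  rw [← PsiI_tr hq hρ (2 * (n : ℤ) + 1, 0) {(0, 0)}]
  congr 1
  ext y
  simp [tr]

private theorem Ok21.WD_ge {n : ℕ} {σ : Gr} (h : Ok21 n σ) (hq : 1 ≤ q) (hρ' : 0 < ρ') (hh : ρ' ≤ ρ) :
    ((ρ / q) ^ 2 * PsiI q ρ {(0, 0)} ^ 2) * W1 q ρ σ ≤ WD q (dfc ρ ρ') (Dn n) (lift21 n σ) := by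
  have hq0 : 0 < q := by linarith
  have hρ : 0 < ρ := lt_of_lt_of_le hρ' hh
  rw [h.W1_eq]
  unfold WD WI
  rw [h.bg_lift hq0]
  have h1 : PsiI q ρ σ.1 * PsiI q ρ {(0, 0)} ^ 2 ≤ Psi q (dfc ρ ρ') (Dn n) (lift21 n σ).1 := by
    have h2 := psi_low21 (q := q) hq hρ' hh (Dn n) (lift21 n σ).1
    have h3 : PsiI q ρ (nv21 n) * PsiI q ρ σ.1 ≤ PsiI q ρ (lift21 n σ).1 := PsiI_super hq hρ.le _ _
    have h4 : PsiI q ρ {(0, 0)} * PsiI q ρ {(2 * (n : ℤ) + 1, 0)} ≤ PsiI q ρ (nv21 n) := by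
      have h5 := PsiI_super hq hρ.le {(0, 0)} {(2 * (n : ℤ) + 1, 0)}
      exact h5
    rw [psi_right21 hq hρ.le] at h4
    have h6 := PsiI_pos hq hρ.le σ.1
    calc PsiI q ρ σ.1 * PsiI q ρ {(0, 0)} ^ 2 = (PsiI q ρ {(0, 0)} * PsiI q ρ {(0, 0)}) * PsiI q ρ σ.1 := by ring
      _ ≤ PsiI q ρ (nv21 n) * PsiI q ρ σ.1 := mul_le_mul_of_nonneg_right h4 h6.le
      _ ≤ _ := h3.trans h2
  have h7 : 0 ≤ (ρ / q) ^ 2 * bg q (hom ρ) σ :=
    mul_nonneg (by positivity) (bg_nonneg hq0 (fun _ => hρ.le) σ)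
  calc (ρ / q) ^ 2 * PsiI q ρ {(0, 0)} ^ 2 * (bg q (hom ρ) σ * PsiI q ρ σ.1)
      = (ρ / q) ^ 2 * bg q (hom ρ) σ * (PsiI q ρ σ.1 * PsiI q ρ {(0, 0)} ^ 2) := by ring
    _ ≤ _ := mul_le_mul_of_nonneg_left h1 h7

private theorem union_inj21 {α : Type*} [DecidableEq α] {A S T : Finset α} (hS : Disjoint A S) (hT : Disjoint A T)
    (h : A ∪ S = A ∪ T) : S = T := by
  have h1 : (A ∪ S) \ A = S := Finset.union_sdiff_cancel_left hS
  have h2 : (A ∪ T) \ A = T := Finset.union_sdiff_cancel_left hT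
  rw [← h1, ← h2, h]

theorem low_lift (hq : 1 ≤ q) (hρ' : 0 < ρ') (h : ρ' ≤ ρ) : ∃ c : ℝ, 0 < c ∧ ∀ n : ℕ, 1 ≤ n →
    c * ∑ σ ∈ DmN n (0, 1) (2 * (n : ℤ) + 1, 1), W1 q ρ σ ≤
      ∑ γ ∈ Cl (Dn n) (0, 0) (Rn n), WD q (dfc ρ ρ') (Dn n) γ := by
  classical
  have hq0 : 0 < q := by linarith
  have hρ : 0 < ρ := lt_of_lt_of_le hρ' h
  have hr : ∀ e, 0 ≤ dfc ρ ρ' e := by
    intro e
    unfold dfc
    split_ifs
    · exact hρ'.le
    · exact hρ.le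
  have hP : 0 < PsiI q ρ {(0, 0)} := PsiI_pos hq hρ.le _
  refine ⟨(ρ / q) ^ 2 * PsiI q ρ {(0, 0)} ^ 2, by positivity, fun n _ => ?_⟩
  rw [Finset.mul_sum]
  have h1 : ∑ σ ∈ DmN n (0, 1) (2 * (n : ℤ) + 1, 1), ((ρ / q) ^ 2 * PsiI q ρ {(0, 0)} ^ 2) * W1 q ρ σ ≤
      ∑ σ ∈ DmN n (0, 1) (2 * (n : ℤ) + 1, 1), WD q (dfc ρ ρ') (Dn n) (lift21 n σ) :=
    Finset.sum_le_sum fun σ hσ => (ok21 hσ).WD_ge hq hρ' h
  have h2 : Set.InjOn (lift21 n) (DmN n (0, 1) (2 * (n : ℤ) + 1, 1) : Finset Gr) := by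
    intro σ hσ τ hτ heq
    have hσ' := ok21 (Finset.mem_coe.1 hσ)
    have hτ' := ok21 (Finset.mem_coe.1 hτ)
    refine Prod.ext ?_ ?_
    · exact union_inj21 hσ'.disjV hτ'.disjV (congrArg Prod.fst heq)
    · exact union_inj21 hσ'.disjE hτ'.disjE (congrArg Prod.snd heq)
  rw [← Finset.sum_image (f := fun γ => WD q (dfc ρ ρ') (Dn n) γ) h2] at h1
  refine h1.trans (Finset.sum_le_sum_of_subset_of_nonneg ?_ fun γ _ _ => WD_nonneg hq0 hr γ)
  intro γ hγ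
  obtain ⟨σ, hσ, rfl⟩ := Finset.mem_image.1 hγ
  exact (ok21 hσ).lift_mem

end Pool.Helper83.OZ
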