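import Pool.Agent.Helper83.OZ.Key4
import Pool.Agent.Helper83.OZ.Nc
import Pool.Agent.Helper49.OZ.SubDef

/-!
Project OZ (MP_7e0861_pr), part L5: the losses of the sub-measure. Definitions.

`N = 2 n + 1`, `D = Dn n = rect 0 N (-n) n`, `u = (0, 0)`, `v = Rn n = (N, 0)`, `r = dfc ρ ρ'`, window `r0 .. N - r0`.
-/

namespace Pool.Helper83.OZ

open Pool.Helper49.FK
open Pool.Helper17.OZ (Y CP Dbl NoCP nd rect tau)
open Pool.Helper95.OZ (FG fI seg)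
open Pool.Agent.Helper49.QP (Dn Rn)

/-- The order of magnitude of the partition function. -/
noncomputable def Z0 (q ρ : ℝ) (n : ℕ) : ℝ := p32 (2 * n + 1) * Real.exp (-tau q ρ * (2 * n + 1))

/-- No vertex in the row `0` in the window. -/
def Good (r0 n : ℕ) (γ : Gr) : Prop := ∀ y ∈ γ.1, (r0 : ℤ) ≤ y.1 → y.1 ≤ 2 * (n : ℤ) + 1 - r0 → y.2 ≠ 0

/-- The cone points in the window. -/
noncomputable def win (r0 n : ℕ) (γ : Gr) : Finset (ℤ × ℤ) := wcp r0 (2 * (n : ℤ) + 1 - r0) γ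

open Classical in
/-- The two sided sum restricted to the cut points near the ends. -/
noncomputable def SSw (q ρ ρ' : ℝ) (r0 r1 n : ℕ) (γ : Gr) : ℝ :=
  ∑ c ∈ (win r0 n γ).filter (fun c => c.1 ≤ (r0 : ℤ) + r1),
    ∑ c' ∈ (wcp c.1 (2 * (n : ℤ) + 1 - r0) γ).filter (fun c' => 2 * (n : ℤ) + 1 - (r0 : ℤ) - (r1 : ℤ) ≤ c'.1),
      AA q ρ ρ' (Dn n) (r0 : ℤ) c (low c γ) * W1 q ρ (seg c c' γ) *
        BB q ρ ρ' (Dn n) (2 * (n : ℤ) + 1 - r0) c' (upp c' γ)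

end Pool.Helper83.OZ
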