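import Pool.Agent.Helper83.OZ.Ls

/-!
Project OZ (MP_7e0861_pr), part L5, block MS1: the two sided sum of one cluster.

Let `γ ∈ Cl D u v` be good, `lo = r0`, `hi = N - r0` (`1 ≤ r0`), `J = (win r0 n γ).card`. Constants `C, z` of `key`, `C', c` of `WT_ge`.
`SS ≥ (1 - C z^J) WT = WT - C z^J WT ≥ WT - C z^J WD` (`WT_le`), `WT ≥ (1 - ∑ eta) WD` if `J ≥ 1` (`WT_ge`), so (also for `J = 0`,
where `SS = 0`) `SS ≥ (1 - ∑ eta - max C 1 * z^J) WD`. `SS - SSw` is the sum over the pairs `(c, c')` with `c.1 > r0 + r1` or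
`c'.1 < N - r0 - r1` (all terms are nonnegative, `key` (1), (2); `W1 ≥ 0`): the pairs with `c.1 > r0 + r1` give at most
`∑ c, AA c (low c γ) * XM c (upp c γ)` (`key` (4)) `≤ ∑ c, C z^(..) WD (low c γ) * WD (upp c γ)` (`key` (1), `WM_le`, `XM_le`;
`low c γ` has no vertex in the row `0` in the columns `≥ lo`, its columns are `≤ c.1`; `upp c γ` similarly), the pairs with
`c'.1 < N - r0 - r1` at most `∑ c', WM c' (low c' γ) * BB c' (upp c' γ)` (`key` (3); exchange the sums: `c ∈ wcp lo hi γ` and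
`c' ∈ wcp c.1 hi γ` iff `c' ∈ wcp lo hi γ` and `c ∈ wcp lo c'.1 γ`).
-/

namespace Pool.Helper83.OZ

open Pool.Helper49.FK
open Pool.Helper17.OZ (Y CP Dbl NoCP nd rect tau)
open Pool.Helper95.OZ (FG fI seg)
open Pool.Agent.Helper49.QP (Dn Rn)

variable {q ρ ρ' : ℝ}

private theorem split86 {ι : Type*} (S : Finset ι) (I I' : ι → Finset ι) (P Q : ι → Prop)
    [DecidablePred P] [DecidablePred Q] (f : ι → ι → ℝ) (hf : ∀ c ∈ S, ∀ c' ∈ I c, 0 ≤ f c c')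
    (hI : ∀ c c', (c ∈ S ∧ c' ∈ I c) ↔ (c' ∈ S ∧ c ∈ I' c')) :
    ∑ c ∈ S, ∑ c' ∈ I c, f c c' ≤ ∑ c ∈ S.filter Q, ∑ c' ∈ (I c).filter P, f c c' +
      ∑ c ∈ S.filter (fun c => ¬ Q c), ∑ c' ∈ I c, f c c' +
        ∑ c' ∈ S.filter (fun c => ¬ P c), ∑ c ∈ I' c', f c c' := by
  have h1 : ∑ c ∈ S, ∑ c' ∈ I c, f c c' = ∑ c ∈ S, ∑ c' ∈ (I c).filter P, f c c' +
      ∑ c ∈ S, ∑ c' ∈ (I c).filter (fun c' => ¬ P c'), f c c' := by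
    rw [← Finset.sum_add_distrib]
    refine Finset.sum_congr rfl fun c _ => ?_
    rw [Finset.sum_filter_add_sum_filter_not]
  have h2 : ∑ c ∈ S, ∑ c' ∈ (I c).filter (fun c' => ¬ P c'), f c c' =
      ∑ c' ∈ S.filter (fun c => ¬ P c), ∑ c ∈ I' c', f c c' := by
    refine Finset.sum_comm' fun c c' => ?_
    rw [Finset.mem_filter, Finset.mem_filter]
    have h3 := hI c c'
    tauto
  have h4 : ∑ c ∈ S, ∑ c' ∈ (I c).filter P, f c c' = ∑ c ∈ S.filter Q, ∑ c' ∈ (I c).filter P, f c c' +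
      ∑ c ∈ S.filter (fun c => ¬ Q c), ∑ c' ∈ (I c).filter P, f c c' := by
    rw [Finset.sum_filter_add_sum_filter_not]
  have h5 : ∑ c ∈ S.filter (fun c => ¬ Q c), ∑ c' ∈ (I c).filter P, f c c' ≤
      ∑ c ∈ S.filter (fun c => ¬ Q c), ∑ c' ∈ I c, f c c' := by
    refine Finset.sum_le_sum fun c hc => ?_
    refine Finset.sum_le_sum_of_subset_of_nonneg (Finset.filter_subset _ _) fun c' hc' _ => ?_
    exact hf c (Finset.mem_filter.1 hc).1 c' hc'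
  rw [h1, h2, h4]
  linarith

private theorem dfc_pos86 (hρ' : 0 < ρ') (h : ρ' ≤ ρ) (e : Edge) : 0 ≤ dfc ρ ρ' e := by
  unfold dfc
  split_ifs
  · exact hρ'.le
  · exact hρ'.le.trans h

private theorem W1_nonneg86 (hq : 1 ≤ q) (hρ : 0 < ρ) (γ : Gr) : 0 ≤ W1 q ρ γ := by
  unfold W1
  split_ifs
  · exact zero_le_one
  · unfold WI bg
    have h1 := (PsiI_pos hq hρ.le γ.1).le
    have h2 : 0 ≤ ∏ e ∈ γ.2, hom ρ e := Finset.prod_nonneg fun e _ => hρ.le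
    have h3 : (0 : ℝ) ≤ q ^ (γ.1.card - 1) := pow_nonneg (by linarith) _
    exact mul_nonneg (div_nonneg h2 h3) h1

private theorem WD_nonneg86 (hq : 1 ≤ q) (hρ' : 0 < ρ') (h : ρ' ≤ ρ) (D : Finset (ℤ × ℤ)) (γ : Gr) :
    0 ≤ WD q (dfc ρ ρ') D γ :=
  WD_nonneg (by linarith) (dfc_pos86 hρ' h) γ

private theorem mem_low86 {m y : ℤ × ℤ} {γ : Gr} : y ∈ (low m γ).1 ↔ y ∈ γ.1 ∧ Y (m - y) := by
  classical
  unfold low
  exact Finset.mem_filter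

private theorem mem_upp86 {m y : ℤ × ℤ} {γ : Gr} : y ∈ (upp m γ).1 ↔ y ∈ γ.1 ∧ Y (y - m) := by
  classical
  unfold upp
  exact Finset.mem_filter

/-- the consequences of `key` for one cluster which has no vertex in the row `0` in the window -/
private theorem one86 (hq : 1 ≤ q) (hρ' : 0 < ρ') (h : ρ' ≤ ρ) {C z : ℝ} (hC : 0 < C) (hz : 0 < z)
    {D : Finset (ℤ × ℤ)} {lo hi : ℤ} {γ : Gr} (hγ : IsClu γ.1 γ.2)
    (h0 : ∀ y ∈ γ.1, lo ≤ y.1 → y.1 ≤ hi → y.2 ≠ 0)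
    (k1 : ∀ c ∈ wcp lo hi γ, 0 ≤ AA q ρ ρ' D lo c (low c γ) ∧
        AA q ρ ρ' D lo c (low c γ) ≤ C * z ^ (wcp lo (c.1 - 1) γ).card * WM q ρ ρ' D lo c (low c γ))
    (k2 : ∀ c ∈ wcp lo hi γ, 0 ≤ BB q ρ ρ' D hi c (upp c γ) ∧
        BB q ρ ρ' D hi c (upp c γ) ≤ C * z ^ (wcp (c.1 + 1) hi γ).card * XM q ρ ρ' D hi c (upp c γ))
    (k3 : ∀ c' ∈ wcp lo hi γ, WM q ρ ρ' D lo c' (low c' γ) =
        ∑ c ∈ wcp lo c'.1 γ, AA q ρ ρ' D lo c (low c γ) * W1 q ρ (seg c c' γ))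
    (k4 : ∀ c ∈ wcp lo hi γ, XM q ρ ρ' D hi c (upp c γ) =
        ∑ c' ∈ wcp c.1 hi γ, W1 q ρ (seg c c' γ) * BB q ρ ρ' D hi c' (upp c' γ)) :
    (∀ c ∈ wcp lo hi γ, ∀ c' ∈ wcp c.1 hi γ, 0 ≤ AA q ρ ρ' D lo c (low c γ) * W1 q ρ (seg c c' γ) *
      BB q ρ ρ' D hi c' (upp c' γ)) ∧
    (∀ c ∈ wcp lo hi γ, ∑ c' ∈ wcp c.1 hi γ, AA q ρ ρ' D lo c (low c γ) * W1 q ρ (seg c c' γ) *
      BB q ρ ρ' D hi c' (upp c' γ) ≤
        C * ((z ^ (wcp lo (c.1 - 1) (low c γ)).card * WD q (dfc ρ ρ') D (low c γ)) *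
          WD q (dfc ρ ρ') D (upp c γ))) ∧
    (∀ c' ∈ wcp lo hi γ, ∑ c ∈ wcp lo c'.1 γ, AA q ρ ρ' D lo c (low c γ) * W1 q ρ (seg c c' γ) *
      BB q ρ ρ' D hi c' (upp c' γ) ≤
        C * (WD q (dfc ρ ρ') D (low c' γ) *
          (z ^ (wcp (c'.1 + 1) hi (upp c' γ)).card * WD q (dfc ρ ρ') D (upp c' γ)))) := by
  have hρ : 0 < ρ := hρ'.trans_le h
  have sub1 : ∀ c ∈ wcp lo hi γ, ∀ c' ∈ wcp c.1 hi γ, c' ∈ wcp lo hi γ := by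
    intro c hc c' hc'
    obtain ⟨_, a2, _⟩ := mem_wcp.1 hc
    obtain ⟨b1, b2, b3⟩ := mem_wcp.1 hc'
    exact mem_wcp.2 ⟨b1, a2.trans b2, b3⟩
  have sub2 : ∀ c' ∈ wcp lo hi γ, ∀ c ∈ wcp lo c'.1 γ, c ∈ wcp lo hi γ := by
    intro c' hc' c hc
    obtain ⟨_, _, a3⟩ := mem_wcp.1 hc'
    obtain ⟨b1, b2, b3⟩ := mem_wcp.1 hc
    exact mem_wcp.2 ⟨b1, b2, b3.trans a3⟩
  have hWM : ∀ c ∈ wcp lo hi γ, WM q ρ ρ' D lo c (low c γ) ≤ WD q (dfc ρ ρ') D (low c γ) := by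
    intro c hc
    obtain ⟨a1, a2, a3⟩ := mem_wcp.1 hc
    obtain ⟨b1, _, b3⟩ := low_spec hγ a1
    refine WM_le hq hρ' h b1 b3 fun y hy hl => ?_
    obtain ⟨d1, d2⟩ := mem_low86.1 hy
    exact h0 y d1 hl ((Y_le d2).trans a3)
  have hXM : ∀ c ∈ wcp lo hi γ, XM q ρ ρ' D hi c (upp c γ) ≤ WD q (dfc ρ ρ') D (upp c γ) := by
    intro c hc
    obtain ⟨a1, a2, a3⟩ := mem_wcp.1 hc
    obtain ⟨b1, _, b3⟩ := upp_spec hγ a1
    refine XM_le hq hρ' h b1 b3 fun y hy hl => ?_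
    obtain ⟨d1, d2⟩ := mem_upp86.1 hy
    exact h0 y d1 (a2.trans (Y_le d2)) hl
  have hWM0 : ∀ c ∈ wcp lo hi γ, 0 ≤ WM q ρ ρ' D lo c (low c γ) := by
    intro c hc
    rw [k3 c hc]
    exact Finset.sum_nonneg fun m hm => mul_nonneg (k1 m (sub2 c hc m hm)).1 (W1_nonneg86 hq hρ _)
  have hXM0 : ∀ c ∈ wcp lo hi γ, 0 ≤ XM q ρ ρ' D hi c (upp c γ) := by
    intro c hc
    rw [k4 c hc]
    exact Finset.sum_nonneg fun m hm => mul_nonneg (W1_nonneg86 hq hρ _) (k2 m (sub1 c hc m hm)).1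
  refine ⟨fun c hc c' hc' => ?_, fun c hc => ?_, fun c' hc' => ?_⟩
  · exact mul_nonneg (mul_nonneg (k1 c hc).1 (W1_nonneg86 hq hρ _)) (k2 c' (sub1 c hc c' hc')).1
  · have e1 : ∑ c' ∈ wcp c.1 hi γ, AA q ρ ρ' D lo c (low c γ) * W1 q ρ (seg c c' γ) *
        BB q ρ ρ' D hi c' (upp c' γ) = AA q ρ ρ' D lo c (low c γ) * XM q ρ ρ' D hi c (upp c γ) := by
      rw [k4 c hc, Finset.mul_sum]
      exact Finset.sum_congr rfl fun m _ => mul_assoc _ _ _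
    obtain ⟨a1, a2, a3⟩ := mem_wcp.1 hc
    rw [e1, wcp_low hγ a1 (by omega)]
    have e2 : AA q ρ ρ' D lo c (low c γ) ≤
        C * z ^ (wcp lo (c.1 - 1) γ).card * WD q (dfc ρ ρ') D (low c γ) :=
      (k1 c hc).2.trans (mul_le_mul_of_nonneg_left (hWM c hc) (by positivity))
    have e3 := WD_nonneg86 hq hρ' h D (low c γ)
    calc AA q ρ ρ' D lo c (low c γ) * XM q ρ ρ' D hi c (upp c γ)
        ≤ (C * z ^ (wcp lo (c.1 - 1) γ).card * WD q (dfc ρ ρ') D (low c γ)) * WD q (dfc ρ ρ') D (upp c γ) :=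
          mul_le_mul e2 (hXM c hc) (hXM0 c hc) (by positivity)
      _ = _ := by ring
  · have e1 : ∑ c ∈ wcp lo c'.1 γ, AA q ρ ρ' D lo c (low c γ) * W1 q ρ (seg c c' γ) *
        BB q ρ ρ' D hi c' (upp c' γ) = WM q ρ ρ' D lo c' (low c' γ) * BB q ρ ρ' D hi c' (upp c' γ) := by
      rw [k3 c' hc', Finset.sum_mul]
    obtain ⟨a1, a2, a3⟩ := mem_wcp.1 hc'
    rw [e1, wcp_upp hγ a1 (by omega)]
    have e2 : BB q ρ ρ' D hi c' (upp c' γ) ≤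
        C * z ^ (wcp (c'.1 + 1) hi γ).card * WD q (dfc ρ ρ') D (upp c' γ) :=
      (k2 c' hc').2.trans (mul_le_mul_of_nonneg_left (hXM c' hc') (by positivity))
    have e3 := WD_nonneg86 hq hρ' h D (low c' γ)
    calc WM q ρ ρ' D lo c' (low c' γ) * BB q ρ ρ' D hi c' (upp c' γ)
        ≤ WD q (dfc ρ ρ') D (low c' γ) *
          (C * z ^ (wcp (c'.1 + 1) hi γ).card * WD q (dfc ρ ρ') D (upp c' γ)) :=
          mul_le_mul (hWM c' hc') e2 (k2 c' hc').1 e3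
      _ = _ := by ring

open Classical in
theorem mass_one (hq : 1 ≤ q) (hρ' : 0 < ρ') (h : ρ' ≤ ρ) (hD : ExpDecay q ρ) :
    ∃ C z Ce ce : ℝ, 0 < C ∧ 0 < z ∧ z < 1 ∧ 0 < Ce ∧ 0 < ce ∧ ∀ (r0 r1 n : ℕ) (γ : Gr), 1 ≤ r0 →
      γ ∈ Cl (Dn n) (0, 0) (Rn n) → Good r0 n γ →
      WD q (dfc ρ ρ') (Dn n) γ ≤ SSw q ρ ρ' r0 r1 n γ +
        (∑ y ∈ mid r0 (2 * (n : ℤ) + 1 - r0) (0, 0) (Rn n) γ,
          eta Ce ce 0 (2 * (n : ℤ) + 1) (-(n : ℤ)) n y) * WD q (dfc ρ ρ') (Dn n) γ +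
        C * (z ^ (win r0 n γ).card * WD q (dfc ρ ρ') (Dn n) γ) +
        C * ∑ c ∈ (win r0 n γ).filter (fun c => (r0 : ℤ) + r1 < c.1),
          (z ^ (wcp r0 (c.1 - 1) (low c γ)).card * WD q (dfc ρ ρ') (Dn n) (low c γ)) *
            WD q (dfc ρ ρ') (Dn n) (upp c γ) +
        C * ∑ c ∈ (win r0 n γ).filter (fun c => c.1 < 2 * (n : ℤ) + 1 - r0 - r1),
          WD q (dfc ρ ρ') (Dn n) (low c γ) *
            (z ^ (wcp (c.1 + 1) (2 * (n : ℤ) + 1 - r0) (upp c γ)).card * WD q (dfc ρ ρ') (Dn n) (upp c γ)) := by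
  obtain ⟨C, z, hC, hz, hz1, hkey⟩ := key hq hρ' h hD
  obtain ⟨Ce, ce, hCe, hce, hWT⟩ := WT_ge hq hρ' h hD
  refine ⟨max C 1, z, Ce, ce, lt_of_lt_of_le hC (le_max_left _ _), hz, hz1, hCe, hce,
    fun r0 r1 n γ hr hγ hG => ?_⟩
  obtain ⟨hγD, hγc, hu, hv⟩ := mem_Cl.1 hγ
  have hG' : ∀ y ∈ γ.1, (r0 : ℤ) ≤ y.1 → y.1 ≤ 2 * (n : ℤ) + 1 - r0 → y.2 ≠ 0 := hG
  obtain ⟨k1, k2, k3, k4, _, k6⟩ := hkey (Dn n) r0 (2 * (n : ℤ) + 1 - r0) γ hγc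
  obtain ⟨o1, o2, o3⟩ := one86 hq hρ' h hC hz hγc hG' k1 k2 k3 k4
  have hwin : win r0 n γ = wcp r0 (2 * (n : ℤ) + 1 - r0) γ := rfl
  have hMC : C ≤ max C 1 := le_max_left _ _
  have hM1 : 1 ≤ max C 1 := le_max_right _ _
  have hw := WD_nonneg86 hq hρ' h (Dn n) γ
  -- the three error sums are nonnegative
  have p1 : 0 ≤ ∑ y ∈ mid r0 (2 * (n : ℤ) + 1 - r0) (0, 0) (Rn n) γ,
      eta Ce ce 0 (2 * (n : ℤ) + 1) (-(n : ℤ)) n y := by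
    refine Finset.sum_nonneg fun y _ => ?_
    unfold eta
    positivity
  have p2 : ∀ S : Finset (ℤ × ℤ), 0 ≤ ∑ c ∈ S,
      (z ^ (wcp r0 (c.1 - 1) (low c γ)).card * WD q (dfc ρ ρ') (Dn n) (low c γ)) *
        WD q (dfc ρ ρ') (Dn n) (upp c γ) := fun S => Finset.sum_nonneg fun c _ =>
    mul_nonneg (mul_nonneg (pow_nonneg hz.le _) (WD_nonneg86 hq hρ' h _ _)) (WD_nonneg86 hq hρ' h _ _)
  have p3 : ∀ S : Finset (ℤ × ℤ), 0 ≤ ∑ c ∈ S, WD q (dfc ρ ρ') (Dn n) (low c γ) *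
      (z ^ (wcp (c.1 + 1) (2 * (n : ℤ) + 1 - r0) (upp c γ)).card * WD q (dfc ρ ρ') (Dn n) (upp c γ)) :=
    fun S => Finset.sum_nonneg fun c _ =>
      mul_nonneg (WD_nonneg86 hq hρ' h _ _) (mul_nonneg (pow_nonneg hz.le _) (WD_nonneg86 hq hρ' h _ _))
  -- the two sided sum and its restriction
  have hsplit : SS q ρ ρ' (Dn n) r0 (2 * (n : ℤ) + 1 - r0) γ ≤ SSw q ρ ρ' r0 r1 n γ +
      C * ∑ c ∈ (win r0 n γ).filter (fun c => (r0 : ℤ) + r1 < c.1),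
        (z ^ (wcp r0 (c.1 - 1) (low c γ)).card * WD q (dfc ρ ρ') (Dn n) (low c γ)) *
          WD q (dfc ρ ρ') (Dn n) (upp c γ) +
      C * ∑ c ∈ (win r0 n γ).filter (fun c => c.1 < 2 * (n : ℤ) + 1 - r0 - r1),
        WD q (dfc ρ ρ') (Dn n) (low c γ) *
          (z ^ (wcp (c.1 + 1) (2 * (n : ℤ) + 1 - r0) (upp c γ)).card * WD q (dfc ρ ρ') (Dn n) (upp c γ)) := by
    have s1 := split86 (wcp r0 (2 * (n : ℤ) + 1 - r0) γ) (fun c => wcp c.1 (2 * (n : ℤ) + 1 - r0) γ)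
      (fun c' => wcp r0 c'.1 γ) (fun c' => 2 * (n : ℤ) + 1 - (r0 : ℤ) - (r1 : ℤ) ≤ c'.1)
      (fun c => c.1 ≤ (r0 : ℤ) + r1)
      (fun c c' => AA q ρ ρ' (Dn n) (r0 : ℤ) c (low c γ) * W1 q ρ (seg c c' γ) *
        BB q ρ ρ' (Dn n) (2 * (n : ℤ) + 1 - r0) c' (upp c' γ)) o1 (fun c c' => by
        rw [mem_wcp, mem_wcp, mem_wcp, mem_wcp]
        constructor
        · rintro ⟨⟨a1, a2, a3⟩, b1, b2, b3⟩
          exact ⟨⟨b1, a2.trans b2, b3⟩, a1, a2, b2⟩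
        · rintro ⟨⟨b1, b2, b3⟩, a1, a2, a3⟩
          exact ⟨⟨a1, a2, a3.trans b3⟩, b1, a3, b3⟩)
    have s2 : ∑ c ∈ (wcp r0 (2 * (n : ℤ) + 1 - r0) γ).filter (fun c => ¬ c.1 ≤ (r0 : ℤ) + r1),
        ∑ c' ∈ wcp c.1 (2 * (n : ℤ) + 1 - r0) γ, AA q ρ ρ' (Dn n) (r0 : ℤ) c (low c γ) *
          W1 q ρ (seg c c' γ) * BB q ρ ρ' (Dn n) (2 * (n : ℤ) + 1 - r0) c' (upp c' γ) ≤
        C * ∑ c ∈ (win r0 n γ).filter (fun c => (r0 : ℤ) + r1 < c.1),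
          (z ^ (wcp r0 (c.1 - 1) (low c γ)).card * WD q (dfc ρ ρ') (Dn n) (low c γ)) *
            WD q (dfc ρ ρ') (Dn n) (upp c γ) := by
      rw [Finset.mul_sum, hwin]
      simp only [not_le]
      exact Finset.sum_le_sum fun c hc => o2 c (Finset.mem_filter.1 hc).1
    have s3 : ∑ c' ∈ (wcp r0 (2 * (n : ℤ) + 1 - r0) γ).filter
        (fun c' => ¬ 2 * (n : ℤ) + 1 - (r0 : ℤ) - (r1 : ℤ) ≤ c'.1),
        ∑ c ∈ wcp r0 c'.1 γ, AA q ρ ρ' (Dn n) (r0 : ℤ) c (low c γ) *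
          W1 q ρ (seg c c' γ) * BB q ρ ρ' (Dn n) (2 * (n : ℤ) + 1 - r0) c' (upp c' γ) ≤
        C * ∑ c ∈ (win r0 n γ).filter (fun c => c.1 < 2 * (n : ℤ) + 1 - r0 - r1),
          WD q (dfc ρ ρ') (Dn n) (low c γ) *
            (z ^ (wcp (c.1 + 1) (2 * (n : ℤ) + 1 - r0) (upp c γ)).card * WD q (dfc ρ ρ') (Dn n) (upp c γ)) := by
      rw [Finset.mul_sum, hwin]
      simp only [not_le]
      exact Finset.sum_le_sum fun c hc => o3 c (Finset.mem_filter.1 hc).1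
    unfold SS SSw
    rw [hwin] at *
    linarith
  -- enlarge the constant
  have q2 := mul_le_mul_of_nonneg_right hMC (p2 ((win r0 n γ).filter (fun c => (r0 : ℤ) + r1 < c.1)))
  have q3 := mul_le_mul_of_nonneg_right hMC
    (p3 ((win r0 n γ).filter (fun c => c.1 < 2 * (n : ℤ) + 1 - r0 - r1)))
  have hzJ : 0 ≤ z ^ (win r0 n γ).card * WD q (dfc ρ ρ') (Dn n) γ := mul_nonneg (pow_nonneg hz.le _) hw
  by_cases hJ : (win r0 n γ).Nonempty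
  · have t1 : (1 - ∑ y ∈ mid r0 (2 * (n : ℤ) + 1 - r0) (0, 0) (Rn n) γ,
        eta Ce ce 0 (2 * (n : ℤ) + 1) (-(n : ℤ)) n y) * WD q (dfc ρ ρ') (Dn n) γ ≤
        WT q ρ ρ' (Dn n) r0 (2 * (n : ℤ) + 1 - r0) γ := by
      refine hWT 0 (2 * (n : ℤ) + 1) (-(n : ℤ)) n r0 (2 * (n : ℤ) + 1 - r0) (0, 0) (Rn n) γ hγ ?_ ?_ hJ hG'
      · show (0 : ℤ) < r0
        omega
      · show 2 * (n : ℤ) + 1 - r0 < 2 * (n : ℤ) + 1
        omega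
    have t2 : WT q ρ ρ' (Dn n) r0 (2 * (n : ℤ) + 1 - r0) γ ≤ WD q (dfc ρ ρ') (Dn n) γ :=
      WT_le hq hρ' h hγc hG'
    have t3 : C * z ^ (win r0 n γ).card * WT q ρ ρ' (Dn n) r0 (2 * (n : ℤ) + 1 - r0) γ ≤
        C * z ^ (win r0 n γ).card * WD q (dfc ρ ρ') (Dn n) γ :=
      mul_le_mul_of_nonneg_left t2 (by positivity)
    have q1 := mul_le_mul_of_nonneg_right hMC hzJ
    rw [← hwin] at k6
    linarith
  · rw [Finset.not_nonempty_iff_eq_empty] at hJ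
    have t1 : SSw q ρ ρ' r0 r1 n γ = 0 := by
      unfold SSw
      rw [hJ, Finset.filter_empty, Finset.sum_empty]
    have t2 : (win r0 n γ).card = 0 := by rw [hJ, Finset.card_empty]
    have q4 := mul_nonneg p1 hw
    have q5 := mul_le_mul_of_nonneg_right hM1 hw
    have q6 := mul_nonneg (hC.le.trans hMC) (p2 ((win r0 n γ).filter (fun c => (r0 : ℤ) + r1 < c.1)))
    have q7 := mul_nonneg (hC.le.trans hMC)
      (p3 ((win r0 n γ).filter (fun c => c.1 < 2 * (n : ℤ) + 1 - r0 - r1)))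
    rw [t1, t2, pow_zero]
    linarith

theorem SSw_nonneg_le (hq : 1 ≤ q) (hρ' : 0 < ρ') (h : ρ' ≤ ρ) (hD : ExpDecay q ρ) {r0 r1 n : ℕ} {γ : Gr}
    (hr : 1 ≤ r0) (hγ : γ ∈ Cl (Dn n) (0, 0) (Rn n)) (hG : Good r0 n γ) :
    0 ≤ SSw q ρ ρ' r0 r1 n γ ∧ SSw q ρ ρ' r0 r1 n γ ≤ WD q (dfc ρ ρ') (Dn n) γ := by
  classical
  obtain ⟨C, z, hC, hz, hz1, hkey⟩ := key hq hρ' h hD
  obtain ⟨hγD, hγc, hu, hv⟩ := mem_Cl.1 hγ
  have hG' : ∀ y ∈ γ.1, (r0 : ℤ) ≤ y.1 → y.1 ≤ 2 * (n : ℤ) + 1 - r0 → y.2 ≠ 0 := hG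
  obtain ⟨k1, k2, k3, k4, k5, _⟩ := hkey (Dn n) r0 (2 * (n : ℤ) + 1 - r0) γ hγc
  obtain ⟨o1, _, _⟩ := one86 hq hρ' h hC hz hγc hG' k1 k2 k3 k4
  have t2 : WT q ρ ρ' (Dn n) r0 (2 * (n : ℤ) + 1 - r0) γ ≤ WD q (dfc ρ ρ') (Dn n) γ :=
    WT_le hq hρ' h hγc hG'
  constructor
  · unfold SSw
    exact Finset.sum_nonneg fun c hc => Finset.sum_nonneg fun c' hc' =>
      o1 c (Finset.mem_filter.1 hc).1 c' (Finset.mem_filter.1 hc').1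
  · refine le_trans ?_ (k5.trans t2)
    unfold SSw SS
    refine le_trans (Finset.sum_le_sum (g := fun c => ∑ c' ∈ wcp c.1 (2 * (n : ℤ) + 1 - r0) γ,
      AA q ρ ρ' (Dn n) (r0 : ℤ) c (low c γ) * W1 q ρ (seg c c' γ) *
        BB q ρ ρ' (Dn n) (2 * (n : ℤ) + 1 - r0) c' (upp c' γ)) fun c hc => ?_) ?_
    · exact Finset.sum_le_sum_of_subset_of_nonneg (Finset.filter_subset _ _) fun c' hc' _ =>
        o1 c (Finset.mem_filter.1 hc).1 c' hc'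
    · exact Finset.sum_le_sum_of_subset_of_nonneg (Finset.filter_subset _ _) fun c hc _ =>
        Finset.sum_nonneg fun c' hc' => o1 c hc c' hc'

end Pool.Helper83.OZ
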