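import Pool.Agent.Helper83.OZ.Ls
import Pool.Agent.Helper95.OZ.Rfl

/-!
Project OZ (MP_7e0861_pr), part L5, block SB1: the reflection `mir` in the row `0`, and the side of the row `0`.

`mir γ = rfG γ` (Helper95/OZ/Def.lean) by `rfl`; see Helper95/OZ/Rfl.lean for the pattern. `WD_mir`: `Z_rfY` (FK/Two) for
`Dn n` and `Dn n ∖ γ.1` (`rfY (Dn n) = Dn n`), the reflection of edges is injective, preserves horizontal edges of the
row `0` and the card. `same_side`: the set of the `y` with `1 ≤ y.2` among the vertices of the connected graph `δ`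
is closed under the edges of `δ` (an edge changes the row by at most `1` and no vertex is in the row `0`): `Conn.induct`.
`ab_or`: let `γ` be good with a cone point `s` in the window, and `t` another one, `s.1 ≤ t.1`: `seg s t γ` is connected, its
vertices are in the window, so not in the row `0`; by `same_side` all cone points of the window are on the same side
as the first one; if it is in a row `≥ 1` then `Ab γ`, otherwise `Ab (mir γ)` (`win_mir`). `not_both`: clear.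
-/

namespace Pool.Helper83.OZ

open Pool.Helper49.FK
open Pool.Helper17.OZ (Y CP Dbl NoCP nd rect tau)
open Pool.Helper95.OZ (FG fI seg)
open Pool.Agent.Helper49.QP (Dn Rn)
open Pool.Agent.Helper49.OZ (mir)

/-- Good, with a cone point in the window, all of them in the rows `≥ 1`. -/
def Ab (r0 n : ℕ) (γ : Gr) : Prop := Good r0 n γ ∧ (win r0 n γ).Nonempty ∧ ∀ c ∈ win r0 n γ, 1 ≤ c.2

variable {q ρ ρ' : ℝ} {r0 n : ℕ} {γ : Gr}

private theorem rf_rf78 (x : ℤ × ℤ) : ((x.1, -x.2).1, -(x.1, -x.2).2) = x := by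
  simp

private theorem mem_rfY78 {V : Finset (ℤ × ℤ)} {x : ℤ × ℤ} : x ∈ rfY V ↔ (x.1, -x.2) ∈ V := by
  unfold rfY
  rw [Finset.mem_image]
  constructor
  · rintro ⟨y, hy, rfl⟩
    simpa using hy
  · intro h
    exact ⟨(x.1, -x.2), h, by simp⟩

private theorem mir_fst78 (γ : Gr) : (mir γ).1 = rfY γ.1 := rfl

private theorem mir_snd78 (γ : Gr) : (mir γ).2 = γ.2.image Pool.Helper95.OZ.rfE := rfl

private theorem mem_mir78 {γ : Gr} {x : ℤ × ℤ} : x ∈ (mir γ).1 ↔ (x.1, -x.2) ∈ γ.1 := by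
  rw [mir_fst78]
  exact mem_rfY78

private theorem rfE_rfE78 (e : Edge) : Pool.Helper95.OZ.rfE (Pool.Helper95.OZ.rfE e) = e := by
  obtain ⟨⟨x, y⟩, b⟩ := e
  cases b <;> simp [Pool.Helper95.OZ.rfE]

private theorem rfE_inj78 : Function.Injective Pool.Helper95.OZ.rfE := fun x y h => by
  rw [← rfE_rfE78 x, h, rfE_rfE78]

private theorem ends78 (e : Edge) :
    ((Pool.Helper95.OZ.rfE e).1 = (e.1.1, -e.1.2) ∧
      tip (Pool.Helper95.OZ.rfE e) = ((tip e).1, -(tip e).2)) ∨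
    ((Pool.Helper95.OZ.rfE e).1 = ((tip e).1, -(tip e).2) ∧
      tip (Pool.Helper95.OZ.rfE e) = (e.1.1, -e.1.2)) := by
  obtain ⟨⟨x, y⟩, b⟩ := e
  cases b
  · right
    simp [Pool.Helper95.OZ.rfE, tip]
    omega
  · left
    simp [Pool.Helper95.OZ.rfE, tip]

private theorem conn78 {C : Finset Edge} {x y : ℤ × ℤ} (h : Conn C x y) :
    Conn (C.image Pool.Helper95.OZ.rfE) (x.1, -x.2) (y.1, -y.2) := by
  refine Conn.induct (S := {y | Conn (C.image Pool.Helper95.OZ.rfE) (x.1, -x.2) (y.1, -y.2)}) h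
    (Conn.refl _ _) fun e he => ?_
  have h2 := conn_edge (Finset.mem_image_of_mem Pool.Helper95.OZ.rfE he)
  have h3 : Conn (C.image Pool.Helper95.OZ.rfE) (e.1.1, -e.1.2) ((tip e).1, -(tip e).2) := by
    rcases ends78 e with ⟨h4, h5⟩ | ⟨h4, h5⟩
    · rwa [h4, h5] at h2
    · rw [h4, h5] at h2
      exact h2.symm
  exact ⟨fun h => Conn.trans h h3, fun h => Conn.trans h h3.symm⟩

private theorem isClu78 {γ : Gr} (h : IsClu γ.1 γ.2) : IsClu (mir γ).1 (mir γ).2 := by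
  refine ⟨fun e he => ?_, fun x hx y hy => ?_⟩
  · rw [mir_snd78, Finset.mem_image] at he
    obtain ⟨e', he', rfl⟩ := he
    have h1 := mem_edges.1 (h.1 he')
    rw [mem_edges, mem_mir78, mem_mir78]
    rcases ends78 e' with ⟨h4, h5⟩ | ⟨h4, h5⟩
    · rw [h4, h5]
      simpa using h1
    · rw [h4, h5]
      simpa using h1.symm
  · rw [mem_mir78] at hx hy
    have h1 := conn78 (h.2 _ hx _ hy)
    simpa [mir_snd78] using h1

theorem mir_mir (γ : Gr) : mir (mir γ) = γ := Pool.Helper95.OZ.rfG_rfG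

private theorem mem_Dn78 {x : ℤ × ℤ} : (x.1, -x.2) ∈ Dn n ↔ x ∈ Dn n := by
  unfold Dn
  simp only [Finset.mem_product, Finset.mem_Icc]
  constructor
  · rintro ⟨h1, h2⟩
    refine ⟨h1, ?_, ?_⟩ <;> omega
  · rintro ⟨h1, h2⟩
    refine ⟨h1, ?_, ?_⟩ <;> omega

private theorem mem_one78 (h : γ ∈ Cl (Dn n) (0, 0) (Rn n)) : mir γ ∈ Cl (Dn n) (0, 0) (Rn n) := by
  obtain ⟨h1, h2, h3, h4⟩ := mem_Cl.1 h
  refine mem_Cl.2 ⟨fun y hy => ?_, isClu78 h2, ?_, ?_⟩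
  · exact mem_Dn78.1 (h1 (mem_mir78.1 hy))
  · rw [mem_mir78]
    simpa using h3
  · rw [mem_mir78]
    simpa [Rn] using h4

theorem mir_mem : mir γ ∈ Cl (Dn n) (0, 0) (Rn n) ↔ γ ∈ Cl (Dn n) (0, 0) (Rn n) := by
  refine ⟨fun h => ?_, mem_one78⟩
  have h1 := mem_one78 h
  rwa [mir_mir] at h1

private theorem card78 (V : Finset (ℤ × ℤ)) : (rfY V).card = V.card := by
  unfold rfY
  refine Finset.card_image_of_injective _ fun x y h => ?_
  have h1 := congrArg Prod.fst h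
  have h2 := congrArg Prod.snd h
  simp only at h1 h2
  exact Prod.ext h1 (by omega)

theorem WD_mir (hq : 0 < q) : WD q (dfc ρ ρ') (Dn n) (mir γ) = WD q (dfc ρ ρ') (Dn n) γ := by
  have _ := hq
  have h1 : bg q (dfc ρ ρ') (mir γ) = bg q (dfc ρ ρ') γ := by
    unfold bg
    rw [mir_snd78, mir_fst78, card78, Finset.prod_image fun x _ y _ h => rfE_inj78 h]
    congr 1
    refine Finset.prod_congr rfl fun e _ => ?_
    obtain ⟨⟨x, y⟩, b⟩ := e
    cases b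
    · simp [dfc, Pool.Helper95.OZ.rfE]
    · simp [dfc, Pool.Helper95.OZ.rfE]
  have h2 : Psi q (dfc ρ ρ') (Dn n) (mir γ).1 = Psi q (dfc ρ ρ') (Dn n) γ.1 := by
    have e1 : rfY γ.1 ∩ Dn n = rfY (γ.1 ∩ Dn n) := by
      ext x
      rw [Finset.mem_inter, mem_rfY78, mem_rfY78, Finset.mem_inter, mem_Dn78]
    have e2 : Dn n \ rfY γ.1 = rfY (Dn n \ γ.1) := by
      ext x
      rw [Finset.mem_sdiff, mem_rfY78, mem_rfY78, Finset.mem_sdiff, mem_Dn78]
    unfold Psi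
    rw [mir_fst78, e1, card78, e2, Z_rfY]
  unfold WD
  rw [h1, h2]

theorem good_mir : Good r0 n (mir γ) ↔ Good r0 n γ := by
  unfold Good
  constructor
  · intro h y hy h1 h2 h3
    refine h (y.1, -y.2) (mem_mir78.2 (by simpa using hy)) h1 h2 ?_
    simp [h3]
  · intro h y hy h1 h2 h3
    refine h (y.1, -y.2) (mem_mir78.1 hy) h1 h2 ?_
    simp [h3]

private theorem Y78 (x y : ℤ × ℤ) : Y ((x.1, -x.2) - y) ↔ Y (x - (y.1, -y.2)) := by
  unfold Y
  simp only [Prod.fst_sub, Prod.snd_sub]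
  rw [show -x.2 - y.2 = -(x.2 - -y.2) by ring, abs_neg]

private theorem cp78 {t : ℤ × ℤ} : CP (mir γ).1 t ↔ CP γ.1 (t.1, -t.2) := by
  unfold CP Pool.Helper17.OZ.Dbl
  rw [mem_mir78]
  refine and_congr_right fun _ => ⟨fun h y hy => ?_, fun h y hy => ?_⟩
  · have h2 := h (y.1, -y.2) (mem_mir78.2 (by simpa using hy))
    rw [Y78] at h2
    rcases h2 with h2 | h2
    · exact Or.inl h2
    · right
      rwa [Y78]
  · rw [mem_mir78] at hy
    have h2 := h (y.1, -y.2) hy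
    rw [Y78, Y78] at h2
    simpa using h2

private theorem mem_win78 {t : ℤ × ℤ} : t ∈ win r0 n (mir γ) ↔ (t.1, -t.2) ∈ win r0 n γ := by
  unfold win
  rw [mem_wcp, mem_wcp, cp78]

open Classical in
theorem win_mir : win r0 n (mir γ) = (win r0 n γ).image fun y => (y.1, -y.2) := by
  ext t
  rw [mem_win78, Finset.mem_image]
  constructor
  · intro h
    exact ⟨(t.1, -t.2), h, by simp⟩
  · rintro ⟨y, hy, rfl⟩
    simpa using hy

theorem same_side {δ : Gr} (h : IsClu δ.1 δ.2) (h0 : ∀ y ∈ δ.1, y.2 ≠ 0) {x y : ℤ × ℤ} (hx : x ∈ δ.1)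
    (hy : y ∈ δ.1) (h1 : 1 ≤ x.2) : 1 ≤ y.2 := by
  refine Conn.induct (S := {y : ℤ × ℤ | 1 ≤ y.2}) (h.2 x hx y hy) h1 fun e he => ?_
  have h2 := mem_edges.1 (h.1 he)
  have h3 := h0 _ h2.1
  have h4 := h0 _ h2.2
  rw [Set.mem_ofPred_eq, Set.mem_ofPred_eq]
  obtain ⟨⟨a, b⟩, t⟩ := e
  cases t
  · simp only [tip] at h3 h4 ⊢
    simp only [Bool.false_eq_true, if_false] at h4 ⊢
    omega
  · simp [tip]

private theorem side78 (h : IsClu γ.1 γ.2) (hG : Good r0 n γ) {s t : ℤ × ℤ} (hs : s ∈ win r0 n γ)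
    (ht : t ∈ win r0 n γ) (hst : s.1 ≤ t.1) : 1 ≤ s.2 ↔ 1 ≤ t.2 := by
  obtain ⟨h1, h2, _⟩ := mem_wcp.1 hs
  obtain ⟨h3, _, h4⟩ := mem_wcp.1 ht
  obtain ⟨g1, g2, g3, g4, g5⟩ := mem_Dm.1 (Pool.Helper95.OZ.seg_mem h h1 h3 hst)
  have h0 : ∀ y ∈ (seg s t γ).1, y.2 ≠ 0 := fun y hy =>
    hG y (Pool.Helper95.OZ.seg_vert.1 hy).1 (h2.trans (Y_le (g2 y hy))) ((Y_le (g3 y hy)).trans h4)
  exact ⟨fun h5 => same_side g1 h0 g4 g5 h5, fun h5 => same_side g1 h0 g5 g4 h5⟩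

theorem ab_or (h : γ ∈ Cl (Dn n) (0, 0) (Rn n)) (hG : Good r0 n γ) (hw : (win r0 n γ).Nonempty) :
    Ab r0 n γ ∨ Ab r0 n (mir γ) := by
  obtain ⟨_, hc, _, _⟩ := mem_Cl.1 h
  obtain ⟨s, hs⟩ := hw
  have h1 : ∀ t ∈ win r0 n γ, (1 ≤ s.2 ↔ 1 ≤ t.2) := by
    intro t ht
    rcases le_total s.1 t.1 with h2 | h2
    · exact side78 hc hG hs ht h2
    · exact (side78 hc hG ht hs h2).symm
  by_cases h2 : 1 ≤ s.2
  · exact Or.inl ⟨hG, ⟨s, hs⟩, fun t ht => (h1 t ht).1 h2⟩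
  · refine Or.inr ⟨good_mir.2 hG, ⟨(s.1, -s.2), mem_win78.2 (by simpa using hs)⟩, fun t ht => ?_⟩
    rw [mem_win78] at ht
    have h3 : ¬ 1 ≤ -t.2 := fun h4 => h2 ((h1 _ ht).2 h4)
    obtain ⟨h5, h6, h7⟩ := mem_wcp.1 ht
    have h8 := hG _ h5.1 h6 h7
    simp only at h8
    omega

theorem not_both (h1 : Ab r0 n γ) (h2 : Ab r0 n (mir γ)) : False := by
  obtain ⟨_, ⟨s, hs⟩, h3⟩ := h1
  have h4 := h3 s hs
  have h5 := h2.2.2 (s.1, -s.2) (mem_win78.2 (by simpa using hs))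
  simp only at h5
  omega

open Classical in
/-- Half of the good clusters are above. -/
theorem half_ab (hq : 0 < q) :
    2 * ∑ γ ∈ (Cl (Dn n) (0, 0) (Rn n)).filter (fun γ => Ab r0 n γ), WD q (dfc ρ ρ') (Dn n) γ =
      ∑ γ ∈ (Cl (Dn n) (0, 0) (Rn n)).filter (fun γ => Good r0 n γ ∧ (win r0 n γ).Nonempty),
        WD q (dfc ρ ρ') (Dn n) γ := by
  have h1 : (Cl (Dn n) (0, 0) (Rn n)).filter (fun γ => Good r0 n γ ∧ (win r0 n γ).Nonempty) =
      (Cl (Dn n) (0, 0) (Rn n)).filter (fun γ => Ab r0 n γ) ∪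
        (Cl (Dn n) (0, 0) (Rn n)).filter (fun γ => Ab r0 n (mir γ)) := by
    ext γ
    rw [Finset.mem_union, Finset.mem_filter, Finset.mem_filter, Finset.mem_filter]
    constructor
    · rintro ⟨h2, h3, h4⟩
      rcases ab_or h2 h3 h4 with h5 | h5
      · exact Or.inl ⟨h2, h5⟩
      · exact Or.inr ⟨h2, h5⟩
    · rintro (⟨h2, h3⟩ | ⟨h2, h3⟩)
      · exact ⟨h2, h3.1, h3.2.1⟩
      · refine ⟨h2, good_mir.1 h3.1, ?_⟩
        obtain ⟨s, hs⟩ := h3.2.1
        exact ⟨_, mem_win78.1 hs⟩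
  have h2 : Disjoint ((Cl (Dn n) (0, 0) (Rn n)).filter (fun γ => Ab r0 n γ))
      ((Cl (Dn n) (0, 0) (Rn n)).filter (fun γ => Ab r0 n (mir γ))) := by
    rw [Finset.disjoint_left]
    intro γ h3 h4
    exact not_both (Finset.mem_filter.1 h3).2 (Finset.mem_filter.1 h4).2
  have h3 : ∑ γ ∈ (Cl (Dn n) (0, 0) (Rn n)).filter (fun γ => Ab r0 n (mir γ)), WD q (dfc ρ ρ') (Dn n) γ =
      ∑ γ ∈ (Cl (Dn n) (0, 0) (Rn n)).filter (fun γ => Ab r0 n γ), WD q (dfc ρ ρ') (Dn n) γ := by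
    refine Finset.sum_nbij' mir mir ?_ ?_ ?_ ?_ ?_
    · intro γ hγ
      obtain ⟨g1, g2⟩ := Finset.mem_filter.1 hγ
      exact Finset.mem_filter.2 ⟨mir_mem.2 g1, g2⟩
    · intro γ hγ
      obtain ⟨g1, g2⟩ := Finset.mem_filter.1 hγ
      refine Finset.mem_filter.2 ⟨mir_mem.2 g1, ?_⟩
      rw [mir_mir]
      exact g2
    · intro γ _
      exact mir_mir γ
    · intro γ _
      exact mir_mir γ
    · intro γ _
      exact (WD_mir hq).symm
  rw [h1, Finset.sum_union h2, h3, two_mul]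

end Pool.Helper83.OZ
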