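import Pool.Agent.Helper83.OZ.Sb1

/-!
Project OZ (MP_7e0861_pr), part L5, block SB2: outer parts and clusters.

Bijection between the pairs (`i ∈ II`, `σ ∈ DmN n c c'`), `c = i.1.2`, `c' = i.2.2`, and the triples (`γ`, `c`, `c'`) with
`γ ∈ Cl D u v`, `Ab r0 n γ`, `c ∈ win` with `c.1 ≤ r0 + r1`, `c' ∈ wcp c.1 hi γ` with `N - r0 - r1 ≤ c'.1`:
`γ = join λ (join σ μ)`, and `λ = low c γ`, `σ = seg c c' γ`, `μ = upp c' γ` (`Jn.low`, `Jn.upp`, `Jn.low_right`, `Jn.cp_left`,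
`Jn.cp_right`, `seg c c' γ = low c' (upp c γ)`; note `c.1 ≤ r0 + r1 < N - r0 - r1 ≤ c'.1`).
Forward: `γ` is connected (`Jn.clu`), contained in `Dn n`; good: a vertex in the window is in `λ` (columns `≤ c.1`, not in
the row `0` by the definition of `II`), in `σ` (rows `≥ 1`) or in `μ`; a cone point `s` in the window in `λ`: `seg s c λ` is
connected and not on the row `0`, so `s` is in a row `≥ 1` because `c` is (`same_side`); similarly in `μ`.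
Backward: `seg c c' γ` has only vertices of the window, so all rows are `≥ 1` (`same_side`), it is in `DmN`; the vertices of
`low c γ` in the columns `≥ r0` are in the window.
-/

namespace Pool.Helper83.OZ

open Pool.Helper49.FK
open Pool.Helper17.OZ (Y CP Dbl NoCP nd rect tau)
open Pool.Helper95.OZ (FG fI seg)
open Pool.Agent.Helper49.QP (Dn Rn)
open Pool.Agent.Helper49.OZ (mir DmN)

open Classical in
/-- The outer parts. -/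
noncomputable def II (r0 r1 n : ℕ) : Finset ((Gr × (ℤ × ℤ)) × (Gr × (ℤ × ℤ))) :=
  ((GS (Dn n) ×ˢ Dn n) ×ˢ (GS (Dn n) ×ˢ Dn n)).filter fun i =>
    i.1.1 ∈ Lf (Dn n) (0, 0) i.1.2 ∧ i.2.1 ∈ Rt (Dn n) i.2.2 (Rn n) ∧
    (r0 : ℤ) ≤ i.1.2.1 ∧ i.1.2.1 ≤ (r0 : ℤ) + r1 ∧ 2 * (n : ℤ) + 1 - r0 - r1 ≤ i.2.2.1 ∧
    i.2.2.1 ≤ 2 * (n : ℤ) + 1 - r0 ∧ 1 ≤ i.1.2.2 ∧ 1 ≤ i.2.2.2 ∧
    (∀ y ∈ i.1.1.1, (r0 : ℤ) ≤ y.1 → y.2 ≠ 0) ∧ (∀ y ∈ i.2.1.1, y.1 ≤ 2 * (n : ℤ) + 1 - r0 → y.2 ≠ 0)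

/-- The weight of the outer parts. -/
noncomputable def aw (q ρ ρ' : ℝ) (r0 n : ℕ) (i : (Gr × (ℤ × ℤ)) × (Gr × (ℤ × ℤ))) : ℝ :=
  AA q ρ ρ' (Dn n) r0 i.1.2 i.1.1 * BB q ρ ρ' (Dn n) (2 * (n : ℤ) + 1 - r0) i.2.2 i.2.1

private theorem lowB {c y : ℤ × ℤ} {γ : Gr} : y ∈ (low c γ).1 ↔ y ∈ γ.1 ∧ Y (c - y) := by
  simp only [low, Finset.mem_filter]

private theorem uppB {c y : ℤ × ℤ} {γ : Gr} : y ∈ (upp c γ).1 ↔ y ∈ γ.1 ∧ Y (y - c) := by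
  simp only [upp, Finset.mem_filter]

open Classical in
private theorem memDmN {n : ℕ} {a b : ℤ × ℤ} {γ : Gr} : γ ∈ DmN n a b ↔
    (IsClu γ.1 γ.2 ∧ Fw γ a ∧ Bw γ b ∧ a ∈ γ.1 ∧ b ∈ γ.1) ∧ (∀ y ∈ γ.1, 1 ≤ y.2) ∧ γ.1 ⊆ Dn n := by
  unfold DmN Pool.Agent.Helper49.OZ.DmU
  rw [Finset.mem_filter, Finset.mem_filter, mem_Dm, and_assoc]

open Classical in
private theorem memII {r0 r1 n : ℕ} {i : (Gr × (ℤ × ℤ)) × (Gr × (ℤ × ℤ))} : i ∈ II r0 r1 n ↔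
    i.1.1 ∈ Lf (Dn n) (0, 0) i.1.2 ∧ i.2.1 ∈ Rt (Dn n) i.2.2 (Rn n) ∧
    (r0 : ℤ) ≤ i.1.2.1 ∧ i.1.2.1 ≤ (r0 : ℤ) + r1 ∧ 2 * (n : ℤ) + 1 - r0 - r1 ≤ i.2.2.1 ∧
    i.2.2.1 ≤ 2 * (n : ℤ) + 1 - r0 ∧ 1 ≤ i.1.2.2 ∧ 1 ≤ i.2.2.2 ∧
    (∀ y ∈ i.1.1.1, (r0 : ℤ) ≤ y.1 → y.2 ≠ 0) ∧
    (∀ y ∈ i.2.1.1, y.1 ≤ 2 * (n : ℤ) + 1 - r0 → y.2 ≠ 0) := by
  unfold II
  rw [Finset.mem_filter]
  constructor
  · exact fun h => h.2
  · intro h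
    refine ⟨?_, h⟩
    obtain ⟨l1, l2, l3, l4, l5⟩ := mem_Lf.1 h.1
    obtain ⟨r1, r2, r3, r4, r5⟩ := mem_Rt.1 h.2.1
    rw [Finset.mem_product, Finset.mem_product, Finset.mem_product]
    exact ⟨⟨mem_GS.2 ⟨l1, l2⟩, l1 l4⟩, mem_GS.2 ⟨r1, r2⟩, r1 r3⟩

private theorem memwin {r0 n : ℕ} {γ : Gr} {t : ℤ × ℤ} : t ∈ win r0 n γ ↔
    CP γ.1 t ∧ (r0 : ℤ) ≤ t.1 ∧ t.1 ≤ 2 * (n : ℤ) + 1 - r0 := by
  unfold win
  exact mem_wcp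

open Classical in
/-- The index set on the side of the clusters. -/
private noncomputable def cr (r0 r1 n : ℕ) (γ : Gr) : Finset (ℤ × ℤ) :=
  (win r0 n γ).filter (fun c => c.1 ≤ (r0 : ℤ) + r1)

open Classical in
private noncomputable def cr' (r0 r1 n : ℕ) (γ : Gr) (c : ℤ × ℤ) : Finset (ℤ × ℤ) :=
  (wcp c.1 (2 * (n : ℤ) + 1 - r0) γ).filter (fun c' => 2 * (n : ℤ) + 1 - (r0 : ℤ) - (r1 : ℤ) ≤ c'.1)

/-- The forward direction. -/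
private theorem fwd {r0 r1 n : ℕ} (hn : (r0 : ℤ) + r1 < 2 * (n : ℤ) + 1 - r0 - r1)
    {lam mu σ : Gr} {c c' : ℤ × ℤ} (hi : ((lam, c), (mu, c')) ∈ II r0 r1 n) (hσ : σ ∈ DmN n c c') :
    Jn σ mu c' ∧ Jn lam (join σ mu) c ∧ join lam (join σ mu) ∈ Cl (Dn n) (0, 0) (Rn n) ∧
      Ab r0 n (join lam (join σ mu)) ∧ c ∈ cr r0 r1 n (join lam (join σ mu)) ∧
      c' ∈ cr' r0 r1 n (join lam (join σ mu)) c := by
  obtain ⟨hL, hR, c1, c2, c3, c4, c5, c6, g1, g2⟩ := memII.1 hi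
  obtain ⟨l1, l2, l3, l4, l5⟩ := mem_Lf.1 hL
  obtain ⟨u1, u2, u3, u4, u5⟩ := mem_Rt.1 hR
  obtain ⟨⟨s1, s2, s3, s4, s5⟩, s6, s7⟩ := memDmN.1 hσ
  dsimp only at l1 l2 l3 l4 l5 u1 u2 u3 u4 u5 c1 c2 c3 c4 c5 c6 g1 g2
  have hcc : Y (c' - c) := s2 c' s5
  have hcc1 : c.1 ≤ c'.1 := Y_le hcc
  have j2 : Jn σ mu c' := ⟨s1, u2, s5, u3, s3, u5⟩
  have hfw : Fw (join σ mu) c := by
    intro y hy
    rcases Finset.mem_union.1 hy with hy | hy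
    · exact s2 y hy
    · exact Y_trans hcc (u5 y hy)
  have j1 : Jn lam (join σ mu) c := ⟨l2, j2.clu, l4, Finset.mem_union_left _ s4, l5, hfw⟩
  have hcp' : CP (join lam (join σ mu)).1 c' := (j1.cp_right hcc1).2 j2.cp
  refine ⟨j2, j1, ?_, ⟨?_, ⟨c, ?_⟩, ?_⟩, ?_, ?_⟩
  · refine mem_Cl.2 ⟨?_, j1.clu, Finset.mem_union_left _ l3, Finset.mem_union_right _
      (Finset.mem_union_right _ u4)⟩
    exact Finset.union_subset l1 (Finset.union_subset s7 u1)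
  · intro y hy h1 h2
    rcases Finset.mem_union.1 hy with hy | hy
    · exact g1 y hy h1
    · rcases Finset.mem_union.1 hy with hy | hy
      · have := s6 y hy
        omega
      · exact g2 y hy h2
  · exact memwin.2 ⟨j1.cp, c1, by omega⟩
  · intro s hs
    obtain ⟨w1, w2, w3⟩ := memwin.1 hs
    rcases le_total s.1 c.1 with h1 | h1
    · have h2 := (j1.cp_left h1).1 w1
      obtain ⟨k1, k2, k3⟩ := upp_spec l2 h2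
      refine same_side (δ := upp s lam) k1 (fun y hy => ?_) (uppB.2 ⟨l4, l5 s h2.1⟩) k2 c5
      obtain ⟨k4, k5⟩ := uppB.1 hy
      exact g1 y k4 (w2.trans (Y_le k5))
    · have h2 := (j1.cp_right h1).1 w1
      rcases le_total s.1 c'.1 with h3 | h3
      · exact s6 s ((j2.cp_left h3).1 h2).1
      · have h4 := (j2.cp_right h3).1 h2
        obtain ⟨k1, k2, k3⟩ := low_spec u2 h4
        refine same_side (δ := low s mu) k1 (fun y hy => ?_) (lowB.2 ⟨u3, u5 s h4.1⟩) k2 c6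
        obtain ⟨k4, k5⟩ := lowB.1 hy
        exact g2 y k4 ((Y_le k5).trans w3)
  · unfold cr
    rw [Finset.mem_filter]
    exact ⟨memwin.2 ⟨j1.cp, c1, by omega⟩, c2⟩
  · unfold cr'
    rw [Finset.mem_filter]
    exact ⟨mem_wcp.2 ⟨hcp', hcc1, c4⟩, c3⟩

/-- The backward direction. -/
private theorem bwd {r0 r1 n : ℕ} (hr : 1 ≤ r0) (hn : (r0 : ℤ) + r1 < 2 * (n : ℤ) + 1 - r0 - r1)
    {γ : Gr} {c c' : ℤ × ℤ} (hγ : γ ∈ Cl (Dn n) (0, 0) (Rn n)) (hA : Ab r0 n γ) (hc : c ∈ cr r0 r1 n γ)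
    (hc' : c' ∈ cr' r0 r1 n γ c) :
    ((low c γ, c), (upp c' γ, c')) ∈ II r0 r1 n ∧ seg c c' γ ∈ DmN n c c' ∧
      join (low c γ) (join (seg c c' γ) (upp c' γ)) = γ := by
  unfold cr at hc
  unfold cr' at hc'
  rw [Finset.mem_filter] at hc hc'
  obtain ⟨hw, c2⟩ := hc
  obtain ⟨p1, c1, p2⟩ := memwin.1 hw
  obtain ⟨hw', c3⟩ := hc'
  obtain ⟨p3, p4, c4⟩ := mem_wcp.1 hw'
  obtain ⟨h1, h2, h3, h4⟩ := mem_Cl.1 hγ
  obtain ⟨hG, -, hrow⟩ := hA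
  have hcc : Y (c' - c) := cp_Y p1 p3 p4
  have c5 : 1 ≤ c.2 := hrow c hw
  have hw2 : c' ∈ win r0 n γ := memwin.2 ⟨p3, by omega, c4⟩
  have c6 : 1 ≤ c'.2 := hrow c' hw2
  obtain ⟨l1, l2, l3⟩ := low_spec h2 p1
  obtain ⟨v1, v2, v3⟩ := upp_spec h2 p1
  obtain ⟨u1, u2, u3⟩ := upp_spec h2 p3
  have j0 := jn_cut h2 p1
  have hcpu : CP (upp c γ).1 c' := by
    refine ⟨uppB.2 ⟨p3.1, hcc⟩, fun y hy => p3.2 y (uppB.1 hy).1⟩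
  obtain ⟨s1, s2, s3⟩ := low_spec v1 hcpu
  have hs : ∀ y, y ∈ (seg c c' γ).1 ↔ (y ∈ γ.1 ∧ Y (y - c)) ∧ Y (c' - y) := by
    intro y
    show y ∈ (low c' (upp c γ)).1 ↔ _
    rw [lowB, uppB]
  refine ⟨memII.2 ⟨?_, ?_, c1, c2, c3, c4, c5, c6, ?_, ?_⟩, memDmN.2 ⟨⟨s1, ?_, s3, ?_, s2⟩, ?_, ?_⟩, ?_⟩
  · refine mem_Lf.2 ⟨fun y hy => h1 (lowB.1 hy).1, l1, lowB.2 ⟨h3, ?_⟩, l2, l3⟩
    rcases p1.2 (0, 0) h3 with h5 | h5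
    · exfalso
      have := Y_le h5
      dsimp only at this
      omega
    · exact h5
  · refine mem_Rt.2 ⟨fun y hy => h1 (uppB.1 hy).1, u1, u2, uppB.2 ⟨h4, ?_⟩, u3⟩
    rcases p3.2 (Rn n) h4 with h5 | h5
    · exact h5
    · exfalso
      have := Y_le h5
      unfold Rn at this
      dsimp only at this
      omega
  · intro y hy hy0
    obtain ⟨k1, k2⟩ := lowB.1 hy
    exact hG y k1 hy0 ((Y_le k2).trans p2)
  · intro y hy hy0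
    obtain ⟨k1, k2⟩ := uppB.1 hy
    refine hG y k1 ?_ hy0
    have := Y_le k2
    omega
  · intro y hy
    exact ((hs y).1 hy).1.2
  · exact (hs c).2 ⟨⟨p1.1, Y_self c⟩, hcc⟩
  · intro y hy
    refine same_side (δ := seg c c' γ) s1 (fun z hz => ?_) ((hs c).2 ⟨⟨p1.1, Y_self c⟩, hcc⟩) hy c5
    obtain ⟨⟨k1, k2⟩, k3⟩ := (hs z).1 hz
    have e1 := Y_le k2
    have e2 := Y_le k3
    exact hG z k1 (by omega) (by omega)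
  · intro y hy
    exact h1 ((hs y).1 hy).1.1
  · have e1 : upp c' γ = upp c' (upp c γ) := (upp_upp h2 p3 p1 p4).symm
    rw [e1]
    show join (low c γ) (join (low c' (upp c γ)) (upp c' (upp c γ))) = γ
    rw [join_low_upp v1 hcpu, join_low_upp h2 p1]

open Classical in
theorem outer_sum {q ρ ρ' : ℝ} {r0 r1 n : ℕ} (hr : 1 ≤ r0) (hn : (r0 : ℤ) + r1 < 2 * (n : ℤ) + 1 - r0 - r1)
    (Φ : Gr → ℝ) :
    ∑ i ∈ II r0 r1 n, aw q ρ ρ' r0 n i * ∑ σ ∈ DmN n i.1.2 i.2.2, W1 q ρ σ * Φ (join i.1.1 (join σ i.2.1)) =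
      ∑ γ ∈ (Cl (Dn n) (0, 0) (Rn n)).filter (fun γ => Ab r0 n γ), SSw q ρ ρ' r0 r1 n γ * Φ γ := by
  have eL : ∑ i ∈ II r0 r1 n, aw q ρ ρ' r0 n i * ∑ σ ∈ DmN n i.1.2 i.2.2,
      W1 q ρ σ * Φ (join i.1.1 (join σ i.2.1)) =
      ∑ x ∈ (II r0 r1 n).sigma (fun i => DmN n i.1.2 i.2.2),
        aw q ρ ρ' r0 n x.1 * (W1 q ρ x.2 * Φ (join x.1.1.1 (join x.2 x.1.2.1))) := by
    rw [Finset.sum_sigma]
    refine Finset.sum_congr rfl fun i _ => ?_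
    rw [Finset.mul_sum]
  have eR : ∑ γ ∈ (Cl (Dn n) (0, 0) (Rn n)).filter (fun γ => Ab r0 n γ), SSw q ρ ρ' r0 r1 n γ * Φ γ =
      ∑ x ∈ ((Cl (Dn n) (0, 0) (Rn n)).filter (fun γ => Ab r0 n γ)).sigma
        (fun γ => (cr r0 r1 n γ).sigma (fun c => cr' r0 r1 n γ c)),
        AA q ρ ρ' (Dn n) (r0 : ℤ) x.2.1 (low x.2.1 x.1) * W1 q ρ (seg x.2.1 x.2.2 x.1) *
          BB q ρ ρ' (Dn n) (2 * (n : ℤ) + 1 - r0) x.2.2 (upp x.2.2 x.1) * Φ x.1 := by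
    rw [Finset.sum_sigma]
    refine Finset.sum_congr rfl fun γ _ => ?_
    rw [Finset.sum_sigma]
    unfold SSw
    rw [Finset.sum_mul]
    refine Finset.sum_congr ?_ fun c _ => ?_
    · unfold cr
      rfl
    · dsimp only
      rw [Finset.sum_mul]
      refine Finset.sum_congr ?_ fun c' _ => rfl
      unfold cr'
      rfl
  rw [eL, eR]
  refine Finset.sum_bij'
    (fun x _ => (⟨join x.1.1.1 (join x.2 x.1.2.1), ⟨x.1.1.2, x.1.2.2⟩⟩ : (_ : Gr) × (_ : ℤ × ℤ) × (ℤ × ℤ)))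
    (fun x _ => (⟨((low x.2.1 x.1, x.2.1), (upp x.2.2 x.1, x.2.2)), seg x.2.1 x.2.2 x.1⟩ :
      (_ : (Gr × (ℤ × ℤ)) × (Gr × (ℤ × ℤ))) × Gr)) ?_ ?_ ?_ ?_ ?_
  · rintro ⟨⟨⟨lam, c⟩, ⟨mu, c'⟩⟩, σ⟩ hx
    rw [Finset.mem_sigma] at hx
    obtain ⟨j2, j1, h1, h2, h3, h4⟩ := fwd hn hx.1 hx.2
    rw [Finset.mem_sigma, Finset.mem_filter, Finset.mem_sigma]
    exact ⟨⟨h1, h2⟩, h3, h4⟩
  · rintro ⟨γ, ⟨c, c'⟩⟩ hx
    rw [Finset.mem_sigma, Finset.mem_filter, Finset.mem_sigma] at hx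
    obtain ⟨⟨h1, h2⟩, h3, h4⟩ := hx
    obtain ⟨g1, g2, g3⟩ := bwd hr hn h1 h2 h3 h4
    rw [Finset.mem_sigma]
    exact ⟨g1, g2⟩
  · rintro ⟨⟨⟨lam, c⟩, ⟨mu, c'⟩⟩, σ⟩ hx
    rw [Finset.mem_sigma] at hx
    obtain ⟨j2, j1, h1, h2, h3, h4⟩ := fwd hn hx.1 hx.2
    have hcc1 : c.1 ≤ c'.1 := Y_le ((memDmN.1 hx.2).1.2.1 c' (memDmN.1 hx.2).1.2.2.2.2)
    have e1 : low c (join lam (join σ mu)) = lam := j1.low
    have e2 : upp c' (join lam (join σ mu)) = mu := by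
      rw [(j1.low_right hcc1 j2.cp).2, j2.upp]
    have e3 : seg c c' (join lam (join σ mu)) = σ := by
      show low c' (upp c (join lam (join σ mu))) = σ
      rw [j1.upp, j2.low]
    dsimp only
    rw [e1, e2, e3]
  · rintro ⟨γ, ⟨c, c'⟩⟩ hx
    rw [Finset.mem_sigma, Finset.mem_filter, Finset.mem_sigma] at hx
    obtain ⟨⟨h1, h2⟩, h3, h4⟩ := hx
    obtain ⟨g1, g2, g3⟩ := bwd hr hn h1 h2 h3 h4
    dsimp only at g3 ⊢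
    rw [g3]
  · rintro ⟨⟨⟨lam, c⟩, ⟨mu, c'⟩⟩, σ⟩ hx
    rw [Finset.mem_sigma] at hx
    obtain ⟨j2, j1, h1, h2, h3, h4⟩ := fwd hn hx.1 hx.2
    have hcc1 : c.1 ≤ c'.1 := Y_le ((memDmN.1 hx.2).1.2.1 c' (memDmN.1 hx.2).1.2.2.2.2)
    have e1 : low c (join lam (join σ mu)) = lam := j1.low
    have e2 : upp c' (join lam (join σ mu)) = mu := by
      rw [(j1.low_right hcc1 j2.cp).2, j2.upp]
    have e3 : seg c c' (join lam (join σ mu)) = σ := by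
      show low c' (upp c (join lam (join σ mu))) = σ
      rw [j1.upp, j2.low]
    dsimp only
    rw [e1, e2, e3]
    unfold aw
    dsimp only
    ring

end Pool.Helper83.OZ
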