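import Pool.Agent.Helper83.OZ.Sum
import Pool.Agent.Helper49.FK.Thin

/-!
Project OZ (MP_7e0861_pr), part L5, block THN1: single edge pieces on the row `0` are pivotal.

`sev γ a b` is the number of points `t` of the row `0` in the columns `a .. b - 1` such that `t` and `t + (1, 0)` are cone
points of `γ`.
`piv_ge`: let `V = clu D ω u`, `t` such a point. `u ∈ V` is in a column `≤ t.1`, `v ∈ V` in a column `≥ t.1 + 1`. The only
vertex of `V` in the column `t.1` is `t`, the only one in the column `t.1 + 1` is `t + (1, 0)` (`cp_col`: a vertex `y` of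
`V` in the column of a cone point `t` satisfies `Y (y - t)` or `Y (t - y)`, so `y = t`). Hence every open edge between
`{x ∈ V, x.1 ≤ t.1}` and `{x ∈ V, x.1 ≥ t.1 + 1}` is the edge `(t, true)`. `u` and `v` are connected, so it is open
(otherwise `Conn.induct` with the set of the `x` connected to `u` with `x.1 ≤ t.1`), and after erasing it `u` and `v`
are not connected (same argument). `t ↦ (t, true)` is injective.
`G_dfc_le`: `exists_thin` (`s = 1 - δ`) and `G_mono_D` for `D ⊆ Λ`; `ex_le` with `piv_ge` (`0 ≤ s ≤ 1`), then `ex_clu_sum`.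
-/

namespace Pool.Helper83.OZ

open Pool.Helper49.FK
open Pool.Helper17.OZ (Y CP Dbl NoCP nd rect tau)

open Classical in
/-- The number of the single edge pieces of `γ` on the row `0` in the columns from `a` to `b`. -/
noncomputable def sev (γ : Gr) (a b : ℤ) : ℕ :=
  (γ.1.filter fun t => t.2 = 0 ∧ a ≤ t.1 ∧ t.1 + 1 ≤ b ∧ CP γ.1 t ∧ CP γ.1 (t + (1, 0))).card

/-- Without the edge to the right of a point which is alone in its column there is no connection. -/
private theorem no_conn56 {D : Finset (ℤ × ℤ)} {ω η : Finset Edge} (hω : ω ⊆ edges D)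
    (hη : η ⊆ ω) {u v t : ℤ × ℤ} (hut : u.1 ≤ t.1) (htv : t.1 + 1 ≤ v.1)
    (hcol : ∀ y, y ∈ D → Conn ω u y → y.1 = t.1 → y = t) (he : (t, true) ∉ η) : ¬ Conn η u v := by
  intro hc
  have key : v ∈ {x : ℤ × ℤ | Conn ω u x ∧ x.1 ≤ t.1} := by
    refine hc.induct ⟨Conn.refl _ _, hut⟩ fun e heη => ?_
    have heω := hη heη
    have h1 := conn_edge heω
    constructor
    · rintro ⟨h2, h3⟩
      refine ⟨h2.trans h1, ?_⟩
      by_cases hb : e.2 = true
      · have ht : (tip e).1 = e.1.1 + 1 := by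
          unfold tip
          rw [if_pos hb]
        rw [ht]
        have hne : e.1.1 ≠ t.1 := by
          intro h4
          have h5 := hcol e.1 (mem_edges.1 (hω heω)).1 h2 h4
          apply he
          have h6 : e = (t, true) := Prod.ext h5 hb
          rw [← h6]
          exact heη
        omega
      · have ht : (tip e).1 = e.1.1 := by
          unfold tip
          rw [if_neg hb]
        rw [ht]
        exact h3
    · rintro ⟨h2, h3⟩
      refine ⟨h2.trans h1.symm, ?_⟩
      have ht : e.1.1 ≤ (tip e).1 := by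
        unfold tip
        split_ifs
        · simp
        · exact le_rfl
      omega
  have := key.2
  omega

theorem piv_ge {D : Finset (ℤ × ℤ)} {ω : Finset Edge} (hω : ω ⊆ edges D) {u v : ℤ × ℤ} (hu : u ∈ D)
    (h : Conn ω u v) :
    sev (clu D ω u, cle ω u) u.1 v.1 ≤ piv (fun η => Conn η u v) ω := by
  classical
  unfold sev piv
  refine Finset.card_le_card_of_injOn (fun t => (t, true)) ?_ ?_
  · intro t ht
    rw [Finset.mem_coe, Finset.mem_filter] at ht
    obtain ⟨-, h0, h1, h2, ⟨h3, h4⟩, -⟩ := ht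
    have hcol : ∀ y, y ∈ D → Conn ω u y → y.1 = t.1 → y = t := by
      intro y hyD hy hy1
      have h5 : y ∈ clu D ω u := by
        unfold clu
        exact Finset.mem_filter.2 ⟨hyD, hy⟩
      have h6 : y.2 = t.2 := by
        rcases h4 y h5 with h7 | h7
        · unfold Y at h7
          simp only [Prod.fst_sub, Prod.snd_sub] at h7
          rw [hy1, sub_self, mul_zero] at h7
          have := abs_nonpos_iff.1 h7
          omega
        · unfold Y at h7
          simp only [Prod.fst_sub, Prod.snd_sub] at h7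
          rw [hy1, sub_self, mul_zero] at h7
          have := abs_nonpos_iff.1 h7
          omega
      exact Prod.ext hy1 h6
    have hmem : ((t, true) : Edge) ∈ ω := by
      by_contra hcon
      exact no_conn56 hω (Finset.Subset.refl ω) h1 h2 hcol hcon h
    rw [Finset.mem_coe, Finset.mem_filter]
    exact ⟨hmem, rfl, h0, no_conn56 hω (Finset.erase_subset _ _) h1 h2 hcol
      (Finset.notMem_erase _ _)⟩
  · intro t _ t' _ htt
    exact (Prod.ext_iff.1 htt).1

/-- The two point function with the defect line. -/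
theorem G_dfc_le {q ρ ρ' : ℝ} (hq : 1 ≤ q) (h0 : 0 ≤ ρ') (h : ρ' < ρ) :
    ∃ s : ℝ, 0 ≤ s ∧ s < 1 ∧ ∀ (D Λ : Finset (ℤ × ℤ)) (u v : ℤ × ℤ), D ⊆ Λ → u ∈ D →
      G q (dfc ρ ρ') D u v ≤ ∑ γ ∈ Cl Λ u v, s ^ sev γ u.1 v.1 * WD q (hom ρ) Λ γ := by
  classical
  have hq0 : 0 < q := zero_lt_one.trans_le hq
  have hρ : 0 < ρ := lt_of_le_of_lt h0 h
  obtain ⟨δ, hδ0, hδ1, hthin⟩ := exists_thin hq h0 h
  refine ⟨1 - δ, by linarith, by linarith, fun D Λ u v hDΛ hu => ?_⟩
  have hd : ∀ e, 0 ≤ dfc ρ ρ' e := by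
    intro e
    unfold dfc
    split_ifs
    · exact h0
    · exact hρ.le
  have h1 : G q (dfc ρ ρ') D u v ≤ G q (dfc ρ ρ') Λ u v := by
    refine ex_mono_D hq hd hDΛ fun ω ω' hωω => ?_
    by_cases hc : Conn ω u v
    · rw [if_pos hc, if_pos (Conn.mono hωω hc)]
    · rw [if_neg hc]
      split_ifs <;> norm_num
  have h2 := hthin Λ (fun η => Conn η u v) (fun _ _ h3 h4 => Conn.mono h3 h4)
  have h3 : ex q (hom ρ) Λ (fun η => if Conn η u v then (1 - δ) ^ piv (fun η => Conn η u v) η else 0) ≤
      ex q (hom ρ) Λ (fun η => if Conn η u v then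
        (fun γ : Gr => (1 - δ) ^ sev γ u.1 v.1) (clu Λ η u, cle η u) else 0) := by
    refine ex_le hq0 (fun _ => hρ.le) fun η hη => ?_
    by_cases hc : Conn η u v
    · rw [if_pos hc, if_pos hc]
      exact pow_le_pow_of_le_one (by linarith) (by linarith) (piv_ge hη (hDΛ hu) hc)
    · rw [if_neg hc, if_neg hc]
  have h4 := ex_clu_sum (q := q) (r := hom ρ) (D := Λ) hq0 (fun _ => hρ.le) (v := v) (hDΛ hu)
    (fun γ : Gr => (1 - δ) ^ sev γ u.1 v.1)
  calc G q (dfc ρ ρ') D u v ≤ G q (dfc ρ ρ') Λ u v := h1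
    _ ≤ ex q (hom ρ) Λ
        (fun η => if Conn η u v then (1 - δ) ^ piv (fun η => Conn η u v) η else 0) := by
      refine le_trans h2 (le_of_eq ?_)
      congr!
    _ ≤ _ := h3
    _ = ∑ γ ∈ Cl Λ u v, WD q (hom ρ) Λ γ * (1 - δ) ^ sev γ u.1 v.1 := by
      refine Eq.trans ?_ h4
      congr!
    _ = _ := Finset.sum_congr rfl fun γ _ => mul_comm _ _

end Pool.Helper83.OZ
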