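import Pool.Agent.Helper83.OZ.Thn1
import Pool.Agent.Helper83.OZ.Xt

/-!
Project OZ (MP_7e0861_pr), part L5, block THN2: decomposition at the first and the last cone point.

Let `γ ∈ Cl Λ u v` with a cone point in between, `t` the first and `t'` the last one (by column, `cp_col`).
If `t = t'` then `γ = join (low t γ) (upp t γ)`; otherwise `γ = join (low t γ) (join σ (upp t' γ))` with
`σ = low t' (upp t γ) ∈ Dm t t'`: `upp t γ` has the cone point `t'` (`Jn.cp_right`). `low t γ` and `upp t' γ` have no cone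
point between `u` and `t`, `t'` and `v` (`Jn.cp_left`, `Jn.cp_right`). `sev γ u.1 v.1 ≥ sev σ t.1 t'.1`: the cone points of
`σ` in the columns `t.1 .. t'.1` are cone points of `γ` (`Jn.cp_left`, `Jn.cp_right`). The map `γ ↦ (t, t', parts)` is
injective. `κ ^ 2 * WD γ ≤ WD (low t γ) * WDs σ * WD (upp t' γ)` by the hypothesis (once or twice, `κ ≤ 1`).
-/

namespace Pool.Helper83.OZ

open Pool.Helper49.FK
open Pool.Helper17.OZ (Y CP Dbl NoCP nd rect tau)

variable {q ρ : ℝ} {r : Edge → ℝ} {D Λ : Finset (ℤ × ℤ)}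

open Classical in
/-- The weight, `1` for a graph without edges. -/
noncomputable def WDs (q : ℝ) (r : Edge → ℝ) (D : Finset (ℤ × ℤ)) (γ : Gr) : ℝ :=
  if γ.2 = ∅ then 1 else WD q r D γ

open Classical in
/-- The points in the forward cone of `u`, strictly between the columns of `u` and `v`. -/
noncomputable def cyl (u v : ℤ × ℤ) : Finset (ℤ × ℤ) :=
  (Finset.Icc (u.1 + 1) (v.1 - 1) ×ˢ
    Finset.Icc (u.2 - 8 * (v.1 - u.1)) (u.2 + 8 * (v.1 - u.1))).filter fun t => Y (t - u)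

theorem mem_cyl {u v t : ℤ × ℤ} : t ∈ cyl u v ↔ u.1 < t.1 ∧ t.1 < v.1 ∧ Y (t - u) := by
  classical
  unfold cyl
  rw [Finset.mem_filter, Finset.mem_product, Finset.mem_Icc, Finset.mem_Icc]
  constructor
  · rintro ⟨⟨⟨h1, h2⟩, _⟩, h3⟩
    exact ⟨by omega, by omega, h3⟩
  · rintro ⟨h1, h2, h3⟩
    refine ⟨⟨⟨by omega, by omega⟩, ?_⟩, h3⟩
    unfold Y at h3
    rw [abs_le] at h3
    simp only [Prod.fst_sub, Prod.snd_sub] at h3
    constructor <;> omega

private theorem triv62 (t : ℤ × ℤ) : IsClu ({t} : Finset (ℤ × ℤ)) (∅ : Finset Edge) := by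
  refine ⟨Finset.empty_subset _, fun x hx y hy => ?_⟩
  rw [Finset.mem_singleton] at hx hy
  rw [hx, hy]
  exact SimpleGraph.Reachable.refl t

private theorem mem_low62 {γ : Gr} {m y : ℤ × ℤ} : y ∈ (low m γ).1 ↔ y ∈ γ.1 ∧ Y (m - y) := by
  classical
  unfold low
  exact Finset.mem_filter

private theorem mem_upp62 {γ : Gr} {m y : ℤ × ℤ} : y ∈ (upp m γ).1 ↔ y ∈ γ.1 ∧ Y (y - m) := by
  classical
  unfold upp
  exact Finset.mem_filter

private theorem low_sub62 {γ : Gr} {m : ℤ × ℤ} : (low m γ).1 ⊆ γ.1 :=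
  fun _ hy => (mem_low62.1 hy).1

private theorem upp_sub62 {γ : Gr} {m : ℤ × ℤ} : (upp m γ).1 ⊆ γ.1 :=
  fun _ hy => (mem_upp62.1 hy).1

/-- `t` and `t'` are the first and the last cone point. -/
private def FL62 (u v t t' : ℤ × ℤ) (γ : Gr) : Prop :=
  CP γ.1 t ∧ CP γ.1 t' ∧ NoCP (low t γ).1 u t ∧ NoCP (upp t' γ).1 t' v ∧ t.1 ≤ t'.1 ∧
    u.1 < t.1 ∧ t'.1 < v.1

open Classical in
private theorem exFL62 {u v : ℤ × ℤ} {γ : Gr} (hγ : γ ∈ Cl Λ u v) (h : ¬ NoCP γ.1 u v) :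
    ∃ t ∈ cyl u v, ∃ t' ∈ (insert t (cyl t v)).filter (fun t' => Y (v - t')),
      FL62 u v t t' γ := by
  obtain ⟨hΛ, hcl, hu, hv⟩ := mem_Cl.1 hγ
  have hne : (cps γ u v).Nonempty := by
    rw [nocp_iff] at h
    exact Finset.nonempty_iff_ne_empty.2 h
  obtain ⟨t, ht, htmin⟩ := Finset.exists_min_image (cps γ u v) (fun t => t.1) hne
  obtain ⟨t', ht', htmax⟩ := Finset.exists_max_image (cps γ u v) (fun t => t.1) hne
  have h1 := mem_cps.1 ht
  have h2 := mem_cps.1 ht'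
  have hYt : Y (t - u) := by
    rcases h1.1.2 u hu with h3 | h3
    · have := Y_le h3
      omega
    · exact h3
  have hle : t.1 ≤ t'.1 := htmin t' ht'
  refine ⟨t, mem_cyl.2 ⟨h1.2.1, h1.2.2, hYt⟩, t', ?_, h1.1, h2.1, ?_, ?_, hle, h1.2.1, h2.2.2⟩
  · have hYv : Y (v - t') := by
      rcases h2.1.2 v hv with h3 | h3
      · exact h3
      · have := Y_le h3
        omega
    rw [Finset.mem_filter, Finset.mem_insert]
    refine ⟨?_, hYv⟩
    rcases lt_or_eq_of_le hle with h3 | h3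
    · exact Or.inr (mem_cyl.2 ⟨h3, h2.2.2, cp_Y h1.1 h2.1 hle⟩)
    · exact Or.inl (cp_col h2.1 h1.1 h3.symm)
  · intro s hs hus hst
    have hj := jn_cut hcl h1.1
    have h3 := (hj.cp_left (s := s) hst.le).2 hs
    rw [join_low_upp hcl h1.1] at h3
    have h4 := htmin s (mem_cps.2 ⟨h3, hus, by omega⟩)
    omega
  · intro s hs hus hst
    have hj := jn_cut hcl h2.1
    have h3 := (hj.cp_right (s := s) hus.le).2 hs
    rw [join_low_upp hcl h2.1] at h3
    have h4 := htmax s (mem_cps.2 ⟨h3, by omega, hst⟩)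
    omega

open Classical in
/-- The middle part. -/
private noncomputable def mid62 (t t' : ℤ × ℤ) (γ : Gr) : Gr :=
  if t = t' then ({t}, ∅) else low t' (upp t γ)

private theorem parts62 {u v t t' : ℤ × ℤ} {γ : Gr} (hγ : γ ∈ Cl Λ u v) (h : FL62 u v t t' γ)
    (hne : t ≠ t') :
    Jn (low t γ) (upp t γ) t ∧ join (low t γ) (upp t γ) = γ ∧
    Jn (low t' (upp t γ)) (upp t' γ) t' ∧ join (low t' (upp t γ)) (upp t' γ) = upp t γ := by
  obtain ⟨hΛ, hcl, hu, hv⟩ := mem_Cl.1 hγ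
  obtain ⟨h1, h2, h3, h4, h5, h6, h7⟩ := h
  have hj := jn_cut hcl h1
  have hjg := join_low_upp hcl h1
  have hc' : CP (upp t γ).1 t' := by
    rw [← hj.cp_right h5, hjg]
    exact h2
  have hclu := (upp_spec hcl h1).1
  have hj2 := jn_cut hclu hc'
  have hjg2 := join_low_upp hclu hc'
  have he : upp t' (upp t γ) = upp t' γ := by
    have := (hj.low_right h5 hc').2
    rw [hjg] at this
    exact this.symm
  rw [he] at hj2 hjg2
  exact ⟨hj, hjg, hj2, hjg2⟩

private theorem eqparts62 {u v t : ℤ × ℤ} {γ : Gr} (hγ : γ ∈ Cl Λ u v) (h : FL62 u v t t γ) :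
    Jn (low t γ) (upp t γ) t ∧ join (low t γ) (upp t γ) = γ :=
  ⟨jn_cut (mem_Cl.1 hγ).2.1 h.1, join_low_upp (mem_Cl.1 hγ).2.1 h.1⟩

private theorem ledge62 {γ : Gr} {a b : ℤ × ℤ} (hcl : IsClu γ.1 γ.2) (ha : a ∈ γ.1) (hb : b ∈ γ.1)
    (hab : a ≠ b) : γ.2 ≠ ∅ := by
  intro h
  have h1 := hcl.2 a ha b hb
  rw [h] at h1
  apply hab
  have h2 := Conn.induct h1 (S := {a}) rfl (fun e he => absurd he (Finset.notMem_empty e))
  exact (Set.mem_singleton_iff.1 h2).symm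

private theorem sev_le62 {u v t t' : ℤ × ℤ} {γ : Gr} (hγ : γ ∈ Cl Λ u v) (h : FL62 u v t t' γ) :
    sev (mid62 t t' γ) t.1 t'.1 ≤ sev γ u.1 v.1 := by
  classical
  by_cases hne : t = t'
  · have h1 : sev (mid62 t t' γ) t.1 t'.1 = 0 := by
      unfold sev
      rw [Finset.card_eq_zero, Finset.filter_eq_empty_iff]
      intro x _ hx
      rw [← hne] at hx
      omega
    rw [h1]
    exact Nat.zero_le _
  · obtain ⟨hj, hjg, hj2, hjg2⟩ := parts62 hγ h hne
    have hm : mid62 t t' γ = low t' (upp t γ) := if_neg hne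
    rw [hm]
    obtain ⟨h1, h2, h3, h4, h5, h6, h7⟩ := h
    have key : ∀ x : ℤ × ℤ, t.1 ≤ x.1 → x.1 ≤ t'.1 → CP (low t' (upp t γ)).1 x → CP γ.1 x := by
      intro x hx1 hx2 hx
      have e1 := (hj2.cp_left (s := x) hx2).2 hx
      rw [hjg2] at e1
      have e2 := (hj.cp_right (s := x) hx1).2 e1
      rw [hjg] at e2
      exact e2
    unfold sev
    apply Finset.card_le_card
    intro x hx
    rw [Finset.mem_filter] at hx ⊢
    obtain ⟨hx0, hx1, hx2, hx3, hx4, hx5⟩ := hx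
    have e3 := key x hx2 (by omega) hx4
    have e4 : CP γ.1 (x + (1, 0)) := by
      apply key (x + (1, 0)) _ _ hx5
      · simp only [Prod.fst_add]
        omega
      · simp only [Prod.fst_add]
        omega
    exact ⟨e3.1, hx1, by omega, by omega, e3, e4⟩

open Classical in
private theorem fib62 (hq : 0 < q) (hr : ∀ e, 0 ≤ r e) {κ s : ℝ} (hs : 0 ≤ s) (hs1 : s ≤ 1)
    (hκ : 0 < κ) (hκ1 : κ ≤ 1)
    (hj : ∀ (γ δ : Gr) (m : ℤ × ℤ), Jn γ δ m → κ * WD q r Λ (join γ δ) ≤ WD q r Λ γ * WD q r Λ δ)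
    {u v t t' : ℤ × ℤ} :
    κ ^ 2 * ∑ γ ∈ (Cl Λ u v).filter (FL62 u v t t'), s ^ sev γ u.1 v.1 * WD q r Λ γ ≤
      nocp q r Λ u t *
        (∑ σ ∈ (Dm t t').filter (fun σ => σ.1 ⊆ Λ), s ^ sev σ t.1 t'.1 * WDs q r Λ σ) *
        nocp q r Λ t' v := by
  set A : Finset Gr := (Cl Λ u t).filter fun γ => NoCP γ.1 u t with hA
  set B : Finset Gr := (Cl Λ t' v).filter fun γ => NoCP γ.1 t' v with hB
  set M : Finset Gr := (Dm t t').filter (fun σ => σ.1 ⊆ Λ) with hM
  have hn1 : nocp q r Λ u t = ∑ γ ∈ A, WD q r Λ γ := by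
    unfold nocp
    rw [hA, Finset.sum_filter]
  have hn2 : nocp q r Λ t' v = ∑ γ ∈ B, WD q r Λ γ := by
    unfold nocp
    rw [hB, Finset.sum_filter]
  have hWs : ∀ σ : Gr, 0 ≤ WDs q r Λ σ := by
    intro σ
    unfold WDs
    split_ifs
    · exact zero_le_one
    · exact WD_nonneg hq hr σ
  let g : Gr × Gr × Gr → ℝ := fun x =>
    WD q r Λ x.1 * (s ^ sev x.2.1 t.1 t'.1 * WDs q r Λ x.2.1) * WD q r Λ x.2.2
  have hg0 : ∀ x, 0 ≤ g x := fun x =>
    mul_nonneg (mul_nonneg (WD_nonneg hq hr _) (mul_nonneg (pow_nonneg hs _) (hWs _)))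
      (WD_nonneg hq hr _)
  have hRHS : nocp q r Λ u t * (∑ σ ∈ M, s ^ sev σ t.1 t'.1 * WDs q r Λ σ) * nocp q r Λ t' v
      = ∑ x ∈ A ×ˢ M ×ˢ B, g x := by
    rw [hn1, hn2, Finset.sum_product, Finset.sum_mul, Finset.sum_mul]
    apply Finset.sum_congr rfl
    intro a _
    rw [Finset.sum_product, Finset.mul_sum, Finset.sum_comm]
    apply Finset.sum_congr rfl
    intro b _
    rw [Finset.mul_sum, Finset.sum_mul]
  rw [hRHS]
  let Φ : Gr → Gr × Gr × Gr := fun γ => (low t γ, mid62 t t' γ, upp t' γ)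
  have hmaps : ∀ γ ∈ (Cl Λ u v).filter (FL62 u v t t'), Φ γ ∈ A ×ˢ M ×ˢ B := by
    intro γ hγ
    rw [Finset.mem_filter] at hγ
    obtain ⟨hγ, h⟩ := hγ
    obtain ⟨hΛ, hcl, hu, hv⟩ := mem_Cl.1 hγ
    have h' := h
    obtain ⟨h1, h2, h3, h4, h5, h6, h7⟩ := h'
    have hYu : Y (t - u) := by
      rcases h1.2 u hu with h8 | h8
      · have := Y_le h8
        omega
      · exact h8
    have hYv : Y (v - t') := by
      rcases h2.2 v hv with h8 | h8
      · exact h8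
      · have := Y_le h8
        omega
    obtain ⟨l1, l2, l3⟩ := low_spec hcl h1
    obtain ⟨u1, u2, u3⟩ := upp_spec hcl h2
    rw [Finset.mem_product, Finset.mem_product]
    refine ⟨?_, ?_, ?_⟩
    · rw [hA, Finset.mem_filter, mem_Cl]
      exact ⟨⟨low_sub62.trans hΛ, l1, mem_low62.2 ⟨hu, hYu⟩, l2⟩, h3⟩
    · rw [hM, Finset.mem_filter]
      show mid62 t t' γ ∈ Dm t t' ∧ (mid62 t t' γ).1 ⊆ Λ
      by_cases hne : t = t'
      · have hm : mid62 t t' γ = ({t}, ∅) := if_pos hne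
        rw [hm, ← hne, mem_Dm]
        refine ⟨⟨triv62 t, ?_, ?_, Finset.mem_singleton_self t, Finset.mem_singleton_self t⟩, ?_⟩
        · intro y hy
          rw [Finset.mem_singleton] at hy
          rw [hy]
          exact Y_self t
        · intro y hy
          rw [Finset.mem_singleton] at hy
          rw [hy]
          exact Y_self t
        · rw [Finset.singleton_subset_iff]
          exact hΛ h1.1
      · obtain ⟨hj1, hjg, hj2, hjg2⟩ := parts62 hγ h hne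
        have hm : mid62 t t' γ = low t' (upp t γ) := if_neg hne
        rw [hm, mem_Dm]
        refine ⟨⟨hj2.cl, ?_, hj2.bw, ?_, hj2.ml⟩, (low_sub62.trans upp_sub62).trans hΛ⟩
        · intro y hy
          exact hj1.fw y (low_sub62 hy)
        · rw [mem_low62]
          exact ⟨hj1.mr, cp_Y h1 h2 h5⟩
    · rw [hB, Finset.mem_filter, mem_Cl]
      exact ⟨⟨upp_sub62.trans hΛ, u1, u2, mem_upp62.2 ⟨hv, hYv⟩⟩, h4⟩
  have hinj : Set.InjOn Φ ((Cl Λ u v).filter (FL62 u v t t') : Finset Gr) := by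
    intro γ hγ δ hδ he
    rw [Finset.mem_coe, Finset.mem_filter] at hγ hδ
    have e1 : low t γ = low t δ := congrArg Prod.fst he
    have e2 : mid62 t t' γ = mid62 t t' δ := congrArg (fun x => x.2.1) he
    have e3 : upp t' γ = upp t' δ := congrArg (fun x => x.2.2) he
    by_cases hne : t = t'
    · subst hne
      rw [← (eqparts62 hγ.1 hγ.2).2, ← (eqparts62 hδ.1 hδ.2).2, e1, e3]
    · obtain ⟨_, a2, _, a4⟩ := parts62 hγ.1 hγ.2 hne
      obtain ⟨_, b2, _, b4⟩ := parts62 hδ.1 hδ.2 hne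
      have m1 : mid62 t t' γ = low t' (upp t γ) := if_neg hne
      have m2 : mid62 t t' δ = low t' (upp t δ) := if_neg hne
      rw [m1, m2] at e2
      rw [← a2, ← b2, ← a4, ← b4, e1, e2, e3]
  have hpt : ∀ γ ∈ (Cl Λ u v).filter (FL62 u v t t'),
      κ ^ 2 * (s ^ sev γ u.1 v.1 * WD q r Λ γ) ≤ g (Φ γ) := by
    intro γ hγ
    rw [Finset.mem_filter] at hγ
    have hsev := sev_le62 hγ.1 hγ.2
    have hpow : s ^ sev γ u.1 v.1 ≤ s ^ sev (mid62 t t' γ) t.1 t'.1 :=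
      pow_le_pow_of_le_one hs hs1 hsev
    have hW : κ ^ 2 * WD q r Λ γ
        ≤ WD q r Λ (low t γ) * WDs q r Λ (mid62 t t' γ) * WD q r Λ (upp t' γ) := by
      by_cases hne : t = t'
      · subst hne
        obtain ⟨a1, a2⟩ := eqparts62 hγ.1 hγ.2
        have m1 : mid62 t t γ = ({t}, ∅) := if_pos rfl
        have m2 : WDs q r Λ (({t}, ∅) : Gr) = 1 := if_pos rfl
        rw [m1, m2, mul_one]
        have h1 := hj _ _ _ a1
        rw [a2] at h1
        have h2 : κ ^ 2 * WD q r Λ γ ≤ κ * WD q r Λ γ := by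
          apply mul_le_mul_of_nonneg_right _ (WD_nonneg hq hr γ)
          nlinarith
        linarith
      · obtain ⟨a1, a2, a3, a4⟩ := parts62 hγ.1 hγ.2 hne
        have m1 : mid62 t t' γ = low t' (upp t γ) := if_neg hne
        have hcp : Y (t' - t) := cp_Y hγ.2.1 hγ.2.2.1 hγ.2.2.2.2.2.1
        have hmt : t ∈ (low t' (upp t γ)).1 := mem_low62.2 ⟨a1.mr, hcp⟩
        have m2 : WDs q r Λ (low t' (upp t γ)) = WD q r Λ (low t' (upp t γ)) :=
          if_neg (ledge62 a3.cl hmt a3.ml hne)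
        rw [m1, m2]
        have h1 := hj _ _ _ a1
        rw [a2] at h1
        have h2 := hj _ _ _ a3
        rw [a4] at h2
        have h3 := WD_nonneg (D := Λ) hq hr (low t γ)
        calc κ ^ 2 * WD q r Λ γ = κ * (κ * WD q r Λ γ) := by ring
          _ ≤ κ * (WD q r Λ (low t γ) * WD q r Λ (upp t γ)) :=
            mul_le_mul_of_nonneg_left h1 hκ.le
          _ = WD q r Λ (low t γ) * (κ * WD q r Λ (upp t γ)) := by ring
          _ ≤ WD q r Λ (low t γ) * (WD q r Λ (low t' (upp t γ)) * WD q r Λ (upp t' γ)) :=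
            mul_le_mul_of_nonneg_left h2 h3
          _ = _ := by ring
    calc κ ^ 2 * (s ^ sev γ u.1 v.1 * WD q r Λ γ)
        = s ^ sev γ u.1 v.1 * (κ ^ 2 * WD q r Λ γ) := by ring
      _ ≤ s ^ sev (mid62 t t' γ) t.1 t'.1 * (κ ^ 2 * WD q r Λ γ) :=
          mul_le_mul_of_nonneg_right hpow (mul_nonneg (sq_nonneg κ) (WD_nonneg hq hr γ))
      _ ≤ s ^ sev (mid62 t t' γ) t.1 t'.1 * (WD q r Λ (low t γ) * WDs q r Λ (mid62 t t' γ)
            * WD q r Λ (upp t' γ)) := mul_le_mul_of_nonneg_left hW (pow_nonneg hs _)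
      _ = g (Φ γ) := by
          show _ = WD q r Λ (low t γ) * (s ^ sev (mid62 t t' γ) t.1 t'.1
            * WDs q r Λ (mid62 t t' γ)) * WD q r Λ (upp t' γ)
          ring
  rw [Finset.mul_sum]
  calc ∑ γ ∈ (Cl Λ u v).filter (FL62 u v t t'), κ ^ 2 * (s ^ sev γ u.1 v.1 * WD q r Λ γ)
      ≤ ∑ γ ∈ (Cl Λ u v).filter (FL62 u v t t'), g (Φ γ) := Finset.sum_le_sum hpt
    _ = ∑ x ∈ ((Cl Λ u v).filter (FL62 u v t t')).image Φ, g x := (Finset.sum_image hinj).symm
    _ ≤ ∑ x ∈ A ×ˢ M ×ˢ B, g x := by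
        apply Finset.sum_le_sum_of_subset_of_nonneg
        · intro x hx
          obtain ⟨γ, hγ, rfl⟩ := Finset.mem_image.1 hx
          exact hmaps γ hγ
        · intro x _ _
          exact hg0 x

open Classical in
theorem thn_split (hq : 0 < q) (hr : ∀ e, 0 ≤ r e) {κ s : ℝ} (hs : 0 ≤ s) (hs1 : s ≤ 1) (hκ : 0 < κ) (hκ1 : κ ≤ 1)
    (hj : ∀ (γ δ : Gr) (m : ℤ × ℤ), Jn γ δ m → κ * WD q r Λ (join γ δ) ≤ WD q r Λ γ * WD q r Λ δ)
    {u v : ℤ × ℤ} (huv : u.1 < v.1) :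
    κ ^ 2 * ∑ γ ∈ Cl Λ u v, s ^ sev γ u.1 v.1 * WD q r Λ γ ≤ nocp q r Λ u v +
      ∑ t ∈ cyl u v, ∑ t' ∈ (insert t (cyl t v)).filter (fun t' => Y (v - t')), nocp q r Λ u t *
        (∑ σ ∈ (Dm t t').filter (fun σ => σ.1 ⊆ Λ), s ^ sev σ t.1 t'.1 * WDs q r Λ σ) * nocp q r Λ t' v := by
  have hterm : ∀ γ : Gr, 0 ≤ κ ^ 2 * (s ^ sev γ u.1 v.1 * WD q r Λ γ) := fun γ =>
    mul_nonneg (sq_nonneg κ) (mul_nonneg (pow_nonneg hs _) (WD_nonneg hq hr γ))
  rw [Finset.mul_sum, ← Finset.sum_filter_add_sum_filter_not (Cl Λ u v) (fun γ => NoCP γ.1 u v)]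
  apply add_le_add
  · unfold nocp
    rw [← Finset.sum_filter]
    apply Finset.sum_le_sum
    intro γ _
    have h1 : κ ^ 2 * s ^ sev γ u.1 v.1 ≤ 1 := by
      have h2 : κ ^ 2 ≤ 1 := pow_le_one₀ hκ.le hκ1
      have h3 : s ^ sev γ u.1 v.1 ≤ 1 := pow_le_one₀ hs hs1
      have h4 : 0 ≤ s ^ sev γ u.1 v.1 := pow_nonneg hs _
      have h5 : 0 ≤ κ ^ 2 := sq_nonneg κ
      nlinarith
    have h2 := WD_nonneg (D := Λ) hq hr γ
    calc κ ^ 2 * (s ^ sev γ u.1 v.1 * WD q r Λ γ)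
        = (κ ^ 2 * s ^ sev γ u.1 v.1) * WD q r Λ γ := by ring
      _ ≤ 1 * WD q r Λ γ := mul_le_mul_of_nonneg_right h1 h2
      _ = WD q r Λ γ := one_mul _
  · calc ∑ γ ∈ (Cl Λ u v).filter (fun γ => ¬ NoCP γ.1 u v),
          κ ^ 2 * (s ^ sev γ u.1 v.1 * WD q r Λ γ)
        ≤ ∑ γ ∈ (Cl Λ u v).filter (fun γ => ¬ NoCP γ.1 u v), ∑ t ∈ cyl u v,
            ∑ t' ∈ (insert t (cyl t v)).filter (fun t' => Y (v - t')), if FL62 u v t t' γ then
              κ ^ 2 * (s ^ sev γ u.1 v.1 * WD q r Λ γ) else 0 := by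
          apply Finset.sum_le_sum
          intro γ hγ
          rw [Finset.mem_filter] at hγ
          obtain ⟨t, ht, t', ht', hFL⟩ := exFL62 hγ.1 hγ.2
          have hnn : ∀ t t', 0 ≤ (if FL62 u v t t' γ then
              κ ^ 2 * (s ^ sev γ u.1 v.1 * WD q r Λ γ) else 0) := by
            intro t t'
            split_ifs
            · exact hterm γ
            · exact le_refl 0
          calc κ ^ 2 * (s ^ sev γ u.1 v.1 * WD q r Λ γ)
              = (if FL62 u v t t' γ then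
                κ ^ 2 * (s ^ sev γ u.1 v.1 * WD q r Λ γ) else 0) := (if_pos hFL).symm
            _ ≤ ∑ t' ∈ (insert t (cyl t v)).filter (fun t' => Y (v - t')), (if FL62 u v t t' γ then
                κ ^ 2 * (s ^ sev γ u.1 v.1 * WD q r Λ γ) else 0) :=
                Finset.single_le_sum (f := fun t' => if FL62 u v t t' γ then
                  κ ^ 2 * (s ^ sev γ u.1 v.1 * WD q r Λ γ) else 0)
                  (fun t' _ => hnn t t') ht'
            _ ≤ _ := Finset.single_le_sum (f := fun t => ∑ t' ∈ (insert t (cyl t v)).filter (fun t' => Y (v - t')),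
                  if FL62 u v t t' γ then κ ^ 2 * (s ^ sev γ u.1 v.1 * WD q r Λ γ) else 0)
                  (fun t _ => Finset.sum_nonneg fun t' _ => hnn t t') ht
      _ ≤ ∑ γ ∈ Cl Λ u v, ∑ t ∈ cyl u v,
            ∑ t' ∈ (insert t (cyl t v)).filter (fun t' => Y (v - t')), if FL62 u v t t' γ then
              κ ^ 2 * (s ^ sev γ u.1 v.1 * WD q r Λ γ) else 0 := by
          apply Finset.sum_le_sum_of_subset_of_nonneg (Finset.filter_subset _ _)
          intro γ _ _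
          refine Finset.sum_nonneg fun t _ => Finset.sum_nonneg fun t' _ => ?_
          split_ifs
          · exact hterm γ
          · exact le_refl 0
      _ = ∑ t ∈ cyl u v, ∑ t' ∈ (insert t (cyl t v)).filter (fun t' => Y (v - t')), κ ^ 2 *
            ∑ γ ∈ (Cl Λ u v).filter (FL62 u v t t'), s ^ sev γ u.1 v.1 * WD q r Λ γ := by
          rw [Finset.sum_comm]
          apply Finset.sum_congr rfl
          intro t _
          rw [Finset.sum_comm]
          apply Finset.sum_congr rfl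
          intro t' _
          rw [Finset.mul_sum, Finset.sum_filter]
      _ ≤ _ := by
          refine Finset.sum_le_sum fun t _ => Finset.sum_le_sum fun t' _ => ?_
          exact fib62 hq hr hs hs1 hκ hκ1 hj

end Pool.Helper83.OZ
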