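import Pool.Agent.Helper83.OZ.Thn2
import Pool.Agent.Helper49.FK.Inf

/-!
Project OZ (MP_7e0861_pr), part L5, block THN3: the two point function with the defect line in terms of diamond graphs
in infinite volume.

For `N` large `D ⊆ box N` and all the diamonds `dia t t'` occurring are contained in `box N`. `G_dfc_le` with
`Λ = box N`, `thn_split` with `r = hom ρ`, `nocp_le` for the rectangle `box N = rect (-N) N (-N) N` (`α = ρ`), and `N → ∞`:
`WD q (hom ρ) (box N) σ → WI q ρ σ` (`tendsto_Psi`), so the finite sums converge. For `t ∈ insert t (cyl t v)` (`t' = t`):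
`Dm t t` consists of the single vertex, `W1 = WDs = 1`.
-/

namespace Pool.Helper83.OZ

open Pool.Helper49.FK
open Pool.Helper17.OZ (Y CP Dbl NoCP nd rect tau)

variable {q ρ ρ' : ℝ}

/-- The sum over the diamond graphs, the single edge pieces on the row `0` get the factor `s`. -/
noncomputable def US (q ρ s : ℝ) (t t' : ℤ × ℤ) : ℝ :=
  ∑ σ ∈ Dm t t', s ^ sev σ t.1 t'.1 * W1 q ρ σ

private theorem h80_box (D : Finset (ℤ × ℤ)) : ∃ N0 : ℕ, ∀ N : ℕ, N0 ≤ N → D ⊆ box N := by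
  induction D using Finset.induction_on with
  | empty => exact ⟨0, fun N _ => Finset.empty_subset _⟩
  | insert a D ha ih =>
    obtain ⟨N, hN⟩ := ih
    refine ⟨max N (a.1.natAbs + a.2.natAbs), fun M hM => ?_⟩
    rw [Finset.insert_subset_iff]
    refine ⟨?_, hN M (le_trans (le_max_left _ _) hM)⟩
    have h1 : a.1.natAbs + a.2.natAbs ≤ M := le_trans (le_max_right _ _) hM
    unfold box
    rw [Finset.mem_product, Finset.mem_Icc, Finset.mem_Icc]
    omega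

private theorem h80_rect (N : ℕ) : box N = rect (-(N : ℤ)) N (-(N : ℤ)) N := rfl

private theorem h80_WDs_nonneg (hq : 0 < q) (hρ : 0 ≤ ρ) (D : Finset (ℤ × ℤ)) (γ : Gr) :
    0 ≤ WDs q (hom ρ) D γ := by
  unfold WDs
  split_ifs
  · exact zero_le_one
  · exact WD_nonneg hq (fun _ => hρ) γ

private theorem h80_tendsto (hq : 1 ≤ q) (hρ : 0 ≤ ρ) (γ : Gr) :
    Filter.Tendsto (fun N : ℕ => WDs q (hom ρ) (box N) γ) Filter.atTop (nhds (W1 q ρ γ)) := by
  unfold WDs W1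
  split_ifs
  · exact tendsto_const_nhds
  · unfold WD WI
    exact (tendsto_Psi hq hρ γ.1).const_mul _

open Classical in
private noncomputable def h80U (q ρ s : ℝ) (N : ℕ) (t t' : ℤ × ℤ) : ℝ :=
  ∑ σ ∈ Dm t t', s ^ sev σ t.1 t'.1 * WDs q (hom ρ) (box N) σ

private theorem h80_U_tendsto (hq : 1 ≤ q) (hρ : 0 ≤ ρ) (s : ℝ) (t t' : ℤ × ℤ) :
    Filter.Tendsto (fun N : ℕ => h80U q ρ s N t t') Filter.atTop (nhds (US q ρ s t t')) := by
  unfold h80U US
  exact tendsto_finsetSum _ fun σ _ => (h80_tendsto hq hρ σ).const_mul _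

private theorem h80_US_nonneg (hq : 1 ≤ q) (hρ : 0 ≤ ρ) {s : ℝ} (hs : 0 ≤ s) (t t' : ℤ × ℤ) :
    0 ≤ US q ρ s t t' := by
  refine ge_of_tendsto (h80_U_tendsto hq hρ s t t') (Filter.Eventually.of_forall fun N => ?_)
  exact Finset.sum_nonneg fun σ _ => mul_nonneg (pow_nonneg hs _)
    (h80_WDs_nonneg (by linarith) hρ _ _)

open Classical in
theorem G_dfc_US (hq : 1 ≤ q) (hρ' : 0 < ρ') (h : ρ' < ρ) (hE : Pool.Helper49.FK.ExpW q ρ) :
    ∃ s C c : ℝ, 0 < s ∧ s < 1 ∧ 0 < C ∧ 0 < c ∧ ∀ (D : Finset (ℤ × ℤ)) (u v : ℤ × ℤ), u ∈ D → u.1 < v.1 →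
      G q (dfc ρ ρ') D u v ≤ C * Real.exp (-(tau q ρ + c) * ((v.1 : ℝ) - u.1)) +
        C * ∑ t ∈ cyl u v, ∑ t' ∈ (insert t (cyl t v)).filter (fun t' => Y (v - t')), Real.exp (-(tau q ρ + c) * ((t.1 : ℝ) - u.1)) *
          US q ρ s t t' * Real.exp (-(tau q ρ + c) * ((v.1 : ℝ) - t'.1)) := by
  have hρ : 0 < ρ := hρ'.trans h
  have hq0 : 0 < q := by linarith
  have hr : ∀ e, 0 ≤ hom ρ e := fun _ => hρ.le
  obtain ⟨s0, hs0, hs1, hG⟩ := G_dfc_le hq hρ'.le h
  obtain ⟨κ, hκ, hκ1, hJ⟩ := WD_join_le hq hρ (hE.decay hq hρ)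
  obtain ⟨C1, c, hC1, hc, hN⟩ := nocp_le hq hρ le_rfl hE
  obtain ⟨s, hs⟩ : ∃ s, s = max s0 (1 / 2) := ⟨_, rfl⟩
  have hs' : 0 < s := by rw [hs]; exact lt_of_lt_of_le (by norm_num) (le_max_right _ _)
  have hs1' : s < 1 := by rw [hs]; exact max_lt hs1 (by norm_num)
  have hs0s : s0 ≤ s := by rw [hs]; exact le_max_left _ _
  refine ⟨s, (κ ^ 2)⁻¹ * (C1 + C1 * C1), c, hs', hs1', by positivity, hc, ?_⟩
  intro D u v hu huv
  -- the bound in the box
  obtain ⟨E, hEdef⟩ : ∃ E : ℤ × ℤ → ℤ × ℤ → ℝ, E = fun a b =>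
    Real.exp (-(tau q ρ + c) * ((b.1 : ℝ) - a.1)) := ⟨_, rfl⟩
  have hEpos : ∀ a b, 0 < E a b := by intro a b; rw [hEdef]; exact Real.exp_pos _
  obtain ⟨N0, hN0⟩ := h80_box (D ∪ {u, v} ∪ cyl u v ∪ (cyl u v).biUnion fun t => insert t (cyl t v))
  have key : ∀ N : ℕ, N0 ≤ N → G q (dfc ρ ρ') D u v ≤ (κ ^ 2)⁻¹ * (C1 * E u v +
      ∑ t ∈ cyl u v, ∑ t' ∈ (insert t (cyl t v)).filter (fun t' => Y (v - t')), C1 * E u t * h80U q ρ s N t t' * (C1 * E t' v)) := by
    intro N hNN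
    have hsub := hN0 N hNN
    have hDN : D ⊆ box N := fun x hx => hsub (by simp [hx])
    have huN : u ∈ box N := hsub (by simp)
    have hvN : v ∈ box N := hsub (by simp)
    have h1 := hG D (box N) u v hDN hu
    have h2 : ∑ γ ∈ Cl (box N) u v, s0 ^ sev γ u.1 v.1 * WD q (hom ρ) (box N) γ ≤
        ∑ γ ∈ Cl (box N) u v, s ^ sev γ u.1 v.1 * WD q (hom ρ) (box N) γ := by
      refine Finset.sum_le_sum fun γ _ => ?_
      exact mul_le_mul_of_nonneg_right (pow_le_pow_left₀ hs0 hs0s _) (WD_nonneg hq0 hr γ)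
    have h3 := thn_split (Λ := box N) (r := hom ρ) hq0 hr hs'.le hs1'.le hκ hκ1
      (fun γ δ m hm => hJ (box N) (hom ρ) (fun e => ⟨hρ.le, le_rfl⟩) γ δ m hm) huv
    have hn : ∀ a ∈ box N, ∀ b ∈ box N, a.1 < b.1 → nocp q (hom ρ) (box N) a b ≤ C1 * E a b := by
      intro a ha b hb hab
      rw [hEdef]
      rw [h80_rect] at ha hb ⊢
      exact hN (hom ρ) (fun e => ⟨le_rfl, le_rfl⟩) _ _ _ _ a b ha hb hab
    have h4 : nocp q (hom ρ) (box N) u v +
        ∑ t ∈ cyl u v, ∑ t' ∈ (insert t (cyl t v)).filter (fun t' => Y (v - t')), nocp q (hom ρ) (box N) u t *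
        (∑ σ ∈ (Dm t t').filter (fun σ => σ.1 ⊆ box N),
          s ^ sev σ t.1 t'.1 * WDs q (hom ρ) (box N) σ) * nocp q (hom ρ) (box N) t' v ≤
        C1 * E u v + ∑ t ∈ cyl u v, ∑ t' ∈ (insert t (cyl t v)).filter (fun t' => Y (v - t')),
          C1 * E u t * h80U q ρ s N t t' * (C1 * E t' v) := by
      refine add_le_add (hn u huN v hvN huv) ?_
      refine Finset.sum_le_sum fun t ht => Finset.sum_le_sum fun t' ht'0 => ?_
      have ht' := (Finset.mem_filter.1 ht'0).1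
      have htN : t ∈ box N := hsub (by
        rw [Finset.mem_union, Finset.mem_union]
        exact Or.inl (Or.inr ht))
      have htN' : t' ∈ box N := hsub (by
        rw [Finset.mem_union]
        exact Or.inr (Finset.mem_biUnion.2 ⟨t, ht, ht'⟩))
      have ht1 := mem_cyl.1 ht
      have ht2 : t'.1 < v.1 := by
        rcases Finset.mem_insert.1 ht' with h5 | h5
        · rw [h5]; exact ht1.2.1
        · exact (mem_cyl.1 h5).2.1
      have h5 : ∑ σ ∈ (Dm t t').filter (fun σ => σ.1 ⊆ box N),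
          s ^ sev σ t.1 t'.1 * WDs q (hom ρ) (box N) σ ≤ h80U q ρ s N t t' := by
        refine Finset.sum_le_sum_of_subset_of_nonneg (Finset.filter_subset _ _) fun σ _ _ => ?_
        exact mul_nonneg (pow_nonneg hs'.le _) (h80_WDs_nonneg hq0 hρ.le _ _)
      have h6 : 0 ≤ ∑ σ ∈ (Dm t t').filter (fun σ => σ.1 ⊆ box N),
          s ^ sev σ t.1 t'.1 * WDs q (hom ρ) (box N) σ :=
        Finset.sum_nonneg fun σ _ => mul_nonneg (pow_nonneg hs'.le _)
          (h80_WDs_nonneg hq0 hρ.le _ _)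
      have h7 := hn u huN t htN ht1.1
      have h8 := hn t' htN' v hvN ht2
      have h9 := nocp_nonneg (D := box N) hq0 hr u t
      have h10 := nocp_nonneg (D := box N) hq0 hr t' v
      have p1 : 0 ≤ C1 * E u t := mul_nonneg hC1.le (hEpos _ _).le
      exact mul_le_mul (mul_le_mul h7 h5 h6 p1) h8 h10 (mul_nonneg p1 (h6.trans h5))
    have h5 := h3.trans h4
    rw [inv_mul_eq_div, le_div_iff₀ (by positivity), mul_comm]
    exact (mul_le_mul_of_nonneg_left (h1.trans h2) (by positivity)).trans h5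
  have hlim : Filter.Tendsto (fun N : ℕ => (κ ^ 2)⁻¹ * (C1 * E u v +
      ∑ t ∈ cyl u v, ∑ t' ∈ (insert t (cyl t v)).filter (fun t' => Y (v - t')), C1 * E u t * h80U q ρ s N t t' * (C1 * E t' v)))
      Filter.atTop (nhds ((κ ^ 2)⁻¹ * (C1 * E u v +
      ∑ t ∈ cyl u v, ∑ t' ∈ (insert t (cyl t v)).filter (fun t' => Y (v - t')), C1 * E u t * US q ρ s t t' * (C1 * E t' v)))) := by
    refine Filter.Tendsto.const_mul _ (Filter.Tendsto.const_add _ ?_)
    refine tendsto_finsetSum _ fun t _ => tendsto_finsetSum _ fun t' _ => ?_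
    exact ((h80_U_tendsto hq hρ.le s t t').const_mul _).mul_const _
  have h1 : G q (dfc ρ ρ') D u v ≤ (κ ^ 2)⁻¹ * (C1 * E u v +
      ∑ t ∈ cyl u v, ∑ t' ∈ (insert t (cyl t v)).filter (fun t' => Y (v - t')), C1 * E u t * US q ρ s t t' * (C1 * E t' v)) :=
    ge_of_tendsto hlim (Filter.eventually_atTop.2 ⟨N0, key⟩)
  refine h1.trans ?_
  have hS : ∑ t ∈ cyl u v, ∑ t' ∈ (insert t (cyl t v)).filter (fun t' => Y (v - t')), C1 * E u t * US q ρ s t t' * (C1 * E t' v) =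
      C1 * C1 * ∑ t ∈ cyl u v, ∑ t' ∈ (insert t (cyl t v)).filter (fun t' => Y (v - t')), E u t * US q ρ s t t' * E t' v := by
    rw [Finset.mul_sum]
    refine Finset.sum_congr rfl fun t _ => ?_
    rw [Finset.mul_sum]
    refine Finset.sum_congr rfl fun t' _ => ?_
    ring
  have hS0 : 0 ≤ ∑ t ∈ cyl u v, ∑ t' ∈ (insert t (cyl t v)).filter (fun t' => Y (v - t')), E u t * US q ρ s t t' * E t' v :=
    Finset.sum_nonneg fun t _ => Finset.sum_nonneg fun t' _ =>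
      mul_nonneg (mul_nonneg (hEpos _ _).le (h80_US_nonneg hq hρ.le hs'.le t t')) (hEpos _ _).le
  rw [hS]
  have e1 : (κ ^ 2)⁻¹ * (C1 * E u v + C1 * C1 *
      ∑ t ∈ cyl u v, ∑ t' ∈ (insert t (cyl t v)).filter (fun t' => Y (v - t')), E u t * US q ρ s t t' * E t' v) ≤
      (κ ^ 2)⁻¹ * (C1 + C1 * C1) * E u v + (κ ^ 2)⁻¹ * (C1 + C1 * C1) *
        ∑ t ∈ cyl u v, ∑ t' ∈ (insert t (cyl t v)).filter (fun t' => Y (v - t')), E u t * US q ρ s t t' * E t' v := by
    have hκi : 0 ≤ (κ ^ 2)⁻¹ := by positivity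
    have a1 : C1 * E u v ≤ (C1 + C1 * C1) * E u v :=
      mul_le_mul_of_nonneg_right (by nlinarith) (hEpos _ _).le
    have a2 : C1 * C1 * (∑ t ∈ cyl u v, ∑ t' ∈ (insert t (cyl t v)).filter (fun t' => Y (v - t')), E u t * US q ρ s t t' * E t' v) ≤
        (C1 + C1 * C1) *
          ∑ t ∈ cyl u v, ∑ t' ∈ (insert t (cyl t v)).filter (fun t' => Y (v - t')), E u t * US q ρ s t t' * E t' v :=
      mul_le_mul_of_nonneg_right (by linarith) hS0
    have a3 := mul_le_mul_of_nonneg_left (add_le_add a1 a2) hκi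
    refine a3.trans (le_of_eq ?_)
    ring
  refine e1.trans (le_of_eq ?_)
  rw [hEdef]

end Pool.Helper83.OZ
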