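import Pool.Agent.Helper83.OZ.Thn3
import Pool.Agent.Helper95.OZ.Tra
import Pool.Agent.Helper18.WK.Defs

/-!
Project OZ (MP_7e0861_pr), part L5, block THN4: the sum over the diamond graphs with thinned single edge pieces is at
most the mass of the chains with the kernel `Kd F (1 - s)` of Helper18/WK/Defs.lean.

`US_step`: every `σ ∈ Dm t t'`, `t.1 < t'.1`, has an edge, so `W1 σ = WI σ = FG t t' σ + ∑ y ∈ cps σ t t', FG t y (low y σ) *
WI (upp y σ)` (`FG_eq`). With `y ∈ insert t' (cps σ t t')`: `low y σ ∈ Dm t y`, `upp y σ ∈ Dm y t'` (`W1 (upp t' σ) = 1`), the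
pairs determine `σ` (`sum_split_dm`), and `sev σ t.1 t'.1 = sev (low y σ) t.1 y.1 + sev (upp y σ) y.1 t'.1` (only `≥` is
needed; `Jn.cp_left`, `Jn.cp_right`). So `US t t' ≤ ∑ y, (∑ σ₁ ∈ Dm t y, s ^ sev σ₁ t.1 y.1 * FG t y σ₁) * US y t'`, `y` in the
columns `t.1 < y.1 ≤ t'.1`, `Y (y - t)`. The inner sum is at most `fI (y - t)` (`sum_FG_eq`, `0 ≤ s ≤ 1`, `FG ≥ 0`), and for
`t.2 = 0`, `y = t + (1, 0)` it is `s * fI (1, 0)` (the only graph in `Dm t y` is the single edge, `sev = 1`).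
`US_le_G`: strong induction on `t'.1 - t.1` with `US_step` and `G_succ`; `Kd F (1 - s)` at `(t.2, l, y.2)` is
`ofReal (s * F.f 1 0)` for `t.2 = y.2 = 0`, `l = 1`, and `ofReal (F.f l (y.2 - t.2))` otherwise.
-/

open scoped ENNReal

namespace Pool.Helper83.OZ

open Pool.Helper49.FK
open Pool.Helper17.OZ (Y CP Dbl NoCP nd rect tau)
open Pool.Helper95.OZ (FG fI)

variable {q ρ : ℝ}

private theorem W1_nonneg70 (hq : 1 ≤ q) (hρ : 0 < ρ) (γ : Gr) : 0 ≤ W1 q ρ γ := by
  unfold W1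
  split_ifs
  · exact zero_le_one
  · unfold WI
    exact mul_nonneg (bg_nonneg (by linarith) (fun _ => hρ.le) _) (PsiI_pos hq hρ.le _).le

private theorem US_nonneg70 (hq : 1 ≤ q) (hρ : 0 < ρ) {s : ℝ} (hs : 0 ≤ s) (t t' : ℤ × ℤ) :
    0 ≤ US q ρ s t t' :=
  Finset.sum_nonneg fun σ _ => mul_nonneg (pow_nonneg hs _) (W1_nonneg70 hq hρ σ)

private theorem fI_nonneg70 (hFG : ∀ (a b : ℤ × ℤ) (γ : Gr), a ≠ b → γ ∈ Dm a b → 0 ≤ FG q ρ a b γ)
    (x : ℤ × ℤ) : 0 ≤ fI q ρ x := by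
  unfold fI
  split_ifs with h
  · exact le_rfl
  · exact Finset.sum_nonneg fun γ hγ => hFG 0 x γ (fun h' => h h'.symm) hγ

/-- A connected graph with two different vertices has an edge. -/
private theorem edge_ne70 {γ : Gr} (h : IsClu γ.1 γ.2) {a b : ℤ × ℤ} (ha : a ∈ γ.1) (hb : b ∈ γ.1)
    (hab : a ≠ b) : γ.2 ≠ ∅ := by
  intro h0
  have h1 := h.2 a ha b hb
  rw [h0] at h1
  have h2 : b ∈ ({a} : Set (ℤ × ℤ)) :=
    Conn.induct (S := {a}) h1 rfl (fun e he => absurd he (Finset.notMem_empty e))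
  exact hab h2.symm

private theorem tip_ne70 (e : Edge) : tip e ≠ e.1 := by
  intro h
  unfold tip at h
  split_ifs at h
  · have := congrArg Prod.fst h
    simp at this
  · have := congrArg Prod.snd h
    simp at this

private theorem upp_end70 {σ : Gr} {t' : ℤ × ℤ} (h : IsClu σ.1 σ.2) (hb : Bw σ t') :
    (upp t' σ).2 = ∅ := by
  classical
  rw [Finset.eq_empty_iff_forall_notMem]
  intro e he
  unfold upp at he
  rw [Finset.mem_filter] at he
  have h1 := mem_edges.1 (h.1 he.1)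
  exact tip_ne70 e ((Y_antisymm (hb _ h1.2) he.2.2).trans (Y_antisymm (hb _ h1.1) he.2.1).symm)

private theorem low_end70 {σ : Gr} {t' : ℤ × ℤ} (h : IsClu σ.1 σ.2) (hb : Bw σ t') :
    low t' σ = σ := by
  classical
  unfold low
  refine Prod.ext ?_ ?_
  · exact Finset.filter_true_of_mem fun y hy => hb y hy
  · refine Finset.filter_true_of_mem fun e he => ?_
    have h1 := mem_edges.1 (h.1 he)
    exact ⟨hb _ h1.1, hb _ h1.2⟩

open Classical in
/-- The renewal equation for one graph. -/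
private theorem W1_split70 {t t' : ℤ × ℤ} (h : t.1 < t'.1) {σ : Gr} (hσ : σ ∈ Dm t t') :
    W1 q ρ σ = ∑ y ∈ insert t' (cyl t t'),
      if CP σ.1 y then FG q ρ t y (low y σ) * W1 q ρ (upp y σ) else 0 := by
  obtain ⟨h1, h2, h3, h4, h5⟩ := mem_Dm.1 hσ
  have hne : t ≠ t' := fun h' => by rw [h'] at h; exact lt_irrefl _ h
  have hW : W1 q ρ σ = WI q ρ σ := by
    unfold W1
    rw [if_neg (edge_ne70 h1 h4 h5 hne)]
  have ht' : t' ∉ cyl t t' := fun h' => by
    have := (mem_cyl.1 h').2.1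
    exact lt_irrefl _ this
  have hcp : CP σ.1 t' := ⟨h5, fun y hy => Or.inr (h3 y hy)⟩
  rw [Finset.sum_insert ht', if_pos hcp, low_end70 h1 h3]
  have hu : W1 q ρ (upp t' σ) = 1 := by
    unfold W1
    rw [if_pos (upp_end70 h1 h3)]
  rw [hu, mul_one, hW]
  have h6 : cps σ t t' = (cyl t t').filter fun y => CP σ.1 y := by
    ext y
    rw [mem_cps, Finset.mem_filter, mem_cyl]
    constructor
    · rintro ⟨a1, a2, a3⟩
      exact ⟨⟨a2, a3, h2 y a1.1⟩, a1⟩
    · rintro ⟨⟨a1, a2, _⟩, a4⟩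
      exact ⟨a4, a1, a2⟩
  have h7 := Pool.Helper95.OZ.FG_eq (q := q) (ρ := ρ) (a := t) (b := t') (γ := σ) h5
  rw [← Finset.sum_filter, ← h6, h7]
  have h8 : ∑ m ∈ cps σ t t', FG q ρ t m (low m σ) * WI q ρ (upp m σ) =
      ∑ m ∈ cps σ t t', FG q ρ t m (low m σ) * W1 q ρ (upp m σ) := by
    refine Finset.sum_congr rfl fun m hm => ?_
    obtain ⟨a1, a2, a3⟩ := mem_cps.1 hm
    have a4 := upp_spec h1 a1
    have a5 : t' ∈ (upp m σ).1 := by
      unfold upp
      rw [Finset.mem_filter]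
      exact ⟨h5, cp_Y a1 hcp a3.le⟩
    have a6 : W1 q ρ (upp m σ) = WI q ρ (upp m σ) := by
      unfold W1
      rw [if_neg (edge_ne70 a4.1 a4.2.1 a5 (fun h' => by rw [h'] at a3; exact lt_irrefl _ a3))]
    rw [a6]
  rw [h8]
  ring

private theorem sev_join70 {γ δ : Gr} {m : ℤ × ℤ} (h : Jn γ δ m) {a b : ℤ} (ha : a ≤ m.1) (hb : m.1 ≤ b) :
    sev γ a m.1 + sev δ m.1 b ≤ sev (join γ δ) a b := by
  classical
  unfold sev
  rw [← Finset.card_union_of_disjoint]
  · refine Finset.card_le_card ?_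
    intro p hp
    rw [Finset.mem_union, Finset.mem_filter, Finset.mem_filter] at hp
    rw [Finset.mem_filter]
    have e1 : (p + ((1 : ℤ), (0 : ℤ))).1 = p.1 + 1 := rfl
    rcases hp with ⟨p1, p2, p3, p4, p5, p6⟩ | ⟨p1, p2, p3, p4, p5, p6⟩
    · refine ⟨Finset.mem_union_left _ p1, p2, p3, by omega, ?_, ?_⟩
      · exact (h.cp_left (by omega)).2 p5
      · exact (h.cp_left (by rw [e1]; omega)).2 p6
    · refine ⟨Finset.mem_union_right _ p1, p2, by omega, p4, ?_, ?_⟩
      · exact (h.cp_right (by omega)).2 p5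
      · exact (h.cp_right (by rw [e1]; omega)).2 p6
  · rw [Finset.disjoint_left]
    intro p hp hp'
    rw [Finset.mem_filter] at hp hp'
    have h1 := hp.2.2.2.1
    have h2 := hp'.2.2.1
    omega

private theorem jn70 {t y t' : ℤ × ℤ} {γ δ : Gr} (hγ : γ ∈ Dm t y) (hδ : δ ∈ Dm y t') : Jn γ δ y := by
  obtain ⟨h1, h2, h3, h4, h5⟩ := mem_Dm.1 hγ
  obtain ⟨k1, k2, k3, k4, k5⟩ := mem_Dm.1 hδ
  exact ⟨h1, k1, h5, k4, h3, k2⟩

private theorem inner70 (hq : 1 ≤ q) (hρ : 0 < ρ) {s : ℝ} (hs : 0 ≤ s) (hs1 : s ≤ 1)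
    (hFG : ∀ (a b : ℤ × ℤ) (γ : Gr), a ≠ b → γ ∈ Dm a b → 0 ≤ FG q ρ a b γ) {t y : ℤ × ℤ} (h : t ≠ y) :
    ∑ γ ∈ Dm t y, s ^ sev γ t.1 y.1 * FG q ρ t y γ ≤
      (if t.2 = 0 ∧ y = t + (1, 0) then s * fI q ρ (1, 0) else fI q ρ (y - t)) := by
  classical
  by_cases hc : t.2 = 0 ∧ y = t + (1, 0)
  · rw [if_pos hc]
    have e1 : ((1, 0) : ℤ × ℤ) = y - t := by rw [hc.2]; simp
    have e2 : y.1 = t.1 + 1 := by rw [hc.2]; rfl
    rw [e1, ← Pool.Helper95.OZ.sum_FG_eq hq hρ h, Finset.mul_sum]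
    refine Finset.sum_le_sum fun γ hγ => mul_le_mul_of_nonneg_right ?_ (hFG t y γ h hγ)
    obtain ⟨h1, h2, h3, h4, h5⟩ := mem_Dm.1 hγ
    have h6 : 1 ≤ sev γ t.1 y.1 := by
      unfold sev
      rw [Nat.one_le_iff_ne_zero, Finset.card_ne_zero]
      refine ⟨t, ?_⟩
      rw [Finset.mem_filter]
      refine ⟨h4, hc.1, le_rfl, by omega, ⟨h4, fun z hz => Or.inl (h2 z hz)⟩, ?_⟩
      rw [← hc.2]
      exact ⟨h5, fun z hz => Or.inr (h3 z hz)⟩
    calc s ^ sev γ t.1 y.1 ≤ s ^ 1 := pow_le_pow_of_le_one hs hs1 h6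
      _ = s := pow_one s
  · rw [if_neg hc, ← Pool.Helper95.OZ.sum_FG_eq hq hρ h]
    refine Finset.sum_le_sum fun γ hγ => ?_
    have h1 := hFG t y γ h hγ
    have h2 : s ^ sev γ t.1 y.1 ≤ 1 := pow_le_one₀ hs hs1
    nlinarith

open Classical in
theorem US_step (hq : 1 ≤ q) (hρ : 0 < ρ) {s : ℝ} (hs : 0 ≤ s) (hs1 : s ≤ 1)
    (hFG : ∀ (a b : ℤ × ℤ) (γ : Gr), a ≠ b → γ ∈ Dm a b → 0 ≤ FG q ρ a b γ) {t t' : ℤ × ℤ} (h : t.1 < t'.1) :
    US q ρ s t t' ≤ ∑ y ∈ insert t' (cyl t t'),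
      (if t.2 = 0 ∧ y = t + (1, 0) then s * fI q ρ (1, 0) else fI q ρ (y - t)) * US q ρ s y t' := by
  have h1 : US q ρ s t t' = ∑ y ∈ insert t' (cyl t t'), ∑ σ ∈ Dm t t',
      if CP σ.1 y then s ^ sev σ t.1 t'.1 * (FG q ρ t y (low y σ) * W1 q ρ (upp y σ)) else 0 := by
    unfold US
    rw [Finset.sum_comm]
    refine Finset.sum_congr rfl fun σ hσ => ?_
    rw [W1_split70 h hσ, Finset.mul_sum]
    refine Finset.sum_congr rfl fun y _ => ?_
    rw [mul_ite, mul_zero]
  rw [h1]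
  refine Finset.sum_le_sum fun y hy => ?_
  have hty : t.1 < y.1 := by
    rcases Finset.mem_insert.1 hy with h2 | h2
    · rw [h2]; exact h
    · exact (mem_cyl.1 h2).1
  have hne : t ≠ y := fun h' => by rw [h'] at hty; exact lt_irrefl _ hty
  have hc0 : 0 ≤ (if t.2 = 0 ∧ y = t + (1, 0) then s * fI q ρ (1, 0) else fI q ρ (y - t)) := by
    split_ifs
    · exact mul_nonneg hs (fI_nonneg70 hFG _)
    · exact fI_nonneg70 hFG _
  by_cases hY : Y (y - t) ∧ Y (t' - y)
  · have h2 := sum_split_dm (m := y) hY.1 hY.2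
      (fun σ => s ^ sev σ t.1 t'.1 * (FG q ρ t y (low y σ) * W1 q ρ (upp y σ)))
    beta_reduce at h2
    refine (le_of_eq ?_).trans (((le_of_eq h2).trans ?_).trans
      (mul_le_mul_of_nonneg_right (inner70 hq hρ hs hs1 hFG hne) (US_nonneg70 hq hρ hs y t')))
    · refine Finset.sum_congr rfl fun σ _ => ?_
      congr
    · unfold US
      rw [Finset.sum_mul_sum]
      refine Finset.sum_le_sum fun γ hγ => Finset.sum_le_sum fun δ hδ => ?_
      have hj := jn70 hγ hδ
      rw [hj.low, hj.upp]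
      have a1 : s ^ sev (join γ δ) t.1 t'.1 ≤ s ^ sev γ t.1 y.1 * s ^ sev δ y.1 t'.1 := by
        rw [← pow_add]
        exact pow_le_pow_of_le_one hs hs1 (sev_join70 hj (Y_le hY.1) (Y_le hY.2))
      have a2 : 0 ≤ FG q ρ t y γ * W1 q ρ δ := mul_nonneg (hFG t y γ hne hγ) (W1_nonneg70 hq hρ δ)
      calc s ^ sev (join γ δ) t.1 t'.1 * (FG q ρ t y γ * W1 q ρ δ)
          ≤ s ^ sev γ t.1 y.1 * s ^ sev δ y.1 t'.1 * (FG q ρ t y γ * W1 q ρ δ) :=
            mul_le_mul_of_nonneg_right a1 a2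
        _ = s ^ sev γ t.1 y.1 * FG q ρ t y γ * (s ^ sev δ y.1 t'.1 * W1 q ρ δ) := by ring
  · refine (le_of_eq ?_).trans (mul_nonneg hc0 (US_nonneg70 hq hρ hs y t'))
    refine Finset.sum_eq_zero fun σ hσ => ?_
    obtain ⟨a1, a2, a3, a4, a5⟩ := mem_Dm.1 hσ
    rw [if_neg]
    exact fun hcp => hY ⟨a2 y hcp.1, a3 y hcp.1⟩

private theorem US_self70 (hq : 1 ≤ q) (hρ : 0 < ρ) {s : ℝ} (hs : 0 ≤ s) (hs1 : s ≤ 1) (t : ℤ × ℤ) :
    US q ρ s t t ≤ 1 := by
  classical
  unfold US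
  have h1 : Dm t t ⊆ {(({t}, ∅) : Gr)} := by
    intro σ hσ
    obtain ⟨a1, a2, a3, a4, a5⟩ := mem_Dm.1 hσ
    have hv : ∀ y ∈ σ.1, y = t := fun y hy => Y_antisymm (a3 y hy) (a2 y hy)
    rw [Finset.mem_singleton]
    refine Prod.ext ?_ ?_
    · ext y
      rw [Finset.mem_singleton]
      exact ⟨hv y, fun h => h ▸ a4⟩
    · rw [Finset.eq_empty_iff_forall_notMem]
      intro e he
      have h2 := mem_edges.1 (a1.1 he)
      exact tip_ne70 e ((hv _ h2.2).trans (hv _ h2.1).symm)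
  refine (Finset.sum_le_sum_of_subset_of_nonneg h1 fun σ _ _ =>
    mul_nonneg (pow_nonneg hs _) (W1_nonneg70 hq hρ σ)).trans ?_
  rw [Finset.sum_singleton]
  have h2 : W1 q ρ (({t}, ∅) : Gr) = 1 := by
    unfold W1
    rw [if_pos rfl]
  rw [h2, mul_one]
  exact pow_le_one₀ hs hs1

private theorem US_col70 {s : ℝ} {t t' : ℤ × ℤ} (h : t.1 = t'.1) (hne : t ≠ t') : US q ρ s t t' = 0 := by
  unfold US
  refine Finset.sum_eq_zero fun σ hσ => ?_
  exfalso
  obtain ⟨a1, a2, a3, a4, a5⟩ := mem_Dm.1 hσ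
  have := Y_lt (a2 t' a5) hne
  omega

theorem US_le_G (hq : 1 ≤ q) (hρ : 0 < ρ) {s : ℝ} (hs : 0 < s) (hs1 : s < 1)
    (hFG : ∀ (a b : ℤ × ℤ) (γ : Gr), a ≠ b → γ ∈ Dm a b → 0 ≤ FG q ρ a b γ)
    (F : Pool.Agent.Helper18.WK.Law)
    (hF : ∀ (l : ℕ) (h : ℤ), F.f l h = fI q ρ ((l : ℤ), h) * Real.exp (tau q ρ * l)) {t t' : ℤ × ℤ} (n : ℕ)
    (hn : t'.1 - t.1 = n) :
    ENNReal.ofReal (US q ρ s t t' * Real.exp (tau q ρ * n)) ≤
      Pool.Agent.Helper18.WK.G (Pool.Agent.Helper18.WK.Kd F (1 - s)) n t.2 t'.2 := by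
  classical
  induction n using Nat.strong_induction_on generalizing t with
  | _ n ih =>
    rcases n with _ | n
    · rw [Pool.Agent.Helper18.WK.G_zero]
      have h0 : t.1 = t'.1 := by
        push_cast at hn
        omega
      by_cases h : t.2 = t'.2
      · rw [if_pos h]
        have h1 : t = t' := Prod.ext h0 h
        rw [h1]
        have h2 := US_self70 (ρ := ρ) hq hρ hs.le hs1.le t'
        rw [← ENNReal.ofReal_one]
        refine ENNReal.ofReal_le_ofReal ?_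
        simpa using h2
      · have h1 : t ≠ t' := fun h' => h (by rw [h'])
        rw [US_col70 h0 h1, zero_mul, ENNReal.ofReal_zero]
        exact zero_le
    · have hlt : t.1 < t'.1 := by
        push_cast at hn
        omega
      -- the summands
      set H : ℕ → ℤ → ℝ≥0∞ := fun l z =>
        Pool.Agent.Helper18.WK.Kd F (1 - s) t.2 (l + 1) z *
          Pool.Agent.Helper18.WK.G (Pool.Agent.Helper18.WK.Kd F (1 - s)) (n - l) z t'.2 with hH
      have hcol : ∀ y ∈ insert t' (cyl t t'), t.1 < y.1 ∧ y.1 ≤ t'.1 := by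
        intro y hy
        rcases Finset.mem_insert.1 hy with h2 | h2
        · rw [h2]; exact ⟨hlt, le_rfl⟩
        · exact ⟨(mem_cyl.1 h2).1, (mem_cyl.1 h2).2.1.le⟩
      have hterm : ∀ y ∈ insert t' (cyl t t'),
          ENNReal.ofReal ((if t.2 = 0 ∧ y = t + (1, 0) then s * fI q ρ (1, 0) else fI q ρ (y - t)) *
            US q ρ s y t' * Real.exp (tau q ρ * ((n + 1 : ℕ) : ℝ))) ≤
            H (y.1 - t.1 - 1).toNat y.2 := by
        intro y hy
        obtain ⟨h2, h3⟩ := hcol y hy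
        obtain ⟨l, hl⟩ : ∃ l : ℕ, y.1 - t.1 = (l : ℤ) + 1 := ⟨(y.1 - t.1 - 1).toNat, by omega⟩
        have hl2 : (y.1 - t.1 - 1).toNat = l := by omega
        have hln : l ≤ n := by
          push_cast at hn
          omega
        rw [hl2]
        have h4 := ih (n - l) (by omega) (t := y) (by push_cast at hn ⊢; omega)
        have h5 : Real.exp (tau q ρ * ((n + 1 : ℕ) : ℝ)) =
            Real.exp (tau q ρ * ((l + 1 : ℕ) : ℝ)) * Real.exp (tau q ρ * ((n - l : ℕ) : ℝ)) := by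
          rw [← Real.exp_add]
          congr 1
          rw [Nat.cast_sub hln]
          push_cast
          ring
        have hyt : y - t = (((l + 1 : ℕ) : ℤ), y.2 - t.2) := by
          refine Prod.ext ?_ rfl
          rw [Prod.fst_sub, hl]
          push_cast
          rfl
        have h6 : ENNReal.ofReal ((if t.2 = 0 ∧ y = t + (1, 0) then s * fI q ρ (1, 0) else fI q ρ (y - t)) *
            Real.exp (tau q ρ * ((l + 1 : ℕ) : ℝ))) = Pool.Agent.Helper18.WK.Kd F (1 - s) t.2 (l + 1) y.2 := by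
          unfold Pool.Agent.Helper18.WK.Kd
          by_cases hc : t.2 = 0 ∧ y = t + (1, 0)
          · have e1 : y.2 = 0 := by
              rw [hc.2]
              change t.2 + 0 = 0
              rw [hc.1, add_zero]
            have e2 : l = 0 := by
              have : y.1 = t.1 + 1 := by rw [hc.2]; rfl
              omega
            rw [if_pos hc, if_pos ⟨hc.1, e1, by rw [e2]⟩]
            congr 1
            rw [hF 1 0, e2]
            push_cast
            ring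
          · rw [if_neg hc, if_neg]
            · congr 1
              rw [hF (l + 1) (y.2 - t.2), hyt]
            · rintro ⟨e1, e2, e3⟩
              refine hc ⟨e1, Prod.ext ?_ ?_⟩
              · change y.1 = t.1 + 1
                omega
              · change y.2 = t.2 + 0
                omega
        have h7 : 0 ≤ (if t.2 = 0 ∧ y = t + (1, 0) then s * fI q ρ (1, 0) else fI q ρ (y - t)) *
            Real.exp (tau q ρ * ((l + 1 : ℕ) : ℝ)) := by
          refine mul_nonneg ?_ (Real.exp_pos _).le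
          split_ifs
          · exact mul_nonneg hs.le (fI_nonneg70 hFG _)
          · exact fI_nonneg70 hFG _
        calc ENNReal.ofReal ((if t.2 = 0 ∧ y = t + (1, 0) then s * fI q ρ (1, 0) else fI q ρ (y - t)) *
            US q ρ s y t' * Real.exp (tau q ρ * ((n + 1 : ℕ) : ℝ)))
            = ENNReal.ofReal (((if t.2 = 0 ∧ y = t + (1, 0) then s * fI q ρ (1, 0) else fI q ρ (y - t)) *
            Real.exp (tau q ρ * ((l + 1 : ℕ) : ℝ))) *
            (US q ρ s y t' * Real.exp (tau q ρ * ((n - l : ℕ) : ℝ)))) := by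
              congr 1
              rw [h5]
              ring
          _ = Pool.Agent.Helper18.WK.Kd F (1 - s) t.2 (l + 1) y.2 *
            ENNReal.ofReal (US q ρ s y t' * Real.exp (tau q ρ * ((n - l : ℕ) : ℝ))) := by
              rw [ENNReal.ofReal_mul h7, h6]
          _ ≤ H l y.2 := mul_le_mul_right h4 _
      have hstep := US_step hq hρ hs.le hs1.le hFG hlt
      have hsum : ENNReal.ofReal (US q ρ s t t' * Real.exp (tau q ρ * ((n + 1 : ℕ) : ℝ))) ≤
          ∑ y ∈ insert t' (cyl t t'), H (y.1 - t.1 - 1).toNat y.2 := by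
        refine (ENNReal.ofReal_le_ofReal (mul_le_mul_of_nonneg_right hstep (Real.exp_pos _).le)).trans ?_
        rw [Finset.sum_mul, ENNReal.ofReal_sum_of_nonneg]
        · exact Finset.sum_le_sum hterm
        · intro y _
          refine mul_nonneg (mul_nonneg ?_ (US_nonneg70 hq hρ hs.le y t')) (Real.exp_pos _).le
          split_ifs
          · exact mul_nonneg hs.le (fI_nonneg70 hFG _)
          · exact fI_nonneg70 hFG _
      rw [Pool.Agent.Helper18.WK.G_succ]
      refine hsum.trans ?_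
      set φ : ℤ × ℤ → ℕ × ℤ := fun y => ((y.1 - t.1 - 1).toNat, y.2) with hφ
      have hinj : Set.InjOn φ (insert t' (cyl t t') : Finset (ℤ × ℤ)) := by
        intro y hy z hz hyz
        have h2 := hcol y hy
        have h3 := hcol z hz
        rw [hφ] at hyz
        simp only [Prod.mk.injEq] at hyz
        exact Prod.ext (by omega) hyz.2
      calc ∑ y ∈ insert t' (cyl t t'), H (y.1 - t.1 - 1).toNat y.2
          = ∑ p ∈ (insert t' (cyl t t')).image φ, H p.1 p.2 := by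
            rw [Finset.sum_image hinj]
        _ ≤ ∑ p ∈ Finset.range (n + 1) ×ˢ (insert t' (cyl t t')).image Prod.snd, H p.1 p.2 := by
            refine Finset.sum_le_sum_of_subset ?_
            intro p hp
            obtain ⟨y, hy, rfl⟩ := Finset.mem_image.1 hp
            have h2 := hcol y hy
            rw [Finset.mem_product, Finset.mem_range]
            refine ⟨?_, Finset.mem_image_of_mem _ hy⟩
            rw [hφ]
            push_cast at hn
            simp only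
            omega
        _ = ∑ l ∈ Finset.range (n + 1), ∑ z ∈ (insert t' (cyl t t')).image Prod.snd, H l z := by
            rw [Finset.sum_product]
        _ ≤ ∑ l ∈ Finset.range (n + 1), ∑' z : ℤ, H l z :=
            Finset.sum_le_sum fun l _ => ENNReal.sum_le_tsum _

end Pool.Helper83.OZ
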