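import Pool.Agent.Helper83.OZ.P32

/-!
Project OZ (MP_7e0861_pr), part L5, block TRI: clusters of `u` containing `v` and a third point `x`.

Let `γ ∈ Cl D u v` with `x ∈ γ.1`. Let `t` be the last cone point in `cps γ u v` with `t.1 ≤ x.1`, and `t = u` if there is
none; `t'` the first cone point in `cps γ u v` with `x.1 < t'.1`, and `t' = v` if there is none. If both are improper
there is no cone point in between: `nocp q r D u v`. Otherwise `(t, t') ∈ prs u v x`: the geometric conditions follow from the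
cone property of the proper ones (`CP`: `Y (x - t)` for `t.1 ≤ x.1`, `Y (t' - x)`, `Y (t' - t)`; if `t = u` then
`|x.2 - t'.2|, |u.2 - t'.2| ≤ 8 (t'.1 - u.1)`).
Both proper: `γ = join (low t γ) (join σ (upp t' γ))` with `σ = low t' (upp t γ)` in `Cl D t t'`, no cone point between `t` and
`t'` (`Jn.cp_left`, `Jn.cp_right`), and `κ ^ 2 WD γ ≤ WD (low t γ) * WD σ * WD (upp t' γ)`; only `t'` proper:
`γ = join (low t' γ) (upp t' γ)`, `low t' γ` has no cone point between `u` and `t'`, `κ ^ 2 ≤ κ`, `G q r D u u = 1`; similarly for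
`t` proper only. The maps are injective; `Lf_le`, `Rt_le`.
-/

namespace Pool.Helper83.OZ

open Pool.Helper49.FK
open Pool.Helper17.OZ (Y CP Dbl NoCP nd rect tau)

variable {q : ℝ} {r : Edge → ℝ} {D : Finset (ℤ × ℤ)}

open Classical in
/-- The possible pairs of cone points around `x` (one of them may be an end point). -/
noncomputable def prs (u v x : ℤ × ℤ) : Finset ((ℤ × ℤ) × (ℤ × ℤ)) :=
  (insert u (cyl u v) ×ˢ insert v (cyl u v)).filter fun p =>
    p.1.1 ≤ x.1 ∧ (x.1 < p.2.1 ∨ p.2 = v) ∧ p.1.1 < p.2.1 ∧ |x.2 - p.1.2| ≤ 16 * (p.2.1 - p.1.1) ∧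
      |x.2 - p.2.2| ≤ 16 * (p.2.1 - p.1.1)

theorem G_self (hq : 0 < q) (hr : ∀ e, 0 ≤ r e) (u : ℤ × ℤ) : G q r D u u = 1 := by
  classical
  unfold G pr
  refine Eq.trans ?_ (ex_const (D := D) hq hr 1)
  exact ex_congr fun ω _ => if_pos (Conn.refl ω u)

private theorem G_nonneg13 (hq : 0 < q) (hr : ∀ e, 0 ≤ r e) (u v : ℤ × ℤ) : 0 ≤ G q r D u v :=
  pr_nonneg hq hr _

open Classical in
/-- The first part without cone point, then a cone point. -/
private theorem left13 (hq : 0 < q) (hr : ∀ e, 0 ≤ r e) {κ : ℝ} (hκ : 0 < κ)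
    (hj : ∀ (γ δ : Gr) (m : ℤ × ℤ), Jn γ δ m → κ * WD q r D (join γ δ) ≤ WD q r D γ * WD q r D δ)
    {u v t : ℤ × ℤ} (hu : u.1 ≤ t.1) (hv : t.1 ≤ v.1) :
    κ * (∑ γ ∈ Cl D u v, if CP γ.1 t then (if NoCP γ.1 u t then WD q r D γ else 0) else 0) ≤
      nocp q r D u t * G q r D t v := by
  have hWD : ∀ γ : Gr, 0 ≤ WD q r D γ := fun γ => WD_nonneg hq hr γ
  rw [sum_split (D := D) (m := t) (a := u) (b := v) hu hv
    (fun γ => if NoCP γ.1 u t then WD q r D γ else 0)]
  have h4 : ∀ γ ∈ Lf D u t, ∀ δ ∈ Rt D t v,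
      κ * (if NoCP (join γ δ).1 u t then WD q r D (join γ δ) else 0) ≤
        (if NoCP γ.1 u t then WD q r D γ else 0) * WD q r D δ := by
    intro γ hγ δ hδ
    have hγ' := mem_Lf.1 hγ
    have hδ' := mem_Rt.1 hδ
    have hJ : Jn γ δ t :=
      ⟨hγ'.2.1, hδ'.2.1, hγ'.2.2.2.1, hδ'.2.2.1, hγ'.2.2.2.2, hδ'.2.2.2.2⟩
    have hiff : NoCP (join γ δ).1 u t ↔ NoCP γ.1 u t := by
      constructor
      · intro h s hs hs1 hs2
        exact h s ((hJ.cp_left hs2.le).2 hs) hs1 hs2
      · intro h s hs hs1 hs2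
        exact h s ((hJ.cp_left hs2.le).1 hs) hs1 hs2
    by_cases hno : NoCP γ.1 u t
    · rw [if_pos (hiff.2 hno), if_pos hno]
      exact hj γ δ t hJ
    · rw [if_neg (fun h => hno (hiff.1 h)), if_neg hno, zero_mul, mul_zero]
  have h5 : (∑ γ ∈ Lf D u t, if NoCP γ.1 u t then WD q r D γ else 0) ≤ nocp q r D u t := by
    unfold nocp
    refine Finset.sum_le_sum_of_subset_of_nonneg ?_ fun γ _ _ => ?_
    · unfold Lf
      exact Finset.filter_subset _ _
    · split_ifs
      · exact hWD γ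
      · exact le_refl _
  calc κ * ∑ γ ∈ Lf D u t, ∑ δ ∈ Rt D t v,
        (if NoCP (join γ δ).1 u t then WD q r D (join γ δ) else 0)
      = ∑ γ ∈ Lf D u t, ∑ δ ∈ Rt D t v,
        κ * (if NoCP (join γ δ).1 u t then WD q r D (join γ δ) else 0) := by
        rw [Finset.mul_sum]
        exact Finset.sum_congr rfl fun γ _ => by rw [Finset.mul_sum]
    _ ≤ ∑ γ ∈ Lf D u t, ∑ δ ∈ Rt D t v,
        (if NoCP γ.1 u t then WD q r D γ else 0) * WD q r D δ :=
        Finset.sum_le_sum fun γ hγ => Finset.sum_le_sum fun δ hδ => h4 γ hγ δ hδ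
    _ = (∑ γ ∈ Lf D u t, if NoCP γ.1 u t then WD q r D γ else 0) *
        ∑ δ ∈ Rt D t v, WD q r D δ := by rw [Finset.sum_mul_sum]
    _ ≤ nocp q r D u t * G q r D t v :=
        mul_le_mul h5 (Rt_le hq hr) (Finset.sum_nonneg fun δ _ => hWD δ) (nocp_nonneg hq hr u t)

open Classical in
/-- A cone point, then a part without cone point. -/
private theorem right13 (hq : 0 < q) (hr : ∀ e, 0 ≤ r e) {κ : ℝ} (hκ : 0 < κ)
    (hj : ∀ (γ δ : Gr) (m : ℤ × ℤ), Jn γ δ m → κ * WD q r D (join γ δ) ≤ WD q r D γ * WD q r D δ)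
    {u v t : ℤ × ℤ} (hu : u.1 ≤ t.1) (hv : t.1 ≤ v.1) :
    κ * (∑ γ ∈ Cl D u v, if CP γ.1 t then (if NoCP γ.1 t v then WD q r D γ else 0) else 0) ≤
      G q r D u t * nocp q r D t v := by
  have hWD : ∀ γ : Gr, 0 ≤ WD q r D γ := fun γ => WD_nonneg hq hr γ
  rw [sum_split (D := D) (m := t) (a := u) (b := v) hu hv
    (fun γ => if NoCP γ.1 t v then WD q r D γ else 0)]
  have h4 : ∀ γ ∈ Lf D u t, ∀ δ ∈ Rt D t v,
      κ * (if NoCP (join γ δ).1 t v then WD q r D (join γ δ) else 0) ≤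
        WD q r D γ * (if NoCP δ.1 t v then WD q r D δ else 0) := by
    intro γ hγ δ hδ
    have hγ' := mem_Lf.1 hγ
    have hδ' := mem_Rt.1 hδ
    have hJ : Jn γ δ t :=
      ⟨hγ'.2.1, hδ'.2.1, hγ'.2.2.2.1, hδ'.2.2.1, hγ'.2.2.2.2, hδ'.2.2.2.2⟩
    have hiff : NoCP (join γ δ).1 t v ↔ NoCP δ.1 t v := by
      constructor
      · intro h s hs hs1 hs2
        exact h s ((hJ.cp_right hs1.le).2 hs) hs1 hs2
      · intro h s hs hs1 hs2
        exact h s ((hJ.cp_right hs1.le).1 hs) hs1 hs2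
    by_cases hno : NoCP δ.1 t v
    · rw [if_pos (hiff.2 hno), if_pos hno]
      exact hj γ δ t hJ
    · rw [if_neg (fun h => hno (hiff.1 h)), if_neg hno, mul_zero, mul_zero]
  have h5 : (∑ δ ∈ Rt D t v, if NoCP δ.1 t v then WD q r D δ else 0) ≤ nocp q r D t v := by
    unfold nocp
    refine Finset.sum_le_sum_of_subset_of_nonneg ?_ fun γ _ _ => ?_
    · unfold Rt
      exact Finset.filter_subset _ _
    · split_ifs
      · exact hWD γ
      · exact le_refl _
  calc κ * ∑ γ ∈ Lf D u t, ∑ δ ∈ Rt D t v,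
        (if NoCP (join γ δ).1 t v then WD q r D (join γ δ) else 0)
      = ∑ γ ∈ Lf D u t, ∑ δ ∈ Rt D t v,
        κ * (if NoCP (join γ δ).1 t v then WD q r D (join γ δ) else 0) := by
        rw [Finset.mul_sum]
        exact Finset.sum_congr rfl fun γ _ => by rw [Finset.mul_sum]
    _ ≤ ∑ γ ∈ Lf D u t, ∑ δ ∈ Rt D t v,
        WD q r D γ * (if NoCP δ.1 t v then WD q r D δ else 0) :=
        Finset.sum_le_sum fun γ hγ => Finset.sum_le_sum fun δ hδ => h4 γ hγ δ hδ
    _ = (∑ γ ∈ Lf D u t, WD q r D γ) *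
        ∑ δ ∈ Rt D t v, (if NoCP δ.1 t v then WD q r D δ else 0) := by rw [Finset.sum_mul_sum]
    _ ≤ G q r D u t * nocp q r D t v := by
        refine mul_le_mul (Lf_le hq hr) h5 (Finset.sum_nonneg fun δ _ => ?_)
          (G_nonneg13 hq hr u t)
        split_ifs
        · exact hWD δ
        · exact le_refl _

open Classical in
/-- Two cone points, no cone point in between. -/
private theorem both13 (hq : 0 < q) (hr : ∀ e, 0 ≤ r e) {κ : ℝ} (hκ : 0 < κ)
    (hj : ∀ (γ δ : Gr) (m : ℤ × ℤ), Jn γ δ m → κ * WD q r D (join γ δ) ≤ WD q r D γ * WD q r D δ)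
    {u v t t' : ℤ × ℤ} (hu : u.1 ≤ t.1) (htt : t.1 < t'.1) (hv : t'.1 ≤ v.1) :
    κ ^ 2 * (∑ γ ∈ Cl D u v, if CP γ.1 t then
        (if CP γ.1 t' then (if NoCP γ.1 t t' then WD q r D γ else 0) else 0) else 0) ≤
      G q r D u t * nocp q r D t t' * G q r D t' v := by
  have hWD : ∀ γ : Gr, 0 ≤ WD q r D γ := fun γ => WD_nonneg hq hr γ
  rw [sum_split (D := D) (m := t) (a := u) (b := v) hu (htt.le.trans hv)
    (fun γ => if CP γ.1 t' then (if NoCP γ.1 t t' then WD q r D γ else 0) else 0)]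
  have h4 : ∀ γ ∈ Lf D u t, ∀ δ ∈ Rt D t v,
      κ * (if CP (join γ δ).1 t' then
          (if NoCP (join γ δ).1 t t' then WD q r D (join γ δ) else 0) else 0) ≤
        WD q r D γ * (if CP δ.1 t' then (if NoCP δ.1 t t' then WD q r D δ else 0) else 0) := by
    intro γ hγ δ hδ
    have hγ' := mem_Lf.1 hγ
    have hδ' := mem_Rt.1 hδ
    have hJ : Jn γ δ t :=
      ⟨hγ'.2.1, hδ'.2.1, hγ'.2.2.2.1, hδ'.2.2.1, hγ'.2.2.2.2, hδ'.2.2.2.2⟩
    have hiff : NoCP (join γ δ).1 t t' ↔ NoCP δ.1 t t' := by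
      constructor
      · intro h s hs hs1 hs2
        exact h s ((hJ.cp_right hs1.le).2 hs) hs1 hs2
      · intro h s hs hs1 hs2
        exact h s ((hJ.cp_right hs1.le).1 hs) hs1 hs2
    have hiff' : CP (join γ δ).1 t' ↔ CP δ.1 t' := hJ.cp_right htt.le
    by_cases hcp : CP δ.1 t'
    · rw [if_pos (hiff'.2 hcp), if_pos hcp]
      by_cases hno : NoCP δ.1 t t'
      · rw [if_pos (hiff.2 hno), if_pos hno]
        exact hj γ δ t hJ
      · rw [if_neg (fun h => hno (hiff.1 h)), if_neg hno, mul_zero, mul_zero]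
    · rw [if_neg (fun h => hcp (hiff'.1 h)), if_neg hcp, mul_zero, mul_zero]
  have hnn : ∀ δ : Gr, 0 ≤
      (if CP δ.1 t' then (if NoCP δ.1 t t' then WD q r D δ else 0) else 0) := by
    intro δ
    split_ifs
    · exact hWD δ
    · exact le_refl _
    · exact le_refl _
  have h5 : κ * (∑ δ ∈ Rt D t v,
      if CP δ.1 t' then (if NoCP δ.1 t t' then WD q r D δ else 0) else 0) ≤
      nocp q r D t t' * G q r D t' v := by
    refine le_trans (mul_le_mul_of_nonneg_left ?_ hκ.le)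
      (left13 hq hr hκ hj (u := t) (v := v) (t := t') htt.le hv)
    refine Finset.sum_le_sum_of_subset_of_nonneg ?_ fun γ _ _ => hnn γ
    unfold Rt
    exact Finset.filter_subset _ _
  calc κ ^ 2 * ∑ γ ∈ Lf D u t, ∑ δ ∈ Rt D t v, (if CP (join γ δ).1 t' then
          (if NoCP (join γ δ).1 t t' then WD q r D (join γ δ) else 0) else 0)
      = κ * ∑ γ ∈ Lf D u t, ∑ δ ∈ Rt D t v, κ * (if CP (join γ δ).1 t' then
          (if NoCP (join γ δ).1 t t' then WD q r D (join γ δ) else 0) else 0) := by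
        rw [sq, mul_assoc]
        congr 1
        rw [Finset.mul_sum]
        exact Finset.sum_congr rfl fun γ _ => by rw [Finset.mul_sum]
    _ ≤ κ * ∑ γ ∈ Lf D u t, ∑ δ ∈ Rt D t v, WD q r D γ *
        (if CP δ.1 t' then (if NoCP δ.1 t t' then WD q r D δ else 0) else 0) :=
        mul_le_mul_of_nonneg_left
          (Finset.sum_le_sum fun γ hγ => Finset.sum_le_sum fun δ hδ => h4 γ hγ δ hδ) hκ.le
    _ = (∑ γ ∈ Lf D u t, WD q r D γ) * (κ * ∑ δ ∈ Rt D t v,
        (if CP δ.1 t' then (if NoCP δ.1 t t' then WD q r D δ else 0) else 0)) := by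
        rw [← Finset.sum_mul_sum]
        ring
    _ ≤ G q r D u t * (nocp q r D t t' * G q r D t' v) := by
        refine mul_le_mul (Lf_le hq hr) h5 (mul_nonneg hκ.le (Finset.sum_nonneg fun δ _ => hnn δ))
          (G_nonneg13 hq hr u t)
    _ = _ := by ring

/-- `p` is the pair of the graph. -/
private def Pr13 (u v : ℤ × ℤ) (p : (ℤ × ℤ) × (ℤ × ℤ)) (γ : Gr) : Prop :=
  (p.1 = u ∨ CP γ.1 p.1) ∧ (p.2 = v ∨ CP γ.1 p.2) ∧ NoCP γ.1 p.1 p.2 ∧ ¬ (p.1 = u ∧ p.2 = v)

open Classical in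
private theorem ex13 {u v x : ℤ × ℤ} {γ : Gr} (hγ : γ ∈ Cl D u v) (hxγ : x ∈ γ.1)
    (huv : u.1 < v.1) (hx : u.1 ≤ x.1) (hx' : x.1 ≤ v.1) (hno : ¬ NoCP γ.1 u v) :
    ∃ p ∈ (prs u v x).filter (fun p => p.1 ∈ D ∧ p.2 ∈ D), Pr13 u v p γ := by
  obtain ⟨hD, hcl, hu, hv⟩ := mem_Cl.1 hγ
  -- cone facts
  have cR : ∀ t y : ℤ × ℤ, CP γ.1 t → y ∈ γ.1 → t.1 ≤ y.1 → Y (y - t) := by
    intro t y ht hy hle
    rcases ht.2 y hy with h | h
    · exact h
    · have h1 := Y_le h
      have h2 : y = t := by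
        by_contra hne
        exact absurd (Y_lt h hne) (by omega)
      rw [h2]
      exact Y_self t
  have cL : ∀ t y : ℤ × ℤ, CP γ.1 t → y ∈ γ.1 → y.1 ≤ t.1 → Y (t - y) := by
    intro t y ht hy hle
    rcases ht.2 y hy with h | h
    · have h1 := Y_le h
      have h2 : t = y := by
        by_contra hne
        exact absurd (Y_lt h hne) (by omega)
      rw [h2]
      exact Y_self y
    · exact h
  have cyl1 : ∀ t, t ∈ cps γ u v → t ∈ cyl u v := by
    intro t ht
    have h := mem_cps.1 ht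
    exact mem_cyl.2 ⟨h.2.1, h.2.2, cL t u h.1 hu h.2.1.le⟩
  have hne : (cps γ u v).Nonempty := by
    rw [nocp_iff] at hno
    exact Finset.nonempty_iff_ne_empty.2 hno
  have hprs : ∀ p : (ℤ × ℤ) × (ℤ × ℤ), p ∈ (prs u v x).filter (fun p => p.1 ∈ D ∧ p.2 ∈ D) ↔
      (((p.1 = u ∨ p.1 ∈ cyl u v) ∧ (p.2 = v ∨ p.2 ∈ cyl u v)) ∧
        p.1.1 ≤ x.1 ∧ (x.1 < p.2.1 ∨ p.2 = v) ∧ p.1.1 < p.2.1 ∧
        |x.2 - p.1.2| ≤ 16 * (p.2.1 - p.1.1) ∧ |x.2 - p.2.2| ≤ 16 * (p.2.1 - p.1.1)) ∧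
        p.1 ∈ D ∧ p.2 ∈ D := by
    intro p
    unfold prs
    rw [Finset.mem_filter, Finset.mem_filter, Finset.mem_product, Finset.mem_insert,
      Finset.mem_insert]
  set L := (cps γ u v).filter (fun t => t.1 ≤ x.1) with hL
  set R := (cps γ u v).filter (fun t => x.1 < t.1) with hR
  have memL : ∀ t, t ∈ L ↔ t ∈ cps γ u v ∧ t.1 ≤ x.1 := fun t => by
    rw [hL, Finset.mem_filter]
  have memR : ∀ t, t ∈ R ↔ t ∈ cps γ u v ∧ x.1 < t.1 := fun t => by
    rw [hR, Finset.mem_filter]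
  rcases L.eq_empty_or_nonempty with hLe | hLn
  · -- no cone point on the left
    obtain ⟨s, hs⟩ := hne
    have hsR : s ∈ R := by
      rw [memR]
      refine ⟨hs, ?_⟩
      by_contra hcon
      have : s ∈ L := (memL s).2 ⟨hs, by omega⟩
      rw [hLe] at this
      exact absurd this (Finset.notMem_empty s)
    obtain ⟨t', ht', hmin⟩ := Finset.exists_min_image R (fun t => t.1) ⟨s, hsR⟩
    obtain ⟨ht1, ht2⟩ := (memR t').1 ht'
    have ht3 := mem_cps.1 ht1
    refine ⟨(u, t'), (hprs _).2 ⟨⟨⟨Or.inl rfl, Or.inr (cyl1 t' ht1)⟩, hx, Or.inl ht2, ht3.2.1,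
      ?_, ?_⟩, hD hu, hD ht3.1.1⟩, Or.inl rfl, Or.inr ht3.1, ?_, ?_⟩
    · have h1 := cL t' x ht3.1 hxγ ht2.le
      have h2 := cL t' u ht3.1 hu ht3.2.1.le
      unfold Y at h1 h2
      simp only [Prod.fst_sub, Prod.snd_sub] at h1 h2
      rw [abs_le] at h1 h2 ⊢
      constructor
      · show -(16 * (t'.1 - u.1)) ≤ x.2 - u.2
        omega
      · show x.2 - u.2 ≤ 16 * (t'.1 - u.1)
        omega
    · have h1 := cL t' x ht3.1 hxγ ht2.le
      unfold Y at h1
      simp only [Prod.fst_sub, Prod.snd_sub] at h1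
      rw [abs_le] at h1 ⊢
      constructor
      · show -(16 * (t'.1 - u.1)) ≤ x.2 - t'.2
        omega
      · show x.2 - t'.2 ≤ 16 * (t'.1 - u.1)
        omega
    · intro a ha ha1 ha2
      have ha3 : a ∈ cps γ u v := mem_cps.2 ⟨ha, ha1, lt_trans ha2 ht3.2.2⟩
      by_cases hax : a.1 ≤ x.1
      · have : a ∈ L := (memL a).2 ⟨ha3, hax⟩
        rw [hLe] at this
        exact absurd this (Finset.notMem_empty a)
      · have := hmin a ((memR a).2 ⟨ha3, by omega⟩)
        simp only at this ha2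
        omega
    · rintro ⟨-, h2⟩
      have h3 := ht3.2.2
      simp only at h2
      rw [h2] at h3
      exact absurd h3 (lt_irrefl _)
  · obtain ⟨t, ht, hmax⟩ := Finset.exists_max_image L (fun t => t.1) hLn
    obtain ⟨ht1, ht2⟩ := (memL t).1 ht
    have ht3 := mem_cps.1 ht1
    rcases R.eq_empty_or_nonempty with hRe | hRn
    · -- no cone point on the right
      refine ⟨(t, v), (hprs _).2 ⟨⟨⟨Or.inr (cyl1 t ht1), Or.inl rfl⟩, ht2, Or.inr rfl, ht3.2.2,
        ?_, ?_⟩, hD ht3.1.1, hD hv⟩, Or.inr ht3.1, Or.inl rfl, ?_, ?_⟩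
      · have h1 := cR t x ht3.1 hxγ ht2
        unfold Y at h1
        simp only [Prod.fst_sub, Prod.snd_sub] at h1
        rw [abs_le] at h1 ⊢
        constructor
        · show -(16 * (v.1 - t.1)) ≤ x.2 - t.2
          omega
        · show x.2 - t.2 ≤ 16 * (v.1 - t.1)
          omega
      · have h1 := cR t x ht3.1 hxγ ht2
        have h2 := cR t v ht3.1 hv ht3.2.2.le
        unfold Y at h1 h2
        simp only [Prod.fst_sub, Prod.snd_sub] at h1 h2
        rw [abs_le] at h1 h2 ⊢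
        constructor
        · show -(16 * (v.1 - t.1)) ≤ x.2 - v.2
          omega
        · show x.2 - v.2 ≤ 16 * (v.1 - t.1)
          omega
      · intro a ha ha1 ha2
        have ha3 : a ∈ cps γ u v := mem_cps.2 ⟨ha, lt_trans ht3.2.1 ha1, ha2⟩
        by_cases hax : a.1 ≤ x.1
        · have := hmax a ((memL a).2 ⟨ha3, hax⟩)
          simp only at this ha1
          omega
        · have : a ∈ R := (memR a).2 ⟨ha3, by omega⟩
          rw [hRe] at this
          exact absurd this (Finset.notMem_empty a)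
      · rintro ⟨h2, -⟩
        have h3 := ht3.2.1
        simp only at h2
        rw [h2] at h3
        exact absurd h3 (lt_irrefl _)
    · -- both proper
      obtain ⟨t', ht', hmin⟩ := Finset.exists_min_image R (fun t => t.1) hRn
      obtain ⟨hs1, hs2⟩ := (memR t').1 ht'
      have hs3 := mem_cps.1 hs1
      refine ⟨(t, t'), (hprs _).2 ⟨⟨⟨Or.inr (cyl1 t ht1), Or.inr (cyl1 t' hs1)⟩, ht2, Or.inl hs2,
        lt_of_le_of_lt ht2 hs2, ?_, ?_⟩, hD ht3.1.1, hD hs3.1.1⟩, Or.inr ht3.1, Or.inr hs3.1,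
        ?_, ?_⟩
      · have h1 := cR t x ht3.1 hxγ ht2
        unfold Y at h1
        simp only [Prod.fst_sub, Prod.snd_sub] at h1
        rw [abs_le] at h1 ⊢
        constructor
        · show -(16 * (t'.1 - t.1)) ≤ x.2 - t.2
          omega
        · show x.2 - t.2 ≤ 16 * (t'.1 - t.1)
          omega
      · have h1 := cL t' x hs3.1 hxγ hs2.le
        unfold Y at h1
        simp only [Prod.fst_sub, Prod.snd_sub] at h1
        rw [abs_le] at h1 ⊢
        constructor
        · show -(16 * (t'.1 - t.1)) ≤ x.2 - t'.2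
          omega
        · show x.2 - t'.2 ≤ 16 * (t'.1 - t.1)
          omega
      · intro a ha ha1 ha2
        have ha3 : a ∈ cps γ u v := mem_cps.2 ⟨ha, lt_trans ht3.2.1 ha1, lt_trans ha2 hs3.2.2⟩
        by_cases hax : a.1 ≤ x.1
        · have := hmax a ((memL a).2 ⟨ha3, hax⟩)
          simp only at this ha1
          omega
        · have := hmin a ((memR a).2 ⟨ha3, by omega⟩)
          simp only at this ha2
          omega
      · rintro ⟨h2, -⟩
        have h3 := ht3.2.1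
        simp only at h2
        rw [h2] at h3
        exact absurd h3 (lt_irrefl _)

open Classical in
theorem tri_split (hq : 0 < q) (hr : ∀ e, 0 ≤ r e) {κ : ℝ} (hκ : 0 < κ) (hκ1 : κ ≤ 1)
    (hj : ∀ (γ δ : Gr) (m : ℤ × ℤ), Jn γ δ m → κ * WD q r D (join γ δ) ≤ WD q r D γ * WD q r D δ)
    {u v x : ℤ × ℤ} (huv : u.1 < v.1) (hx : u.1 ≤ x.1) (hx' : x.1 ≤ v.1) :
    κ ^ 2 * ∑ γ ∈ (Cl D u v).filter (fun γ => x ∈ γ.1), WD q r D γ ≤ nocp q r D u v +
      ∑ p ∈ (prs u v x).filter (fun p => p.1 ∈ D ∧ p.2 ∈ D),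
        G q r D u p.1 * nocp q r D p.1 p.2 * G q r D p.2 v := by
  have hWD : ∀ γ : Gr, 0 ≤ WD q r D γ := fun γ => WD_nonneg hq hr γ
  have hκ2 : κ ^ 2 ≤ κ := by nlinarith
  have hκ3 : κ ^ 2 ≤ 1 := hκ2.trans hκ1
  have hκ0 : 0 ≤ κ ^ 2 := sq_nonneg κ
  set P := (prs u v x).filter (fun p => p.1 ∈ D ∧ p.2 ∈ D) with hP
  have hH : ∀ (p : (ℤ × ℤ) × (ℤ × ℤ)) (γ : Gr), 0 ≤ (if Pr13 u v p γ then WD q r D γ else 0) := by
    intro p γ
    split_ifs
    · exact hWD γ
    · exact le_refl _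
  have h1 : ∀ γ ∈ (Cl D u v).filter (fun γ => x ∈ γ.1), κ ^ 2 * WD q r D γ ≤
      (if NoCP γ.1 u v then WD q r D γ else 0) +
        ∑ p ∈ P, κ ^ 2 * (if Pr13 u v p γ then WD q r D γ else 0) := by
    intro γ hγ
    obtain ⟨hγ1, hγ2⟩ := Finset.mem_filter.1 hγ
    have hs0 : 0 ≤ ∑ p ∈ P, κ ^ 2 * (if Pr13 u v p γ then WD q r D γ else 0) :=
      Finset.sum_nonneg fun p _ => mul_nonneg hκ0 (hH p γ)
    by_cases hno : NoCP γ.1 u v
    · rw [if_pos hno]
      have := mul_le_mul_of_nonneg_right hκ3 (hWD γ)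
      linarith
    · rw [if_neg hno, zero_add]
      obtain ⟨p, hp, hpr⟩ := ex13 hγ1 hγ2 huv hx hx' hno
      have h2 : κ ^ 2 * WD q r D γ = κ ^ 2 * (if Pr13 u v p γ then WD q r D γ else 0) := by
        rw [if_pos hpr]
      rw [h2]
      exact Finset.single_le_sum
        (f := fun p => κ ^ 2 * (if Pr13 u v p γ then WD q r D γ else 0))
        (fun p _ => mul_nonneg hκ0 (hH p γ)) hp
  have h2 : ∀ p ∈ P, κ ^ 2 * (∑ γ ∈ Cl D u v, if Pr13 u v p γ then WD q r D γ else 0) ≤
      G q r D u p.1 * nocp q r D p.1 p.2 * G q r D p.2 v := by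
    intro p hp
    have hp' : (p.1 = u ∨ p.1 ∈ cyl u v) ∧ (p.2 = v ∨ p.2 ∈ cyl u v) ∧ p.1.1 < p.2.1 := by
      rw [hP, Finset.mem_filter] at hp
      have h := hp.1
      unfold prs at h
      rw [Finset.mem_filter, Finset.mem_product, Finset.mem_insert, Finset.mem_insert] at h
      exact ⟨h.1.1, h.1.2, h.2.2.2.1⟩
    obtain ⟨hp1, hp2, hp3⟩ := hp'
    have hrhs : 0 ≤ G q r D u p.1 * nocp q r D p.1 p.2 * G q r D p.2 v :=
      mul_nonneg (mul_nonneg (G_nonneg13 hq hr _ _) (nocp_nonneg hq hr _ _))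
        (G_nonneg13 hq hr _ _)
    have hu1 : u.1 ≤ p.1.1 := by
      rcases hp1 with h | h
      · rw [h]
      · exact (mem_cyl.1 h).1.le
    have hv1 : p.2.1 ≤ v.1 := by
      rcases hp2 with h | h
      · rw [h]
      · exact (mem_cyl.1 h).2.1.le
    by_cases e1 : p.1 = u
    · by_cases e2 : p.2 = v
      · have : (∑ γ ∈ Cl D u v, if Pr13 u v p γ then WD q r D γ else 0) = 0 :=
          Finset.sum_eq_zero fun γ _ => if_neg fun h => h.2.2.2 ⟨e1, e2⟩
        rw [this, mul_zero]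
        exact hrhs
      · have h3 := left13 hq hr hκ hj (u := u) (v := v) (t := p.2)
          (by rw [e1] at hp3; exact hp3.le) hv1
        have h4 : (∑ γ ∈ Cl D u v, if Pr13 u v p γ then WD q r D γ else 0) ≤
            ∑ γ ∈ Cl D u v, if CP γ.1 p.2 then (if NoCP γ.1 u p.2 then WD q r D γ else 0) else 0 := by
          refine Finset.sum_le_sum fun γ _ => ?_
          by_cases h : Pr13 u v p γ
          · obtain ⟨-, k2, k3, -⟩ := h
            have k2' : CP γ.1 p.2 := k2.resolve_left e2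
            rw [e1] at k3
            rw [if_pos k2', if_pos k3]
            split_ifs
            · exact le_refl _
            · exact hWD γ
          · rw [if_neg h]
            split_ifs
            · exact hWD γ
            · exact le_refl _
            · exact le_refl _
        have h5 : 0 ≤ ∑ γ ∈ Cl D u v, (if Pr13 u v p γ then WD q r D γ else 0) :=
          Finset.sum_nonneg fun γ _ => hH p γ
        rw [e1, G_self hq hr, one_mul]
        calc κ ^ 2 * (∑ γ ∈ Cl D u v, if Pr13 u v p γ then WD q r D γ else 0)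
            ≤ κ * (∑ γ ∈ Cl D u v, if Pr13 u v p γ then WD q r D γ else 0) :=
              mul_le_mul_of_nonneg_right hκ2 h5
          _ ≤ _ := mul_le_mul_of_nonneg_left h4 hκ.le
          _ ≤ _ := h3
    · by_cases e2 : p.2 = v
      · have h3 := right13 hq hr hκ hj (u := u) (v := v) (t := p.1) hu1
          (by rw [e2] at hp3; exact hp3.le)
        have h4 : (∑ γ ∈ Cl D u v, if Pr13 u v p γ then WD q r D γ else 0) ≤
            ∑ γ ∈ Cl D u v, if CP γ.1 p.1 then (if NoCP γ.1 p.1 v then WD q r D γ else 0) else 0 := by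
          refine Finset.sum_le_sum fun γ _ => ?_
          by_cases h : Pr13 u v p γ
          · obtain ⟨k1, -, k3, -⟩ := h
            have k1' : CP γ.1 p.1 := k1.resolve_left e1
            rw [e2] at k3
            rw [if_pos k1', if_pos k3]
            split_ifs
            · exact le_refl _
            · exact hWD γ
          · rw [if_neg h]
            split_ifs
            · exact hWD γ
            · exact le_refl _
            · exact le_refl _
        have h5 : 0 ≤ ∑ γ ∈ Cl D u v, (if Pr13 u v p γ then WD q r D γ else 0) :=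
          Finset.sum_nonneg fun γ _ => hH p γ
        rw [e2, G_self hq hr, mul_one]
        calc κ ^ 2 * (∑ γ ∈ Cl D u v, if Pr13 u v p γ then WD q r D γ else 0)
            ≤ κ * (∑ γ ∈ Cl D u v, if Pr13 u v p γ then WD q r D γ else 0) :=
              mul_le_mul_of_nonneg_right hκ2 h5
          _ ≤ _ := mul_le_mul_of_nonneg_left h4 hκ.le
          _ ≤ _ := h3
      · have h3 := both13 hq hr hκ hj (u := u) (v := v) (t := p.1) (t' := p.2) hu1 hp3 hv1
        have h4 : (∑ γ ∈ Cl D u v, if Pr13 u v p γ then WD q r D γ else 0) ≤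
            ∑ γ ∈ Cl D u v, if CP γ.1 p.1 then (if CP γ.1 p.2 then
              (if NoCP γ.1 p.1 p.2 then WD q r D γ else 0) else 0) else 0 := by
          refine Finset.sum_le_sum fun γ _ => ?_
          by_cases h : Pr13 u v p γ
          · obtain ⟨k1, k2, k3, -⟩ := h
            rw [if_pos (k1.resolve_left e1), if_pos (k2.resolve_left e2), if_pos k3]
            split_ifs
            · exact le_refl _
            · exact hWD γ
          · rw [if_neg h]
            split_ifs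
            · exact hWD γ
            · exact le_refl _
            · exact le_refl _
            · exact le_refl _
        exact (mul_le_mul_of_nonneg_left h4 hκ0).trans h3
  calc κ ^ 2 * ∑ γ ∈ (Cl D u v).filter (fun γ => x ∈ γ.1), WD q r D γ
      = ∑ γ ∈ (Cl D u v).filter (fun γ => x ∈ γ.1), κ ^ 2 * WD q r D γ := by
        rw [Finset.mul_sum]
    _ ≤ ∑ γ ∈ (Cl D u v).filter (fun γ => x ∈ γ.1),
        ((if NoCP γ.1 u v then WD q r D γ else 0) +
          ∑ p ∈ P, κ ^ 2 * (if Pr13 u v p γ then WD q r D γ else 0)) := Finset.sum_le_sum h1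
    _ ≤ ∑ γ ∈ Cl D u v, ((if NoCP γ.1 u v then WD q r D γ else 0) +
          ∑ p ∈ P, κ ^ 2 * (if Pr13 u v p γ then WD q r D γ else 0)) := by
        refine Finset.sum_le_sum_of_subset_of_nonneg (Finset.filter_subset _ _) fun γ _ _ => ?_
        refine add_nonneg ?_ (Finset.sum_nonneg fun p _ => mul_nonneg hκ0 (hH p γ))
        split_ifs
        · exact hWD γ
        · exact le_refl _
    _ = nocp q r D u v + ∑ p ∈ P,
          κ ^ 2 * (∑ γ ∈ Cl D u v, if Pr13 u v p γ then WD q r D γ else 0) := by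
        rw [Finset.sum_add_distrib, Finset.sum_comm]
        congr 1
        exact Finset.sum_congr rfl fun p _ => by rw [Finset.mul_sum]
    _ ≤ _ := by
        have := Finset.sum_le_sum h2
        linarith

end Pool.Helper83.OZ
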