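import Pool.Agent.Helper83.OZ.Tri

/-!
Project OZ (MP_7e0861_pr), part L5, block TRI2: sums over `prs`.

For given `l = p.2.1 - p.1.1 ≥ 1` there are at most `(l + 1) (32 l + 1)^2` pairs in `prs u v x` (`p.1.1 ∈ [x.1 - l, x.1]` since
`x.1 ≤ p.2.1`, the rows within `16 l` of `x.2`).
`conv_three`: `1 + |t.2| ≤ (1 + |x.2|) (1 + 16 l)`, `p32 (t.1 - u.1) ≤ (1 + l)^2 p32 (x.1 - u.1)` (`p32_shift`, `p32_anti`:
`x.1 - u.1 ≤ t.1 - u.1 + l`), the same on the right; the series in `l` converges.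
`conv_count`: the number of pairs with a factor `e^{-c l}`.
-/

namespace Pool.Helper83.OZ

open Pool.Helper49.FK
open Pool.Helper17.OZ (Y CP Dbl NoCP nd rect tau)

private theorem geo49 {c : ℝ} (hc : 0 < c) : ∃ A : ℝ, 0 < A ∧ ∀ S : Finset ℤ,
    ∑ k ∈ S, Real.exp (-c * |(k : ℝ)|) ≤ A := by
  have hnat : Summable fun n : ℕ => Real.exp (-c * (n : ℝ)) := by
    have h1 : ∀ n : ℕ, Real.exp (-c * (n : ℝ)) = (Real.exp (-c)) ^ n := by
      intro n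
      rw [← Real.exp_nat_mul]
      ring_nf
    simp only [h1]
    refine summable_geometric_of_lt_one (Real.exp_pos _).le ?_
    rw [Real.exp_lt_one_iff]
    linarith
  have hs : Summable fun k : ℤ => Real.exp (-c * |(k : ℝ)|) := by
    refine Summable.of_nat_of_neg ?_ ?_
    · refine hnat.congr fun n => ?_
      simp
    · refine hnat.congr fun n => ?_
      simp
  refine ⟨∑' k : ℤ, Real.exp (-c * |(k : ℝ)|) + 1, ?_, fun S => ?_⟩
  · have : 0 ≤ ∑' k : ℤ, Real.exp (-c * |(k : ℝ)|) := tsum_nonneg fun k => (Real.exp_pos _).le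
    linarith
  · have := hs.sum_le_tsum S (fun k _ => (Real.exp_pos _).le)
    linarith

open Classical in
/-- The elementary facts on a pair in `prs`. -/
private theorem prs49 {u v x : ℤ × ℤ} (hx' : x.1 ≤ v.1) {p : (ℤ × ℤ) × (ℤ × ℤ)}
    (hp : p ∈ prs u v x) : p.1.1 ≤ x.1 ∧ x.1 ≤ p.2.1 ∧ p.1.1 < p.2.1 ∧
      |x.2 - p.1.2| ≤ 16 * (p.2.1 - p.1.1) ∧ |x.2 - p.2.2| ≤ 16 * (p.2.1 - p.1.1) := by
  unfold prs at hp
  rw [Finset.mem_filter] at hp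
  obtain ⟨_, h1, h2, h3, h4, h5⟩ := hp
  refine ⟨h1, ?_, h3, h4, h5⟩
  rcases h2 with h2 | h2
  · exact h2.le
  · rw [h2]; exact hx'

theorem conv_count {c : ℝ} (hc : 0 < c) : ∃ C : ℝ, 0 < C ∧ ∀ u v x : ℤ × ℤ, u.1 < v.1 → u.1 ≤ x.1 → x.1 ≤ v.1 →
    ∑ p ∈ prs u v x, Real.exp (-c * ((p.2.1 : ℝ) - p.1.1)) ≤ C := by
  classical
  obtain ⟨A, hA, hAs⟩ := geo49 (show 0 < c / 64 by positivity)
  refine ⟨A * A * (A * A), by positivity, fun u v x _ _ hx' => ?_⟩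
  set g : ℤ → ℝ := fun k => Real.exp (-(c / 64) * |(k : ℝ)|) with hg
  set J : (ℤ × ℤ) × (ℤ × ℤ) → (ℤ × ℤ) × (ℤ × ℤ) :=
    fun p => ((p.2.1 - p.1.1, x.1 - p.1.1), (p.1.2 - x.2, p.2.2 - x.2)) with hJ
  have hJi : Function.Injective J := by
    rintro ⟨⟨a, b⟩, ⟨c', d⟩⟩ ⟨⟨a', b'⟩, ⟨c'', d'⟩⟩ h
    simp only [hJ, Prod.mk.injEq] at h
    obtain ⟨⟨h1, h2⟩, h3, h4⟩ := h
    simp only [Prod.mk.injEq]
    omega
  have h1 : ∀ p ∈ prs u v x, Real.exp (-c * ((p.2.1 : ℝ) - p.1.1)) ≤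
      g (J p).1.1 * g (J p).1.2 * (g (J p).2.1 * g (J p).2.2) := by
    intro p hp
    obtain ⟨h2, h3, h4, h5, h6⟩ := prs49 hx' hp
    simp only [hg, hJ]
    rw [← Real.exp_add, ← Real.exp_add, ← Real.exp_add]
    refine Real.exp_le_exp.2 ?_
    have r2 : (p.1.1 : ℝ) ≤ x.1 := by exact_mod_cast h2
    have r3 : (x.1 : ℝ) ≤ p.2.1 := by exact_mod_cast h3
    have r4 : (p.1.1 : ℝ) < p.2.1 := by exact_mod_cast h4
    have r5 : |(x.2 : ℝ) - p.1.2| ≤ 16 * ((p.2.1 : ℝ) - p.1.1) := by exact_mod_cast h5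
    have r6 : |(x.2 : ℝ) - p.2.2| ≤ 16 * ((p.2.1 : ℝ) - p.1.1) := by exact_mod_cast h6
    push_cast
    have e1 : |(p.2.1 : ℝ) - p.1.1| = (p.2.1 : ℝ) - p.1.1 := abs_of_pos (by linarith)
    have e2 : |(x.1 : ℝ) - p.1.1| = (x.1 : ℝ) - p.1.1 := abs_of_nonneg (by linarith)
    rw [e1, e2, abs_sub_comm (p.1.2 : ℝ), abs_sub_comm (p.2.2 : ℝ)]
    nlinarith
  have hgpos : ∀ k, 0 ≤ g k := fun k => (Real.exp_pos _).le
  set T1 := (prs u v x).image fun p => (J p).1.1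
  set T2 := (prs u v x).image fun p => (J p).1.2
  set T3 := (prs u v x).image fun p => (J p).2.1
  set T4 := (prs u v x).image fun p => (J p).2.2
  have hsub : (prs u v x).image J ⊆ (T1 ×ˢ T2) ×ˢ (T3 ×ˢ T4) := by
    intro z hz
    obtain ⟨p, hp, rfl⟩ := Finset.mem_image.1 hz
    simp only [Finset.mem_product]
    exact ⟨⟨Finset.mem_image_of_mem (fun p => (J p).1.1) hp, Finset.mem_image_of_mem (fun p => (J p).1.2) hp⟩,
      Finset.mem_image_of_mem (fun p => (J p).2.1) hp, Finset.mem_image_of_mem (fun p => (J p).2.2) hp⟩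
  calc ∑ p ∈ prs u v x, Real.exp (-c * ((p.2.1 : ℝ) - p.1.1))
      ≤ ∑ p ∈ prs u v x, g (J p).1.1 * g (J p).1.2 * (g (J p).2.1 * g (J p).2.2) :=
        Finset.sum_le_sum h1
    _ = ∑ z ∈ (prs u v x).image J, g z.1.1 * g z.1.2 * (g z.2.1 * g z.2.2) := by
        rw [Finset.sum_image fun a _ b _ h => hJi h]
    _ ≤ ∑ z ∈ (T1 ×ˢ T2) ×ˢ (T3 ×ˢ T4), g z.1.1 * g z.1.2 * (g z.2.1 * g z.2.2) :=
        Finset.sum_le_sum_of_subset_of_nonneg hsub fun z _ _ =>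
          mul_nonneg (mul_nonneg (hgpos _) (hgpos _)) (mul_nonneg (hgpos _) (hgpos _))
    _ = ((∑ i ∈ T1, g i) * (∑ j ∈ T2, g j)) * ((∑ i ∈ T3, g i) * (∑ j ∈ T4, g j)) := by
        have e2 : ∀ A B : Finset ℤ, ∑ z ∈ A ×ˢ B, g z.1 * g z.2 = (∑ i ∈ A, g i) * ∑ j ∈ B, g j := by
          intro A B
          rw [Finset.sum_product, Finset.sum_mul_sum]
        rw [← e2, ← e2, Finset.sum_product, Finset.sum_mul_sum]
    _ ≤ A * A * (A * A) := by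
        have n1 : ∀ T : Finset ℤ, 0 ≤ ∑ i ∈ T, g i := fun T => Finset.sum_nonneg fun i _ => hgpos i
        exact mul_le_mul (mul_le_mul (hAs T1) (hAs T2) (n1 _) hA.le)
          (mul_le_mul (hAs T3) (hAs T4) (n1 _) hA.le) (mul_nonneg (n1 _) (n1 _)) (by positivity)

theorem conv_three {c : ℝ} (hc : 0 < c) : ∃ C : ℝ, 0 < C ∧ ∀ u v x : ℤ × ℤ, u.1 < v.1 → u.1 ≤ x.1 → x.1 ≤ v.1 →
    ∑ p ∈ prs u v x, (1 + |(p.1.2 : ℝ)|) * p32 (p.1.1 - u.1) * Real.exp (-c * ((p.2.1 : ℝ) - p.1.1)) *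
        ((1 + |(p.2.2 : ℝ)|) * p32 (v.1 - p.2.1)) ≤
      C * ((1 + |(x.2 : ℝ)|) ^ 2 * p32 (x.1 - u.1) * p32 (v.1 - x.1)) := by
  obtain ⟨C, hC, hCs⟩ := conv_count (show 0 < c / 2 by positivity)
  set M : ℝ := max 1 (192 / c) with hM
  have hM1 : 1 ≤ M := le_max_left _ _
  have hM2 : 16 ≤ M * (c / 12) := by
    have h1 : 192 / c ≤ M := le_max_right _ _
    rw [div_le_iff₀ hc] at h1
    linarith
  refine ⟨M ^ 6 * C, by positivity, fun u v x huv hx hx' => ?_⟩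
  have h0 := hCs u v x huv hx hx'
  have hp1 := (p32_pos (x.1 - u.1)).le
  have hp2 := (p32_pos (v.1 - x.1)).le
  have key : ∀ p ∈ prs u v x,
      (1 + |(p.1.2 : ℝ)|) * p32 (p.1.1 - u.1) * Real.exp (-c * ((p.2.1 : ℝ) - p.1.1)) *
        ((1 + |(p.2.2 : ℝ)|) * p32 (v.1 - p.2.1)) ≤
      M ^ 6 * ((1 + |(x.2 : ℝ)|) ^ 2 * p32 (x.1 - u.1) * p32 (v.1 - x.1)) *
        Real.exp (-(c / 2) * ((p.2.1 : ℝ) - p.1.1)) := by
    intro p hp
    obtain ⟨h2, h3, h4, h5, h6⟩ := prs49 hx' hp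
    have r2 : (p.1.1 : ℝ) ≤ x.1 := by exact_mod_cast h2
    have r3 : (x.1 : ℝ) ≤ p.2.1 := by exact_mod_cast h3
    have r4 : (p.1.1 : ℝ) < p.2.1 := by exact_mod_cast h4
    have r5 : |(x.2 : ℝ) - p.1.2| ≤ 16 * ((p.2.1 : ℝ) - p.1.1) := by exact_mod_cast h5
    have r6 : |(x.2 : ℝ) - p.2.2| ≤ 16 * ((p.2.1 : ℝ) - p.1.1) := by exact_mod_cast h6
    set l : ℝ := (p.2.1 : ℝ) - p.1.1 with hl
    have hl0 : 0 < l := by rw [hl]; linarith
    set a : ℝ := |(x.2 : ℝ)| with ha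
    have ha0 : 0 ≤ a := abs_nonneg _
    have b1 : 1 + |(p.1.2 : ℝ)| ≤ (1 + a) * (1 + 16 * l) := by
      have h7 : |(p.1.2 : ℝ)| ≤ a + |(x.2 : ℝ) - p.1.2| := by
        have := abs_sub_abs_le_abs_sub (p.1.2 : ℝ) x.2
        rw [abs_sub_comm] at this
        linarith
      nlinarith
    have b2 : 1 + |(p.2.2 : ℝ)| ≤ (1 + a) * (1 + 16 * l) := by
      have h7 : |(p.2.2 : ℝ)| ≤ a + |(x.2 : ℝ) - p.2.2| := by
        have := abs_sub_abs_le_abs_sub (p.2.2 : ℝ) x.2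
        rw [abs_sub_comm] at this
        linarith
      nlinarith
    have b3 : p32 (p.1.1 - u.1) ≤ (1 + 16 * l) ^ 2 * p32 (x.1 - u.1) := by
      have h7 := p32_shift (i := p.1.1 - u.1) (l := x.1 - p.1.1) (by omega)
      rw [show p.1.1 - u.1 + (x.1 - p.1.1) = x.1 - u.1 by ring] at h7
      refine h7.trans (mul_le_mul_of_nonneg_right ?_ hp1)
      push_cast
      refine pow_le_pow_left₀ (by linarith) ?_ 2
      linarith
    have b4 : p32 (v.1 - p.2.1) ≤ (1 + 16 * l) ^ 2 * p32 (v.1 - x.1) := by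
      have h7 := p32_shift (i := v.1 - p.2.1) (l := p.2.1 - x.1) (by omega)
      rw [show v.1 - p.2.1 + (p.2.1 - x.1) = v.1 - x.1 by ring] at h7
      refine h7.trans (mul_le_mul_of_nonneg_right ?_ hp2)
      push_cast
      refine pow_le_pow_left₀ (by linarith) ?_ 2
      linarith
    have b5 : 1 + 16 * l ≤ M * Real.exp (c / 12 * l) := by
      have h7 := Real.add_one_le_exp (c / 12 * l)
      have h8 : M * (c / 12 * l + 1) ≤ M * Real.exp (c / 12 * l) :=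
        mul_le_mul_of_nonneg_left h7 (by linarith)
      nlinarith
    have b6 : (1 + 16 * l) ^ 6 ≤ M ^ 6 * Real.exp (c / 2 * l) := by
      calc (1 + 16 * l) ^ 6 ≤ (M * Real.exp (c / 12 * l)) ^ 6 :=
            pow_le_pow_left₀ (by positivity) b5 6
        _ = M ^ 6 * Real.exp (c / 2 * l) := by
            rw [mul_pow, ← Real.exp_nat_mul]
            congr 2
            push_cast
            ring
    have e0 : Real.exp (c / 2 * l) * Real.exp (-c * l) = Real.exp (-(c / 2) * l) := by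
      rw [← Real.exp_add]
      congr 1
      ring
    have q1 := (p32_pos (p.1.1 - u.1)).le
    have q2 := (p32_pos (v.1 - p.2.1)).le
    have q3 := (Real.exp_pos (-c * l)).le
    calc (1 + |(p.1.2 : ℝ)|) * p32 (p.1.1 - u.1) * Real.exp (-c * l) *
          ((1 + |(p.2.2 : ℝ)|) * p32 (v.1 - p.2.1))
        ≤ ((1 + a) * (1 + 16 * l)) * ((1 + 16 * l) ^ 2 * p32 (x.1 - u.1)) * Real.exp (-c * l) *
          (((1 + a) * (1 + 16 * l)) * ((1 + 16 * l) ^ 2 * p32 (v.1 - x.1))) := by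
          refine mul_le_mul (mul_le_mul_of_nonneg_right (mul_le_mul b1 b3 q1 (by positivity)) q3)
            (mul_le_mul b2 b4 q2 (by positivity)) (by positivity) (by positivity)
      _ = (1 + 16 * l) ^ 6 * (((1 + a) ^ 2 * p32 (x.1 - u.1) * p32 (v.1 - x.1)) *
            Real.exp (-c * l)) := by ring
      _ ≤ (M ^ 6 * Real.exp (c / 2 * l)) * (((1 + a) ^ 2 * p32 (x.1 - u.1) * p32 (v.1 - x.1)) *
            Real.exp (-c * l)) := mul_le_mul_of_nonneg_right b6 (by positivity)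
      _ = M ^ 6 * ((1 + a) ^ 2 * p32 (x.1 - u.1) * p32 (v.1 - x.1)) *
            (Real.exp (c / 2 * l) * Real.exp (-c * l)) := by ring
      _ = _ := by rw [e0]
  refine (Finset.sum_le_sum key).trans ?_
  rw [← Finset.mul_sum]
  have hB : 0 ≤ M ^ 6 * ((1 + |(x.2 : ℝ)|) ^ 2 * p32 (x.1 - u.1) * p32 (v.1 - x.1)) := by positivity
  calc M ^ 6 * ((1 + |(x.2 : ℝ)|) ^ 2 * p32 (x.1 - u.1) * p32 (v.1 - x.1)) *
        ∑ p ∈ prs u v x, Real.exp (-(c / 2) * ((p.2.1 : ℝ) - p.1.1))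
      ≤ M ^ 6 * ((1 + |(x.2 : ℝ)|) ^ 2 * p32 (x.1 - u.1) * p32 (v.1 - x.1)) * C :=
        mul_le_mul_of_nonneg_left h0 hB
    _ = _ := by ring

end Pool.Helper83.OZ
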