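import Pool.Agent.Helper83.OZ.Xt

/-!
Project OZ (MP_7e0861_pr), part L5, block XT2.

`Tz z u w` is the total weight of the clusters of `u` containing `w`, with a factor `z` for each cone point in between.

`Tz_rec`: the graphs `γ` without cone point in between give `nocp u w`. Otherwise let `t` be the first cone point
(smallest column; `cp_col`). Then `γ = join (low t γ) (upp t γ)` (`join_low_upp`, `jn_cut`), `low t γ ∈ Lf D u t` has no
cone point in between (`Jn.cp_left`), `upp t γ ∈ Rt D t w ⊆ Cl D t w`, and `cps γ u w = insert t (cps (upp t γ) t w)`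
(`Jn.cp_right`), so the power of `z` is `z * z ^ (cps (upp t γ) t w).card`. `γ ↦ (t, low t γ, upp t γ)` is injective. Use the
hypothesis on the weights of joins, and `Y (t - u)` since `u ∈ γ.1`, `u.1 < t.1`.
-/

namespace Pool.Helper83.OZ

open Pool.Helper49.FK
open Pool.Helper17.OZ (Y CP Dbl NoCP nd rect tau)

variable {q ρ : ℝ} {r : Edge → ℝ} {D : Finset (ℤ × ℤ)}

/-- The clusters of `u` containing `w`, weighted by `z ^ (number of cone points in between)`. -/
noncomputable def Tz (q : ℝ) (r : Edge → ℝ) (D : Finset (ℤ × ℤ)) (z : ℝ) (u w : ℤ × ℤ) : ℝ :=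
  ∑ γ ∈ Cl D u w, z ^ (cps γ u w).card * WD q r D γ

open Classical in
/-- The points of `D` in the forward cone of `u`, strictly between the columns of `u` and `w`. -/
noncomputable def btw (D : Finset (ℤ × ℤ)) (u w : ℤ × ℤ) : Finset (ℤ × ℤ) :=
  D.filter fun t => u.1 < t.1 ∧ t.1 < w.1 ∧ Y (t - u)

/-- the cone points of a joined graph, the joining point being the first one -/
private theorem cps_join92 {γ δ : Gr} {u w t : ℤ × ℤ} (h : Jn γ δ t) (hut : u.1 < t.1) (htw : t.1 < w.1)
    (hno : NoCP (join γ δ).1 u t) : (cps (join γ δ) u w).card = (cps δ t w).card + 1 := by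
  classical
  have h1 : cps (join γ δ) u w = insert t (cps δ t w) := by
    ext s
    rw [Finset.mem_insert, mem_cps, mem_cps]
    constructor
    · rintro ⟨h1, h2, h3⟩
      rcases lt_trichotomy s.1 t.1 with h4 | h4 | h4
      · exact absurd h4 (hno s h1 h2)
      · exact Or.inl (cp_col h1 h.cp h4)
      · exact Or.inr ⟨(h.cp_right h4.le).1 h1, h4, h3⟩
    · rintro (rfl | ⟨h1, h2, h3⟩)
      · exact ⟨h.cp, hut, htw⟩
      · exact ⟨(h.cp_right h2.le).2 h1, by omega, h3⟩
  rw [h1, Finset.card_insert_of_notMem]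
  intro h2
  exact absurd (mem_cps.1 h2).2.1 (lt_irrefl _)

theorem Tz_rec (hq : 0 < q) (hr : ∀ e, 0 ≤ r e) {κ z : ℝ} (hz : 0 ≤ z) (hκ : 0 < κ)
    (hj : ∀ (γ δ : Gr) (m : ℤ × ℤ), Jn γ δ m → κ * WD q r D (join γ δ) ≤ WD q r D γ * WD q r D δ)
    {u w : ℤ × ℤ} (huw : u.1 < w.1) :
    κ * Tz q r D z u w ≤ κ * nocp q r D u w +
      z * ∑ t ∈ btw D u w, nocp q r D u t * Tz q r D z t w := by
  classical
  set F : ℤ × ℤ → Gr → ℝ := fun t γ =>
    if NoCP γ.1 u t then κ * (z ^ (cps γ u w).card * WD q r D γ) else 0 with hF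
  have hWD : ∀ γ : Gr, 0 ≤ WD q r D γ := fun γ => WD_nonneg hq hr γ
  have hF0 : ∀ t γ, 0 ≤ F t γ := by
    intro t γ
    simp only [hF]
    split_ifs
    · exact mul_nonneg hκ.le (mul_nonneg (pow_nonneg hz _) (hWD γ))
    · exact le_refl _
  have hmem : ∀ t, t ∈ btw D u w ↔ t ∈ D ∧ u.1 < t.1 ∧ t.1 < w.1 ∧ Y (t - u) := by
    intro t
    unfold btw
    exact Finset.mem_filter
  have h1 : ∀ γ ∈ Cl D u w, κ * (z ^ (cps γ u w).card * WD q r D γ) ≤
      κ * (if NoCP γ.1 u w then WD q r D γ else 0) +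
        ∑ t ∈ btw D u w, if CP γ.1 t then F t γ else 0 := by
    intro γ hγ
    have hγ' := mem_Cl.1 hγ
    have hs0 : 0 ≤ ∑ t ∈ btw D u w, if CP γ.1 t then F t γ else 0 := by
      refine Finset.sum_nonneg fun t _ => ?_
      split_ifs
      · exact hF0 t γ
      · exact le_refl _
    by_cases hno : NoCP γ.1 u w
    · rw [if_pos hno, nocp_iff.1 hno, Finset.card_empty, pow_zero, one_mul]
      linarith
    · rw [if_neg hno, mul_zero, zero_add]
      have hne : (cps γ u w).Nonempty := by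
        rw [Finset.nonempty_iff_ne_empty]
        exact fun h => hno (nocp_iff.2 h)
      obtain ⟨t, ht, hmin⟩ := Finset.exists_min_image (cps γ u w) (fun t => t.1) hne
      obtain ⟨ht1, ht2, ht3⟩ := mem_cps.1 ht
      have htb : t ∈ btw D u w := by
        refine (hmem t).2 ⟨hγ'.1 ht1.1, ht2, ht3, ?_⟩
        rcases ht1.2 u hγ'.2.2.1 with h | h
        · exact absurd (Y_le h) (by omega)
        · exact h
      have hno' : NoCP γ.1 u t := by
        intro s hs hs1 hs2
        have := hmin s (mem_cps.2 ⟨hs, hs1, by omega⟩)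
        omega
      have h2 : κ * (z ^ (cps γ u w).card * WD q r D γ) = if CP γ.1 t then F t γ else 0 := by
        rw [if_pos ht1]
        simp only [hF]
        rw [if_pos hno']
      rw [h2]
      refine Finset.single_le_sum (f := fun t => if CP γ.1 t then F t γ else 0) (fun s _ => ?_) htb
      show 0 ≤ if CP γ.1 s then F s γ else 0
      split_ifs
      · exact hF0 s γ
      · exact le_refl _
  have h2 : ∀ t ∈ btw D u w, (∑ γ ∈ Cl D u w, if CP γ.1 t then F t γ else 0) ≤
      z * (nocp q r D u t * Tz q r D z t w) := by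
    intro t ht
    obtain ⟨htD, ht1, ht2, ht3⟩ := (hmem t).1 ht
    have h3 := sum_split (D := D) (m := t) (a := u) (b := w) ht1.le ht2.le (F t)
    have h4 : ∀ γ ∈ Lf D u t, ∀ δ ∈ Rt D t w, F t (join γ δ) ≤
        z * ((if NoCP γ.1 u t then WD q r D γ else 0) * (z ^ (cps δ t w).card * WD q r D δ)) := by
      intro γ hγ δ hδ
      have hγ' := mem_Lf.1 hγ
      have hδ' := mem_Rt.1 hδ
      have hJ : Jn γ δ t :=
        ⟨hγ'.2.1, hδ'.2.1, hγ'.2.2.2.1, hδ'.2.2.1, hγ'.2.2.2.2, hδ'.2.2.2.2⟩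
      have hiff : NoCP (join γ δ).1 u t ↔ NoCP γ.1 u t := by
        constructor
        · intro h s hs hs1 hs2
          exact h s ((hJ.cp_left hs2.le).2 hs) hs1 hs2
        · intro h s hs hs1 hs2
          exact h s ((hJ.cp_left hs2.le).1 hs) hs1 hs2
      simp only [hF]
      by_cases hno : NoCP γ.1 u t
      · rw [if_pos (hiff.2 hno), if_pos hno, cps_join92 hJ ht1 ht2 (hiff.2 hno)]
        have h5 := mul_le_mul_of_nonneg_left (hj γ δ t hJ)
          (mul_nonneg hz (pow_nonneg hz (cps δ t w).card))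
        calc κ * (z ^ ((cps δ t w).card + 1) * WD q r D (join γ δ))
            = z * z ^ (cps δ t w).card * (κ * WD q r D (join γ δ)) := by rw [pow_succ]; ring
          _ ≤ z * z ^ (cps δ t w).card * (WD q r D γ * WD q r D δ) := h5
          _ = _ := by ring
      · rw [if_neg (fun h => hno (hiff.1 h)), if_neg hno, zero_mul, mul_zero]
    have h5 : (∑ γ ∈ Lf D u t, if NoCP γ.1 u t then WD q r D γ else 0) ≤ nocp q r D u t := by
      unfold nocp
      refine Finset.sum_le_sum_of_subset_of_nonneg ?_ fun γ _ _ => ?_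
      · unfold Lf
        exact Finset.filter_subset _ _
      · split_ifs
        · exact hWD γ
        · exact le_refl _
    have h6 : (∑ δ ∈ Rt D t w, z ^ (cps δ t w).card * WD q r D δ) ≤ Tz q r D z t w := by
      unfold Tz
      refine Finset.sum_le_sum_of_subset_of_nonneg ?_ fun δ _ _ => ?_
      · unfold Rt
        exact Finset.filter_subset _ _
      · exact mul_nonneg (pow_nonneg hz _) (hWD δ)
    have h7 : 0 ≤ ∑ δ ∈ Rt D t w, z ^ (cps δ t w).card * WD q r D δ :=
      Finset.sum_nonneg fun δ _ => mul_nonneg (pow_nonneg hz _) (hWD δ)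
    calc (∑ γ ∈ Cl D u w, if CP γ.1 t then F t γ else 0)
        = ∑ γ ∈ Lf D u t, ∑ δ ∈ Rt D t w, F t (join γ δ) := h3
      _ ≤ ∑ γ ∈ Lf D u t, ∑ δ ∈ Rt D t w,
          z * ((if NoCP γ.1 u t then WD q r D γ else 0) * (z ^ (cps δ t w).card * WD q r D δ)) :=
          Finset.sum_le_sum fun γ hγ => Finset.sum_le_sum fun δ hδ => h4 γ hγ δ hδ
      _ = z * ((∑ γ ∈ Lf D u t, if NoCP γ.1 u t then WD q r D γ else 0) *
          ∑ δ ∈ Rt D t w, z ^ (cps δ t w).card * WD q r D δ) := by
          rw [Finset.sum_mul_sum, Finset.mul_sum]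
          refine Finset.sum_congr rfl fun γ _ => ?_
          rw [Finset.mul_sum]
      _ ≤ z * (nocp q r D u t * Tz q r D z t w) := by
          refine mul_le_mul_of_nonneg_left ?_ hz
          exact mul_le_mul h5 h6 h7 (nocp_nonneg hq hr u t)
  calc κ * Tz q r D z u w
      = ∑ γ ∈ Cl D u w, κ * (z ^ (cps γ u w).card * WD q r D γ) := by
        unfold Tz
        rw [Finset.mul_sum]
    _ ≤ ∑ γ ∈ Cl D u w, (κ * (if NoCP γ.1 u w then WD q r D γ else 0) +
        ∑ t ∈ btw D u w, if CP γ.1 t then F t γ else 0) := Finset.sum_le_sum h1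
    _ = κ * nocp q r D u w +
        ∑ t ∈ btw D u w, ∑ γ ∈ Cl D u w, if CP γ.1 t then F t γ else 0 := by
        rw [Finset.sum_add_distrib, ← Finset.mul_sum, Finset.sum_comm]
        rfl
    _ ≤ κ * nocp q r D u w + ∑ t ∈ btw D u w, z * (nocp q r D u t * Tz q r D z t w) := by
        have := Finset.sum_le_sum h2
        linarith
    _ = _ := by rw [Finset.mul_sum]

end Pool.Helper83.OZ
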